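import Pool.Agent.ELG.BsgB

/-!
# ELG-Bsg: Balog–Szemerédi–Gowers for differences (popular differences, paths of length four, counting representations)
-/

set_option autoImplicit false

namespace ELG

open Finset Pointwise

open Classical in
/-- pairs with a given difference -/
private noncomputable def Pf {Z : Type} [AddCommGroup Z] (A : Finset Z) (d : Z) : Finset (Z × Z) :=
  (A ×ˢ A).filter fun p => p.1 - p.2 = d

private theorem mem_Pf {Z : Type} [AddCommGroup Z] {A : Finset Z} {d : Z} {p : Z × Z} :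
    p ∈ Pf A d ↔ (p.1 ∈ A ∧ p.2 ∈ A) ∧ p.1 - p.2 = d := by
  classical
  unfold Pf
  rw [mem_filter, mem_product]

private theorem Pf_le {Z : Type} [AddCommGroup Z] (A : Finset Z) (d : Z) : (Pf A d).card ≤ A.card := by
  classical
  refine card_le_card_of_injOn (fun p => p.1) (fun p hp => (mem_Pf.1 (mem_coe.1 hp)).1.1) ?_
  intro p hp q hq h
  have hp' := (mem_Pf.1 (mem_coe.1 hp)).2
  have hq' := (mem_Pf.1 (mem_coe.1 hq)).2
  simp only at h
  rw [h] at hp'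
  have : p.2 = q.2 := by
    have h2 := hp'.trans hq'.symm
    exact sub_right_injective h2
  exact Prod.ext h this

open Classical in
private theorem energy_eq {Z : Type} [AddCommGroup Z] (A : Finset Z) :
    ((A ×ˢ A ×ˢ A ×ˢ A).filter fun z => z.1 - z.2.1 = z.2.2.1 - z.2.2.2).card =
      ∑ p ∈ A ×ˢ A, (Pf A (p.1 - p.2)).card := by
  rw [← card_sigma]
  refine card_bij (fun z _ => (⟨(z.1, z.2.1), (z.2.2.1, z.2.2.2)⟩ : Σ _ : Z × Z, Z × Z)) ?_ ?_ ?_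
  · intro z hz
    rw [mem_filter, mem_product, mem_product, mem_product] at hz
    rw [mem_sigma, mem_product, mem_Pf]
    exact ⟨⟨hz.1.1, hz.1.2.1⟩, ⟨hz.1.2.2.1, hz.1.2.2.2⟩, hz.2.symm⟩
  · rintro ⟨a, b, c, d⟩ _ ⟨a', b', c', d'⟩ _ h
    simp only [Sigma.mk.injEq, Prod.mk.injEq, heq_eq_eq] at h
    obtain ⟨⟨h1, h2⟩, h3, h4⟩ := h
    subst h1 h2 h3 h4
    rfl
  · rintro ⟨⟨a, b⟩, ⟨c, d⟩⟩ h
    rw [mem_sigma, mem_product, mem_Pf] at h
    refine ⟨(a, b, c, d), ?_, rfl⟩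
    rw [mem_filter, mem_product, mem_product, mem_product]
    exact ⟨⟨h.1.1, h.1.2, h.2.1.1, h.2.1.2⟩, h.2.2.symm⟩

open Classical in
/-- representations of `x - x'` -/
private theorem fiber_ge {Z : Type} [AddCommGroup Z] (A : Finset Z) (x x' : Z) {T : Finset (Z × Z × Z)} {m : ℝ}
    (hm : 0 ≤ m)
    (hT : ∀ t ∈ T, m ≤ ((Pf A (x - t.1)).card : ℝ) ∧ m ≤ ((Pf A (t.2.1 - t.1)).card : ℝ) ∧
      m ≤ ((Pf A (t.2.1 - t.2.2)).card : ℝ) ∧ m ≤ ((Pf A (x' - t.2.2)).card : ℝ)) :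
    (T.card : ℝ) * m ^ 4 ≤ ((((A ×ˢ A) ×ˢ (A ×ˢ A) ×ˢ (A ×ˢ A) ×ˢ (A ×ˢ A)).filter fun w =>
      (w.1.1 - w.1.2) - (w.2.1.1 - w.2.1.2) + (w.2.2.1.1 - w.2.2.1.2) - (w.2.2.2.1 - w.2.2.2.2) =
        x - x').card : ℝ) := by
  set F : Z × Z × Z → Finset ((Z × Z) × (Z × Z) × (Z × Z) × (Z × Z)) := fun t =>
    (Pf A (x - t.1)) ×ˢ (Pf A (t.2.1 - t.1)) ×ˢ (Pf A (t.2.1 - t.2.2)) ×ˢ (Pf A (x' - t.2.2)) with hF
  have hsub : T.biUnion F ⊆ ((A ×ˢ A) ×ˢ (A ×ˢ A) ×ˢ (A ×ˢ A) ×ˢ (A ×ˢ A)).filter fun w =>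
      (w.1.1 - w.1.2) - (w.2.1.1 - w.2.1.2) + (w.2.2.1.1 - w.2.2.1.2) - (w.2.2.2.1 - w.2.2.2.2) =
        x - x' := by
    intro w hw
    rw [mem_biUnion] at hw
    obtain ⟨t, _, hw⟩ := hw
    simp only [hF, mem_product, mem_Pf] at hw
    obtain ⟨⟨⟨a1, b1⟩, h1⟩, ⟨⟨a2, b2⟩, h2⟩, ⟨⟨a3, b3⟩, h3⟩, ⟨⟨a4, b4⟩, h4⟩⟩ := hw
    rw [mem_filter]
    simp only [mem_product]
    refine ⟨⟨⟨a1, b1⟩, ⟨a2, b2⟩, ⟨a3, b3⟩, ⟨a4, b4⟩⟩, ?_⟩
    rw [h1, h2, h3, h4]
    abel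
  have hdis : (T : Set (Z × Z × Z)).PairwiseDisjoint F := by
    intro t _ t' _ hne
    refine disjoint_left.2 fun w hw hw' => hne ?_
    simp only [hF, mem_product, mem_Pf] at hw hw'
    have e1 := hw.1.2.symm.trans hw'.1.2
    have e2 := hw.2.1.2.symm.trans hw'.2.1.2
    have e3 := hw.2.2.1.2.symm.trans hw'.2.2.1.2
    have f1 : t.1 = t'.1 := sub_right_injective e1
    rw [f1] at e2
    have f2 : t.2.1 = t'.2.1 := sub_left_injective e2
    rw [f2] at e3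
    have f3 : t.2.2 = t'.2.2 := sub_right_injective e3
    exact Prod.ext f1 (Prod.ext f2 f3)
  have hcard : ((T.biUnion F).card : ℝ) = ∑ t ∈ T, ((F t).card : ℝ) := by
    rw [card_biUnion hdis]
    push_cast
    rfl
  have hge : ∀ t ∈ T, m ^ 4 ≤ ((F t).card : ℝ) := by
    intro t ht
    obtain ⟨h1, h2, h3, h4⟩ := hT t ht
    simp only [hF, card_product]
    push_cast
    calc m ^ 4 = m * (m * (m * m)) := by ring
      _ ≤ _ := by
        refine mul_le_mul h1 (mul_le_mul h2 (mul_le_mul h3 h4 hm (hm.trans h3)) (by positivity)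
          (hm.trans h2)) (by positivity) (hm.trans h1)
  calc (T.card : ℝ) * m ^ 4 = ∑ t ∈ T, m ^ 4 := by rw [sum_const, nsmul_eq_mul]
    _ ≤ ∑ t ∈ T, ((F t).card : ℝ) := sum_le_sum hge
    _ = ((T.biUnion F).card : ℝ) := hcard.symm
    _ ≤ _ := by exact_mod_cast card_le_card hsub

open Classical in
theorem bsg : ∃ c : ℝ, 0 < c ∧ ∀ (Z : Type) [AddCommGroup Z] (A : Finset Z) (η : ℝ), 0 < η → η ≤ 1 → A.Nonempty →
    η * (A.card : ℝ) ^ 3 ≤ (((A ×ˢ A ×ˢ A ×ˢ A).filter fun z => z.1 - z.2.1 = z.2.2.1 - z.2.2.2).card : ℝ) →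
    ∃ A' ⊆ A, A'.Nonempty ∧ c * η * A.card ≤ (A'.card : ℝ) ∧ c * η ^ 10 * ((A' - A').card : ℝ) ≤ (A'.card : ℝ) := by
  refine ⟨1 / 16777216, by norm_num, fun Z _ A η hη hη1 hA hE => ?_⟩
  have hn : (0 : ℝ) < A.card := by exact_mod_cast hA.card_pos
  set n : ℝ := (A.card : ℝ) with hnd
  set R : Z → Z → Prop := fun x y => η / 2 * n ≤ ((Pf A (x - y)).card : ℝ) with hR
  -- many popular pairs
  rw [energy_eq] at hE
  push_cast at hE
  have hpop : η / 2 * n ^ 2 ≤ (((A ×ˢ A).filter fun z => R z.1 z.2).card : ℝ) := by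
    have hsplit := sum_filter_add_sum_filter_not (A ×ˢ A) (fun z => R z.1 z.2)
      (fun p => ((Pf A (p.1 - p.2)).card : ℝ))
    have h1 : ∑ p ∈ (A ×ˢ A).filter (fun z => R z.1 z.2), ((Pf A (p.1 - p.2)).card : ℝ) ≤
        (((A ×ˢ A).filter fun z => R z.1 z.2).card : ℝ) * n := by
      rw [← nsmul_eq_mul]
      refine sum_le_card_nsmul _ _ _ fun p _ => ?_
      have h0 : ((Pf A (p.1 - p.2)).card : ℝ) ≤ (A.card : ℝ) := by exact_mod_cast Pf_le A (p.1 - p.2)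
      exact h0
    have h2 : ∑ p ∈ (A ×ˢ A).filter (fun z => ¬ R z.1 z.2), ((Pf A (p.1 - p.2)).card : ℝ) ≤
        n ^ 2 * (η / 2 * n) := by
      have h3 : ∑ p ∈ (A ×ˢ A).filter (fun z => ¬ R z.1 z.2), ((Pf A (p.1 - p.2)).card : ℝ) ≤
          (((A ×ˢ A).filter fun z => ¬ R z.1 z.2).card : ℝ) * (η / 2 * n) := by
        rw [← nsmul_eq_mul]
        refine sum_le_card_nsmul _ _ _ fun p hp => ?_
        have := (mem_filter.1 hp).2
        rw [hR] at this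
        exact (not_le.1 this).le
      refine h3.trans (mul_le_mul_of_nonneg_right ?_ (by positivity))
      have h4 : ((A ×ˢ A).filter fun z => ¬ R z.1 z.2).card ≤ A.card * A.card := by
        rw [← card_product]
        exact card_filter_le _ _
      have h5 : (((A ×ˢ A).filter fun z => ¬ R z.1 z.2).card : ℝ) ≤ (A.card : ℝ) * (A.card : ℝ) := by
        exact_mod_cast h4
      calc _ ≤ n * n := h5
        _ = n ^ 2 := by ring
    have h6 : η / 2 * n ^ 2 * n ≤ (((A ×ˢ A).filter fun z => R z.1 z.2).card : ℝ) * n := by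
      nlinarith [hsplit, h1, h2, hE]
    exact le_of_mul_le_mul_right h6 hn
  obtain ⟨A', hA'A, hA'c, hA'n, hpath⟩ := bsg_paths A R (by positivity : (0 : ℝ) < η / 2) hpop hA
  refine ⟨A', hA'A, hA'n, ?_, ?_⟩
  · refine le_trans ?_ hA'c
    have : 0 ≤ η * n := by positivity
    nlinarith
  -- counting
  set Ω := ((A ×ˢ A) ×ˢ (A ×ˢ A) ×ˢ (A ×ˢ A) ×ˢ (A ×ˢ A)) with hΩ
  set Φ : (Z × Z) × (Z × Z) × (Z × Z) × (Z × Z) → Z := fun w =>
    (w.1.1 - w.1.2) - (w.2.1.1 - w.2.1.2) + (w.2.2.1.1 - w.2.2.1.2) - (w.2.2.2.1 - w.2.2.2.2) with hΦ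
  have hΩc : (Ω.card : ℝ) = n ^ 8 := by
    rw [hΩ]
    simp only [card_product]
    push_cast
    rw [hnd]
    ring
  have hfib : ∀ d ∈ A' - A', (η / 2 / 4 * n * ((η / 2) ^ 2 / 32 * n) ^ 2) * (η / 2 * n) ^ 4 ≤
      ((Ω.filter fun w => Φ w = d).card : ℝ) := by
    intro d hd
    obtain ⟨x, hx, x', hx', rfl⟩ := mem_sub.1 hd
    refine le_trans ?_ (fiber_ge A x x' (m := η / 2 * n) (by positivity)
      (T := (A ×ˢ A ×ˢ A).filter fun z => R x z.1 ∧ R z.2.1 z.1 ∧ R z.2.1 z.2.2 ∧ R x' z.2.2) ?_)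
    · exact mul_le_mul_of_nonneg_right (hpath x hx x' hx') (by positivity)
    · intro t ht
      exact (mem_filter.1 ht).2
  have hsum : ((A' - A').card : ℝ) * ((η / 2 / 4 * n * ((η / 2) ^ 2 / 32 * n) ^ 2) * (η / 2 * n) ^ 4) ≤
      n ^ 8 := by
    rw [← hΩc]
    calc ((A' - A').card : ℝ) * ((η / 2 / 4 * n * ((η / 2) ^ 2 / 32 * n) ^ 2) * (η / 2 * n) ^ 4) =
        ∑ d ∈ A' - A', ((η / 2 / 4 * n * ((η / 2) ^ 2 / 32 * n) ^ 2) * (η / 2 * n) ^ 4) := by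
          rw [sum_const, nsmul_eq_mul]
      _ ≤ ∑ d ∈ A' - A', ((Ω.filter fun w => Φ w = d).card : ℝ) := sum_le_sum hfib
      _ = ((∑ d ∈ A' - A', (Ω.filter fun w => Φ w = d).card : ℕ) : ℝ) := by push_cast; rfl
      _ ≤ (Ω.card : ℝ) := by
        have h1 : ∑ d ∈ A' - A', (Ω.filter fun w => Φ w = d).card =
            (Ω.filter fun w => Φ w ∈ A' - A').card := by
          rw [card_eq_sum_card_fiberwise (f := Φ) (t := A' - A')]
          · refine sum_congr rfl fun d hd => ?_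
            rw [filter_filter]
            congr 1
            refine filter_congr fun w _ => ?_
            constructor
            · intro h
              exact ⟨h ▸ hd, h⟩
            · exact fun h => h.2
          · intro w hw
            exact (mem_filter.1 (mem_coe.1 hw)).2
        rw [h1]
        exact_mod_cast card_filter_le _ _
  have h7 : ((A' - A').card : ℝ) * (η ^ 9 / 2097152) * n ^ 7 ≤ n * n ^ 7 := by
    calc ((A' - A').card : ℝ) * (η ^ 9 / 2097152) * n ^ 7 =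
        ((A' - A').card : ℝ) * ((η / 2 / 4 * n * ((η / 2) ^ 2 / 32 * n) ^ 2) * (η / 2 * n) ^ 4) := by
          ring
      _ ≤ n ^ 8 := hsum
      _ = n * n ^ 7 := by ring
  have h8 : ((A' - A').card : ℝ) * (η ^ 9 / 2097152) ≤ n := le_of_mul_le_mul_right h7 (by positivity)
  have h9 : n * η / 8 ≤ A'.card := by
    refine le_trans (le_of_eq ?_) hA'c
    ring
  have h10 := mul_le_mul_of_nonneg_right h8 (by positivity : (0 : ℝ) ≤ η / 8)
  calc 1 / 16777216 * η ^ 10 * ((A' - A').card : ℝ) =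
      ((A' - A').card : ℝ) * (η ^ 9 / 2097152) * (η / 8) := by ring
    _ ≤ n * (η / 8) := h10
    _ = n * η / 8 := by ring
    _ ≤ _ := h9

end ELG
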