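import Mathlib

/-!
# ELG-BsgA: the graph lemma of the Balog–Szemerédi–Gowers theorem
-/

set_option autoImplicit false

namespace ELG

open Finset

open Classical in
theorem bsg_graph {α : Type} (A : Finset α) (R : α → α → Prop) {δ : ℝ} (hδ : 0 < δ)
    (hR : δ * (A.card : ℝ) ^ 2 ≤ (((A ×ˢ A).filter fun z => R z.1 z.2).card : ℝ)) (hA : A.Nonempty) :
    ∃ A' ⊆ A, δ / 2 * A.card ≤ (A'.card : ℝ) ∧
      16 * (((A' ×ˢ A').filter fun z => ((A.filter fun y => R z.1 y ∧ R z.2 y).card : ℝ) < δ ^ 2 / 32 * A.card).card : ℝ) ≤ (A'.card : ℝ) ^ 2 := by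
  have hn : (0 : ℝ) < A.card := by exact_mod_cast hA.card_pos
  set P : α × α → Prop := fun z =>
    ((A.filter fun y => R z.1 y ∧ R z.2 y).card : ℝ) < δ ^ 2 / 32 * A.card with hP
  set N : α → Finset α := fun y => A.filter fun x => R x y with hN
  have hE1 : (((A ×ˢ A).filter fun z => R z.1 z.2).card : ℝ) = ∑ y ∈ A, ((N y).card : ℝ) := by
    rw [card_filter, sum_product_right, Nat.cast_sum]
    refine sum_congr rfl fun y _ => ?_
    rw [hN, card_filter]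
  have hE2 : ∑ y ∈ A, ((((N y) ×ˢ (N y)).filter P).card : ℝ) =
      ∑ z ∈ (A ×ˢ A).filter P, ((A.filter fun y => R z.1 y ∧ R z.2 y).card : ℝ) := by
    have h1 : ∀ y, ((N y) ×ˢ (N y)).filter P =
        ((A ×ˢ A).filter P).filter (fun z => R z.1 y ∧ R z.2 y) := by
      intro y
      ext z
      simp only [hN, mem_filter, mem_product]
      tauto
    rw [← Nat.cast_sum, ← Nat.cast_sum]
    congr 1
    have h2 : ∑ y ∈ A, (((N y) ×ˢ (N y)).filter P).card =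
        ∑ y ∈ A, ∑ z ∈ (A ×ˢ A).filter P, (if R z.1 y ∧ R z.2 y then 1 else 0) := by
      refine sum_congr rfl fun y _ => ?_
      rw [h1 y, card_filter]
    rw [h2, sum_comm]
    refine sum_congr rfl fun z _ => ?_
    rw [card_filter]
  have hbad : ∑ y ∈ A, ((((N y) ×ˢ (N y)).filter P).card : ℝ) ≤
      δ ^ 2 / 32 * (A.card : ℝ) ^ 3 := by
    rw [hE2]
    have h1 : ∑ z ∈ (A ×ˢ A).filter P, ((A.filter fun y => R z.1 y ∧ R z.2 y).card : ℝ) ≤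
        ∑ z ∈ (A ×ˢ A).filter P, δ ^ 2 / 32 * (A.card : ℝ) := by
      refine sum_le_sum fun z hz => ?_
      exact (mem_filter.mp hz).2.le
    refine h1.trans ?_
    rw [sum_const, nsmul_eq_mul]
    have h2 : (((A ×ˢ A).filter P).card : ℝ) ≤ (A.card : ℝ) * A.card := by
      have h3 := card_filter_le (A ×ˢ A) P
      rw [card_product] at h3
      exact_mod_cast h3
    have h4 : 0 ≤ δ ^ 2 / 32 * (A.card : ℝ) := by positivity
    calc (((A ×ˢ A).filter P).card : ℝ) * (δ ^ 2 / 32 * (A.card : ℝ))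
        ≤ ((A.card : ℝ) * A.card) * (δ ^ 2 / 32 * (A.card : ℝ)) :=
          mul_le_mul_of_nonneg_right h2 h4
      _ = δ ^ 2 / 32 * (A.card : ℝ) ^ 3 := by ring
  have hsq : δ ^ 2 * (A.card : ℝ) ^ 3 ≤ ∑ y ∈ A, ((N y).card : ℝ) ^ 2 := by
    have h1 : (∑ y ∈ A, ((N y).card : ℝ)) ^ 2 ≤ A.card * ∑ y ∈ A, ((N y).card : ℝ) ^ 2 :=
      sq_sum_le_card_mul_sum_sq
    rw [hE1] at hR
    have h2 : (δ * (A.card : ℝ) ^ 2) ^ 2 ≤ (∑ y ∈ A, ((N y).card : ℝ)) ^ 2 :=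
      pow_le_pow_left₀ (by positivity) hR 2
    have h3 : (A.card : ℝ) * (δ ^ 2 * (A.card : ℝ) ^ 3) ≤
        A.card * ∑ y ∈ A, ((N y).card : ℝ) ^ 2 := by
      calc (A.card : ℝ) * (δ ^ 2 * (A.card : ℝ) ^ 3) = (δ * (A.card : ℝ) ^ 2) ^ 2 := by ring
        _ ≤ _ := h2.trans h1
    exact le_of_mul_le_mul_left h3 hn
  have hex : ∃ y ∈ A, δ ^ 2 / 2 * (A.card : ℝ) ^ 2 ≤
      ((N y).card : ℝ) ^ 2 - 16 * ((((N y) ×ˢ (N y)).filter P).card : ℝ) := by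
    by_contra hcon
    push Not at hcon
    have h1 : ∑ y ∈ A, (((N y).card : ℝ) ^ 2 - 16 * ((((N y) ×ˢ (N y)).filter P).card : ℝ)) <
        ∑ y ∈ A, δ ^ 2 / 2 * (A.card : ℝ) ^ 2 := sum_lt_sum_of_nonempty hA hcon
    rw [sum_sub_distrib, ← mul_sum, sum_const, nsmul_eq_mul] at h1
    have h2 : (A.card : ℝ) * (δ ^ 2 / 2 * (A.card : ℝ) ^ 2) = δ ^ 2 / 2 * (A.card : ℝ) ^ 3 := by
      ring
    rw [h2] at h1
    linarith
  obtain ⟨y, hy, hyle⟩ := hex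
  refine ⟨N y, filter_subset _ _, ?_, ?_⟩
  · have h1 : (0 : ℝ) ≤ ((((N y) ×ˢ (N y)).filter P).card : ℝ) := Nat.cast_nonneg _
    have h2 : (δ / 2 * (A.card : ℝ)) ^ 2 ≤ ((N y).card : ℝ) ^ 2 := by
      have h3 : (δ / 2 * (A.card : ℝ)) ^ 2 = δ ^ 2 / 2 * (A.card : ℝ) ^ 2 / 2 := by ring
      have h4 : 0 ≤ δ ^ 2 / 2 * (A.card : ℝ) ^ 2 := by positivity
      rw [h3]
      linarith
    exact (abs_le_of_sq_le_sq' h2 (Nat.cast_nonneg _)).2
  · have h4 : 0 ≤ δ ^ 2 / 2 * (A.card : ℝ) ^ 2 := by positivity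
    linarith

end ELG
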