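import Pool.Agent.ELG.BsgA

/-!
# ELG-BsgB: many paths of length four
-/

set_option autoImplicit false

namespace ELG

open Finset

open Classical in
private theorem bb_many {α : Type} (B : Finset α) (Q : α × α → Prop)
    (hQ : 16 * (((B ×ˢ B).filter Q).card : ℝ) ≤ (B.card : ℝ) ^ 2) (hB : 0 < (B.card : ℝ)) :
    (B.card : ℝ) / 2 ≤
      ((B.filter fun x => ((B.filter fun z => Q (x, z)).card : ℝ) ≤ B.card / 4).card : ℝ) := by
  have h1 : (((B ×ˢ B).filter Q).card : ℝ) = ∑ x ∈ B, ((B.filter fun z => Q (x, z)).card : ℝ) := by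
    rw [card_filter, sum_product, Nat.cast_sum]
    refine sum_congr rfl fun x _ => ?_
    rw [card_filter]
  have h2 : ((B.filter fun x => ¬ ((B.filter fun z => Q (x, z)).card : ℝ) ≤ B.card / 4).card : ℝ) *
      (B.card / 4) ≤ (((B ×ˢ B).filter Q).card : ℝ) := by
    rw [h1, ← nsmul_eq_mul]
    refine le_trans (card_nsmul_le_sum _ _ _ ?_) (sum_le_sum_of_subset_of_nonneg
      (filter_subset _ _) fun x _ _ => Nat.cast_nonneg _)
    intro x hx
    exact (not_le.1 (mem_filter.1 hx).2).le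
  have h3 := card_filter_add_card_filter_not (s := B)
    (fun x => ((B.filter fun z => Q (x, z)).card : ℝ) ≤ B.card / 4)
  have h4 : ((B.filter fun x => ((B.filter fun z => Q (x, z)).card : ℝ) ≤ B.card / 4).card : ℝ) +
      ((B.filter fun x => ¬ ((B.filter fun z => Q (x, z)).card : ℝ) ≤ B.card / 4).card : ℝ) =
      (B.card : ℝ) := by exact_mod_cast h3
  have h5 : ((B.filter fun x => ¬ ((B.filter fun z => Q (x, z)).card : ℝ) ≤ B.card / 4).card : ℝ) ≤
      (B.card : ℝ) / 4 := by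
    have h6 : ((B.filter fun x => ¬ ((B.filter fun z => Q (x, z)).card : ℝ) ≤
        B.card / 4).card : ℝ) * (B.card / 4) ≤ (B.card : ℝ) / 4 * (B.card / 4) := by
      nlinarith
    exact le_of_mul_le_mul_right h6 (by positivity)
  linarith

open Classical in
private theorem bb_good {α : Type} (B : Finset α) (Q : α × α → Prop) {x x' : α}
    (hx : ((B.filter fun z => Q (x, z)).card : ℝ) ≤ B.card / 4)
    (hx' : ((B.filter fun z => Q (x', z)).card : ℝ) ≤ B.card / 4) :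
    (B.card : ℝ) / 2 ≤ ((B.filter fun z => ¬ Q (x, z) ∧ ¬ Q (x', z)).card : ℝ) := by
  have h1 : B ⊆ (B.filter fun z => ¬ Q (x, z) ∧ ¬ Q (x', z)) ∪
      ((B.filter fun z => Q (x, z)) ∪ (B.filter fun z => Q (x', z))) := by
    intro z hz
    simp only [mem_union, mem_filter]
    tauto
  have h2 := (card_le_card h1).trans (card_union_le _ _)
  have h3 := card_union_le (B.filter fun z => Q (x, z)) (B.filter fun z => Q (x', z))
  have h4 : (B.card : ℝ) ≤ ((B.filter fun z => ¬ Q (x, z) ∧ ¬ Q (x', z)).card : ℝ) +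
      (((B.filter fun z => Q (x, z)).card : ℝ) + ((B.filter fun z => Q (x', z)).card : ℝ)) := by
    exact_mod_cast h2.trans (Nat.add_le_add_left h3 _)
  linarith

open Classical in
theorem bsg_paths {α : Type} (A : Finset α) (R : α → α → Prop) {δ : ℝ} (hδ : 0 < δ)
    (hR : δ * (A.card : ℝ) ^ 2 ≤ (((A ×ˢ A).filter fun z => R z.1 z.2).card : ℝ)) (hA : A.Nonempty) :
    ∃ A' ⊆ A, δ / 4 * A.card ≤ (A'.card : ℝ) ∧ A'.Nonempty ∧ ∀ x ∈ A', ∀ x' ∈ A',
      δ / 4 * A.card * (δ ^ 2 / 32 * A.card) ^ 2 ≤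
        (((A ×ˢ A ×ˢ A).filter fun z => R x z.1 ∧ R z.2.1 z.1 ∧ R z.2.1 z.2.2 ∧ R x' z.2.2).card : ℝ) := by
  obtain ⟨B, hBA, hBc, hbad⟩ := bsg_graph A R hδ hR hA
  have hn : (0 : ℝ) < A.card := by exact_mod_cast hA.card_pos
  have hB0 : (0 : ℝ) < B.card := lt_of_lt_of_le (by positivity) hBc
  obtain ⟨Q, hQ⟩ : ∃ Q : α × α → Prop, Q = fun z =>
    ((A.filter fun y => R z.1 y ∧ R z.2 y).card : ℝ) < δ ^ 2 / 32 * A.card := ⟨_, rfl⟩
  have hbad' : 16 * (((B ×ˢ B).filter Q).card : ℝ) ≤ (B.card : ℝ) ^ 2 := by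
    rw [hQ]
    exact hbad
  have hmany := bb_many B Q hbad' hB0
  obtain ⟨C, hC⟩ : ∃ C, C = B.filter fun x =>
    ((B.filter fun z => Q (x, z)).card : ℝ) ≤ B.card / 4 := ⟨_, rfl⟩
  rw [← hC] at hmany
  refine ⟨C, ?_, by linarith, ?_, ?_⟩
  · rw [hC]
    exact (filter_subset _ _).trans hBA
  · rw [← card_pos]
    have : (0 : ℝ) < C.card := by linarith
    exact_mod_cast this
  · intro x hx x' hx'
    rw [hC, mem_filter] at hx hx'
    have hZ := bb_good B Q hx.2 hx'.2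
    obtain ⟨Z, hZdef⟩ : ∃ Z, Z = B.filter fun z => ¬ Q (x, z) ∧ ¬ Q (x', z) := ⟨_, rfl⟩
    rw [← hZdef] at hZ
    have hcount : ∀ z ∈ Z, δ ^ 2 / 32 * A.card ≤ ((A.filter fun y => R x y ∧ R z y).card : ℝ) ∧
        δ ^ 2 / 32 * A.card ≤ ((A.filter fun y => R x' y ∧ R z y).card : ℝ) := by
      intro z hz
      rw [hZdef, mem_filter, hQ] at hz
      exact ⟨not_lt.1 hz.2.1, not_lt.1 hz.2.2⟩
    have hinj : (Z.sigma fun z => (A.filter fun y => R x y ∧ R z y) ×ˢ
        (A.filter fun y => R x' y ∧ R z y)).card ≤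
        ((A ×ˢ A ×ˢ A).filter fun z => R x z.1 ∧ R z.2.1 z.1 ∧ R z.2.1 z.2.2 ∧ R x' z.2.2).card := by
      apply card_le_card_of_injOn (fun w => (w.2.1, w.1, w.2.2))
      · rintro ⟨z, y, y'⟩ hw
        rw [mem_coe, mem_sigma, mem_product, mem_filter, mem_filter] at hw
        rw [mem_coe, mem_filter, mem_product, mem_product]
        have hzA : z ∈ A := by
          have h1 := hw.1
          rw [hZdef, mem_filter] at h1
          exact hBA h1.1
        exact ⟨⟨hw.2.1.1, hzA, hw.2.2.1⟩, hw.2.1.2.1, hw.2.1.2.2, hw.2.2.2.2, hw.2.2.2.1⟩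
      · rintro ⟨z, y, y'⟩ _ ⟨z1, y1, y1'⟩ _ h
        simp only [Prod.mk.injEq] at h
        obtain ⟨h1, h2, h3⟩ := h
        subst h1 h2 h3
        rfl
    have hsum : (Z.card : ℝ) * (δ ^ 2 / 32 * A.card) ^ 2 ≤
        ((Z.sigma fun z => (A.filter fun y => R x y ∧ R z y) ×ˢ
          (A.filter fun y => R x' y ∧ R z y)).card : ℝ) := by
      rw [card_sigma, Nat.cast_sum, ← nsmul_eq_mul]
      apply card_nsmul_le_sum
      intro z hz
      rw [card_product, Nat.cast_mul, sq]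
      obtain ⟨h1, h2⟩ := hcount z hz
      exact mul_le_mul h1 h2 (by positivity) (Nat.cast_nonneg _)
    have hinj' : ((Z.sigma fun z => (A.filter fun y => R x y ∧ R z y) ×ˢ
          (A.filter fun y => R x' y ∧ R z y)).card : ℝ) ≤
        (((A ×ˢ A ×ˢ A).filter fun z => R x z.1 ∧ R z.2.1 z.1 ∧ R z.2.1 z.2.2 ∧
          R x' z.2.2).card : ℝ) := by exact_mod_cast hinj
    refine le_trans ?_ (hsum.trans hinj')
    apply mul_le_mul_of_nonneg_right _ (by positivity)
    linarith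

end ELG
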