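import Pool.Agent.ELG.Xw

/-!
# ELG-Cheb: number of primes in `[4^l, 4^(l+1))`
-/

set_option autoImplicit false

namespace ELG

open Finset

private theorem cheb_lin : ∀ l : ℕ, 7 ≤ l → 8 * (l + 1) + 1 ≤ 2 ^ l := by
  intro l hl
  induction l, hl using Nat.le_induction with
  | base => norm_num
  | succ n hn ih =>
    rw [pow_succ]
    omega

private theorem cheb_num (l : ℕ) (hl : 7 ≤ l) :
    (1 : ℝ) + 2 * (l + 1) + 8 * (l + 1) * 2 ^ l ≤ 4 ^ l := by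
  have h1 : (8 : ℝ) * (l + 1) + 1 ≤ 2 ^ l := by exact_mod_cast cheb_lin l hl
  have h2 : (4 : ℝ) ^ l = 2 ^ l * 2 ^ l := by
    rw [← mul_pow]
    norm_num
  have h3 : (0 : ℝ) ≤ (l : ℝ) := Nat.cast_nonneg l
  have h4 : (0 : ℝ) < 2 ^ l := by positivity
  rw [h2]
  nlinarith

theorem card_Pb : ∃ c : ℝ, 0 < c ∧ ∃ l₀ : ℕ, ∀ l ≥ l₀, c * 4 ^ l / (l + 1) ≤ ((Pb l).card : ℝ) := by
  refine ⟨1 / 2, by norm_num, 7, fun l hl => ?_⟩
  have hl2 : 0 < Real.log 2 := Real.log_pos (by norm_num)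
  have hlog4 : Real.log 4 = 2 * Real.log 2 := by
    rw [show (4 : ℝ) = 2 ^ 2 by norm_num, Real.log_pow]
    norm_num
  have h4pos : 1 ≤ 4 ^ (l + 1) := Nat.one_le_pow _ _ (by norm_num)
  obtain ⟨n, hn⟩ : ∃ n : ℕ, n + 1 = 4 ^ (l + 1) := ⟨4 ^ (l + 1) - 1, by omega⟩
  have hnr : (n : ℝ) + 1 = 4 * 4 ^ l := by
    have : ((n + 1 : ℕ) : ℝ) = ((4 ^ (l + 1) : ℕ) : ℝ) := by rw [hn]
    push_cast at this
    rw [this, pow_succ]
    ring
  have hlogn1 : Real.log ((n : ℝ) + 1) = 2 * (l + 1) * Real.log 2 := by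
    rw [hnr, show (4 : ℝ) * 4 ^ l = 4 ^ (l + 1) by rw [pow_succ]; ring, Real.log_pow, hlog4]
    push_cast
    ring
  have hn0 : 0 < n := by
    have : 4 ≤ 4 ^ (l + 1) := by
      rw [pow_succ]
      have := Nat.one_le_pow l 4 (by norm_num)
      omega
    omega
  have hn0' : (0 : ℝ) < n := by exact_mod_cast hn0
  have hlogn : Real.log (n : ℝ) ≤ 2 * (l + 1) * Real.log 2 := by
    rw [← hlogn1]
    exact Real.log_le_log hn0' (by linarith)
  have hlogn0 : 0 ≤ Real.log (n : ℝ) := Real.log_natCast_nonneg n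
  have hsq : √(n : ℝ) ≤ 2 * 2 ^ l := by
    refine Real.sqrt_le_iff.2 ⟨by positivity, ?_⟩
    have h5 : ((2 : ℝ) * 2 ^ l) ^ 2 = 4 * 4 ^ l := by
      rw [mul_pow, ← pow_mul, mul_comm l 2, pow_mul]
      norm_num
    rw [h5, ← hnr]
    linarith
  have h1 := Chebyshev.theta_ge n
  have h2 : Chebyshev.theta ((4 ^ l : ℕ) : ℝ) ≤ Real.log 4 * ((4 ^ l : ℕ) : ℝ) :=
    Chebyshev.theta_le_log4_mul_x (Nat.cast_nonneg _)
  have h3 : Chebyshev.theta (n : ℝ) ≤
      Chebyshev.theta ((4 ^ l : ℕ) : ℝ) + ∑ p ∈ Pb l, Real.log p := by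
    rw [Chebyshev.theta_eq_sum_Icc, Chebyshev.theta_eq_sum_Icc, Nat.floor_natCast,
      Nat.floor_natCast]
    have h6 : (Icc 0 n).filter Nat.Prime ⊆ (Icc 0 (4 ^ l)).filter Nat.Prime ∪ Pb l := by
      intro p hp
      rw [mem_filter, mem_Icc] at hp
      rw [mem_union, mem_filter, mem_Icc]
      rcases le_or_gt p (4 ^ l) with h7 | h7
      · exact Or.inl ⟨⟨Nat.zero_le _, h7⟩, hp.2⟩
      · refine Or.inr ?_
        unfold Pb
        rw [mem_filter, mem_Ico]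
        exact ⟨⟨h7.le, by omega⟩, hp.2⟩
    refine (sum_le_sum_of_subset_of_nonneg h6 fun p _ _ => Real.log_natCast_nonneg p).trans ?_
    refine le_of_add_le_of_nonneg_left (le_of_eq (sum_union_inter (f := fun p : ℕ => Real.log p))) ?_
    exact sum_nonneg fun p _ => Real.log_natCast_nonneg p
  have h8 : ∑ p ∈ Pb l, Real.log p ≤ (Pb l).card * (2 * (l + 1) * Real.log 2) := by
    rw [← nsmul_eq_mul]
    refine sum_le_card_nsmul _ _ _ fun p hp => ?_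
    unfold Pb at hp
    rw [mem_filter, mem_Ico] at hp
    rw [← hlogn1]
    refine Real.log_le_log (by exact_mod_cast hp.2.pos) ?_
    have : ((p : ℕ) : ℝ) ≤ ((n + 1 : ℕ) : ℝ) := by exact_mod_cast (by omega : p ≤ n + 1)
    push_cast at this
    exact this
  have h9 : 2 * √(n : ℝ) * Real.log n ≤ 8 * (l + 1) * 2 ^ l * Real.log 2 := by
    calc 2 * √(n : ℝ) * Real.log n ≤ 2 * (2 * 2 ^ l) * (2 * (l + 1) * Real.log 2) := by
          gcongr
      _ = 8 * (l + 1) * 2 ^ l * Real.log 2 := by ring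
  have h10 := cheb_num l hl
  rw [hlogn1] at h1
  rw [hlog4] at h2
  rw [show ((4 ^ l : ℕ) : ℝ) = 4 ^ l by push_cast; rfl] at h2 h3
  have h11 : (4 : ℝ) ^ l * Real.log 2 ≤ (Pb l).card * (2 * (l + 1) * Real.log 2) := by
    have h12 := mul_le_mul_of_nonneg_right h10 hl2.le
    have h13 : (n : ℝ) * Real.log 2 = 4 * 4 ^ l * Real.log 2 - Real.log 2 := by
      rw [← hnr]
      ring
    linarith
  have h14 : (4 : ℝ) ^ l ≤ (Pb l).card * (2 * (l + 1)) := by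
    refine le_of_mul_le_mul_right ?_ hl2
    calc (4 : ℝ) ^ l * Real.log 2 ≤ _ := h11
      _ = _ := by ring
  rw [div_le_iff₀ (by positivity)]
  linarith

end ELG
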