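import Pool.Agent.ELG.Lst

/-!
# ELG-CsA: one Cauchy–Schwarz step (eliminate the function with index `r`)

`evt` after `r` steps: `∑_{i ∈ [r, k)} Dd L (Bm h i δ) (m + p h_i) = Dd c δ p`.
-/

set_option autoImplicit false

namespace ELG

open Finset

section
variable {G : Type} [AddCommGroup G]

open Classical in
/-- The sum of the probabilities of the relations after `r` steps. -/
noncomputable def sg (μ : Mn) (L c : ℤ → G) (h : ℕ → ℤ) (k : ℕ) (Q : Finset ℤ) (N r : ℕ) : ℝ :=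
  SL N r fun δ => ∑ p ∈ Q, if Cu (· ∈ Q) δ p then
    μ.P (fun m => ∑ i ∈ Ico r k, Dd L (Bm h i δ) (m + p * h i) = Dd c δ p) else 0

/-- Two relations give one relation for a longer list. -/
private theorem csA_pair (hG : E2 G) (L c : ℤ → G) (h : ℕ → ℤ) {k r : ℕ} (hr : r < k) {δ : List ℤ}
    (hδ : δ.length = r) {p d y : ℤ}
    (h1 : ∑ i ∈ Ico r k, Dd L (Bm h i δ) (y + p * (h i - h r)) = Dd c δ p)
    (h2 : ∑ i ∈ Ico r k, Dd L (Bm h i δ) (y + (p + d) * (h i - h r)) = Dd c δ (p + d)) :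
    ∑ i ∈ Ico (r + 1) k, Dd L (Bm h i (d :: δ)) (y + p * (h i - h r)) = Dd c (d :: δ) p := by
  have h3 : Dd c (d :: δ) p = Dd c δ p + Dd c δ (p + d) := rfl
  rw [h3, ← h1, ← h2, ← Finset.sum_add_distrib, Finset.sum_eq_sum_Ico_succ_bot hr]
  have h4 : Dd L (Bm h r δ) (y + p * (h r - h r)) + Dd L (Bm h r δ) (y + (p + d) * (h r - h r)) = 0 := by
    rw [sub_self, mul_zero, mul_zero]
    exact hG _
  rw [h4, zero_add]
  refine Finset.sum_congr rfl fun i _ => ?_
  have h5 : Dd L (Bm h i (d :: δ)) (y + p * (h i - h r)) =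
      Dd L (Bm h i δ) (y + p * (h i - h r)) +
        Dd L (Bm h i δ) (y + p * (h i - h r) + d * (h i - h δ.length)) := rfl
  rw [h5, hδ]
  congr 2
  ring

private theorem csA_one (μ : Mn) (hG : E2 G) (L c : ℤ → G) (h : ℕ → ℤ) {k r : ℕ} (hr : r < k)
    {Q : Finset ℤ} {N : ℕ} (hQ : ∀ p ∈ Q, 0 ≤ p ∧ p < N) {δ : List ℤ} (hδ : δ.length = r)
    [DecidablePred (fun p => Cu (· ∈ Q) δ p)] [∀ d, DecidablePred (fun p => Cu (· ∈ Q) (d :: δ) p)] :
    (∑ p ∈ Q, if Cu (· ∈ Q) δ p then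
      μ.P (fun m => ∑ i ∈ Ico r k, Dd L (Bm h i δ) (m + p * h i) = Dd c δ p) else 0) ^ 2 ≤
    ∑ d ∈ Finset.Ioo (-(N : ℤ)) N, ∑ p ∈ Q, if Cu (· ∈ Q) (d :: δ) p then
      μ.P (fun m => ∑ i ∈ Ico (r + 1) k, Dd L (Bm h i (d :: δ)) (m + p * h i) = Dd c (d :: δ) p) else 0 := by
  classical
  let A : ℤ → ℤ → Prop := fun p y => ∑ i ∈ Ico r k, Dd L (Bm h i δ) (y + p * (h i - h r)) = Dd c δ p
  let B : ℤ → ℤ → ℤ → Prop := fun d p y =>
    ∑ i ∈ Ico (r + 1) k, Dd L (Bm h i (d :: δ)) (y + p * (h i - h r)) = Dd c (d :: δ) p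
  let Q' : Finset ℤ := Q.filter (fun p => Cu (· ∈ Q) δ p)
  have hA : ∀ p, μ.P (fun m => ∑ i ∈ Ico r k, Dd L (Bm h i δ) (m + p * h i) = Dd c δ p) = μ.P (A p) := by
    intro p
    rw [← μ.P_shift (fun m => ∑ i ∈ Ico r k, Dd L (Bm h i δ) (m + p * h i) = Dd c δ p) (-(p * h r))]
    congr 1
    funext y
    have : ∀ i, y + -(p * h r) + p * h i = y + p * (h i - h r) := fun i => by ring
    simp only [this, A]
  have hB : ∀ d p, μ.P (fun m => ∑ i ∈ Ico (r + 1) k, Dd L (Bm h i (d :: δ)) (m + p * h i) =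
      Dd c (d :: δ) p) = μ.P (B d p) := by
    intro d p
    rw [← μ.P_shift (fun m => ∑ i ∈ Ico (r + 1) k, Dd L (Bm h i (d :: δ)) (m + p * h i) =
      Dd c (d :: δ) p) (-(p * h r))]
    congr 1
    funext y
    have : ∀ i, y + -(p * h r) + p * h i = y + p * (h i - h r) := fun i => by ring
    simp only [this, B]
  simp only [hA, hB]
  rw [← Finset.sum_filter]
  change (∑ p ∈ Q', μ.P (A p)) ^ 2 ≤ _
  let ind : ℤ → ℤ → ℝ := fun p n => if A p n then 1 else 0
  have hind : ∀ p, Bd (ind p) := fun p => Bd.ite (A p)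
  have hP : ∀ p, μ.P (A p) = μ.E (ind p) := fun p => rfl
  simp only [hP]
  rw [← μ.E_sum Q' ind (fun p _ => hind p)]
  refine (μ.E_sq (Bd.sum fun p _ => hind p)).trans ?_
  have hsq : (fun n => (∑ p ∈ Q', ind p n) ^ 2) = fun n => ∑ p ∈ Q', ∑ p' ∈ Q', ind p n * ind p' n := by
    funext n
    rw [sq, Finset.sum_mul_sum]
  rw [hsq, μ.E_sum Q' _ (fun p _ => Bd.sum fun p' _ => (hind p).mul (hind p'))]
  rw [Finset.sum_comm (s := Finset.Ioo (-(N : ℤ)) N) (t := Q)]
  have hsub : Q' ⊆ Q := Finset.filter_subset _ Q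
  refine le_trans ?_ (Finset.sum_le_sum_of_subset_of_nonneg hsub (fun p _ _ =>
    Finset.sum_nonneg fun d _ => ?_))
  · change _ ≤ ∑ p ∈ Q', _
    refine Finset.sum_le_sum fun p hp => ?_
    have hp' := Finset.mem_filter.1 hp
    rw [μ.E_sum Q' _ (fun p' _ => (hind p).mul (hind p'))]
    have hinj : Set.InjOn (fun p' : ℤ => p' - p) Q' := fun x _ y _ hxy => by
      have : x - p = y - p := hxy
      linarith
    have hstep : ∑ p' ∈ Q', μ.E (fun n => ind p n * ind p' n) ≤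
        ∑ p' ∈ Q', (if Cu (· ∈ Q) ((p' - p) :: δ) p then μ.P (B (p' - p) p) else 0) := by
      refine Finset.sum_le_sum fun p' hq => ?_
      have hq' := Finset.mem_filter.1 hq
      have hpp : p + (p' - p) = p' := by ring
      have hcu : Cu (· ∈ Q) ((p' - p) :: δ) p := ⟨hp'.2, by rw [hpp]; exact hq'.2⟩
      rw [if_pos hcu]
      change _ ≤ μ.E (fun n => if B (p' - p) p n then 1 else 0)
      refine μ.E_mono ((hind p).mul (hind p')) (Bd.ite _) fun n => ?_
      by_cases h1 : A p n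
      · by_cases h2 : A p' n
        · have h3 : B (p' - p) p n := csA_pair hG L c h hr hδ h1 (by rw [hpp]; exact h2)
          simp [ind, h1, h2, h3]
        · simp only [ind, if_neg h2, mul_zero]
          split_ifs <;> norm_num
      · simp only [ind, if_neg h1, zero_mul]
        split_ifs <;> norm_num
    refine hstep.trans ?_
    rw [← Finset.sum_image (g := fun p' : ℤ => p' - p)
      (f := fun d => if Cu (· ∈ Q) (d :: δ) p then μ.P (B d p) else 0) hinj]
    refine Finset.sum_le_sum_of_subset_of_nonneg ?_ (fun d _ _ => ?_)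
    · intro d hd
      obtain ⟨p', hq, rfl⟩ := Finset.mem_image.1 hd
      have a1 := hQ p hp'.1
      have a2 := hQ p' (Finset.mem_filter.1 hq).1
      rw [Finset.mem_Ioo]
      constructor <;> linarith
    · split_ifs
      · exact μ.P_nonneg _
      · exact le_rfl
  · split_ifs
    · exact μ.P_nonneg _
    · exact le_rfl

theorem sg_step (μ : Mn) (hG : E2 G) (L c : ℤ → G) (h : ℕ → ℤ) {k r : ℕ} (hr : r < k) {Q : Finset ℤ} {N : ℕ}
    (hQ : ∀ p ∈ Q, 0 ≤ p ∧ p < N) : sg μ L c h k Q N r ^ 2 ≤ (2 * N) ^ r * sg μ L c h k Q N (r + 1) := by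
  classical
  unfold sg
  refine (SL_sq N r _).trans ?_
  refine mul_le_mul_of_nonneg_left ?_ (by positivity)
  rw [SL, ← SL_sum]
  refine SL_mono fun δ hδ _ => ?_
  exact csA_one μ hG L c h hr hQ hδ

end

end ELG
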