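import Pool.Agent.ELG.CsA

/-!
# ELG-CsB: the elimination; result for cubes of dimension `k`
-/

set_option autoImplicit false

namespace ELG

open Finset

open Classical in
/-- Number of cubes of dimension `k` in `Q`. -/
noncomputable def Qc (Q : Finset ℤ) (N k : ℕ) : ℝ := SL N k fun δ => ((Q.filter fun p => Cu (· ∈ Q) δ p).card : ℝ)

private theorem SL_nonneg' (N r : ℕ) {F : List ℤ → ℝ} (h : ∀ δ, 0 ≤ F δ) : 0 ≤ SL N r F := by
  have h1 : SL N r (fun δ => 0 * F δ) ≤ SL N r F := SL_mono fun δ _ _ => by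
    rw [zero_mul]
    exact h δ
  rw [SL_smul, zero_mul] at h1
  exact h1

private theorem conc (μ : Mn) {G : Type} [AddCommGroup G] (hG : E2 G) (L : ℤ → G) (ts : List ℤ) {N : ℕ}
    (hN : 1 ≤ N) (g : G) : μ.P (fun x => Dd L ts x = g) ^ 2 * N ≤
      ∑ d ∈ Ioo (-(N : ℤ)) N, μ.P (fun x => Dd L (d :: ts) x = 0) := by
  classical
  have hN0 : (0 : ℝ) < N := by exact_mod_cast hN
  obtain ⟨X, hX⟩ : ∃ X : ℤ → ℝ, X = fun x => if Dd L ts x = g then (1 : ℝ) else 0 := ⟨_, rfl⟩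
  have bX : Bd X := by
    rw [hX]
    exact Bd.ite _
  have eX : μ.E X = μ.P (fun x => Dd L ts x = g) := by
    rw [hX]
    unfold Mn.P
    congr 1
  have bS : ∀ j ∈ range N, Bd (fun x => X (x + (j : ℤ))) := fun j _ => bX.shift _
  have bf : Bd (fun x => ∑ j ∈ range N, X (x + (j : ℤ))) := Bd.sum bS
  have e1 : μ.E (fun x => ∑ j ∈ range N, X (x + (j : ℤ))) = N * μ.P (fun x => Dd L ts x = g) := by
    have e0 : ∀ j ∈ range N, μ.E (fun x => X (x + (j : ℤ))) = μ.E X := fun j _ => μ.shift X (j : ℤ) bX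
    rw [μ.E_sum _ _ bS, ← eX, Finset.sum_congr rfl e0, sum_const, card_range, nsmul_eq_mul]
  have h1 := μ.E_sq bf
  rw [e1] at h1
  have e2 : (fun x => (∑ j ∈ range N, X (x + (j : ℤ))) ^ 2) =
      fun x => ∑ j ∈ range N, ∑ j' ∈ range N, X (x + (j : ℤ)) * X (x + (j' : ℤ)) := by
    funext x
    rw [sq, Finset.sum_mul_sum]
  have bT : ∀ j ∈ range N, ∀ j' ∈ range N, Bd (fun x => X (x + (j : ℤ)) * X (x + (j' : ℤ))) :=
    fun j hj j' hj' => (bS j hj).mul (bS j' hj')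
  rw [e2, μ.E_sum _ _ fun j hj => Bd.sum fun j' hj' => bT j hj j' hj'] at h1
  have e3 : ∀ j ∈ range N, μ.E (fun x => ∑ j' ∈ range N, X (x + (j : ℤ)) * X (x + (j' : ℤ))) ≤
      ∑ d ∈ Ioo (-(N : ℤ)) N, μ.P (fun x => Dd L (d :: ts) x = 0) := by
    intro j hj
    rw [μ.E_sum _ _ (bT j hj)]
    have e4 : ∀ j' ∈ range N, μ.E (fun x => X (x + (j : ℤ)) * X (x + (j' : ℤ))) ≤
        μ.P (fun x => Dd L (((j' : ℤ) - j) :: ts) x = 0) := by
      intro j' hj'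
      rw [← μ.P_shift (fun x => Dd L (((j' : ℤ) - j) :: ts) x = 0) (j : ℤ)]
      unfold Mn.P
      refine μ.E_mono (bT j hj j' hj') (Bd.ite _) fun x => ?_
      rw [hX]
      show (if Dd L ts (x + j) = g then (1 : ℝ) else 0) * (if Dd L ts (x + j') = g then (1 : ℝ) else 0) ≤ _
      by_cases ha : Dd L ts (x + j) = g
      · by_cases hb : Dd L ts (x + j') = g
        · rw [if_pos ha, if_pos hb, if_pos]
          · norm_num
          · show Dd L ts (x + j) + Dd L ts (x + j + ((j' : ℤ) - j)) = 0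
            rw [show x + (j : ℤ) + ((j' : ℤ) - j) = x + j' from by ring, ha, hb]
            exact hG g
        · rw [if_neg hb, mul_zero]
          split_ifs
          · norm_num
          · norm_num
      · rw [if_neg ha, zero_mul]
        split_ifs
        · norm_num
        · norm_num
    refine (Finset.sum_le_sum e4).trans ?_
    have hinj : Set.InjOn (fun j' : ℕ => (j' : ℤ) - j) (range N : Set ℕ) := by
      intro a _ b _ hab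
      have h : (a : ℤ) - j = (b : ℤ) - j := hab
      have h' : (a : ℤ) = b := by linarith
      exact_mod_cast h'
    rw [← Finset.sum_image (f := fun d : ℤ => μ.P (fun x => Dd L (d :: ts) x = 0)) hinj]
    refine Finset.sum_le_sum_of_subset_of_nonneg ?_ fun d _ _ => μ.P_nonneg _
    intro d hd
    obtain ⟨j', hj', rfl⟩ := Finset.mem_image.mp hd
    rw [Finset.mem_range] at hj hj'
    rw [Finset.mem_Ioo]
    constructor
    · omega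
    · omega
  have h2 : ∑ j ∈ range N, μ.E (fun x => ∑ j' ∈ range N, X (x + (j : ℤ)) * X (x + (j' : ℤ))) ≤
      N * ∑ d ∈ Ioo (-(N : ℤ)) N, μ.P (fun x => Dd L (d :: ts) x = 0) := by
    refine (Finset.sum_le_sum e3).trans (le_of_eq ?_)
    rw [sum_const, card_range, nsmul_eq_mul]
  have h3 := h1.trans h2
  have h4 : (N : ℝ) * (μ.P (fun x => Dd L ts x = g) ^ 2 * N) ≤
      N * ∑ d ∈ Ioo (-(N : ℤ)) N, μ.P (fun x => Dd L (d :: ts) x = 0) := by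
    refine le_trans (le_of_eq ?_) h3
    ring
  exact le_of_mul_le_mul_left h4 hN0

open Classical in
private theorem rho_sq (Q : Finset ℤ) {N : ℕ} (hQ : ∀ p ∈ Q, 0 ≤ p ∧ p < N) (δ : List ℤ) :
    ((Q.filter fun p => Cu (· ∈ Q) δ p).card : ℝ) ^ 2 ≤
      ∑ d ∈ Ioo (-(N : ℤ)) N, ((Q.filter fun p => Cu (· ∈ Q) (d :: δ) p).card : ℝ) := by
  obtain ⟨S, hS⟩ : ∃ S : Finset ℤ, S = Q.filter fun p => Cu (· ∈ Q) δ p := ⟨_, rfl⟩
  rw [← hS]
  have h1 : (S ×ˢ S).card ≤ ((Ioo (-(N : ℤ)) N).sigma fun d => Q.filter fun p => Cu (· ∈ Q) (d :: δ) p).card := by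
    refine Finset.card_le_card_of_injOn (fun x => ⟨x.2 - x.1, x.1⟩) ?_ ?_
    · rintro ⟨p, p'⟩ hx
      have hx' := Finset.mem_product.mp (Finset.mem_coe.mp hx)
      obtain ⟨ha, hb⟩ := hx'
      rw [hS, Finset.mem_filter] at ha hb
      refine Finset.mem_coe.mpr (Finset.mem_sigma.mpr ⟨?_, ?_⟩)
      · show p' - p ∈ Ioo (-(N : ℤ)) N
        rw [Finset.mem_Ioo]
        have h2 := hQ p ha.1
        have h3 := hQ p' hb.1
        constructor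
        · linarith [h2.2, h3.1]
        · linarith [h2.1, h3.2]
      · show p ∈ Q.filter fun q => Cu (· ∈ Q) ((p' - p) :: δ) q
        rw [Finset.mem_filter]
        refine ⟨ha.1, ha.2, ?_⟩
        show Cu (· ∈ Q) δ (p + (p' - p))
        rw [show p + (p' - p) = p' from by ring]
        exact hb.2
    · rintro ⟨p, p'⟩ _ ⟨q, q'⟩ _ h
      have h' : (⟨p' - p, p⟩ : (_ : ℤ) × ℤ) = ⟨q' - q, q⟩ := h
      rw [Sigma.mk.injEq] at h'
      obtain ⟨h2, h3⟩ := h'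
      have h3' := eq_of_heq h3
      subst h3'
      have h4 : p' = q' := by linarith
      rw [h4]
  rw [Finset.card_product, Finset.card_sigma] at h1
  rw [sq]
  exact_mod_cast h1

private theorem sg_zero_ge (μ : Mn) {G : Type} [AddCommGroup G] (L c : ℤ → G) (h : ℕ → ℤ) {k : ℕ}
    {Q : Finset ℤ} {N : ℕ} {a : ℝ}
    (hP : ∀ p ∈ Q, a ≤ μ.P (fun m => ∑ i ∈ range k, L (m + p * h i) = c p)) :
    a * Q.card ≤ sg μ L c h k Q N 0 := by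
  have e : sg μ L c h k Q N 0 = ∑ p ∈ Q, μ.P (fun m => ∑ i ∈ range k, L (m + p * h i) = c p) := by
    unfold sg SL
    refine Finset.sum_congr rfl fun p hp => ?_
    have h1 : Cu (· ∈ Q) [] p := hp
    rw [if_pos h1, Finset.range_eq_Ico]
    rfl
  rw [e]
  calc a * Q.card = ∑ _p ∈ Q, a := by rw [sum_const, nsmul_eq_mul, mul_comm]
    _ ≤ _ := Finset.sum_le_sum hP

private theorem sg_nonneg (μ : Mn) {G : Type} [AddCommGroup G] (L c : ℤ → G) (h : ℕ → ℤ) (k : ℕ)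
    (Q : Finset ℤ) (N r : ℕ) : 0 ≤ sg μ L c h k Q N r := by
  unfold sg
  refine SL_nonneg' N r fun δ => Finset.sum_nonneg fun p _ => ?_
  split_ifs
  · exact μ.P_nonneg _
  · exact le_refl _

private theorem sg_ind (μ : Mn) {G : Type} [AddCommGroup G] (hG : E2 G) (L c : ℤ → G) (h : ℕ → ℤ) {k : ℕ}
    {Q : Finset ℤ} {N : ℕ} (hQ : ∀ p ∈ Q, 0 ≤ p ∧ p < N) {a : ℝ} (ha : 0 ≤ a)
    (hP : ∀ p ∈ Q, a ≤ μ.P (fun m => ∑ i ∈ range k, L (m + p * h i) = c p)) (r : ℕ) (hr : r < k) :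
    (a * Q.card) ^ (2 ^ r) ≤ (2 * N) ^ (2 ^ r - r - 1) * sg μ L c h k Q N r := by
  induction r with
  | zero =>
    have h1 := sg_zero_ge (N := N) μ L c h hP
    simpa using h1
  | succ r ih =>
    have h1 := ih (by omega)
    have h2 := sg_step μ hG L c h (show r < k by omega) hQ
    have h0 : 0 ≤ (a * Q.card) ^ (2 ^ r) := pow_nonneg (mul_nonneg ha (Nat.cast_nonneg _)) _
    have h3 : ((a * Q.card) ^ (2 ^ r)) ^ 2 ≤ ((2 * N) ^ (2 ^ r - r - 1) * sg μ L c h k Q N r) ^ 2 :=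
      pow_le_pow_left₀ h0 h1 2
    have h5 : (0 : ℝ) ≤ ((2 * N : ℝ) ^ (2 ^ r - r - 1)) ^ 2 := sq_nonneg _
    have h6 : ((2 * N : ℝ) ^ (2 ^ r - r - 1)) ^ 2 * sg μ L c h k Q N r ^ 2 ≤
        ((2 * N : ℝ) ^ (2 ^ r - r - 1)) ^ 2 * ((2 * N) ^ r * sg μ L c h k Q N (r + 1)) :=
      mul_le_mul_of_nonneg_left h2 h5
    have e1 : 2 ^ (r + 1) - (r + 1) - 1 = (2 ^ r - r - 1) * 2 + r := by
      have h7 : r < 2 ^ r := Nat.lt_two_pow_self
      rw [pow_succ]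
      omega
    rw [e1, pow_succ 2 r, pow_mul, pow_add, pow_mul]
    calc ((a * Q.card) ^ (2 ^ r)) ^ 2 ≤ ((2 * N) ^ (2 ^ r - r - 1) * sg μ L c h k Q N r) ^ 2 := h3
      _ = ((2 * N : ℝ) ^ (2 ^ r - r - 1)) ^ 2 * sg μ L c h k Q N r ^ 2 := by ring
      _ ≤ ((2 * N : ℝ) ^ (2 ^ r - r - 1)) ^ 2 * ((2 * N) ^ r * sg μ L c h k Q N (r + 1)) := h6
      _ = ((2 * N : ℝ) ^ (2 ^ r - r - 1)) ^ 2 * (2 * N) ^ r * sg μ L c h k Q N (r + 1) := by ring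

open Classical in
private theorem sg_last (μ : Mn) {G : Type} [AddCommGroup G] (hG : E2 G) (L c : ℤ → G) (h : ℕ → ℤ) (s : ℕ)
    (Q : Finset ℤ) {N : ℕ} (hN : 1 ≤ N) (hQ : ∀ p ∈ Q, 0 ≤ p ∧ p < N) :
    sg μ L c h (s + 1) Q N s ^ 2 * N ≤ Qc Q N (s + 1) *
      SL N s fun δ => ∑ d ∈ Ioo (-(N : ℤ)) N, μ.P (fun x => Dd L (d :: Bm h s δ) x = 0) := by
  have hN0 : (0 : ℝ) < N := by exact_mod_cast hN
  obtain ⟨e, he⟩ : ∃ e : List ℤ → ℝ, e = fun δ => (N : ℝ)⁻¹ *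
    ∑ d ∈ Ioo (-(N : ℤ)) N, μ.P (fun x => Dd L (d :: Bm h s δ) x = 0) := ⟨_, rfl⟩
  have he0 : ∀ δ, 0 ≤ e δ := by
    intro δ
    rw [he]
    exact mul_nonneg (inv_nonneg.mpr hN0.le) (Finset.sum_nonneg fun d _ => μ.P_nonneg _)
  obtain ⟨ρ, hρ⟩ : ∃ ρ : List ℤ → ℝ, ρ = fun δ => ((Q.filter fun p => Cu (· ∈ Q) δ p).card : ℝ) := ⟨_, rfl⟩
  have hP : ∀ (δ : List ℤ) (p : ℤ), μ.P (fun m => ∑ i ∈ Ico s (s + 1), Dd L (Bm h i δ) (m + p * h i) = Dd c δ p) ≤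
      √(e δ) := by
    intro δ p
    have e1 : (fun m => ∑ i ∈ Ico s (s + 1), Dd L (Bm h i δ) (m + p * h i) = Dd c δ p) =
        fun m => Dd L (Bm h s δ) (m + p * h s) = Dd c δ p := by
      funext m
      rw [Finset.sum_Ico_succ_top (le_refl s), Finset.Ico_self, Finset.sum_empty, zero_add]
    rw [e1, μ.P_shift (fun m => Dd L (Bm h s δ) m = Dd c δ p) (p * h s)]
    refine Real.le_sqrt_of_sq_le ?_
    have h1 := conc μ hG L (Bm h s δ) hN (Dd c δ p)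
    rw [he]
    show _ ≤ (N : ℝ)⁻¹ * ∑ d ∈ Ioo (-(N : ℤ)) N, μ.P (fun x => Dd L (d :: Bm h s δ) x = 0)
    rw [inv_mul_eq_div, le_div_iff₀ hN0]
    exact h1
  have h1 : sg μ L c h (s + 1) Q N s ≤ SL N s fun δ => ρ δ * √(e δ) := by
    unfold sg
    refine SL_mono fun δ _ _ => ?_
    rw [← Finset.sum_filter]
    refine (Finset.sum_le_sum fun p _ => hP δ p).trans (le_of_eq ?_)
    rw [sum_const, nsmul_eq_mul, hρ]
  have h2 : sg μ L c h (s + 1) Q N s ^ 2 ≤ (SL N s fun δ => ρ δ * √(e δ)) ^ 2 :=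
    pow_le_pow_left₀ (sg_nonneg μ L c h (s + 1) Q N s) h1 2
  have h3 := SL_cs N s ρ (fun δ => √(e δ))
  have h4 : (SL N s fun δ => √(e δ) ^ 2) = (N : ℝ)⁻¹ * SL N s fun δ =>
      ∑ d ∈ Ioo (-(N : ℤ)) N, μ.P (fun x => Dd L (d :: Bm h s δ) x = 0) := by
    rw [← SL_smul]
    refine SL_congr fun δ _ _ => ?_
    rw [Real.sq_sqrt (he0 δ), he]
  have h5 : (SL N s fun δ => ρ δ ^ 2) ≤ Qc Q N (s + 1) := by
    have e2 : Qc Q N (s + 1) = SL N s fun δ => ∑ d ∈ Ioo (-(N : ℤ)) N,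
        ((Q.filter fun p => Cu (· ∈ Q) (d :: δ) p).card : ℝ) := by
      rw [SL_sum]
      rfl
    rw [e2]
    refine SL_mono fun δ _ _ => ?_
    rw [hρ]
    exact rho_sq Q hQ δ
  rw [h4] at h3
  have h6 : 0 ≤ (N : ℝ)⁻¹ * SL N s fun δ =>
      ∑ d ∈ Ioo (-(N : ℤ)) N, μ.P (fun x => Dd L (d :: Bm h s δ) x = 0) :=
    mul_nonneg (inv_nonneg.mpr hN0.le) (SL_nonneg' N s fun δ => Finset.sum_nonneg fun d _ => μ.P_nonneg _)
  have h7 := (h2.trans h3).trans (mul_le_mul_of_nonneg_right h5 h6)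
  calc sg μ L c h (s + 1) Q N s ^ 2 * N ≤ Qc Q N (s + 1) * ((N : ℝ)⁻¹ * SL N s fun δ =>
      ∑ d ∈ Ioo (-(N : ℤ)) N, μ.P (fun x => Dd L (d :: Bm h s δ) x = 0)) * N :=
        mul_le_mul_of_nonneg_right h7 hN0.le
    _ = Qc Q N (s + 1) * (SL N s fun δ =>
      ∑ d ∈ Ioo (-(N : ℤ)) N, μ.P (fun x => Dd L (d :: Bm h s δ) x = 0)) * ((N : ℝ)⁻¹ * N) := by ring
    _ = _ := by rw [inv_mul_cancel₀ hN0.ne', mul_one]

theorem cs_main (μ : Mn) {G : Type} [AddCommGroup G] (hG : E2 G) (L c : ℤ → G) (h : ℕ → ℤ) {k : ℕ} (hk : 1 ≤ k) {Q : Finset ℤ} {N : ℕ}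
    (hN : 1 ≤ N) (hQ : ∀ p ∈ Q, 0 ≤ p ∧ p < N) {a : ℝ} (ha : 0 ≤ a)
    (hP : ∀ p ∈ Q, a ≤ μ.P (fun m => ∑ i ∈ range k, L (m + p * h i) = c p)) :
    (a * Q.card) ^ (2 ^ k) * N ≤ (2 * N) ^ (2 ^ k - 2 * k) * Qc Q N k *
      SL N (k - 1) fun δ => ∑ d ∈ Ioo (-(N : ℤ)) N, μ.P (fun x => Dd L (d :: Bm h (k - 1) δ) x = 0) := by
  obtain ⟨s, rfl⟩ : ∃ s, k = s + 1 := ⟨k - 1, by omega⟩
  have h1 := sg_ind μ hG L c h hQ ha hP s (Nat.lt_succ_self s)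
  have h2 := sg_last μ hG L c h s Q hN hQ
  have h0 : 0 ≤ (a * Q.card) ^ (2 ^ s) := pow_nonneg (mul_nonneg ha (Nat.cast_nonneg _)) _
  have hN0 : (0 : ℝ) ≤ N := Nat.cast_nonneg _
  have h3 : ((a * Q.card) ^ (2 ^ s)) ^ 2 ≤ ((2 * N) ^ (2 ^ s - s - 1) * sg μ L c h (s + 1) Q N s) ^ 2 :=
    pow_le_pow_left₀ h0 h1 2
  have h5 : (0 : ℝ) ≤ ((2 * N : ℝ) ^ (2 ^ s - s - 1)) ^ 2 := sq_nonneg _
  have e1 : 2 ^ (s + 1) - 2 * (s + 1) = (2 ^ s - s - 1) * 2 := by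
    have h7 : s < 2 ^ s := Nat.lt_two_pow_self
    rw [pow_succ]
    omega
  rw [e1, pow_succ 2 s, pow_mul, pow_mul, Nat.add_sub_cancel]
  calc ((a * Q.card) ^ (2 ^ s)) ^ 2 * N ≤ ((2 * N) ^ (2 ^ s - s - 1) * sg μ L c h (s + 1) Q N s) ^ 2 * N :=
        mul_le_mul_of_nonneg_right h3 hN0
    _ = ((2 * N : ℝ) ^ (2 ^ s - s - 1)) ^ 2 * (sg μ L c h (s + 1) Q N s ^ 2 * N) := by ring
    _ ≤ ((2 * N : ℝ) ^ (2 ^ s - s - 1)) ^ 2 * (Qc Q N (s + 1) *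
        SL N s fun δ => ∑ d ∈ Ioo (-(N : ℤ)) N, μ.P (fun x => Dd L (d :: Bm h s δ) x = 0)) :=
        mul_le_mul_of_nonneg_left h2 h5
    _ = _ := by ring

end ELG
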