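import Pool.Agent.ELG.CubM
import Pool.Agent.ELG.CsB

/-!
# ELG-Cub: number of `k`-dimensional cubes of primes

For increments with `Dif δ = 0` some linear form vanishes (`lin_zero`, trivial bound `N` for the number of `p`); otherwise `cub_sieve`, and
`psi (Dif δ) ^ (2 ^ k)` is at most `1` plus the sum of the powers `psi |Lf e δ| ^ (2 ^ k E)` (`lin_mom`).
-/

set_option autoImplicit false

namespace ELG

open Finset

private theorem cu_psi_one : psi 1 = 1 := by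
  unfold psi
  simp

private theorem cu_psi_prod {ι : Type} (s : Finset ι) (f : ι → ℕ) : psi (∏ i ∈ s, f i) ≤ ∏ i ∈ s, psi (f i) := by
  classical
  induction s using Finset.induction_on with
  | empty => simp [cu_psi_one]
  | insert a s ha ih =>
    rw [Finset.prod_insert ha, Finset.prod_insert ha]
    calc psi (f a * ∏ i ∈ s, f i) ≤ psi (f a) * psi (∏ i ∈ s, f i) := psi_mul_le _ _
      _ ≤ psi (f a) * ∏ i ∈ s, psi (f i) :=
        mul_le_mul_of_nonneg_left ih (zero_le_one.trans (one_le_psi _))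

private theorem cu_prod_pow {ι : Type} (s : Finset ι) (y : ι → ℝ) (h : ∀ i ∈ s, 1 ≤ y i) (K : ℕ) :
    (∏ i ∈ s, y i) ^ K ≤ 1 + ∑ i ∈ s, y i ^ (K * s.card) := by
  classical
  rcases s.eq_empty_or_nonempty with rfl | hs
  · simp
  · obtain ⟨i₀, hi₀, hm⟩ := Finset.exists_max_image s y hs
    have h1 : ∏ i ∈ s, y i ≤ y i₀ ^ s.card := by
      rw [← Finset.prod_const]
      exact Finset.prod_le_prod (fun i hi => zero_le_one.trans (h i hi)) hm
    have h0 : 0 ≤ ∏ i ∈ s, y i := Finset.prod_nonneg fun i hi => zero_le_one.trans (h i hi)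
    have h2 : (∏ i ∈ s, y i) ^ K ≤ y i₀ ^ (K * s.card) := by
      calc (∏ i ∈ s, y i) ^ K ≤ (y i₀ ^ s.card) ^ K := pow_le_pow_left₀ h0 h1 K
        _ = y i₀ ^ (K * s.card) := by rw [← pow_mul, mul_comm]
    have h3 : y i₀ ^ (K * s.card) ≤ ∑ i ∈ s, y i ^ (K * s.card) :=
      Finset.single_le_sum (f := fun i => y i ^ (K * s.card))
        (fun i hi => pow_nonneg (zero_le_one.trans (h i hi)) _) hi₀
    linarith

private theorem cu_card {N : ℕ} {Q : Finset ℤ} (hQ : ∀ p ∈ Q, (N : ℤ) ≤ 4 * p ∧ p < N ∧ p.natAbs.Prime)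
    (A : ℤ → Prop) [DecidablePred A] : ((Q.filter A).card : ℝ) ≤ N := by
  have h1 : Q.filter A ⊆ Finset.Ico (0 : ℤ) N := by
    intro p hp
    have h2 := hQ p (Finset.mem_filter.1 hp).1
    rw [Finset.mem_Ico]
    omega
  have h3 := Finset.card_le_card h1
  rw [Int.card_Ico] at h3
  have h4 : ((N : ℤ) - 0).toNat = N := by omega
  rw [h4] at h3
  exact_mod_cast h3

private theorem cu_log (K : ℕ) : ∃ N₁ : ℕ, ∀ N ≥ N₁, 1 ≤ N ∧ 0 < Real.log N ∧ Real.log N ^ K ≤ N := by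
  have h1 : (fun x : ℝ => Real.log x ^ K) =o[Filter.atTop] id := Real.isLittleO_pow_log_id_atTop
  have h2 := (h1.bound (c := 1) one_pos)
  have h3 := tendsto_natCast_atTop_atTop (R := ℝ) |>.eventually h2
  obtain ⟨N₁, hN₁⟩ := Filter.eventually_atTop.1 h3
  refine ⟨max N₁ 3, fun N hN => ?_⟩
  have hN1 : N₁ ≤ N := (le_max_left _ _).trans hN
  have hN3 : 3 ≤ N := (le_max_right _ _).trans hN
  have h4 := hN₁ N hN1
  have hlog : 0 < Real.log N := Real.log_pos (by exact_mod_cast (by omega : 1 < N))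
  refine ⟨by omega, hlog, ?_⟩
  simp only [id, one_mul, Real.norm_eq_abs] at h4
  rw [abs_of_nonneg (pow_nonneg hlog.le _), abs_of_nonneg (Nat.cast_nonneg _)] at h4
  exact h4

private theorem cu_En0 : (En 0).card = 0 := by
  unfold En Sg
  simp

theorem Qc_le (k : ℕ) : ∃ C : ℝ, 0 < C ∧ ∃ N₀ : ℕ, ∀ N ≥ N₀, ∀ Q : Finset ℤ,
    (∀ p ∈ Q, (N : ℤ) ≤ 4 * p ∧ p < N ∧ p.natAbs.Prime) → Qc Q N k ≤ C * (N ^ (k + 1) / Real.log N ^ (2 ^ k)) := by
  classical
  obtain ⟨C₀, hC₀, N₀, hN₀⟩ := cub_sieve k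
  obtain ⟨C₁, hC₁, hmom⟩ := lin_mom k (2 ^ k * (En k).card)
  obtain ⟨N₁, hN₁⟩ := cu_log (2 ^ k)
  set E : ℝ := ((En k).card : ℝ) with hE
  have hE0 : 0 ≤ E := Nat.cast_nonneg _
  refine ⟨E * 2 ^ k + C₀ * (2 ^ k + E * C₁), by positivity, max N₀ N₁, fun N hN Q hQ => ?_⟩
  have hNa : N₀ ≤ N := (le_max_left _ _).trans hN
  obtain ⟨hN1, hlog, hlogK⟩ := hN₁ N ((le_max_right _ _).trans hN)
  set Λ : ℝ := Real.log N ^ (2 ^ k) with hΛ
  have hΛ0 : 0 < Λ := pow_pos hlog _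
  have hNr : (1 : ℝ) ≤ N := by exact_mod_cast hN1
  -- pointwise bound
  have hpt : ∀ δ : List ℤ, δ.length = k → (∀ d ∈ δ, -(N : ℤ) < d ∧ d < N) →
      ((Q.filter fun p => Cu (· ∈ Q) δ p).card : ℝ) ≤
        ((N : ℝ) * ∑ e ∈ En k, (if Lf e δ = 0 then (1 : ℝ) else 0)) +
          (C₀ * (N / Λ)) * (1 + ∑ e ∈ En k, (if Lf e δ = 0 then (0 : ℝ) else
            psi (Lf e δ).natAbs ^ (2 ^ k * (En k).card))) := by
    intro δ hl hb
    have s1 : 0 ≤ ∑ e ∈ En k, (if Lf e δ = 0 then (1 : ℝ) else 0) :=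
      Finset.sum_nonneg fun e _ => by split_ifs <;> norm_num
    have s2 : 0 ≤ ∑ e ∈ En k, (if Lf e δ = 0 then (0 : ℝ) else
            psi (Lf e δ).natAbs ^ (2 ^ k * (En k).card)) :=
      Finset.sum_nonneg fun e _ => by
        split_ifs
        · exact le_rfl
        · exact pow_nonneg (zero_le_one.trans (one_le_psi _)) _
    by_cases hD : Dif δ = 0
    · have hD' := hD
      unfold Dif at hD'
      rw [hl, Finset.prod_eq_zero_iff] at hD'
      obtain ⟨e₀, he₀, h0⟩ := hD'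
      have h0' : Lf e₀ δ = 0 := Int.natAbs_eq_zero.1 h0
      have h1 : (1 : ℝ) ≤ ∑ e ∈ En k, (if Lf e δ = 0 then (1 : ℝ) else 0) := by
        calc (1 : ℝ) = (if Lf e₀ δ = 0 then (1 : ℝ) else 0) := by rw [if_pos h0']
          _ ≤ _ := Finset.single_le_sum (f := fun e => (if Lf e δ = 0 then (1 : ℝ) else 0))
            (fun e _ => by split_ifs <;> norm_num) he₀
      have h2 := cu_card hQ (fun p => Cu (· ∈ Q) δ p)
      have h3 : (N : ℝ) ≤ (N : ℝ) * ∑ e ∈ En k, (if Lf e δ = 0 then (1 : ℝ) else 0) :=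
        le_mul_of_one_le_right (Nat.cast_nonneg _) h1
      have h4 : 0 ≤ (C₀ * (N / Λ)) * (1 + ∑ e ∈ En k, (if Lf e δ = 0 then (0 : ℝ) else
            psi (Lf e δ).natAbs ^ (2 ^ k * (En k).card))) := by positivity
      linarith
    · have h1 := hN₀ N hNa δ hl hb hD Q hQ
      have h2 : psi (Dif δ) ^ (2 ^ k) ≤ 1 + ∑ e ∈ En k, (if Lf e δ = 0 then (0 : ℝ) else
            psi (Lf e δ).natAbs ^ (2 ^ k * (En k).card)) := by
        have h3 : psi (Dif δ) ≤ ∏ e ∈ En k, psi (Lf e δ).natAbs := by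
          unfold Dif
          rw [hl]
          exact cu_psi_prod _ _
        have h4 := cu_prod_pow (En k) (fun e => psi (Lf e δ).natAbs) (fun e _ => one_le_psi _) (2 ^ k)
        have h5 : psi (Dif δ) ^ (2 ^ k) ≤ (∏ e ∈ En k, psi (Lf e δ).natAbs) ^ (2 ^ k) :=
          pow_le_pow_left₀ (zero_le_one.trans (one_le_psi _)) h3 _
        refine (h5.trans h4).trans_eq ?_
        congr 1
        refine Finset.sum_congr rfl fun e he => ?_
        rw [if_neg]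
        intro h0
        apply hD
        unfold Dif
        rw [hl]
        exact Finset.prod_eq_zero he (by rw [h0]; rfl)
      have h6 : 0 ≤ C₀ * ((N : ℝ) / Λ) := by positivity
      have h7 := mul_le_mul_of_nonneg_left h2 h6
      have h8 : 0 ≤ (N : ℝ) * ∑ e ∈ En k, (if Lf e δ = 0 then (1 : ℝ) else 0) :=
        mul_nonneg (Nat.cast_nonneg _) s1
      linarith
  -- summation
  have hsum := SL_mono (N := N) (r := k) hpt
  rw [SL_add N k (fun δ => (N : ℝ) * ∑ e ∈ En k, (if Lf e δ = 0 then (1 : ℝ) else 0))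
      (fun δ => (C₀ * (N / Λ)) * (1 + ∑ e ∈ En k, (if Lf e δ = 0 then (0 : ℝ) else
            psi (Lf e δ).natAbs ^ (2 ^ k * (En k).card)))),
    SL_smul N k (N : ℝ) (fun δ => ∑ e ∈ En k, (if Lf e δ = 0 then (1 : ℝ) else 0)),
    SL_smul N k (C₀ * (N / Λ)) (fun δ => (1 + ∑ e ∈ En k, (if Lf e δ = 0 then (0 : ℝ) else
            psi (Lf e δ).natAbs ^ (2 ^ k * (En k).card)))),
    SL_add N k (fun _ => (1 : ℝ)) (fun δ => ∑ e ∈ En k, (if Lf e δ = 0 then (0 : ℝ) else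
            psi (Lf e δ).natAbs ^ (2 ^ k * (En k).card))),
    SL_sum (En k) N k (fun e δ => (if Lf e δ = 0 then (1 : ℝ) else 0)),
    SL_sum (En k) N k (fun e δ => (if Lf e δ = 0 then (0 : ℝ) else
            psi (Lf e δ).natAbs ^ (2 ^ k * (En k).card))), SL_const N k hN1] at hsum
  have b1 : ∑ e ∈ En k, SL N k (fun δ => (if Lf e δ = 0 then (1 : ℝ) else 0)) ≤ E * (2 * N) ^ (k - 1) := by
    calc ∑ e ∈ En k, SL N k (fun δ => (if Lf e δ = 0 then (1 : ℝ) else 0))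
        ≤ ∑ _e ∈ En k, (2 * (N : ℝ)) ^ (k - 1) := Finset.sum_le_sum fun e he => lin_zero k N hN1 he
      _ = E * (2 * N) ^ (k - 1) := by rw [Finset.sum_const, nsmul_eq_mul]
  have b2 : ∑ e ∈ En k, SL N k (fun δ => (if Lf e δ = 0 then (0 : ℝ) else
            psi (Lf e δ).natAbs ^ (2 ^ k * (En k).card))) ≤ E * (C₁ * N ^ k) := by
    calc ∑ e ∈ En k, SL N k (fun δ => (if Lf e δ = 0 then (0 : ℝ) else
            psi (Lf e δ).natAbs ^ (2 ^ k * (En k).card)))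
        ≤ ∑ _e ∈ En k, (C₁ * (N : ℝ) ^ k) := Finset.sum_le_sum fun e he => hmom N hN1 e he
      _ = E * (C₁ * N ^ k) := by rw [Finset.sum_const, nsmul_eq_mul]
  have b3 : (2 * (N : ℝ) - 1) ^ k * 1 ≤ 2 ^ k * N ^ k := by
    rw [mul_one, ← mul_pow]
    exact pow_le_pow_left₀ (by linarith) (by linarith) k
  have b4 : (N : ℝ) * (E * (2 * N) ^ (k - 1)) ≤ E * 2 ^ k * N ^ k := by
    rcases Nat.eq_zero_or_pos k with hk | hk
    · have : E = 0 := by rw [hE, hk, cu_En0]; simp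
      rw [this]; simp
    · obtain ⟨j, rfl⟩ : ∃ j, k = j + 1 := ⟨k - 1, by omega⟩
      have e1 : (N : ℝ) * (E * (2 * N) ^ (j + 1 - 1)) = E * (2 ^ j * N ^ (j + 1)) := by
        rw [Nat.add_sub_cancel, mul_pow, pow_succ (N : ℝ)]
        ring
      have e2 : E * 2 ^ (j + 1) * (N : ℝ) ^ (j + 1) = 2 * (E * (2 ^ j * N ^ (j + 1))) := by
        rw [pow_succ (2 : ℝ)]
        ring
      have e3 : 0 ≤ E * ((2 : ℝ) ^ j * (N : ℝ) ^ (j + 1)) := by positivity
      rw [e1, e2]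
      linarith
  have b5 : (N : ℝ) ^ k ≤ N ^ (k + 1) / Λ := by
    rw [le_div_iff₀ hΛ0, pow_succ]
    exact mul_le_mul_of_nonneg_left hlogK (by positivity)
  have hq : Qc Q N k = SL N k fun δ => ((Q.filter fun p => Cu (· ∈ Q) δ p).card : ℝ) := rfl
  have g1 : (N : ℝ) * ∑ e ∈ En k, SL N k (fun δ => (if Lf e δ = 0 then (1 : ℝ) else 0)) ≤
      E * 2 ^ k * (N ^ (k + 1) / Λ) := by
    calc (N : ℝ) * ∑ e ∈ En k, SL N k (fun δ => (if Lf e δ = 0 then (1 : ℝ) else 0))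
        ≤ (N : ℝ) * (E * (2 * N) ^ (k - 1)) := mul_le_mul_of_nonneg_left b1 (Nat.cast_nonneg _)
      _ ≤ E * 2 ^ k * N ^ k := b4
      _ ≤ E * 2 ^ k * (N ^ (k + 1) / Λ) := mul_le_mul_of_nonneg_left b5 (by positivity)
  have g2 : C₀ * ((N : ℝ) / Λ) * ((2 * (N : ℝ) - 1) ^ k * 1 + ∑ e ∈ En k, SL N k (fun δ =>
      (if Lf e δ = 0 then (0 : ℝ) else psi (Lf e δ).natAbs ^ (2 ^ k * (En k).card)))) ≤
      C₀ * (2 ^ k + E * C₁) * (N ^ (k + 1) / Λ) := by
    calc C₀ * ((N : ℝ) / Λ) * ((2 * (N : ℝ) - 1) ^ k * 1 + ∑ e ∈ En k, SL N k (fun δ =>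
          (if Lf e δ = 0 then (0 : ℝ) else psi (Lf e δ).natAbs ^ (2 ^ k * (En k).card))))
        ≤ C₀ * ((N : ℝ) / Λ) * (2 ^ k * N ^ k + E * (C₁ * N ^ k)) :=
          mul_le_mul_of_nonneg_left (add_le_add b3 b2) (by positivity)
      _ = C₀ * (2 ^ k + E * C₁) * (N ^ (k + 1) / Λ) := by
          rw [pow_succ]
          ring
  rw [hq]
  calc (SL N k fun δ => ((Q.filter fun p => Cu (· ∈ Q) δ p).card : ℝ)) ≤ _ := hsum
    _ ≤ E * 2 ^ k * (N ^ (k + 1) / Λ) + C₀ * (2 ^ k + E * C₁) * (N ^ (k + 1) / Λ) := add_le_add g1 g2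
    _ = (E * 2 ^ k + C₀ * (2 ^ k + E * C₁)) * (N ^ (k + 1) / Λ) := by ring

end ELG
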