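import Pool.Agent.ELG.PsM

/-!
# ELG-CubM: averages over the increments of a cube

PLAN.  Both by induction on `k` for a fixed `e ∈ Sg k`, `e ≠ 0`: `SL N (k+1) F = SL N k (fun δ => ∑_d F (d :: δ))` (`SL_sum`).  If the first entry `a` of `e` is `± 1`: for fixed `δ` the values `a d + Lf e' δ` are pairwise different and at most `(k+1) N` in absolute
value: `lin_mom`: at most `2 ∑_{n ≤ (k+1) N} psi n ^ s ≤ C N` (`psi_moment`); `lin_zero`: at most one `d`; times `SL N k 1 ≤ (2N)^k`.  If `a = 0`: the induction hypothesis times `2 N`.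
-/

set_option autoImplicit false

namespace ELG

open Finset

private theorem SL_z (N r : ℕ) : SL N r (fun _ => (0 : ℝ)) = 0 := by
  have h := SL_smul N r 0 (fun _ => (0 : ℝ))
  simpa using h

private theorem SL_nn {N r : ℕ} {F : List ℤ → ℝ} (h : ∀ δ, 0 ≤ F δ) : 0 ≤ SL N r F := by
  rw [← SL_z N r]
  exact SL_mono fun δ _ _ => h δ

private theorem Sg_cons {k : ℕ} {e : List ℤ} (he : e ∈ Sg (k + 1)) :
    ∃ a : ℤ, ∃ e' ∈ Sg k, e = a :: e' ∧ (a = 0 ∨ a = 1 ∨ a = -1) := by
  unfold Sg at he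
  rw [mem_union, mem_union, mem_image, mem_image, mem_image] at he
  rcases he with (⟨e', h, rfl⟩ | ⟨e', h, rfl⟩) | ⟨e', h, rfl⟩
  · exact ⟨-1, e', h, rfl, Or.inr (Or.inr rfl)⟩
  · exact ⟨0, e', h, rfl, Or.inl rfl⟩
  · exact ⟨1, e', h, rfl, Or.inr (Or.inl rfl)⟩

private theorem En_cons {k : ℕ} {e : List ℤ} (he : e ∈ En (k + 1)) :
    (∃ e' ∈ En k, e = 0 :: e') ∨ ∃ a : ℤ, ∃ e' ∈ Sg k, e = a :: e' ∧ (a = 1 ∨ a = -1) := by
  unfold En at he
  rw [mem_filter] at he
  obtain ⟨h1, h2⟩ := he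
  obtain ⟨a, e', h3, rfl, h4⟩ := Sg_cons h1
  rcases h4 with rfl | h4
  · left
    refine ⟨e', ?_, rfl⟩
    unfold En
    rw [mem_filter]
    refine ⟨h3, ?_⟩
    obtain ⟨b, hb, hb0⟩ := h2
    rw [List.mem_cons] at hb
    rcases hb with rfl | hb
    · exact absurd rfl hb0
    · exact ⟨b, hb, hb0⟩
  · right
    exact ⟨a, e', h3, rfl, h4⟩

private theorem En_zero {e : List ℤ} (he : e ∈ En 0) : False := by
  unfold En Sg at he
  rw [mem_filter, mem_singleton] at he
  obtain ⟨rfl, a, ha, _⟩ := he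
  simp at ha

private theorem Lf_bd (N : ℕ) : ∀ (k : ℕ) (e : List ℤ), e ∈ Sg k → ∀ δ : List ℤ, δ.length = k →
    (∀ d ∈ δ, -(N : ℤ) < d ∧ d < N) → |Lf e δ| ≤ k * N := by
  intro k
  induction k with
  | zero =>
    intro e he δ hδ _
    have h1 : e = [] := by
      unfold Sg at he
      exact mem_singleton.1 he
    rw [List.length_eq_zero_iff] at hδ
    rw [h1, hδ]
    simp [Lf]
  | succ k ih =>
    intro e he δ hδ hd
    obtain ⟨a, e', h3, rfl, h4⟩ := Sg_cons he
    match δ, hδ, hd with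
    | d :: δ', hδ, hd =>
      have h5 := ih e' h3 δ' (by simpa using hδ) fun x hx => hd x (by simp [hx])
      have h6 := hd d (by simp)
      show |a * d + Lf e' δ'| ≤ _
      rw [abs_le] at h5 ⊢
      push_cast
      rcases h4 with rfl | rfl | rfl
      · constructor
        · nlinarith [h5.1]
        · nlinarith [h5.2]
      · constructor
        · nlinarith [h5.1]
        · nlinarith [h5.2]
      · constructor
        · nlinarith [h5.1]
        · nlinarith [h5.2]

private theorem sum_inj_le {A : Finset ℤ} {φ : ℤ → ℕ} {X : ℕ} {g : ℕ → ℝ} (hg : ∀ n, 0 ≤ g n)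
    (hi : Set.InjOn φ A) (hm : ∀ d ∈ A, φ d ∈ Icc 1 X) : ∑ d ∈ A, g (φ d) ≤ ∑ n ∈ Icc 1 X, g n := by
  rw [← sum_image (f := g) hi]
  refine sum_le_sum_of_subset_of_nonneg ?_ fun n _ _ => hg n
  intro n hn
  rw [mem_image] at hn
  obtain ⟨d, hd, rfl⟩ := hn
  exact hm d hd

private theorem one_dim {N X : ℕ} {a c : ℤ} (ha : a = 1 ∨ a = -1) (hX : |c| + N ≤ X) {g : ℕ → ℝ} (hg : ∀ n, 0 ≤ g n) :
    (∑ d ∈ Ioo (-(N : ℤ)) N, if a * d + c = 0 then 0 else g (a * d + c).natAbs) ≤ 2 * ∑ n ∈ Icc 1 X, g n := by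
  have hc := abs_le.1 (le_refl |c|)
  have h1 : (∑ d ∈ Ioo (-(N : ℤ)) N, if a * d + c = 0 then 0 else g (a * d + c).natAbs) =
      ∑ d ∈ (Ioo (-(N : ℤ)) N).filter (fun d => 0 < a * d + c), g (a * d + c).natAbs +
        ∑ d ∈ (Ioo (-(N : ℤ)) N).filter (fun d => a * d + c < 0), g (a * d + c).natAbs := by
    rw [sum_filter, sum_filter, ← sum_add_distrib]
    refine sum_congr rfl fun d _ => ?_
    rcases lt_trichotomy (a * d + c) 0 with h | h | h
    · rw [if_neg h.ne, if_neg (not_lt.2 h.le), if_pos h, zero_add]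
    · rw [if_pos h, if_neg (by omega), if_neg (by omega), add_zero]
    · rw [if_neg h.ne', if_pos h, if_neg (not_lt.2 h.le), add_zero]
  rw [h1, two_mul]
  refine add_le_add (sum_inj_le hg ?_ ?_) (sum_inj_le hg ?_ ?_)
  · intro x hx y hy hxy
    rw [mem_coe, mem_filter] at hx hy
    have h2 := hx.2
    have h3 := hy.2
    have h4 : (a * x + c).natAbs = (a * y + c).natAbs := hxy
    rcases ha with rfl | rfl <;> omega
  · intro x hx
    rw [mem_filter, mem_Ioo] at hx
    have h2 := hx.2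
    rw [mem_Icc]
    rcases ha with rfl | rfl <;> omega
  · intro x hx y hy hxy
    rw [mem_coe, mem_filter] at hx hy
    have h2 := hx.2
    have h3 := hy.2
    have h4 : (a * x + c).natAbs = (a * y + c).natAbs := hxy
    rcases ha with rfl | rfl <;> omega
  · intro x hx
    rw [mem_filter, mem_Ioo] at hx
    have h2 := hx.2
    rw [mem_Icc]
    rcases ha with rfl | rfl <;> omega

private theorem SL_one_le (k N : ℕ) (hN : 1 ≤ N) {c : ℝ} (hc : 0 ≤ c) : SL N k (fun _ => c) ≤ (2 * N) ^ k * c := by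
  rw [SL_const N k hN]
  have h5 : (1 : ℝ) ≤ N := by exact_mod_cast hN
  exact mul_le_mul_of_nonneg_right (pow_le_pow_left₀ (by linarith) (by linarith) k) hc

private theorem SL_outer (N k : ℕ) (hN : 1 ≤ N) {F : List ℤ → ℝ} (hF : ∀ δ, 0 ≤ F δ) :
    (∑ _d ∈ Ioo (-(N : ℤ)) N, SL N k F) ≤ 2 * N * SL N k F := by
  rw [sum_const, nsmul_eq_mul, Int.card_Ioo]
  have h1 : ((N : ℤ) - -(N : ℤ) - 1).toNat ≤ 2 * N := by omega
  have h2 : ((((N : ℤ) - -(N : ℤ) - 1).toNat : ℕ) : ℝ) ≤ 2 * N := by exact_mod_cast h1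
  exact mul_le_mul_of_nonneg_right h2 (SL_nn hF)

open Classical in
theorem lin_mom (k s : ℕ) : ∃ C : ℝ, 0 < C ∧ ∀ N : ℕ, 1 ≤ N → ∀ e ∈ En k,
    SL N k (fun δ => if Lf e δ = 0 then 0 else psi (Lf e δ).natAbs ^ s) ≤ C * N ^ k := by
  obtain ⟨C', hC', hm⟩ := psi_moment s
  have hpsi : ∀ n : ℕ, 0 ≤ psi n ^ s := fun n => pow_nonneg (zero_le_one.trans (one_le_psi n)) s
  induction k with
  | zero => exact ⟨1, one_pos, fun N _ e he => (En_zero he).elim⟩
  | succ k ih =>
    obtain ⟨C, hC, h⟩ := ih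
    refine ⟨2 * C + 2 ^ k * (2 * (C' * (k + 1))), by positivity, ?_⟩
    intro N hN e he
    have hNp : (0 : ℝ) ≤ N := Nat.cast_nonneg N
    rcases En_cons he with ⟨e', he', rfl⟩ | ⟨a, e', he', rfl, ha⟩
    · have h1 : SL N (k + 1) (fun δ => if Lf (0 :: e') δ = 0 then 0 else psi (Lf (0 :: e') δ).natAbs ^ s) =
          ∑ _d ∈ Ioo (-(N : ℤ)) N, SL N k (fun δ => if Lf e' δ = 0 then 0 else psi (Lf e' δ).natAbs ^ s) := by
        show (∑ d ∈ Ioo (-(N : ℤ)) N, SL N k (fun δ => if 0 * d + Lf e' δ = 0 then 0 else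
          psi (0 * d + Lf e' δ).natAbs ^ s)) = _
        refine sum_congr rfl fun d _ => ?_
        simp only [zero_mul, zero_add]
      rw [h1]
      refine (SL_outer N k hN ?_).trans ?_
      · intro δ
        split_ifs
        · exact le_rfl
        · exact hpsi _
      · have h2 := h N hN e' he'
        have h3 : 2 * (N : ℝ) * SL N k (fun δ => if Lf e' δ = 0 then 0 else psi (Lf e' δ).natAbs ^ s) ≤
            2 * N * (C * N ^ k) := mul_le_mul_of_nonneg_left h2 (by positivity)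
        refine h3.trans ?_
        have h4 : 0 ≤ 2 ^ k * (2 * (C' * (k + 1))) * (N : ℝ) ^ (k + 1) := by positivity
        calc 2 * (N : ℝ) * (C * N ^ k) = 2 * C * N ^ (k + 1) := by ring
          _ ≤ (2 * C + 2 ^ k * (2 * (C' * (k + 1)))) * N ^ (k + 1) := by rw [add_mul]; linarith
    · have h1 : SL N (k + 1) (fun δ => if Lf (a :: e') δ = 0 then 0 else psi (Lf (a :: e') δ).natAbs ^ s) =
          SL N k (fun δ => ∑ d ∈ Ioo (-(N : ℤ)) N, if a * d + Lf e' δ = 0 then 0 else
            psi (a * d + Lf e' δ).natAbs ^ s) := by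
        rw [SL_sum]
        rfl
      rw [h1]
      have h2 : SL N k (fun δ => ∑ d ∈ Ioo (-(N : ℤ)) N, if a * d + Lf e' δ = 0 then 0 else
            psi (a * d + Lf e' δ).natAbs ^ s) ≤ SL N k (fun _ => 2 * (C' * ((k + 1) * N))) := by
        refine SL_mono fun δ hl hd => ?_
        have h3 := Lf_bd N k e' he' δ hl hd
        have h4 : |Lf e' δ| + (N : ℤ) ≤ (((k + 1) * N : ℕ) : ℤ) := by
          push_cast
          nlinarith
        refine (one_dim ha h4 (g := fun n => psi n ^ s) hpsi).trans ?_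
        have h5 := hm ((k + 1) * N)
        push_cast at h5
        linarith
      refine h2.trans ((SL_one_le k N hN (by positivity)).trans ?_)
      have h6 : 0 ≤ 2 * C * (N : ℝ) ^ (k + 1) := by positivity
      calc (2 * (N : ℝ)) ^ k * (2 * (C' * ((k + 1) * N))) = 2 ^ k * (2 * (C' * (k + 1))) * N ^ (k + 1) := by
            rw [mul_pow]
            ring
        _ ≤ (2 * C + 2 ^ k * (2 * (C' * (k + 1)))) * N ^ (k + 1) := by rw [add_mul]; linarith

open Classical in
theorem lin_zero (k : ℕ) (N : ℕ) (hN : 1 ≤ N) {e : List ℤ} (he : e ∈ En k) :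
    SL N k (fun δ => if Lf e δ = 0 then 1 else 0) ≤ (2 * N) ^ (k - 1) := by
  have hN1 : (1 : ℝ) ≤ N := by exact_mod_cast hN
  induction k generalizing e with
  | zero => exact (En_zero he).elim
  | succ k ih =>
    rw [Nat.add_sub_cancel]
    rcases En_cons he with ⟨e', he', rfl⟩ | ⟨a, e', he', rfl, ha⟩
    · have h1 : SL N (k + 1) (fun δ => if Lf (0 :: e') δ = 0 then 1 else 0) =
          ∑ _d ∈ Ioo (-(N : ℤ)) N, SL N k (fun δ => if Lf e' δ = 0 then 1 else 0) := by
        show (∑ d ∈ Ioo (-(N : ℤ)) N, SL N k (fun δ => if 0 * d + Lf e' δ = 0 then 1 else 0)) = _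
        refine sum_congr rfl fun d _ => ?_
        simp only [zero_mul, zero_add]
      rw [h1]
      refine (SL_outer N k hN ?_).trans ?_
      · intro δ
        split_ifs
        · exact zero_le_one
        · exact le_rfl
      · have h2 := ih he'
        match k, he', h2 with
        | 0, he', _ => exact (En_zero he').elim
        | k + 1, _, h2 =>
          rw [Nat.add_sub_cancel] at h2
          refine (mul_le_mul_of_nonneg_left h2 (by positivity)).trans (le_of_eq ?_)
          ring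
    · have h1 : SL N (k + 1) (fun δ => if Lf (a :: e') δ = 0 then 1 else 0) =
          SL N k (fun δ => ∑ d ∈ Ioo (-(N : ℤ)) N, if a * d + Lf e' δ = 0 then 1 else 0) := by
        rw [SL_sum]
        rfl
      rw [h1]
      have h2 : SL N k (fun δ => ∑ d ∈ Ioo (-(N : ℤ)) N, if a * d + Lf e' δ = 0 then 1 else 0) ≤
          SL N k (fun _ => 1) := by
        refine SL_mono fun δ _ _ => ?_
        rw [← sum_filter, sum_const, nsmul_eq_mul, mul_one]
        have h3 : ((Ioo (-(N : ℤ)) N).filter fun d => a * d + Lf e' δ = 0).card ≤ 1 := by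
          rw [card_le_one]
          intro x hx y hy
          rw [mem_filter] at hx hy
          have h4 := hx.2
          have h5 := hy.2
          rcases ha with rfl | rfl <;> omega
        exact_mod_cast h3
      refine h2.trans ((SL_one_le k N hN zero_le_one).trans (le_of_eq ?_))
      rw [mul_one]

end ELG
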