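import Pool.Agent.Helper24.SieveDensity

/-!
# ELG-FsK: powers of sums over squarefree numbers
-/

set_option autoImplicit false

namespace ELG

open Finset Pool.Agent.Helper24

/-- products over the prime factors -/
private noncomputable def fsG (g : ℕ → ℝ) (a : ℕ) : ℝ := ∏ p ∈ a.primeFactors, g p

/-- sums over pairs of divisors with given lcm -/
private noncomputable def fsL (g : ℕ → ℝ) (n : ℕ) : ℝ :=
  ∑ a ∈ n.divisors, ∑ b ∈ n.divisors, if a.lcm b = n then fsG g a * fsG g b else 0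

private theorem fs_sum (g : ℕ → ℝ) {n : ℕ} (hn : n ≠ 0) :
    ∑ l ∈ n.divisors, fsL g l = (∑ a ∈ n.divisors, fsG g a) ^ 2 := by
  have h1 : ∀ l ∈ n.divisors, fsL g l = ∑ a ∈ n.divisors, ∑ b ∈ n.divisors,
      if a.lcm b = l then fsG g a * fsG g b else 0 := by
    intro l hl
    have hld := Nat.dvd_of_mem_divisors hl
    have hsub : l.divisors ⊆ n.divisors := Nat.divisors_subset_of_dvd hn hld
    have hl0 : l ≠ 0 := ne_zero_of_dvd_ne_zero hn hld
    rw [fsL]
    have e1 : ∀ a ∈ l.divisors, (∑ b ∈ l.divisors,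
        if a.lcm b = l then fsG g a * fsG g b else 0) =
        ∑ b ∈ n.divisors, if a.lcm b = l then fsG g a * fsG g b else 0 := by
      intro a _
      refine sum_subset hsub fun b _ hb => ?_
      rw [if_neg]
      intro h
      exact hb (Nat.mem_divisors.2 ⟨h ▸ Nat.dvd_lcm_right a b, hl0⟩)
    rw [sum_congr rfl e1]
    refine sum_subset hsub fun a _ ha => ?_
    refine sum_eq_zero fun b _ => ?_
    rw [if_neg]
    intro h
    exact ha (Nat.mem_divisors.2 ⟨h ▸ Nat.dvd_lcm_left a b, hl0⟩)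
  rw [sum_congr rfl h1, sum_comm, sq, sum_mul]
  refine sum_congr rfl fun a ha => ?_
  rw [sum_comm, mul_sum]
  refine sum_congr rfl fun b hb => ?_
  rw [sum_ite_eq_of_mem]
  rw [Nat.mem_divisors]
  exact ⟨Nat.lcm_dvd (Nat.dvd_of_mem_divisors ha) (Nat.dvd_of_mem_divisors hb), hn⟩

private theorem fs_eq (g : ℕ → ℝ) {n : ℕ} (hn : Squarefree n) :
    fsL g n = ∏ p ∈ n.primeFactors, (2 * g p + g p ^ 2) := by
  induction n using Nat.strong_induction_on with
  | _ n ih =>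
    have hn0 := hn.ne_zero
    have h1 := fs_sum g hn0
    set f2 : ArithmeticFunction ℝ :=
      ArithmeticFunction.prodPrimeFactors (fun p => 2 * g p + g p ^ 2) with hf2
    set f1 : ArithmeticFunction ℝ :=
      ArithmeticFunction.prodPrimeFactors g with hf1
    have hv2 : ∀ p : ℕ, p.Prime → f2 p = 2 * g p + g p ^ 2 := by
      intro p hp
      rw [hf2, ArithmeticFunction.prodPrimeFactors_apply hp.ne_zero, hp.primeFactors,
        prod_singleton]
    have hv1 : ∀ p : ℕ, p.Prime → f1 p = g p := by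
      intro p hp
      rw [hf1, ArithmeticFunction.prodPrimeFactors_apply hp.ne_zero, hp.primeFactors,
        prod_singleton]
    have h2 := (ArithmeticFunction.IsMultiplicative.prodPrimeFactors
      (fun p : ℕ => 2 * g p + g p ^ 2)).prodPrimeFactors_one_add_of_squarefree hn
    have h3 := (ArithmeticFunction.IsMultiplicative.prodPrimeFactors
      g).prodPrimeFactors_one_add_of_squarefree hn
    rw [← hf2] at h2
    rw [← hf1] at h3
    have h4 : ∑ a ∈ n.divisors, fsG g a = ∏ p ∈ n.primeFactors, (1 + f1 p) := by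
      rw [h3]
      refine sum_congr rfl fun a ha => ?_
      have had := Nat.dvd_of_mem_divisors ha
      rw [hf1, ArithmeticFunction.prodPrimeFactors_apply (ne_zero_of_dvd_ne_zero hn0 had), fsG]
    have h5 : (∏ p ∈ n.primeFactors, (1 + f1 p)) ^ 2 = ∏ p ∈ n.primeFactors, (1 + f2 p) := by
      rw [← prod_pow]
      refine prod_congr rfl fun p hp => ?_
      rw [hv1 p (Nat.prime_of_mem_primeFactors hp), hv2 p (Nat.prime_of_mem_primeFactors hp)]
      ring
    rw [h4, h5, h2] at h1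
    have h6 : ∀ l ∈ n.divisors.erase n, fsL g l = f2 l := by
      intro l hl
      rw [mem_erase] at hl
      have hld := Nat.dvd_of_mem_divisors hl.2
      have hlt : l < n := lt_of_le_of_ne (Nat.le_of_dvd (Nat.pos_of_ne_zero hn0) hld) hl.1
      rw [ih l hlt (hn.squarefree_of_dvd hld), hf2,
        ArithmeticFunction.prodPrimeFactors_apply (ne_zero_of_dvd_ne_zero hn0 hld)]
    have hmem : n ∈ n.divisors := Nat.mem_divisors_self n hn0
    rw [← add_sum_erase _ _ hmem, ← add_sum_erase _ (fun l => f2 l) hmem, sum_congr rfl h6] at h1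
    have h7 : fsL g n = f2 n := by linarith
    rw [h7, hf2, ArithmeticFunction.prodPrimeFactors_apply hn0]

theorem sq_Fsum_le (Z : ℕ) {g : ℕ → ℝ} (hg : ∀ p, 0 ≤ g p) :
    Fsum Z g ^ 2 ≤ Fsum (Z ^ 2) fun p => 2 * g p + g p ^ 2 := by
  classical
  have hG : ∀ a, 0 ≤ fsG g a := fun a => prod_nonneg fun p _ => hg p
  have h0 : Fsum Z g = ∑ a ∈ sqf Z, fsG g a := rfl
  rw [h0, sq, sum_mul_sum, ← sum_product']
  have h1 : Fsum (Z ^ 2) (fun p => 2 * g p + g p ^ 2) = ∑ l ∈ sqf (Z ^ 2), fsL g l :=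
    sum_congr rfl fun l hl => (fs_eq g (mem_sqf.1 hl).2).symm
  rw [h1]
  have hmaps : ∀ x ∈ sqf Z ×ˢ sqf Z, x.1.lcm x.2 ∈ sqf (Z ^ 2) := by
    intro x hx
    rw [mem_product, mem_sqf, mem_sqf] at hx
    obtain ⟨⟨⟨a1, a2⟩, a3⟩, ⟨b1, b2⟩, b3⟩ := hx
    rw [mem_sqf]
    refine ⟨⟨Nat.lcm_pos a1 b1, ?_⟩, ?_⟩
    · calc x.1.lcm x.2 ≤ x.1 * x.2 := Nat.div_le_self _ _
        _ ≤ Z * Z := Nat.mul_le_mul a2 b2
        _ = Z ^ 2 := (sq Z).symm
    · have hl0 : x.1.lcm x.2 ≠ 0 := (Nat.lcm_pos a1 b1).ne'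
      refine (Nat.squarefree_iff_factorization_le_one hl0).2 fun p => ?_
      have ha0 : x.1 ≠ 0 := by omega
      have hb0 : x.2 ≠ 0 := by omega
      rw [Nat.factorization_lcm ha0 hb0, Finsupp.sup_apply]
      exact sup_le ((Nat.squarefree_iff_factorization_le_one ha0).1 a3 p)
        ((Nat.squarefree_iff_factorization_le_one hb0).1 b3 p)
  rw [← sum_fiberwise_of_maps_to hmaps]
  refine sum_le_sum fun l hl => ?_
  have hl0 : l ≠ 0 := (mem_sqf.1 hl).2.ne_zero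
  rw [fsL, ← sum_product', ← sum_filter]
  refine sum_le_sum_of_subset_of_nonneg ?_ fun _ _ _ => mul_nonneg (hG _) (hG _)
  intro x hx
  rw [mem_filter] at hx ⊢
  refine ⟨?_, hx.2⟩
  rw [mem_product, Nat.mem_divisors, Nat.mem_divisors]
  exact ⟨⟨hx.2 ▸ Nat.dvd_lcm_left _ _, hl0⟩, hx.2 ▸ Nat.dvd_lcm_right _ _, hl0⟩

private theorem fs_pos (k p : ℕ) : 0 ≤ (1 + 1 / (p : ℝ)) ^ (2 ^ k) - 1 := by
  have h1 : (1 : ℝ) ≤ 1 + 1 / (p : ℝ) := by
    have : 0 ≤ 1 / (p : ℝ) := by positivity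
    linarith
  have h2 := one_le_pow₀ h1 (n := 2 ^ k)
  linarith

private theorem fs_nn (Z k : ℕ) : 0 ≤ Fsum Z (fun p => 1 / (p : ℝ)) ^ (2 ^ k) := by
  refine pow_nonneg (sum_nonneg fun l _ => prod_nonneg fun p _ => ?_) _
  positivity

theorem pow_Fsum_le (Z k : ℕ) : Fsum Z (fun p => 1 / (p : ℝ)) ^ (2 ^ k) ≤
    Fsum (Z ^ (2 ^ k)) fun p => (1 + 1 / (p : ℝ)) ^ (2 ^ k) - 1 := by
  induction k with
  | zero =>
    rw [pow_zero, pow_one, pow_one]
    refine le_of_eq ?_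
    congr 1
    funext p
    ring
  | succ k ih =>
    have h1 := sq_Fsum_le (Z ^ (2 ^ k)) (g := fun p => (1 + 1 / (p : ℝ)) ^ (2 ^ k) - 1)
      (fun p => fs_pos k p)
    have h2 : (fun p : ℕ => 2 * ((1 + 1 / (p : ℝ)) ^ (2 ^ k) - 1) +
        ((1 + 1 / (p : ℝ)) ^ (2 ^ k) - 1) ^ 2) = fun p : ℕ => (1 + 1 / (p : ℝ)) ^ (2 ^ (k + 1)) - 1 := by
      funext p
      rw [pow_succ 2 k, pow_mul]
      ring
    have h3 : (Z ^ (2 ^ k)) ^ 2 = Z ^ (2 ^ (k + 1)) := by rw [pow_succ 2 k, pow_mul]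
    rw [h3, h2] at h1
    have h4 : Fsum Z (fun p => 1 / (p : ℝ)) ^ (2 ^ (k + 1)) =
        (Fsum Z (fun p => 1 / (p : ℝ)) ^ (2 ^ k)) ^ 2 := by rw [pow_succ 2 k, pow_mul]
    rw [h4]
    exact (pow_le_pow_left₀ (fs_nn Z k) ih 2).trans h1

end ELG
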