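import Pool.Agent.ELG.CubV
import Pool.Agent.ELG.FsK
import Pool.Agent.Helper24.ResidueSieve

/-!
# ELG-CubS: upper bound sieve for cubes of primes with given increments

PLAN.  `K = 2^k`, `Ω q = Om δ q` if `q > K`, `∅` otherwise (`Om_card_le < q`).  `residue_sieve` with `A = 0`, `M = N`, `B` = the `p` (as natural numbers), `Y = ⌊N^(1/12)⌋`: for `q ≤ Y < N/4` prime and `v ∈ Vs δ` the prime `p + v ≥ N/4` is not divisible by `q` (`Om_not`).
`G := ∑_{l ≤ Y} hterm Ω l = Fsum Y (|Ω q|/(q - |Ω q|))`.  Let `S = {q ≤ K} ∪ primeFactors (Dif δ)` (primes).  For `q ∉ S`: `|Ω q|/(q - |Ω q|) = K/(q - K) ≥ (1 + 1/q)^K - 1` (`(1 + 1/q)^K ≤ exp (K/q) ≤ 1/(1 - K/q)`).  `Fsum_add_le`: `Fsum Y ((1 + 1/q)^K - 1) ≤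
∏_{q ∈ S} (1 + 1/q)^K * G`, and `Fsum Y (..) ≥ Fsum (Z^K) (..) ≥ (log Z / 2)^K` (`pow_Fsum_le`, `log_le_two_mul_Fsum_inv`, `Z = ⌊Y^(1/K)⌋`, `Fsum` is monotone in `Y`).  `Y^6 ≤ N^(1/2) ≤ N/(log N)^K` for large `N`.
-/

set_option autoImplicit false

namespace ELG

open Finset Pool.Agent.Helper24

/-- `∏_{q ∣ n} (1 + 1/q)`. -/
noncomputable def psi (n : ℕ) : ℝ := ∏ q ∈ n.primeFactors, (1 + 1 / (q : ℝ))

private theorem cs_one_le {f : ℕ → ℝ} (S : Finset ℕ) (h : ∀ q, 1 ≤ f q) : 1 ≤ ∏ q ∈ S, f q :=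
  Finset.prod_induction f (fun x => 1 ≤ x) (fun _ _ ha hb => one_le_mul_of_one_le_of_one_le ha hb)
    le_rfl fun q _ => h q

private theorem cs_psi {n : ℕ} : 1 ≤ psi n := by
  unfold psi
  refine cs_one_le _ fun q => ?_
  have : (0 : ℝ) ≤ 1 / (q : ℝ) := by positivity
  linarith

private theorem cs_bern {K q : ℕ} (h : K < q) :
    (1 + 1 / (q : ℝ)) ^ K - 1 ≤ (K : ℝ) / ((q : ℝ) - K) := by
  have hq : (0 : ℝ) < q := by
    have : 0 < q := by omega
    exact_mod_cast this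
  have hKq : (K : ℝ) < q := by exact_mod_cast h
  have hd : 0 < (q : ℝ) - K := by linarith
  have h1q : (1 : ℝ) ≤ q := by
    have : 1 ≤ q := by omega
    exact_mod_cast this
  have hi : 1 / (q : ℝ) ≤ 1 := by
    rw [div_le_one hq]
    exact h1q
  have hB : 1 - (K : ℝ) / q ≤ (1 - 1 / (q : ℝ)) ^ K := by
    have h1 := one_add_mul_le_pow (a := -(1 / (q : ℝ))) (by linarith) K
    have e1 : (1 : ℝ) + -(1 / (q : ℝ)) = 1 - 1 / (q : ℝ) := by ring
    rw [e1] at h1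
    refine le_trans (le_of_eq ?_) h1
    ring
  have hp : (1 + 1 / (q : ℝ)) ^ K * (1 - 1 / (q : ℝ)) ^ K ≤ 1 := by
    rw [← mul_pow]
    refine pow_le_one₀ ?_ ?_
    · refine mul_nonneg ?_ ?_
      · positivity
      · linarith
    · have : (1 + 1 / (q : ℝ)) * (1 - 1 / (q : ℝ)) = 1 - (1 / (q : ℝ)) ^ 2 := by ring
      rw [this]
      have h2 : (0 : ℝ) ≤ (1 / (q : ℝ)) ^ 2 := by positivity
      linarith
  have h3 : (1 + 1 / (q : ℝ)) ^ K * (1 - (K : ℝ) / q) ≤ 1 :=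
    (mul_le_mul_of_nonneg_left hB (by positivity)).trans hp
  have h4 : (1 + 1 / (q : ℝ)) ^ K * ((q : ℝ) - K) ≤ q := by
    have h5 := mul_le_mul_of_nonneg_right h3 hq.le
    have e : (1 + 1 / (q : ℝ)) ^ K * (1 - (K : ℝ) / q) * q =
        (1 + 1 / (q : ℝ)) ^ K * ((q : ℝ) - K) := by
      field_simp
    rw [e, one_mul] at h5
    exact h5
  rw [le_div_iff₀ hd]
  linarith

open Classical in
/-- the forbidden residues -/
private noncomputable def cs_Om (δ : List ℤ) (K q : ℕ) : Finset ℕ := if K < q then Om δ q else ∅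

private theorem cs_Om_big {δ : List ℤ} {K q : ℕ} (h : K < q) : cs_Om δ K q = Om δ q := by
  unfold cs_Om
  rw [if_pos h]

private theorem cs_Om_small {δ : List ℤ} {K q : ℕ} (h : ¬ K < q) : cs_Om δ K q = ∅ := by
  unfold cs_Om
  rw [if_neg h]

private theorem cs_Om_ok {δ : List ℤ} {q : ℕ} (hq : 0 < q) :
    (∀ c ∈ cs_Om δ (2 ^ δ.length) q, c < q) ∧ (cs_Om δ (2 ^ δ.length) q).card < q := by
  by_cases h : 2 ^ δ.length < q
  · rw [cs_Om_big h]
    exact ⟨Om_lt hq, lt_of_le_of_lt (Om_card_le δ q) h⟩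
  · rw [cs_Om_small h]
    exact ⟨fun c hc => absurd hc (Finset.notMem_empty c), by simpa using hq⟩

private theorem cs_G {δ : List ℤ} {Z K : ℕ} {k : ℕ} (hK : K = 2 ^ k) (hδ : δ.length = k)
    (hD : Dif δ ≠ 0) :
    (Real.log Z / 2) ^ K ≤ (∏ q ∈ (Finset.range (K + 1)).filter Nat.Prime,
      (1 + 1 / (q : ℝ)) ^ K) * psi (Dif δ) ^ K *
      ∑ l ∈ (Finset.Icc 1 (Z ^ K)).filter Squarefree, hterm (cs_Om δ K) l := by
  classical
  have hK' : K = 2 ^ δ.length := by rw [hK, hδ]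
  obtain ⟨g, hg⟩ : ∃ g : ℕ → ℝ, g = fun p => ((cs_Om δ K p).card : ℝ) /
      ((p : ℝ) - (cs_Om δ K p).card) := ⟨_, rfl⟩
  have hsum : (∑ l ∈ (Finset.Icc 1 (Z ^ K)).filter Squarefree, hterm (cs_Om δ K) l) =
      Fsum (Z ^ K) g := by
    rw [hg]
    rfl
  rw [hsum]
  obtain ⟨u, hu⟩ : ∃ u : ℕ → ℝ, u = fun p : ℕ => (1 + 1 / (p : ℝ)) ^ K - 1 := ⟨_, rfl⟩
  have hu0 : ∀ p, 0 ≤ u p := by
    intro p
    rw [hu]
    have h1 : (1 : ℝ) ≤ (1 + 1 / (p : ℝ)) ^ K := by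
      refine one_le_pow₀ ?_
      have : (0 : ℝ) ≤ 1 / (p : ℝ) := by positivity
      linarith
    show 0 ≤ (1 + 1 / (p : ℝ)) ^ K - 1
    linarith
  have hg0 : ∀ p, p.Prime → p ≤ Z ^ K → 0 ≤ g p := by
    intro p hp _
    rw [hg]
    have h1 := (cs_Om_ok (δ := δ) hp.pos).2
    rw [← hK'] at h1
    have h2 : ((cs_Om δ K p).card : ℝ) < p := by exact_mod_cast h1
    exact div_nonneg (Nat.cast_nonneg _) (by linarith)
  obtain ⟨S, hS⟩ : ∃ S : Finset ℕ, S = (Finset.range (K + 1)).filter Nat.Prime ∪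
      (Dif δ).primeFactors := ⟨_, rfl⟩
  have hSp : ∀ p ∈ S, p.Prime := by
    intro p hp
    rw [hS, Finset.mem_union, Finset.mem_filter] at hp
    rcases hp with hp | hp
    · exact hp.2
    · exact Nat.prime_of_mem_primeFactors hp
  have h1 := Fsum_add_le (Z ^ K) hg0 S hSp u (fun p _ => hu0 p)
  have h2 : Fsum (Z ^ K) u ≤ Fsum (Z ^ K) (fun p => g p + if p ∈ S then u p else 0) := by
    refine Fsum_mono (Z ^ K) (fun p _ _ => hu0 p) ?_
    intro p hp hpY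
    by_cases hpS : p ∈ S
    · rw [if_pos hpS]
      have := hg0 p hp hpY
      linarith
    · rw [if_neg hpS, add_zero]
      rw [hS, Finset.mem_union, not_or] at hpS
      obtain ⟨n1, n2⟩ := hpS
      have hKp : K < p := by
        by_contra hcon
        exact n1 (Finset.mem_filter.2 ⟨Finset.mem_range.2 (by omega), hp⟩)
      have hnd : ¬ p ∣ Dif δ := by
        intro hd
        exact n2 (Nat.mem_primeFactors.2 ⟨hp, hd, hD⟩)
      have hc : (cs_Om δ K p).card = K := by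
        rw [cs_Om_big hKp, Om_card hp hnd, ← hK']
      rw [hu, hg]
      show (1 + 1 / (p : ℝ)) ^ K - 1 ≤ ((cs_Om δ K p).card : ℝ) /
        ((p : ℝ) - (cs_Om δ K p).card)
      rw [hc]
      exact cs_bern hKp
  have h3 : (Real.log Z / 2) ^ K ≤ Fsum (Z ^ K) u := by
    have h4 := pow_Fsum_le Z k
    rw [← hK] at h4
    rw [hu]
    refine le_trans ?_ h4
    have h5 := log_le_two_mul_Fsum_inv Z
    refine pow_le_pow_left₀ ?_ (by linarith) K
    have : 0 ≤ Real.log Z := Real.log_natCast_nonneg Z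
    linarith
  have h6 : ∏ p ∈ S, (1 + u p) ≤ (∏ q ∈ (Finset.range (K + 1)).filter Nat.Prime,
      (1 + 1 / (q : ℝ)) ^ K) * psi (Dif δ) ^ K := by
    have e1 : ∀ p ∈ S, 1 + u p = (1 + 1 / (p : ℝ)) ^ K := by
      intro p _
      rw [hu]
      show 1 + ((1 + 1 / (p : ℝ)) ^ K - 1) = (1 + 1 / (p : ℝ)) ^ K
      ring
    rw [Finset.prod_congr rfl e1]
    have e2 : psi (Dif δ) ^ K = ∏ q ∈ (Dif δ).primeFactors, (1 + 1 / (q : ℝ)) ^ K := by
      unfold psi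
      rw [Finset.prod_pow]
    rw [e2, hS, ← Finset.union_sdiff_self_eq_union, Finset.prod_union Finset.disjoint_sdiff]
    have hone : ∀ q : ℕ, (1 : ℝ) ≤ (1 + 1 / (q : ℝ)) ^ K := by
      intro q
      refine one_le_pow₀ ?_
      have : (0 : ℝ) ≤ 1 / (q : ℝ) := by positivity
      linarith
    refine mul_le_mul_of_nonneg_left ?_ (Finset.prod_nonneg fun q _ => by positivity)
    rw [← Finset.prod_sdiff (Finset.sdiff_subset (s := (Dif δ).primeFactors)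
      (t := (Finset.range (K + 1)).filter Nat.Prime))]
    exact le_mul_of_one_le_left (Finset.prod_nonneg fun q _ => by positivity)
      (cs_one_le _ hone)
  have hG0 : 0 ≤ Fsum (Z ^ K) g := by
    refine Finset.sum_nonneg fun l hl => Finset.prod_nonneg fun p hp => ?_
    have hl' := mem_sqf.1 hl
    exact hg0 p (Nat.prime_of_mem_primeFactors hp)
      ((Nat.le_of_dvd hl'.1.1 (Nat.dvd_of_mem_primeFactors hp)).trans hl'.1.2)
  exact h3.trans (h2.trans (h1.trans (mul_le_mul_of_nonneg_right h6 hG0)))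

open Classical in
theorem cub_sieve (k : ℕ) : ∃ C : ℝ, 0 < C ∧ ∃ N₀ : ℕ, ∀ N ≥ N₀, ∀ δ : List ℤ, δ.length = k → (∀ d ∈ δ, -(N : ℤ) < d ∧ d < N) →
    Dif δ ≠ 0 → ∀ Q : Finset ℤ, (∀ p ∈ Q, (N : ℤ) ≤ 4 * p ∧ p < N ∧ p.natAbs.Prime) →
      ((Q.filter fun p => Cu (· ∈ Q) δ p).card : ℝ) ≤ C * (N / Real.log N ^ (2 ^ k)) * psi (Dif δ) ^ (2 ^ k) := by
  obtain ⟨K, hK⟩ : ∃ K : ℕ, K = 2 ^ k := ⟨_, rfl⟩
  have hK1 : 1 ≤ K := by
    rw [hK]
    exact Nat.one_le_two_pow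
  rw [← hK]
  obtain ⟨C₁, hC₁⟩ : ∃ C₁ : ℝ, C₁ = ∏ q ∈ (Finset.range (K + 1)).filter Nat.Prime,
      (1 + 1 / (q : ℝ)) ^ K := ⟨_, rfl⟩
  have hC₁0 : 0 < C₁ := by
    rw [hC₁]
    exact Finset.prod_pos fun q _ => by positivity
  have hlog : ∀ᶠ N : ℕ in Filter.atTop, Real.log N ^ (2 * K) ≤ N := by
    have h1 := (Real.isLittleO_pow_log_id_atTop (n := 2 * K)).bound (c := 1) one_pos
    have h2 := tendsto_natCast_atTop_atTop (R := ℝ) |>.eventually h1
    filter_upwards [h2] with N hN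
    rw [one_mul] at hN
    refine (le_abs_self _).trans (hN.trans (le_of_eq ?_))
    rw [id, Real.norm_of_nonneg (Nat.cast_nonneg _)]
  obtain ⟨N₁, hN₁⟩ := Filter.eventually_atTop.1 hlog
  refine ⟨C₁ * (48 * (K : ℝ)) ^ K + 1, by positivity, max N₁ (2 ^ (24 * K)), ?_⟩
  intro N hN δ hδ _ hD Q hQ
  have hNa : N₁ ≤ N := (le_max_left _ _).trans hN
  have hNb : 2 ^ (24 * K) ≤ N := (le_max_right _ _).trans hN
  have hL := hN₁ N hNa
  have hN1 : 1 ≤ N := Nat.one_le_two_pow.trans hNb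
  have hN0 : (0 : ℝ) < N := by exact_mod_cast hN1
  have hNbR : (2 : ℝ) ^ (24 * K) ≤ N := by exact_mod_cast hNb
  have hKR : (0 : ℝ) < K := by exact_mod_cast hK1
  -- the root
  obtain ⟨w, hw0, hwN⟩ : ∃ w : ℝ, 0 ≤ w ∧ w ^ (24 * K) = N := by
    refine ⟨(N : ℝ) ^ (1 / ((24 * K : ℕ) : ℝ)), Real.rpow_nonneg hN0.le _, ?_⟩
    rw [← Real.rpow_natCast, ← Real.rpow_mul hN0.le, one_div_mul_cancel, Real.rpow_one]
    have : 24 * K ≠ 0 := by omega
    exact_mod_cast this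
  have hw2 : 2 ≤ w := by
    by_contra hcon
    rw [not_le] at hcon
    have h1 := pow_lt_pow_left₀ hcon hw0 (n := 24 * K) (by omega)
    rw [hwN] at h1
    linarith
  have hlogN : Real.log N = 24 * K * Real.log w := by
    rw [← hwN, Real.log_pow]
    push_cast
    ring
  have hlw : 0 < Real.log w := Real.log_pos (by linarith)
  have hlN : 0 < Real.log N := by
    rw [hlogN]
    positivity
  obtain ⟨Z, hZ⟩ : ∃ Z : ℕ, Z = ⌊w ^ 2⌋₊ := ⟨_, rfl⟩
  have hZ1 : (Z : ℝ) ≤ w ^ 2 := by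
    rw [hZ]
    exact Nat.floor_le (by positivity)
  have hZ2 : w ≤ Z := by
    have h1 := Nat.lt_floor_add_one (w ^ 2)
    rw [← hZ] at h1
    nlinarith
  have hZp : 1 ≤ Z := by
    have : (1 : ℝ) ≤ Z := by linarith
    exact_mod_cast this
  have hY1 : 1 ≤ Z ^ K := Nat.one_le_pow _ _ hZp
  have hY : ((Z ^ K : ℕ) : ℝ) ≤ w ^ (2 * K) := by
    push_cast
    rw [pow_mul]
    exact pow_le_pow_left₀ (Nat.cast_nonneg _) hZ1 K
  have hY4 : 4 * ((Z ^ K : ℕ) : ℝ) < N := by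
    have h1 : (2 : ℝ) ^ (22 * K) ≤ w ^ (22 * K) := pow_le_pow_left₀ (by norm_num) hw2 _
    have h2 : (2 : ℝ) ^ 22 ≤ (2 : ℝ) ^ (22 * K) :=
      pow_le_pow_right₀ (by norm_num) (by omega)
    have h3 : (N : ℝ) = w ^ (2 * K) * w ^ (22 * K) := by
      rw [← pow_add, ← hwN]
      congr 1
      omega
    have h4 : 0 < w ^ (2 * K) := by positivity
    have h5 : (2 : ℝ) ^ 22 = 4194304 := by norm_num
    rw [h3]
    have h6 : w ^ (2 * K) * 4194304 ≤ w ^ (2 * K) * w ^ (22 * K) :=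
      mul_le_mul_of_nonneg_left (by linarith) h4.le
    linarith
  have hQpos : ∀ p ∈ Q, 1 ≤ p := by
    intro p hp
    have h1 := (hQ p hp).1
    omega
  obtain ⟨F, hF⟩ : ∃ F : Finset ℤ, F = Q.filter fun p => Cu (· ∈ Q) δ p := ⟨_, rfl⟩
  have hFmem : ∀ p ∈ F, p ∈ Q ∧ ∀ v ∈ Vs δ, p + v ∈ Q := by
    intro p hp
    rw [hF, Finset.mem_filter] at hp
    exact ⟨hp.1, (Cu_iff _ δ p).1 hp.2⟩
  rw [← hF]
  obtain ⟨B, hB⟩ : ∃ B : Finset ℕ, B = F.image Int.toNat := ⟨_, rfl⟩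
  have hBc : B.card = F.card := by
    rw [hB]
    refine Finset.card_image_of_injOn ?_
    intro p hp p' hp' he
    have h1 := hQpos p (hFmem p hp).1
    have h2 := hQpos p' (hFmem p' hp').1
    have h3 : p.toNat = p'.toNat := he
    omega
  have hBmem : ∀ m ∈ B, ∃ p ∈ F, (m : ℤ) = p := by
    intro m hm
    rw [hB, Finset.mem_image] at hm
    obtain ⟨p, hp, rfl⟩ := hm
    exact ⟨p, hp, Int.toNat_of_nonneg (by linarith [hQpos p (hFmem p hp).1])⟩
  have hB1 : B ⊆ Finset.Ioc 0 (0 + N) := by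
    intro m hm
    obtain ⟨p, hp, hmp⟩ := hBmem m hm
    have h1 := hQpos p (hFmem p hp).1
    have h2 := (hQ p (hFmem p hp).1).2.1
    rw [Finset.mem_Ioc]
    omega
  have hK' : K = 2 ^ δ.length := by rw [hK, hδ]
  have hΩ : ∀ p, Nat.Prime p → p ≤ Z ^ K → (∀ c ∈ cs_Om δ K p, c < p) ∧
      (cs_Om δ K p).card < p := by
    intro p hp _
    rw [hK']
    exact cs_Om_ok hp.pos
  have hB2 : ∀ m ∈ B, ∀ q, Nat.Prime q → q ≤ Z ^ K → m % q ∉ cs_Om δ K q := by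
    intro m hm q hq hqY
    obtain ⟨p, hp, hmp⟩ := hBmem m hm
    by_cases hKq : K < q
    · rw [cs_Om_big hKq]
      refine Om_not hq.pos ?_
      intro v hv hd
      rw [hmp] at hd
      have h1 := (hFmem p hp).2 v hv
      obtain ⟨h2, -, h3⟩ := hQ (p + v) h1
      have h4 : q ∣ (p + v).natAbs := Int.natCast_dvd.1 hd
      have h5 := (Nat.prime_dvd_prime_iff_eq hq h3).1 h4
      have h6 := hQpos (p + v) h1
      have h7 : (p + v) = q := by
        rw [h5]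
        omega
      rw [h7] at h2
      have h8 : N ≤ 4 * q := by exact_mod_cast h2
      have h9 : N ≤ 4 * Z ^ K := h8.trans (Nat.mul_le_mul_left 4 hqY)
      have h10 : (N : ℝ) ≤ 4 * ((Z ^ K : ℕ) : ℝ) := by exact_mod_cast h9
      linarith
    · rw [cs_Om_small hKq]
      exact Finset.notMem_empty _
  have hS := residue_sieve hY1 hΩ B hB1 hB2
  have hGG := cs_G (Z := Z) hK hδ hD
  rw [← hC₁] at hGG
  obtain ⟨G, hG⟩ : ∃ G : ℝ, G = ∑ l ∈ (Finset.Icc 1 (Z ^ K)).filter Squarefree,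
      hterm (cs_Om δ K) l := ⟨_, rfl⟩
  rw [← hG] at hS hGG
  obtain ⟨Ψ, hΨ⟩ : ∃ Ψ : ℝ, Ψ = psi (Dif δ) ^ K := ⟨_, rfl⟩
  rw [← hΨ] at hGG ⊢
  have hΨ1 : 1 ≤ Ψ := by
    rw [hΨ]
    exact one_le_pow₀ cs_psi
  have hΨ0 : 0 < Ψ := by linarith
  have hLG : Real.log N ^ K ≤ C₁ * (48 * (K : ℝ)) ^ K * Ψ * G := by
    have h1 : (Real.log N / (48 * K)) ^ K ≤ (Real.log Z / 2) ^ K := by
      refine pow_le_pow_left₀ (by positivity) ?_ K
      have h2 : Real.log w ≤ Real.log Z := Real.log_le_log (by linarith) hZ2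
      have h3 : Real.log N / (48 * K) = Real.log w / 2 := by
        rw [hlogN]
        field_simp
        ring
      rw [h3]
      linarith
    have h4 := h1.trans hGG
    rw [div_pow, div_le_iff₀ (by positivity)] at h4
    refine h4.trans (le_of_eq ?_)
    ring
  have hlNK : 0 < Real.log N ^ K := by positivity
  have hG0 : 0 < G := by
    by_contra hcon
    rw [not_lt] at hcon
    have h1 : C₁ * (48 * (K : ℝ)) ^ K * Ψ * G ≤ 0 :=
      mul_nonpos_of_nonneg_of_nonpos (by positivity) hcon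
    linarith
  have h1 : (N : ℝ) / G ≤ C₁ * (48 * (K : ℝ)) ^ K * (N / Real.log N ^ K) * Ψ := by
    rw [div_le_iff₀ hG0]
    have h2 : (N : ℝ) = N / Real.log N ^ K * Real.log N ^ K := by
      field_simp
    have h3 : N / Real.log N ^ K * Real.log N ^ K ≤
        N / Real.log N ^ K * (C₁ * (48 * (K : ℝ)) ^ K * Ψ * G) :=
      mul_le_mul_of_nonneg_left hLG (by positivity)
    refine (le_of_eq h2).trans (h3.trans (le_of_eq ?_))
    ring
  have h2 : ((Z ^ K : ℕ) : ℝ) ^ 6 ≤ (N / Real.log N ^ K) * Ψ := by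
    have e1 : ((Z ^ K : ℕ) : ℝ) ^ 6 ≤ w ^ (12 * K) := by
      refine (pow_le_pow_left₀ (Nat.cast_nonneg _) hY 6).trans (le_of_eq ?_)
      rw [← pow_mul]
      congr 1
      omega
    have e2 : Real.log N ^ K ≤ w ^ (12 * K) := by
      refine (pow_le_pow_iff_left₀ hlNK.le (by positivity) (by norm_num : (2 : ℕ) ≠ 0)).1 ?_
      rw [← pow_mul, ← pow_mul]
      have a1 : K * 2 = 2 * K := by ring
      have a2 : 12 * K * 2 = 24 * K := by ring
      rw [a1, a2, hwN]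
      exact hL
    have e3 : w ^ (12 * K) ≤ N / Real.log N ^ K := by
      rw [le_div_iff₀ hlNK]
      refine (mul_le_mul_of_nonneg_left e2 (by positivity)).trans (le_of_eq ?_)
      rw [← pow_add, ← hwN]
      congr 1
      omega
    refine e1.trans (e3.trans ?_)
    exact le_mul_of_one_le_right (by positivity) hΨ1
  rw [hBc] at hS
  refine hS.trans ((add_le_add h1 h2).trans (le_of_eq ?_))
  ring

end ELG
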