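import Pool.Agent.ELG.Lst

/-!
# ELG-CubV: vertices of cubes and their differences
-/

set_option autoImplicit false

namespace ELG

open Finset

/-- The `2^k` values `ω · δ`. -/
def Vs : List ℤ → List ℤ
  | [] => [0]
  | d :: δ => Vs δ ++ (Vs δ).map (d + ·)

/-- The linear form with coefficients `e`. -/
def Lf : List ℤ → List ℤ → ℤ
  | a :: e, d :: δ => a * d + Lf e δ
  | _, _ => 0

/-- All lists of length `k` with entries `-1, 0, 1`. -/
def Sg : ℕ → Finset (List ℤ)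
  | 0 => {[]}
  | k + 1 => ((Sg k).image (List.cons (-1))) ∪ ((Sg k).image (List.cons 0)) ∪ ((Sg k).image (List.cons 1))

/-- Those which are not `0`. -/
def En (k : ℕ) : Finset (List ℤ) := (Sg k).filter fun e => ∃ a ∈ e, a ≠ 0

/-- Product of the absolute values of all differences of vertices. -/
def Dif (δ : List ℤ) : ℕ := ∏ e ∈ En δ.length, (Lf e δ).natAbs

private theorem cubV_mem_Sg {k : ℕ} {a : ℤ} {e : List ℤ} (ha : a = -1 ∨ a = 0 ∨ a = 1)
    (he : e ∈ Sg k) : a :: e ∈ Sg (k + 1) := by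
  simp only [Sg, mem_union, mem_image]
  rcases ha with h | h | h
  · exact Or.inl (Or.inl ⟨e, he, by rw [h]⟩)
  · exact Or.inl (Or.inr ⟨e, he, by rw [h]⟩)
  · exact Or.inr ⟨e, he, by rw [h]⟩

private theorem cubV_diff (δ : List ℤ) : ∀ v ∈ Vs δ, ∀ w ∈ Vs δ,
    ∃ e ∈ Sg δ.length, v - w = Lf e δ := by
  induction δ with
  | nil =>
    intro v hv w hw
    rw [Vs, List.mem_singleton] at hv hw
    refine ⟨[], by simp [Sg], ?_⟩
    rw [hv, hw]
    simp [Lf]
  | cons d δ ih =>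
    intro v hv w hw
    rw [Vs, List.mem_append, List.mem_map] at hv hw
    rcases hv with hv | ⟨v', hv, rfl⟩
    · rcases hw with hw | ⟨w', hw, rfl⟩
      · obtain ⟨e, he, h⟩ := ih v hv w hw
        refine ⟨0 :: e, cubV_mem_Sg (Or.inr (Or.inl rfl)) he, ?_⟩
        rw [Lf, ← h]
        ring
      · obtain ⟨e, he, h⟩ := ih v hv w' hw
        refine ⟨-1 :: e, cubV_mem_Sg (Or.inl rfl) he, ?_⟩
        rw [Lf, ← h]
        ring
    · rcases hw with hw | ⟨w', hw, rfl⟩
      · obtain ⟨e, he, h⟩ := ih v' hv w hw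
        refine ⟨1 :: e, cubV_mem_Sg (Or.inr (Or.inr rfl)) he, ?_⟩
        rw [Lf, ← h]
        ring
      · obtain ⟨e, he, h⟩ := ih v' hv w' hw
        refine ⟨0 :: e, cubV_mem_Sg (Or.inr (Or.inl rfl)) he, ?_⟩
        rw [Lf, ← h]
        ring

private theorem cubV_pair (δ : List ℤ) :
    (Vs δ).Pairwise (fun v w => ∃ e ∈ En δ.length, v - w = Lf e δ) := by
  induction δ with
  | nil => exact List.pairwise_singleton _ _
  | cons d δ ih =>
    rw [Vs, List.pairwise_append, List.pairwise_map]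
    refine ⟨ih.imp ?_, ih.imp ?_, ?_⟩
    · rintro v w ⟨e, he, h⟩
      rw [En, mem_filter] at he
      obtain ⟨a, ha, ha0⟩ := he.2
      refine ⟨0 :: e, ?_, ?_⟩
      · rw [En, mem_filter]
        exact ⟨cubV_mem_Sg (Or.inr (Or.inl rfl)) he.1, a, List.mem_cons_of_mem _ ha, ha0⟩
      · rw [Lf, ← h]
        ring
    · rintro v w ⟨e, he, h⟩
      rw [En, mem_filter] at he
      obtain ⟨a, ha, ha0⟩ := he.2
      refine ⟨0 :: e, ?_, ?_⟩
      · rw [En, mem_filter]
        exact ⟨cubV_mem_Sg (Or.inr (Or.inl rfl)) he.1, a, List.mem_cons_of_mem _ ha, ha0⟩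
      · rw [Lf, ← h]
        ring
    · intro v hv w hw
      rw [List.mem_map] at hw
      obtain ⟨w', hw, rfl⟩ := hw
      obtain ⟨e, he, h⟩ := cubV_diff δ v hv w' hw
      refine ⟨-1 :: e, ?_, ?_⟩
      · rw [En, mem_filter]
        exact ⟨cubV_mem_Sg (Or.inl rfl) he, -1, List.mem_cons_self, by norm_num⟩
      · rw [Lf, ← h]
        ring

theorem Vs_length (δ : List ℤ) : (Vs δ).length = 2 ^ δ.length := by
  induction δ with
  | nil => simp [Vs]
  | cons d δ ih =>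
    rw [Vs, List.length_append, List.length_map, ih, List.length_cons, pow_succ]
    ring

theorem Cu_iff (Q : ℤ → Prop) (δ : List ℤ) (p : ℤ) : Cu Q δ p ↔ ∀ v ∈ Vs δ, Q (p + v) := by
  induction δ generalizing p with
  | nil => simp [Vs, Cu]
  | cons d δ ih =>
    rw [Cu, ih p, ih (p + d), Vs]
    constructor
    · rintro ⟨h1, h2⟩ v hv
      rw [List.mem_append, List.mem_map] at hv
      rcases hv with hv | ⟨w, hw, rfl⟩
      · exact h1 v hv
      · have h3 := h2 w hw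
        rwa [add_assoc] at h3
    · intro h
      refine ⟨fun v hv => h v (List.mem_append_left _ hv), fun v hv => ?_⟩
      rw [add_assoc]
      exact h (d + v) (List.mem_append_right _ (List.mem_map.mpr ⟨v, hv, rfl⟩))

/-- The residues `-v` of the vertices. -/
def Om (δ : List ℤ) (q : ℕ) : Finset ℕ := ((Vs δ).map fun v => ((-v) % (q : ℤ)).toNat).toFinset

theorem Om_card_le (δ : List ℤ) (q : ℕ) : (Om δ q).card ≤ 2 ^ δ.length := by
  rw [Om]
  refine (List.toFinset_card_le _).trans ?_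
  rw [List.length_map, Vs_length]

theorem Om_card {δ : List ℤ} {q : ℕ} (hq : q.Prime) (h : ¬ q ∣ Dif δ) : (Om δ q).card = 2 ^ δ.length := by
  have hq0 : (0 : ℤ) < q := by exact_mod_cast hq.pos
  rw [Om, List.toFinset_card_of_nodup, List.length_map, Vs_length]
  rw [List.Nodup, List.pairwise_map]
  refine (cubV_pair δ).imp ?_
  rintro v w ⟨e, he, hvw⟩ heq
  apply h
  have h1 : ((-v) % (q : ℤ)) = ((-w) % (q : ℤ)) := by
    have h2 := Int.toNat_of_nonneg (Int.emod_nonneg (-v) hq0.ne')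
    have h3 := Int.toNat_of_nonneg (Int.emod_nonneg (-w) hq0.ne')
    rw [← h2, ← h3, heq]
  have h4 : (q : ℤ) ∣ v - w := by
    have h5 : (q : ℤ) ∣ -w - -v := Int.ModEq.dvd h1
    have h6 : -w - -v = v - w := by ring
    rwa [h6] at h5
  rw [hvw] at h4
  have h7 : q ∣ (Lf e δ).natAbs := Int.natCast_dvd.mp h4
  exact h7.trans (dvd_prod_of_mem (fun e => (Lf e δ).natAbs) he)

theorem Om_lt {δ : List ℤ} {q : ℕ} (hq : 0 < q) : ∀ c ∈ Om δ q, c < q := by
  intro c hc
  rw [Om, List.mem_toFinset, List.mem_map] at hc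
  obtain ⟨v, _, rfl⟩ := hc
  have hq0 : (0 : ℤ) < q := by exact_mod_cast hq
  have h1 := Int.emod_lt_of_pos (-v) hq0
  have h2 := Int.toNat_of_nonneg (Int.emod_nonneg (-v) hq0.ne')
  have h3 : ((((-v) % (q : ℤ)).toNat : ℕ) : ℤ) < q := by
    rw [h2]
    exact h1
  exact_mod_cast h3

theorem Om_not {δ : List ℤ} {q m : ℕ} (hq : 0 < q) (h : ∀ v ∈ Vs δ, ¬ (q : ℤ) ∣ (m : ℤ) + v) : m % q ∉ Om δ q := by
  intro hc
  rw [Om, List.mem_toFinset, List.mem_map] at hc
  obtain ⟨v, hv, hvm⟩ := hc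
  have hq0 : (0 : ℤ) < q := by exact_mod_cast hq
  apply h v hv
  have h2 := Int.toNat_of_nonneg (Int.emod_nonneg (-v) hq0.ne')
  rw [hvm] at h2
  have h3 : ((m % q : ℕ) : ℤ) = (m : ℤ) % (q : ℤ) := Int.natCast_mod m q
  rw [h3] at h2
  have h5 : (q : ℤ) ∣ (m : ℤ) - -v := Int.ModEq.dvd h2.symm
  rwa [sub_neg_eq_add] at h5

end ELG
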