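import Pool.Agent.ELG.SumI

/-!
# ELG-Dec: entropy decrement

`a_l = Hc (Xw L (W 4^l)) (Yr (Qp l)) / 4^l` satisfies `a_(l+1) ≤ a_l - (∑_{p ∈ Pb l} J l p)/4^l`; sum over `l < m`.
-/

set_option autoImplicit false

namespace ELG

open Finset

private theorem hc_congr (μ : Mn) {G : Type} [Fintype G] (L : ℤ → G) {m m' : ℕ} (h : m = m') (q : ℕ) [NeZero q] :
    μ.Hc (Xw L m) (Yr q) = μ.Hc (Xw L m') (Yr q) := by
  subst h
  rfl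

theorem entropy_decrement (μ : Mn) {G : Type} [Fintype G] (L : ℤ → G) (W : ℕ)
    (J : ℕ → ℕ → ℝ) (hJ : ∀ l, ∀ p ∈ Pb l, ∀ _ : NeZero p, J l p = μ.I (Xw L (W * 4 ^ l)) (Yr p) (Yr (Qp l))) (m : ℕ) :
    ∑ l ∈ range m, (∑ p ∈ Pb l, J l p) / 4 ^ l ≤ W * Real.log (Fintype.card G) := by
  have step : ∀ l : ℕ, (∑ p ∈ Pb l, J l p) / 4 ^ l ≤
      μ.Hc (Xw L (W * 4 ^ l)) (Yr (Qp l)) / 4 ^ l -
        μ.Hc (Xw L (W * 4 ^ (l + 1))) (Yr (Qp (l + 1))) / 4 ^ (l + 1) := by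
    intro l
    have h1 := sum_I_le μ (Xw L (W * 4 ^ l)) l (J l) (hJ l)
    have h2 := Hc_window μ L (W * 4 ^ l) (Qp (l + 1))
    have h3 := hc_congr μ L (show 4 * (W * 4 ^ l) = W * 4 ^ (l + 1) by ring) (Qp (l + 1))
    rw [h3] at h2
    have hp : (0 : ℝ) < 4 ^ l := by positivity
    have h4 : μ.Hc (Xw L (W * 4 ^ (l + 1))) (Yr (Qp (l + 1))) / 4 ^ (l + 1) ≤
        μ.Hc (Xw L (W * 4 ^ l)) (Yr (Qp (l + 1))) / 4 ^ l := by
      have h9 : (4 : ℝ) ^ (l + 1) = 4 ^ l * 4 := pow_succ _ _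
      rw [div_le_div_iff₀ (by positivity) hp, h9]
      have h10 := mul_le_mul_of_nonneg_right h2 hp.le
      linarith
    have h5 : (∑ p ∈ Pb l, J l p) / 4 ^ l ≤
        (μ.Hc (Xw L (W * 4 ^ l)) (Yr (Qp l)) - μ.Hc (Xw L (W * 4 ^ l)) (Yr (Qp (l + 1)))) / 4 ^ l :=
      div_le_div_of_nonneg_right h1 hp.le
    rw [sub_div] at h5
    linarith
  have htot : ∀ m : ℕ, ∑ l ∈ range m, (∑ p ∈ Pb l, J l p) / 4 ^ l ≤
      μ.Hc (Xw L (W * 4 ^ 0)) (Yr (Qp 0)) / 4 ^ 0 -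
        μ.Hc (Xw L (W * 4 ^ m)) (Yr (Qp m)) / 4 ^ m := by
    intro m
    induction m with
    | zero => rw [Finset.sum_range_zero, sub_self]
    | succ m ih =>
      rw [Finset.sum_range_succ]
      have := step m
      linarith
  have h6 := htot m
  have h7 : 0 ≤ μ.Hc (Xw L (W * 4 ^ m)) (Yr (Qp m)) / 4 ^ m :=
    div_nonneg (μ.Hc_nonneg _ _) (by positivity)
  have h8 : μ.Hc (Xw L (W * 4 ^ 0)) (Yr (Qp 0)) ≤ W * Real.log (Fintype.card G) := by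
    refine (μ.Hc_le_log (Xw L (W * 4 ^ 0)) (Yr (Qp 0))).trans (le_of_eq ?_)
    rw [Fintype.card_fun, Fintype.card_fin, pow_zero, mul_one]
    push_cast
    rw [Real.log_pow]
  have h9 : μ.Hc (Xw L (W * 4 ^ 0)) (Yr (Qp 0)) / 4 ^ 0 = μ.Hc (Xw L (W * 4 ^ 0)) (Yr (Qp 0)) := by
    rw [pow_zero (4 : ℝ), div_one]
  rw [h9] at h6
  linarith

end ELG
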