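import Mathlib

/-!
# Project ELG (MP_a4fdfa_an): Elliott's conjecture on average over groups: definitions
-/

set_option autoImplicit false

namespace ELG

open Finset Filter Topology

/-! ## Means -/

/-- Bounded functions. -/
def Bd (f : ℤ → ℝ) : Prop := ∃ C : ℝ, ∀ n, |f n| ≤ C

/-- Shift invariant finitely additive means on `ℤ`. -/
structure Mn where
  E : (ℤ → ℝ) → ℝ
  add : ∀ f g, Bd f → Bd g → E (fun n => f n + g n) = E f + E g
  smul : ∀ (c : ℝ) (f : ℤ → ℝ), Bd f → E (fun n => c * f n) = c * E f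
  nonneg : ∀ f, Bd f → (∀ n, 0 ≤ f n) → 0 ≤ E f
  one : E (fun _ => 1) = 1
  shift : ∀ (f : ℤ → ℝ) (a : ℤ), Bd f → E (fun n => f (n + a)) = E f

/-- Logarithmic means are also invariant under dilations. -/
structure LMn extends Mn where
  dil : ∀ q : ℕ, 0 < q → ∀ f : ℤ → ℝ, Bd f → E (fun n => if (q : ℤ) ∣ n then (q : ℝ) * f (n / q) else 0) = E f

open Classical in
/-- Probability of an event. -/
noncomputable def Mn.P (μ : Mn) (A : ℤ → Prop) : ℝ := μ.E (fun n => if A n then 1 else 0)

/-! ## Completely additive functions, cubes -/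

/-- Completely additive functions. -/
def CA {G : Type} [AddCommGroup G] (L : ℤ → G) : Prop := ∀ a b : ℤ, a ≠ 0 → b ≠ 0 → L (a * b) = L a + L b

/-- Exponent two. -/
def E2 (G : Type) [AddCommGroup G] : Prop := ∀ g : G, g + g = 0

/-- Cube derivative: `Dd f [t₁, …, t_s] x = ∑_ω f (x + ω · t)`. -/
def Dd {G : Type} [AddCommGroup G] (f : ℤ → G) : List ℤ → ℤ → G
  | [], x => f x
  | t :: ts, x => Dd f ts x + Dd f ts (x + t)

/-- Sum over all lists of length `r` with entries of absolute value less than `N`. -/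
noncomputable def SL (N : ℕ) : (r : ℕ) → (List ℤ → ℝ) → ℝ
  | 0, F => F []
  | r + 1, F => ∑ d ∈ Finset.Ioo (-(N : ℤ)) N, SL N r fun δ => F (d :: δ)

/-- All vertices `p + ω · δ` of the cube are in `Q`. -/
def Cu (Q : ℤ → Prop) : List ℤ → ℤ → Prop
  | [], p => Q p
  | d :: δ, p => Cu Q δ p ∧ Cu Q δ (p + d)

/-- The increments multiplied by `h - h_j`: the last entry of the list is the one with index `0`. -/
def Bm (h : ℕ → ℤ) (i : ℕ) : List ℤ → List ℤ
  | [] => []
  | d :: δ => (d * (h i - h δ.length)) :: Bm h i δ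

/-! ## Entropy -/

open Classical in
/-- Entropy of a random variable with finitely many values. -/
noncomputable def Mn.H (μ : Mn) {α : Type} [Fintype α] (X : ℤ → α) : ℝ :=
  ∑ a, Real.negMulLog (μ.P fun n => X n = a)

/-- Conditional entropy. -/
noncomputable def Mn.Hc (μ : Mn) {α β : Type} [Fintype α] [Fintype β] (X : ℤ → α) (Y : ℤ → β) : ℝ :=
  μ.H (fun n => (X n, Y n)) - μ.H Y

/-- Mutual information of `X` and `Y` given `Z`. -/
noncomputable def Mn.I (μ : Mn) {α β γ : Type} [Fintype α] [Fintype β] [Fintype γ] (X : ℤ → α) (Y : ℤ → β)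
    (Z : ℤ → γ) : ℝ := μ.Hc X Z - μ.Hc X (fun n => (Y n, Z n))

end ELG
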