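import Pool.Agent.ELG.Mn

/-!
# ELG-Res: residues are uniformly distributed and independent

Shift invariance and the Chinese remainder theorem.
-/

set_option autoImplicit false

namespace ELG

theorem Mn.P_res (μ : Mn) (q : ℕ) [NeZero q] (a : ZMod q) : μ.P (fun n => (n : ZMod q) = a) = 1 / q := by
  have h0 : ∀ b : ZMod q, μ.P (fun n => (n : ZMod q) = b) = μ.P (fun n => (n : ZMod q) = 0) := by
    intro b
    obtain ⟨k, hk⟩ := ZMod.intCast_surjective b
    rw [← μ.P_shift (fun n : ℤ => (n : ZMod q) = b) k]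
    congr 1
    funext n
    apply propext
    rw [← hk]
    push_cast
    constructor
    · intro h
      exact add_eq_right.mp h
    · intro h
      rw [h, zero_add]
  have h1 := μ.P_sum (fun n : ℤ => (n : ZMod q))
  rw [Finset.sum_congr rfl fun b _ => h0 b, Finset.sum_const, Finset.card_univ, ZMod.card, nsmul_eq_mul] at h1
  have hq : (q : ℝ) ≠ 0 := by
    exact_mod_cast NeZero.ne q
  rw [h0 a, eq_div_iff hq, mul_comm]
  exact h1

theorem Mn.P_res_res (μ : Mn) {q₁ q₂ : ℕ} [NeZero q₁] [NeZero q₂] (h : Nat.Coprime q₁ q₂) (a : ZMod q₁) (b : ZMod q₂) :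
    μ.P (fun n => (n : ZMod q₁) = a ∧ (n : ZMod q₂) = b) = 1 / (q₁ * q₂) := by
  have : NeZero (q₁ * q₂) := ⟨Nat.mul_ne_zero (NeZero.ne q₁) (NeZero.ne q₂)⟩
  have h1 : (fun n : ℤ => (n : ZMod q₁) = a ∧ (n : ZMod q₂) = b) =
      fun n : ℤ => (n : ZMod (q₁ * q₂)) = (ZMod.chineseRemainder h).symm (a, b) := by
    funext n
    apply propext
    rw [RingEquiv.eq_symm_apply, map_intCast]
    constructor
    · rintro ⟨h1, h2⟩
      exact Prod.ext h1 h2
    · intro h3
      exact ⟨congrArg Prod.fst h3, congrArg Prod.snd h3⟩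
  rw [h1, μ.P_res (q₁ * q₂)]
  push_cast
  rfl

end ELG
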