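import Pool.Agent.ELG.Ent
import Pool.Agent.ELG.Res

/-!
# ELG-Xw: windows and residues: definitions and entropy of a concatenation
-/

set_option autoImplicit false

namespace ELG

open Finset

/-- The window of length `m` of `L` at `n`. -/
def Xw {G : Type} (L : ℤ → G) (m : ℕ) (n : ℤ) : Fin m → G := fun j => L (n + (j : ℕ))

/-- Residue. -/
def Yr (q : ℕ) (n : ℤ) : ZMod q := (n : ZMod q)

/-- Primes in `[4^l, 4^(l+1))`. -/
def Pb (l : ℕ) : Finset ℕ := (Ico (4 ^ l) (4 ^ (l + 1))).filter Nat.Prime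

/-- Product of the primes below `4^l`. -/
def Qp (l : ℕ) : ℕ := ∏ p ∈ (range (4 ^ l)).filter Nat.Prime, p

instance (l : ℕ) : NeZero (Qp l) := ⟨Finset.prod_ne_zero_iff.2 fun p hp => (Finset.mem_filter.1 hp).2.ne_zero⟩

theorem Qp_succ (l : ℕ) : Qp (l + 1) = Qp l * ∏ p ∈ Pb l, p := by
  unfold Qp Pb
  rw [Finset.prod_filter, Finset.prod_filter, Finset.prod_filter]
  exact (Finset.prod_range_mul_prod_Ico _ (Nat.pow_le_pow_right (by norm_num) (Nat.le_succ l))).symm

theorem coprime_Qp {l p : ℕ} (hp : p ∈ Pb l) : Nat.Coprime p (Qp l) := by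
  unfold Pb at hp
  obtain ⟨h1, h2⟩ := Finset.mem_filter.1 hp
  have h3 := (Finset.mem_Ico.1 h1).1
  unfold Qp
  refine Nat.Coprime.prod_right fun q hq => ?_
  obtain ⟨h4, h5⟩ := Finset.mem_filter.1 hq
  have h6 := Finset.mem_range.1 h4
  exact (Nat.coprime_primes h2 h5).2 (by omega)

private theorem xw_shift (μ : Mn) {G : Type} [Fintype G] (L : ℤ → G) (m q : ℕ) [NeZero q] (a : ℤ) :
    μ.Hc (fun n => Xw L m (n + a)) (Yr q) = μ.Hc (Xw L m) (Yr q) := by
  have hg : Function.Injective fun r : ZMod q => r + (a : ZMod q) := fun r s h => by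
    exact add_right_cancel h
  have h1 := μ.Hc_inj (fun n => Xw L m (n + a)) (Yr q) (f := id) Function.injective_id hg
  have h2 : (fun n => (fun r : ZMod q => r + (a : ZMod q)) (Yr q n)) = fun n => Yr q (n + a) := by
    funext n
    unfold Yr
    push_cast
    rfl
  rw [h2] at h1
  rw [← h1]
  unfold Mn.Hc
  have h3 := μ.H_shift (fun n => (Xw L m n, Yr q n)) a
  have h4 := μ.H_shift (Yr q) a
  rw [← h3, ← h4]
  rfl

theorem Hc_window (μ : Mn) {G : Type} [Fintype G] (L : ℤ → G) (m q : ℕ) [NeZero q] :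
    μ.Hc (Xw L (4 * m)) (Yr q) ≤ 4 * μ.Hc (Xw L m) (Yr q) := by
  obtain ⟨f, hf⟩ : ∃ f : (Fin (4 * m) → G) → (Fin m → G) × ((Fin m → G) × ((Fin m → G) × (Fin m → G))),
      f = fun w => (fun j => w ⟨j, by omega⟩, (fun j => w ⟨m + j, by omega⟩,
        (fun j => w ⟨2 * m + j, by omega⟩, fun j => w ⟨3 * m + j, by omega⟩))) := ⟨_, rfl⟩
  have hfi : Function.Injective f := by
    intro w w' h
    rw [hf] at h
    simp only [Prod.mk.injEq] at h
    obtain ⟨h0, h1, h2, h3⟩ := h
    funext i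
    have hi := i.2
    by_cases c1 : (i : ℕ) < m
    · exact congrFun h0 ⟨i, c1⟩
    by_cases c2 : (i : ℕ) < 2 * m
    · have h4 := congrFun h1 ⟨i - m, by omega⟩
      have e : (⟨m + (i - m), by omega⟩ : Fin (4 * m)) = i := Fin.ext (by simp only; omega)
      simp only at h4
      rw [e] at h4
      exact h4
    by_cases c3 : (i : ℕ) < 3 * m
    · have h4 := congrFun h2 ⟨i - 2 * m, by omega⟩
      have e : (⟨2 * m + (i - 2 * m), by omega⟩ : Fin (4 * m)) = i := Fin.ext (by simp only; omega)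
      simp only at h4
      rw [e] at h4
      exact h4
    · have h4 := congrFun h3 ⟨i - 3 * m, by omega⟩
      have e : (⟨3 * m + (i - 3 * m), by omega⟩ : Fin (4 * m)) = i := Fin.ext (by simp only; omega)
      simp only at h4
      rw [e] at h4
      exact h4
  have h1 := μ.Hc_inj (Xw L (4 * m)) (Yr q) (g := id) hfi Function.injective_id
  have h2 : (fun n => f (Xw L (4 * m) n)) = fun n : ℤ => (Xw L m (n + (0 : ℤ)),
      (Xw L m (n + (m : ℤ)), (Xw L m (n + (2 * m : ℤ)), Xw L m (n + (3 * m : ℤ))))) := by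
    funext n
    rw [hf]
    unfold Xw
    simp only [Prod.mk.injEq]
    refine ⟨?_, ?_, ?_, ?_⟩
    · funext j
      rw [add_zero]
    · funext j
      congr 1
      push_cast
      ring
    · funext j
      congr 1
      push_cast
      ring
    · funext j
      congr 1
      push_cast
      ring
  have h3 : (fun n => id (Yr q n)) = Yr q := rfl
  rw [h2, h3] at h1
  rw [← h1]
  have p1 := μ.Hc_pair (fun n => Xw L m (n + (0 : ℤ))) (fun n => (Xw L m (n + (m : ℤ)),
    (Xw L m (n + (2 * m : ℤ)), Xw L m (n + (3 * m : ℤ))))) (Yr q)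
  have p2 := μ.Hc_pair (fun n => Xw L m (n + (m : ℤ)))
    (fun n => (Xw L m (n + (2 * m : ℤ)), Xw L m (n + (3 * m : ℤ)))) (Yr q)
  have p3 := μ.Hc_pair (fun n => Xw L m (n + (2 * m : ℤ))) (fun n => Xw L m (n + (3 * m : ℤ))) (Yr q)
  rw [xw_shift] at p1 p2 p3
  rw [xw_shift] at p3
  linarith

end ELG
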