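import Pool.Agent.ELG.PinM
import Pool.Agent.ELG.Xw

/-!
# ELG-DilA: dilation by a prime and its replacement

PLAN.  `dil_ca`: `dil p` for `f n = 1_{∑ L(n + h_i) = c}`: for `n = p m`: `L (p m + p h_i) = L p + L (m + h_i)` if `m + h_i ≠ 0` (`CA`); the `m` with `m + h_i = 0` for some `i` have probability `0` (`P_point`), and so have their multiples by `p`
(`dil` again or finitely many points).  So `P (∑ L (n + h_i) = c) = E (p 1_{p ∣ n} 1_{∑ L (n + p h_i) = c + k L p})`.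
`dil_shift`: for a bounded `f`: `E f = E ((1/N) ∑_{j < N} f (n + j))`.
`dil_main`: `f n = (p 1_{p ∣ n} - 1) g n`, `g n = 1_{∑ L (n + p h_i) = c'}`; `(1/4^l) ∑_{j < 4^l} f (n + j) = F (Xw L (W 4^l) n) (Yr p n)` with `F x y = (1/4^l) ∑_{j < 4^l} (p 1_{y + j = 0} - 1) 1_{∑_i x (j + p h_i) = c'}` (`j + p h_i < W 4^l` because
`p < 4^(l+1)`, `1 + 4 h_i ≤ W`).  `|F| ≤ 4`: at most one `j < 4^l ≤ p` has `y + j = 0`, so the first part is in `[0, p/4^l] ⊆ [0, 4]`, the second in `[-1, 0]`.  `∑_y F x y = 0`: every `j` has exactly one `y`.  `E_le_I` (`hu`: `P_res_res`, `P_res`,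
`coprime_Qp`, `ZMod.card`).
-/

set_option autoImplicit false

namespace ELG

open Finset

private theorem di_P (μ : Mn) (A : ℤ → Prop) [DecidablePred A] :
    μ.E (fun n => if A n then (1 : ℝ) else 0) = μ.P A := by
  unfold Mn.P
  refine congrArg μ.E (funext fun n => ?_)
  by_cases h : A n
  · rw [if_pos h, if_pos h]
  · rw [if_neg h, if_neg h]

private theorem di_supp_le (μ : Mn) {f g : ℤ → ℝ} (hf : Bd f) (hg : Bd g) (s : Finset ℤ) (h : ∀ n, n ∉ s → f n = g n) :
    μ.E f ≤ μ.E g := by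
  obtain ⟨C, hC⟩ := hf.sub hg
  have hC0 : 0 ≤ C := (abs_nonneg _).trans (hC 0)
  have hb : Bd fun n => ∑ a ∈ s, (if n = a then (1 : ℝ) else 0) :=
    Bd.sum (f := fun a n => if n = a then (1 : ℝ) else 0) fun a _ => Bd.ite (fun n => n = a)
  have hz : μ.E (fun n => ∑ a ∈ s, (if n = a then (1 : ℝ) else 0)) = 0 := by
    rw [μ.E_sum s (fun a n => if n = a then (1 : ℝ) else 0) (fun a _ => Bd.ite (fun n => n = a))]
    refine Finset.sum_eq_zero fun a _ => ?_
    rw [di_P μ (fun n => n = a)]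
    exact μ.P_point a
  have h1 : μ.E (fun n => f n - g n) ≤ μ.E (fun n => C * ∑ a ∈ s, (if n = a then (1 : ℝ) else 0)) := by
    refine μ.E_mono (hf.sub hg) (hb.smul C) fun n => ?_
    rw [Finset.sum_ite_eq s n (fun _ => (1 : ℝ))]
    by_cases hn : n ∈ s
    · rw [if_pos hn, mul_one]
      exact (le_abs_self _).trans (hC n)
    · rw [if_neg hn, mul_zero, h n hn, sub_self]
  rw [μ.E_sub hf hg, μ.smul C _ hb, hz, mul_zero] at h1
  linarith

/-- functions that agree outside a finite set have the same mean -/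
private theorem di_supp (μ : Mn) {f g : ℤ → ℝ} (hf : Bd f) (hg : Bd g) (s : Finset ℤ) (h : ∀ n, n ∉ s → f n = g n) :
    μ.E f = μ.E g :=
  le_antisymm (di_supp_le μ hf hg s h) (di_supp_le μ hg hf s fun n hn => (h n hn).symm)

private theorem di_bd (p : ℕ) (A : ℤ → Prop) [DecidablePred A] : Bd fun n => if A n then (p : ℝ) else 0 := by
  refine ⟨p, fun n => ?_⟩
  beta_reduce
  by_cases h : A n
  · rw [if_pos h, Nat.abs_cast]
  · rw [if_neg h, abs_zero]
    exact Nat.cast_nonneg p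

open Classical in
theorem dil_ca (μ : LMn) {G : Type} [AddCommGroup G] {L : ℤ → G} (hL : CA L) {p : ℕ} (hp : 0 < p) (k : ℕ) (h : ℕ → ℤ) (c : G) :
    μ.P (fun n => ∑ i ∈ range k, L (n + h i) = c) = μ.E (fun n => if (p : ℤ) ∣ n ∧
      ∑ i ∈ range k, L (n + p * h i) = c + k • L p then (p : ℝ) else 0) := by
  have hp0 : (p : ℤ) ≠ 0 := by exact_mod_cast hp.ne'
  have hA : Bd fun n : ℤ => if ∑ i ∈ range k, L (n + h i) = c then (1 : ℝ) else 0 :=
    Bd.ite (fun n : ℤ => ∑ i ∈ range k, L (n + h i) = c)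
  have h1 := μ.dil p hp (fun n => if ∑ i ∈ range k, L (n + h i) = c then (1 : ℝ) else 0) hA
  beta_reduce at h1
  rw [← di_P μ.toMn (fun n : ℤ => ∑ i ∈ range k, L (n + h i) = c), ← h1]
  refine di_supp μ.toMn ?_ (di_bd p _) ((range k).image fun i => -((p : ℤ) * h i)) ?_
  · refine ⟨p, fun n => ?_⟩
    beta_reduce
    have hpp : (0 : ℝ) ≤ p := Nat.cast_nonneg p
    by_cases hd : (p : ℤ) ∣ n
    · rw [if_pos hd]
      by_cases hc : ∑ i ∈ range k, L (n / p + h i) = c
      · rw [if_pos hc, mul_one, Nat.abs_cast]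
      · rw [if_neg hc, mul_zero, abs_zero]
        exact hpp
    · rw [if_neg hd, abs_zero]
      exact hpp
  · intro n hn
    by_cases hd : (p : ℤ) ∣ n
    · obtain ⟨m, rfl⟩ := hd
      have hm : (p : ℤ) * m / p = m := Int.mul_ediv_cancel_left m hp0
      have hne : ∀ i ∈ range k, m + h i ≠ 0 := by
        intro i hi h0
        apply hn
        rw [mem_image]
        refine ⟨i, hi, ?_⟩
        have h2 : h i = -m := by linarith
        rw [h2]
        ring
      have hsum : ∑ i ∈ range k, L ((p : ℤ) * m + p * h i) = ∑ i ∈ range k, L (m + h i) + k • L p := by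
        have h2 : ∀ i ∈ range k, L ((p : ℤ) * m + p * h i) = L p + L (m + h i) := by
          intro i hi
          rw [← mul_add]
          exact hL _ _ hp0 (hne i hi)
        rw [sum_congr rfl h2, sum_add_distrib, sum_const, card_range, add_comm]
      rw [if_pos (dvd_mul_right _ _), hm]
      by_cases hc : ∑ i ∈ range k, L (m + h i) = c
      · rw [if_pos hc, if_pos ⟨dvd_mul_right _ _, by rw [hsum, hc]⟩, mul_one]
      · rw [if_neg hc, mul_zero, if_neg]
        rintro ⟨_, h3⟩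
        apply hc
        rw [hsum] at h3
        exact add_right_cancel h3
    · rw [if_neg hd, if_neg (fun h => hd h.1)]

/-- the value of the window at `m` -/
private def dxe {G : Type} [AddCommGroup G] {M : ℕ} (x : Fin M → G) (m : ℕ) : G := if hm : m < M then x ⟨m, hm⟩ else 0

private theorem dxe_win {G : Type} [AddCommGroup G] (L : ℤ → G) {M m : ℕ} (hm : m < M) (n : ℤ) :
    dxe (Xw L M n) m = L (n + (m : ℕ)) := by
  unfold dxe
  rw [dif_pos hm]
  rfl

open Classical in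
/-- one term -/
private noncomputable def dtm {G : Type} [AddCommGroup G] (p k : ℕ) (h : ℕ → ℕ) (c : G) {M : ℕ} (x : Fin M → G) (y : ZMod p)
    (j : ℕ) : ℝ :=
  ((if y + (j : ZMod p) = 0 then (p : ℝ) else 0) - 1) * (if ∑ i ∈ range k, dxe x (j + p * h i) = c then 1 else 0)

private theorem dtm_bd {G : Type} [AddCommGroup G] (p k : ℕ) (h : ℕ → ℕ) (c : G) {M : ℕ} (x : Fin M → G) (y : ZMod p)
    (j : ℕ) : -1 ≤ dtm p k h c x y j ∧ dtm p k h c x y j ≤ p * (if y + (j : ZMod p) = 0 then (1 : ℝ) else 0) := by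
  unfold dtm
  have hp : (0 : ℝ) ≤ p := Nat.cast_nonneg p
  by_cases h1 : y + (j : ZMod p) = 0
  · rw [if_pos h1, if_pos h1]
    by_cases h2 : ∑ i ∈ range k, dxe x (j + p * h i) = c
    · rw [if_pos h2]
      constructor
      · linarith
      · linarith
    · rw [if_neg h2]
      constructor
      · linarith
      · linarith
  · rw [if_neg h1, if_neg h1]
    by_cases h2 : ∑ i ∈ range k, dxe x (j + p * h i) = c
    · rw [if_pos h2]
      constructor
      · linarith
      · linarith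
    · rw [if_neg h2]
      constructor
      · linarith
      · linarith

private theorem dtm_one {p N : ℕ} (hN : N ≤ p) (y : ZMod p) :
    ∑ j ∈ range N, (if y + (j : ZMod p) = 0 then (1 : ℝ) else 0) ≤ 1 := by
  rw [Finset.sum_boole]
  have h1 : ((range N).filter fun j : ℕ => y + (j : ZMod p) = 0).card ≤ 1 := by
    rw [Finset.card_le_one]
    intro a ha b hb
    rw [mem_filter, mem_range] at ha hb
    have h2 : (a : ZMod p) = (b : ZMod p) := by
      have h3 : y + (a : ZMod p) = y + (b : ZMod p) := by rw [ha.2, hb.2]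
      exact add_left_cancel h3
    rw [ZMod.natCast_eq_natCast_iff', Nat.mod_eq_of_lt (by omega), Nat.mod_eq_of_lt (by omega)] at h2
    exact h2
  exact_mod_cast h1

private theorem dtm_sum_y {G : Type} [AddCommGroup G] (p k : ℕ) [NeZero p] (h : ℕ → ℕ) (c : G) {M : ℕ} (x : Fin M → G)
    (j : ℕ) : ∑ y : ZMod p, dtm p k h c x y j = 0 := by
  unfold dtm
  rw [← Finset.sum_mul]
  have h1 : ∑ y : ZMod p, ((if y + (j : ZMod p) = 0 then (p : ℝ) else 0) - 1) = 0 := by
    rw [Finset.sum_sub_distrib, Finset.sum_const, Finset.card_univ, ZMod.card, nsmul_eq_mul, mul_one]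
    have h2 : ∑ y : ZMod p, (if y + (j : ZMod p) = 0 then (p : ℝ) else 0) = p := by
      rw [Finset.sum_eq_single (-(j : ZMod p))]
      · rw [if_pos (neg_add_cancel _)]
      · intro y _ hy
        rw [if_neg]
        intro h0
        exact hy (eq_neg_of_add_eq_zero_left h0)
      · intro h0
        exact absurd (Finset.mem_univ _) h0
    rw [h2, sub_self]
  rw [h1, zero_mul]

open Classical in
theorem dil_main (μ : LMn) {G : Type} [AddCommGroup G] [Fintype G] {L : ℤ → G} {l p : ℕ} (hp : p ∈ Pb l) [NeZero p] (k : ℕ)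
    (h : ℕ → ℕ) {W : ℕ} (hW : ∀ i < k, 1 + 4 * h i ≤ W) (c : G) :
    |μ.E (fun n => if (p : ℤ) ∣ n ∧ ∑ i ∈ range k, L (n + p * h i) = c then (p : ℝ) else 0) -
      μ.P (fun n => ∑ i ∈ range k, L (n + p * h i) = c)| ≤
      4 * √(2 * μ.I (Xw L (W * 4 ^ l)) (Yr p) (Yr (Qp l))) := by
  have hp1 := Finset.mem_filter.1 hp
  have hp2 := Finset.mem_Ico.1 hp1.1
  have hN0 : 0 < 4 ^ l := by positivity
  have hpN : p < 4 * 4 ^ l := by
    have := hp2.2
    rw [pow_succ] at this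
    omega
  have hNR : (0 : ℝ) < ((4 ^ l : ℕ) : ℝ) := by exact_mod_cast hN0
  set f : ℤ → ℝ := fun n => ((if (p : ℤ) ∣ n then (p : ℝ) else 0) - 1) *
    (if ∑ i ∈ range k, L (n + p * h i) = c then 1 else 0) with hfdef
  have hSb : Bd fun n : ℤ => if ∑ i ∈ range k, L (n + p * h i) = c then (1 : ℝ) else 0 :=
    Bd.ite (fun n : ℤ => ∑ i ∈ range k, L (n + p * h i) = c)
  have hf : Bd f := ((di_bd p (fun n : ℤ => (p : ℤ) ∣ n)).sub (Bd.const 1)).mul hSb
  have hC : μ.E (fun n => if (p : ℤ) ∣ n ∧ ∑ i ∈ range k, L (n + p * h i) = c then (p : ℝ) else 0) -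
      μ.P (fun n => ∑ i ∈ range k, L (n + p * h i) = c) = μ.E f := by
    rw [← di_P μ.toMn (fun n : ℤ => ∑ i ∈ range k, L (n + p * h i) = c),
      ← μ.toMn.E_sub (di_bd p (fun n : ℤ => (p : ℤ) ∣ n ∧ ∑ i ∈ range k, L (n + p * h i) = c)) hSb]
    refine congrArg μ.E (funext fun n => ?_)
    rw [hfdef]
    beta_reduce
    by_cases h1 : (p : ℤ) ∣ n
    · by_cases h2 : ∑ i ∈ range k, L (n + p * h i) = c
      · rw [if_pos ⟨h1, h2⟩, if_pos h2, if_pos h1, mul_one]
      · rw [if_neg (fun h3 => h2 h3.2), if_neg h2, mul_zero, sub_self]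
    · by_cases h2 : ∑ i ∈ range k, L (n + p * h i) = c
      · rw [if_neg (fun h3 => h1 h3.1), if_pos h2, if_neg h1, mul_one]
      · rw [if_neg (fun h3 => h2 h3.2), if_neg h2, mul_zero, sub_self]
  have hA : ∀ n : ℤ, (1 / ((4 ^ l : ℕ) : ℝ)) * ∑ j ∈ range (4 ^ l), dtm p k h c (Xw L (W * 4 ^ l) n) (Yr p n) j =
      (1 / ((4 ^ l : ℕ) : ℝ)) * ∑ j ∈ range (4 ^ l), f (n + (j : ℕ)) := by
    intro n
    refine congrArg (fun z => (1 / ((4 ^ l : ℕ) : ℝ)) * z) (Finset.sum_congr rfl fun j hj => ?_)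
    rw [mem_range] at hj
    rw [hfdef]
    unfold dtm
    beta_reduce
    have h1 : (Yr p n + (j : ZMod p) = 0) ↔ (p : ℤ) ∣ n + (j : ℕ) := by
      rw [← ZMod.intCast_zmod_eq_zero_iff_dvd]
      unfold Yr
      rw [Int.cast_add, Int.cast_natCast]
    have h2 : ∑ i ∈ range k, dxe (Xw L (W * 4 ^ l) n) (j + p * h i) = ∑ i ∈ range k, L (n + (j : ℕ) + p * h i) := by
      refine Finset.sum_congr rfl fun i hi => ?_
      rw [mem_range] at hi
      have h3 : j + p * h i < W * 4 ^ l := by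
        have h4 := hW i hi
        have h5 : p * h i ≤ 4 * 4 ^ l * h i := Nat.mul_le_mul_right _ hpN.le
        have h6 : (1 + 4 * h i) * 4 ^ l ≤ W * 4 ^ l := Nat.mul_le_mul_right _ h4
        nlinarith
      rw [dxe_win L h3]
      refine congrArg L ?_
      push_cast
      ring
    rw [h2]
    by_cases h3 : (p : ℤ) ∣ n + (j : ℕ)
    · rw [if_pos (h1.2 h3), if_pos h3]
    · rw [if_neg (fun h4 => h3 (h1.1 h4)), if_neg h3]
  have hB : μ.E (fun n => (1 / ((4 ^ l : ℕ) : ℝ)) * ∑ j ∈ range (4 ^ l), f (n + (j : ℕ))) = μ.E f := by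
    have h1 : Bd fun n : ℤ => ∑ j ∈ range (4 ^ l), f (n + (j : ℕ)) :=
      Bd.sum (f := fun (j : ℕ) (n : ℤ) => f (n + (j : ℕ))) fun j _ => hf.shift (j : ℤ)
    rw [μ.smul _ _ h1, μ.toMn.E_sum (range (4 ^ l)) (fun (j : ℕ) (n : ℤ) => f (n + (j : ℕ))) (fun j _ => hf.shift (j : ℤ))]
    have h2 : ∀ j ∈ range (4 ^ l), μ.E (fun n : ℤ => f (n + (j : ℕ))) = μ.E f := fun j _ => μ.shift f (j : ℤ) hf
    rw [Finset.sum_congr rfl h2, Finset.sum_const, card_range, nsmul_eq_mul]
    field_simp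
  have hD : ∀ (x : Fin (W * 4 ^ l) → G) (y : ZMod p),
      |(1 / ((4 ^ l : ℕ) : ℝ)) * ∑ j ∈ range (4 ^ l), dtm p k h c x y j| ≤ 4 := by
    intro x y
    have h1 : ∑ j ∈ range (4 ^ l), dtm p k h c x y j ≤ p := by
      calc ∑ j ∈ range (4 ^ l), dtm p k h c x y j
          ≤ ∑ j ∈ range (4 ^ l), p * (if y + (j : ZMod p) = 0 then (1 : ℝ) else 0) :=
            Finset.sum_le_sum fun j _ => (dtm_bd p k h c x y j).2
        _ = p * ∑ j ∈ range (4 ^ l), (if y + (j : ZMod p) = 0 then (1 : ℝ) else 0) := by rw [Finset.mul_sum]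
        _ ≤ p * 1 := mul_le_mul_of_nonneg_left (dtm_one hp2.1 y) (Nat.cast_nonneg p)
        _ = p := mul_one _
    have h2 : -(((4 ^ l : ℕ) : ℝ)) ≤ ∑ j ∈ range (4 ^ l), dtm p k h c x y j := by
      calc -(((4 ^ l : ℕ) : ℝ)) = ∑ _j ∈ range (4 ^ l), (-1 : ℝ) := by
            rw [Finset.sum_const, card_range, nsmul_eq_mul]
            ring
        _ ≤ ∑ j ∈ range (4 ^ l), dtm p k h c x y j := Finset.sum_le_sum fun j _ => (dtm_bd p k h c x y j).1
    have h3 : (p : ℝ) ≤ 4 * ((4 ^ l : ℕ) : ℝ) := by exact_mod_cast hpN.le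
    rw [abs_mul, abs_of_pos (by positivity), one_div, inv_mul_le_iff₀ hNR, abs_le]
    constructor
    · linarith
    · linarith
  have hE : ∀ x : Fin (W * 4 ^ l) → G, ∑ y : ZMod p,
      (1 / ((4 ^ l : ℕ) : ℝ)) * ∑ j ∈ range (4 ^ l), dtm p k h c x y j = 0 := by
    intro x
    rw [← Finset.mul_sum, Finset.sum_comm, Finset.sum_eq_zero fun j _ => dtm_sum_y p k h c x j, mul_zero]
  have hu : ∀ (b : ZMod p) (c : ZMod (Qp l)), μ.P (fun n => Yr p n = b ∧ Yr (Qp l) n = c) =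
      μ.P (fun n => Yr (Qp l) n = c) / Fintype.card (ZMod p) := by
    intro b c
    have h1 := μ.toMn.P_res_res (coprime_Qp hp) b c
    have h2 := μ.toMn.P_res (Qp l) c
    unfold Yr
    rw [h1, h2, ZMod.card, div_div, mul_comm]
  have hfin := μ.toMn.E_le_I (Xw L (W * 4 ^ l)) (Yr p) (Yr (Qp l)) hu
    (fun x y => (1 / ((4 ^ l : ℕ) : ℝ)) * ∑ j ∈ range (4 ^ l), dtm p k h c x y j) hD hE
  beta_reduce at hfin
  rw [hC, ← hB, ← funext hA]
  exact hfin

end ELG
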