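import Pool.Agent.ELG.GrpC
import Pool.Agent.MRT.EnC

/-!
# ELG-EnS: energy in short intervals of a completely multiplicative function which is `-1` at many primes

PLAN.  `f n = (u n : ℝ)` is `CMr`, `Div`.  For `n ≥ 1`: `(∑_{j<K} u (n + j))/K = SK f K (n - 1)`; `∑_{n ≤ N} (1/n) SK (n-1)² ≤ 1 + ∑_{1 ≤ n ≤ N} (1/n) SK n²` (`1/(n+1) ≤ 1/n`; `|SK| ≤ 1`), `short_log` with `ε/2`, `1/log N ≤ ε/2`.
-/

set_option autoImplicit false

namespace ELG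

open Finset

/-- `∑_{u p = -1} 1/p = ∞`. -/
def Dv (u : ℕ → ℤ) : Prop := ¬ Summable fun p : Nat.Primes => if u p = -1 then 1 / ((p : ℕ) : ℝ) else 0

private theorem cmr_cast {u : ℕ → ℤ} (hu : CMS u) : MRT.CMr fun n => (u n : ℝ) := by
  constructor
  · intro n hn
    rcases hu.sgn n hn with h | h
    · left
      show ((u n : ℤ) : ℝ) = 1
      rw [h]
      norm_num
    · right
      show ((u n : ℤ) : ℝ) = -1
      rw [h]
      norm_num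
  · intro a b ha hb
    show ((u (a * b) : ℤ) : ℝ) = u a * u b
    rw [hu.mul a b ha hb]
    push_cast
    rfl

private theorem div_cast {u : ℕ → ℤ} (hd : Dv u) : MRT.Div fun n => (u n : ℝ) := by
  intro h
  apply hd
  refine h.congr fun p => ?_
  by_cases hp : u p = -1
  · have h2 : ((u p : ℤ) : ℝ) = -1 := by
      rw [hp]
      norm_num
    rw [if_pos hp]
    exact if_pos h2
  · have h2 : ¬ ((u p : ℤ) : ℝ) = -1 := by
      intro h3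
      apply hp
      exact_mod_cast h3
    rw [if_neg hp]
    exact if_neg h2

private theorem sum_sk (f : ℕ → ℝ) (K n : ℕ) (hn : 1 ≤ n) :
    ∑ j ∈ range K, f (n + j) = ∑ m ∈ Ioc (n - 1) (n - 1 + K), f m := by
  have h : Ioc (n - 1) (n - 1 + K) = Ico n (n + K) := by
    ext m
    rw [mem_Ioc, mem_Ico]
    omega
  rw [h, sum_Ico_eq_sum_range]
  have h2 : n + K - n = K := by omega
  rw [h2]

private theorem sk_zero {f : ℕ → ℝ} (hf : MRT.CMr f) (K : ℕ) : MRT.SK f K 0 ^ 2 ≤ 1 := by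
  have h1 : |∑ n ∈ Ioc 0 (0 + K), f n| ≤ K := by
    refine (abs_sum_le_sum_abs _ _).trans ?_
    have h2 : ∀ n ∈ Ioc 0 (0 + K), |f n| ≤ 1 := by
      intro n hn
      rw [mem_Ioc] at hn
      rcases hf.sgn n hn.1 with h | h
      · rw [h, abs_one]
      · rw [h, abs_neg, abs_one]
    refine (sum_le_sum h2).trans ?_
    rw [sum_const, Nat.card_Ioc, nsmul_eq_mul, mul_one]
    simp
  unfold MRT.SK
  rw [div_pow]
  refine div_le_one_of_le₀ ?_ (sq_nonneg _)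
  exact sq_le_sq' (abs_le.1 h1).1 (abs_le.1 h1).2

private theorem sum_shift {f : ℕ → ℝ} (hf : MRT.CMr f) (K N : ℕ) :
    ∑ n ∈ Icc 1 (N + 1), MRT.SK f K (n - 1) ^ 2 / n ≤ 1 + ∑ n ∈ Icc 1 N, MRT.SK f K n ^ 2 / n := by
  induction N with
  | zero =>
    have h1 := sk_zero hf K
    show ∑ n ∈ Icc 1 1, MRT.SK f K (n - 1) ^ 2 / n ≤ 1 + ∑ n ∈ Icc 1 0, MRT.SK f K n ^ 2 / n
    rw [Icc_self, sum_singleton, Icc_eq_empty (by omega), sum_empty, Nat.sub_self, Nat.cast_one, div_one, add_zero]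
    exact h1
  | succ N ih =>
    have e1 : ∑ n ∈ Icc 1 (N + 1 + 1), MRT.SK f K (n - 1) ^ 2 / n =
        ∑ n ∈ Icc 1 (N + 1), MRT.SK f K (n - 1) ^ 2 / n + MRT.SK f K (N + 1 + 1 - 1) ^ 2 / ((N + 1 + 1 : ℕ) : ℝ) :=
      sum_Icc_succ_top (by omega) _
    have e2 : ∑ n ∈ Icc 1 (N + 1), MRT.SK f K n ^ 2 / n =
        ∑ n ∈ Icc 1 N, MRT.SK f K n ^ 2 / n + MRT.SK f K (N + 1) ^ 2 / ((N + 1 : ℕ) : ℝ) :=
      sum_Icc_succ_top (by omega) _
    have h1 : MRT.SK f K (N + 1 + 1 - 1) ^ 2 / ((N + 1 + 1 : ℕ) : ℝ) ≤ MRT.SK f K (N + 1) ^ 2 / ((N + 1 : ℕ) : ℝ) := by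
      rw [Nat.add_sub_cancel]
      refine div_le_div_of_nonneg_left (sq_nonneg _) (by positivity) ?_
      push_cast
      linarith
    rw [e1, e2]
    linarith

theorem energy_small {u : ℕ → ℤ} (hu : CMS u) (hd : Dv u) {ε : ℝ} (hε : 0 < ε) : ∃ K₀ : ℕ, ∀ K ≥ K₀, 1 ≤ K → ∃ N₀ : ℕ, ∀ N ≥ N₀,
    la N (fun n => ((∑ j ∈ range K, (u (n + j) : ℝ)) / K) ^ 2) ≤ ε := by
  have hf := cmr_cast hu
  obtain ⟨K₀, hK₀⟩ := MRT.short_log hf (div_cast hd) (half_pos hε)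
  refine ⟨K₀, fun K hK hK1 => ?_⟩
  obtain ⟨N₁, hN₁⟩ := hK₀ K hK hK1
  refine ⟨max N₁ (⌈Real.exp (2 / ε)⌉₊ + 2), fun N hN => ?_⟩
  have hN1 : N₁ ≤ N := (le_max_left _ _).trans hN
  have hN2 : ⌈Real.exp (2 / ε)⌉₊ + 2 ≤ N := (le_max_right _ _).trans hN
  have h1 := hN₁ N hN1
  have h2 : 2 / ε ≤ Real.log N := by
    rw [Real.le_log_iff_exp_le (by exact_mod_cast (show 0 < N by omega))]
    refine (Nat.le_ceil _).trans ?_
    exact_mod_cast (show ⌈Real.exp (2 / ε)⌉₊ ≤ N by omega)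
  have hlog : 0 < Real.log N := lt_of_lt_of_le (by positivity) h2
  have h3 : ∑ n ∈ Icc 1 N, ((∑ j ∈ range K, (u (n + j) : ℝ)) / K) ^ 2 / n ≤
      1 + ∑ n ∈ Icc 1 N, MRT.SK (fun n => (u n : ℝ)) K n ^ 2 / n := by
    obtain ⟨M, rfl⟩ : ∃ M, N = M + 1 := ⟨N - 1, by omega⟩
    have e : ∑ n ∈ Icc 1 (M + 1), ((∑ j ∈ range K, (u (n + j) : ℝ)) / K) ^ 2 / n =
        ∑ n ∈ Icc 1 (M + 1), MRT.SK (fun n => (u n : ℝ)) K (n - 1) ^ 2 / n := by
      refine sum_congr rfl fun n hn => ?_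
      rw [mem_Icc] at hn
      rw [sum_sk (fun n => (u n : ℝ)) K n hn.1]
      rfl
    rw [e]
    refine (sum_shift hf K M).trans ?_
    rw [sum_Icc_succ_top (b := M) (by omega)]
    have h4 : 0 ≤ MRT.SK (fun n => (u n : ℝ)) K (M + 1) ^ 2 / ((M + 1 : ℕ) : ℝ) := by positivity
    linarith
  have h5 : 1 / Real.log N ≤ ε / 2 := by
    rw [div_le_iff₀ hlog]
    calc (1 : ℝ) = ε / 2 * (2 / ε) := by field_simp
      _ ≤ ε / 2 * Real.log N := mul_le_mul_of_nonneg_left h2 (by positivity)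
  unfold la
  calc (∑ n ∈ Icc 1 N, ((∑ j ∈ range K, (u (n + j) : ℝ)) / K) ^ 2 / n) / Real.log N
      ≤ (1 + ∑ n ∈ Icc 1 N, MRT.SK (fun n => (u n : ℝ)) K n ^ 2 / n) / Real.log N :=
        div_le_div_of_nonneg_right h3 hlog.le
    _ = 1 / Real.log N + (∑ n ∈ Icc 1 N, MRT.SK (fun n => (u n : ℝ)) K n ^ 2 / n) / Real.log N := add_div _ _ _
    _ ≤ ε := by linarith

end ELG
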