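import Mathlib

/-!
# ELG-Ssa: strong subadditivity of the entropy (finite sums)

Subadditivity for every value of the third variable, from `log x ≤ x - 1`.
-/

set_option autoImplicit false

namespace ELG

open Finset Real

variable {α β γ : Type} [Fintype α] [Fintype β] [Fintype γ]

private theorem ssa_pt {p s u v : ℝ} (hp : 0 ≤ p) (hs : p ≤ s) (hu : p ≤ u) (hv : p ≤ v) :
    p - u * v / s ≤ p * (Real.log p + Real.log s - Real.log u - Real.log v) := by
  rcases hp.eq_or_lt with h | h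
  · rw [← h, zero_mul, zero_sub]
    rw [← h] at hs hu hv
    have : 0 ≤ u * v / s := by positivity
    linarith
  · have hs0 := h.trans_le hs
    have hu0 := h.trans_le hu
    have hv0 := h.trans_le hv
    have h1 := Real.log_le_sub_one_of_pos (x := u * v / (p * s)) (by positivity)
    rw [Real.log_div (by positivity) (by positivity), Real.log_mul hu0.ne' hv0.ne',
      Real.log_mul h.ne' hs0.ne'] at h1
    have h2 := mul_le_mul_of_nonneg_left h1 hp
    have h3 : p * (u * v / (p * s) - 1) = u * v / s - p := by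
      field_simp
    rw [h3] at h2
    linarith

private theorem ssa_two (q : α → β → ℝ) (h0 : ∀ a b, 0 ≤ q a b) :
    ∑ a, ∑ b, negMulLog (q a b) + negMulLog (∑ a, ∑ b, q a b) ≤
      ∑ a, negMulLog (∑ b, q a b) + ∑ b, negMulLog (∑ a, q a b) := by
  obtain ⟨s, hs⟩ : ∃ s : ℝ, s = ∑ a, ∑ b, q a b := ⟨_, rfl⟩
  obtain ⟨u, hu⟩ : ∃ u : α → ℝ, ∀ a, u a = ∑ b, q a b := ⟨_, fun _ => rfl⟩
  obtain ⟨v, hv⟩ : ∃ v : β → ℝ, ∀ b, v b = ∑ a, q a b := ⟨_, fun _ => rfl⟩
  have hsu : s = ∑ a, u a := by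
    rw [hs]
    exact Finset.sum_congr rfl fun a _ => (hu a).symm
  have hsv : s = ∑ b, v b := by
    rw [hs, Finset.sum_comm]
    exact Finset.sum_congr rfl fun b _ => (hv b).symm
  have hu0 : ∀ a, 0 ≤ u a := fun a => by
    rw [hu]
    exact Finset.sum_nonneg fun b _ => h0 a b
  have hqu : ∀ a b, q a b ≤ u a := fun a b => by
    rw [hu]
    exact Finset.single_le_sum (fun b _ => h0 a b) (Finset.mem_univ b)
  have hqv : ∀ a b, q a b ≤ v b := fun a b => by
    rw [hv]
    exact Finset.single_le_sum (f := fun a => q a b) (fun a _ => h0 a b) (Finset.mem_univ a)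
  have hus : ∀ a, u a ≤ s := fun a => by
    rw [hsu]
    exact Finset.single_le_sum (fun a _ => hu0 a) (Finset.mem_univ a)
  have e1 : ∑ a, ∑ b, negMulLog (q a b) = ∑ a, ∑ b, -(q a b * Real.log (q a b)) :=
    Finset.sum_congr rfl fun a _ => Finset.sum_congr rfl fun b _ => by
      rw [negMulLog]
      ring
  have e2 : negMulLog s = ∑ a, ∑ b, -(q a b * Real.log s) := by
    rw [negMulLog]
    simp only [Finset.sum_neg_distrib, ← Finset.sum_mul]
    rw [← hs]
    ring
  have e3 : ∑ a, negMulLog (u a) = ∑ a, ∑ b, -(q a b * Real.log (u a)) := by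
    refine Finset.sum_congr rfl fun a _ => ?_
    rw [Finset.sum_neg_distrib, ← Finset.sum_mul, ← hu, negMulLog]
    ring
  have e4 : ∑ b, negMulLog (v b) = ∑ a, ∑ b, -(q a b * Real.log (v b)) := by
    rw [Finset.sum_comm]
    refine Finset.sum_congr rfl fun b _ => ?_
    rw [Finset.sum_neg_distrib, ← Finset.sum_mul, ← hv, negMulLog]
    ring
  have e5 : ∑ a, ∑ b, (q a b - u a * v b / s) = 0 := by
    have e6 : ∑ a, ∑ b, u a * v b / s = s * s / s := by
      calc ∑ a, ∑ b, u a * v b / s = ∑ a, u a * s / s := by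
            refine Finset.sum_congr rfl fun a _ => ?_
            rw [← Finset.sum_div, ← Finset.mul_sum, ← hsv]
        _ = s * s / s := by rw [← Finset.sum_div, ← Finset.sum_mul, ← hsu]
    simp only [Finset.sum_sub_distrib]
    rw [e6, ← hs, mul_self_div_self, sub_self]
  have e7 : 0 ≤ ∑ a, ∑ b, q a b * (Real.log (q a b) + Real.log s - Real.log (u a) - Real.log (v b)) := by
    rw [← e5]
    exact Finset.sum_le_sum fun a _ => Finset.sum_le_sum fun b _ =>
      ssa_pt (h0 a b) ((hqu a b).trans (hus a)) (hqu a b) (hqv a b)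
  have e8 : ∑ a, ∑ b, q a b * (Real.log (q a b) + Real.log s - Real.log (u a) - Real.log (v b)) =
      (∑ a, ∑ b, -(q a b * Real.log (u a)) + ∑ a, ∑ b, -(q a b * Real.log (v b))) -
      (∑ a, ∑ b, -(q a b * Real.log (q a b)) + ∑ a, ∑ b, -(q a b * Real.log s)) := by
    simp only [← Finset.sum_add_distrib, ← Finset.sum_sub_distrib]
    exact Finset.sum_congr rfl fun a _ => Finset.sum_congr rfl fun b _ => by ring
  rw [e8, ← e1, ← e2, ← e3, ← e4] at e7
  have e9 : ∑ a, negMulLog (∑ b, q a b) = ∑ a, negMulLog (u a) :=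
    Finset.sum_congr rfl fun a _ => by rw [hu]
  have e10 : ∑ b, negMulLog (∑ a, q a b) = ∑ b, negMulLog (v b) :=
    Finset.sum_congr rfl fun b _ => by rw [hv]
  rw [← hs, e9, e10]
  linarith

theorem ssa (p : α → β → γ → ℝ) (h0 : ∀ a b c, 0 ≤ p a b c) :
    ∑ a, ∑ b, ∑ c, negMulLog (p a b c) + ∑ c, negMulLog (∑ a, ∑ b, p a b c) ≤
      ∑ a, ∑ c, negMulLog (∑ b, p a b c) + ∑ b, ∑ c, negMulLog (∑ a, p a b c) := by
  have e1 : ∑ a, ∑ b, ∑ c, negMulLog (p a b c) = ∑ c, ∑ a, ∑ b, negMulLog (p a b c) := by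
    calc ∑ a, ∑ b, ∑ c, negMulLog (p a b c) = ∑ a, ∑ c, ∑ b, negMulLog (p a b c) :=
          Finset.sum_congr rfl fun a _ => Finset.sum_comm
      _ = ∑ c, ∑ a, ∑ b, negMulLog (p a b c) := Finset.sum_comm
  have e2 : ∑ a, ∑ c, negMulLog (∑ b, p a b c) = ∑ c, ∑ a, negMulLog (∑ b, p a b c) := Finset.sum_comm
  have e3 : ∑ b, ∑ c, negMulLog (∑ a, p a b c) = ∑ c, ∑ b, negMulLog (∑ a, p a b c) := Finset.sum_comm
  rw [e1, e2, e3, ← Finset.sum_add_distrib, ← Finset.sum_add_distrib]
  exact Finset.sum_le_sum fun c _ => ssa_two (fun a b => p a b c) fun a b => h0 a b c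

private theorem log_pt {p N : ℝ} (hp : 0 ≤ p) (hN : 0 < N) : negMulLog p ≤ p * Real.log N + 1 / N - p := by
  rcases hp.eq_or_lt with h | h
  · rw [← h, negMulLog_zero]
    have : 0 ≤ 1 / N := by positivity
    linarith
  · have h1 := Real.log_le_sub_one_of_pos (x := 1 / (p * N)) (by positivity)
    rw [one_div, Real.log_inv, Real.log_mul h.ne' hN.ne'] at h1
    have h2 := mul_le_mul_of_nonneg_left h1 hp
    have h3 : p * ((p * N)⁻¹ - 1) = 1 / N - p := by
      field_simp
    rw [h3] at h2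
    rw [negMulLog]
    linarith

/-- Entropy is at most the logarithm of the number of values. -/
theorem negMulLog_sum_le (p : α → ℝ) (h0 : ∀ a, 0 ≤ p a) (h1 : ∑ a, p a = 1) :
    ∑ a, negMulLog (p a) ≤ Real.log (Fintype.card α) := by
  have hne : Nonempty α := by
    by_contra hne
    rw [not_nonempty_iff] at hne
    rw [Finset.univ_eq_empty, Finset.sum_empty] at h1
    exact zero_ne_one h1
  have hN : (0 : ℝ) < Fintype.card α := by exact_mod_cast Fintype.card_pos
  have h2 : ∑ a, negMulLog (p a) ≤ ∑ a, (p a * Real.log (Fintype.card α) + 1 / (Fintype.card α : ℝ) - p a) :=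
    Finset.sum_le_sum fun a _ => log_pt (h0 a) hN
  rw [Finset.sum_sub_distrib, Finset.sum_add_distrib, ← Finset.sum_mul, h1, Finset.sum_const, Finset.card_univ,
    nsmul_eq_mul, mul_one_div_cancel hN.ne'] at h2
  linarith

end ELG
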