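import Pool.Agent.ELG.Mn
import Pool.Agent.ELG.Ssa

/-!
# ELG-Ent: entropy of random variables of a mean

PLAN.  Joint law `p a b c = μ.P (X = a ∧ Y = b ∧ Z = c)`; marginals by `P_part`; `ssa`, `negMulLog_sum_le`.  `H_inj`: the values outside the range of `f` have probability `0` (`negMulLog 0 = 0`).
`Hc_le`: `ssa` with `γ = Unit` after `H_inj`, or directly.  `Hc_pair`: `H (X, Y | Z) ≤ H (X | Z) + H (Y | Z)` is `ssa`.  `Hc_mono`: `H (X | Y, Z) ≤ H (X | Z)` is `ssa`.  `Hc_fun`: if `Y = g ∘ Z` on the nose then `(Y, Z)` is an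
injective function of `Z`.  `H_shift`: `P_shift`.
-/

set_option autoImplicit false

namespace ELG
namespace Mn

variable (μ : Mn) {α β γ δ : Type} [Fintype α] [Fintype β] [Fintype γ] [Fintype δ]

private theorem P_congr {A B : ℤ → Prop} (h : ∀ n, A n ↔ B n) : μ.P A = μ.P B := by
  have h1 : A = B := funext fun n => propext (h n)
  rw [h1]

private theorem P_false {A : ℤ → Prop} (h : ∀ n, ¬ A n) : μ.P A = 0 := by
  unfold Mn.P
  refine Eq.trans ?_ (μ.E_const 0)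
  congr 1
  funext n
  rw [if_neg (h n)]

theorem H_nonneg (X : ℤ → α) : 0 ≤ μ.H X := by
  exact Finset.sum_nonneg fun a _ => Real.negMulLog_nonneg (μ.P_nonneg _) (μ.P_le_one _)

theorem H_le_log (X : ℤ → α) : μ.H X ≤ Real.log (Fintype.card α) := by
  exact negMulLog_sum_le (fun a => μ.P fun n => X n = a) (fun a => μ.P_nonneg _) (μ.P_sum X)

theorem H_inj (X : ℤ → α) {f : α → β} (hf : Function.Injective f) : μ.H (fun n => f (X n)) = μ.H X := by
  unfold Mn.H
  symm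
  refine Fintype.sum_of_injective f hf _ _ ?_ ?_
  · intro b hb
    have h1 : μ.P (fun n => f (X n) = b) = 0 := μ.P_false fun n hn => hb ⟨X n, hn⟩
    rw [h1, Real.negMulLog_zero]
  · intro a
    have h1 : μ.P (fun n => X n = a) = μ.P (fun n => f (X n) = f a) :=
      μ.P_congr fun n => ⟨fun h => by rw [h], fun h => hf h⟩
    rw [h1]

theorem H_shift (X : ℤ → α) (a : ℤ) : μ.H (fun n => X (n + a)) = μ.H X := by
  unfold Mn.H
  refine Finset.sum_congr rfl fun b _ => ?_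
  rw [μ.P_shift (fun n => X n = b) a]

private theorem H_pair (X : ℤ → α) (Z : ℤ → γ) :
    μ.H (fun n => (X n, Z n)) = ∑ a, ∑ c, Real.negMulLog (μ.P fun n => X n = a ∧ Z n = c) := by
  unfold Mn.H
  rw [Fintype.sum_prod_type]
  refine Finset.sum_congr rfl fun a _ => Finset.sum_congr rfl fun c _ => ?_
  have h1 : μ.P (fun n => (X n, Z n) = (a, c)) = μ.P (fun n => X n = a ∧ Z n = c) :=
    μ.P_congr fun n => Prod.mk_inj
  rw [h1]

private theorem H_trip (X : ℤ → α) (Y : ℤ → β) (Z : ℤ → γ) :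
    μ.H (fun n => (X n, (Y n, Z n))) =
      ∑ a, ∑ b, ∑ c, Real.negMulLog (μ.P fun n => X n = a ∧ (Y n = b ∧ Z n = c)) := by
  unfold Mn.H
  rw [Fintype.sum_prod_type]
  refine Finset.sum_congr rfl fun a _ => ?_
  rw [Fintype.sum_prod_type]
  refine Finset.sum_congr rfl fun b _ => Finset.sum_congr rfl fun c _ => ?_
  have h1 : μ.P (fun n => (X n, (Y n, Z n)) = (a, (b, c))) = μ.P (fun n => X n = a ∧ (Y n = b ∧ Z n = c)) :=
    μ.P_congr fun n => by rw [Prod.mk_inj, Prod.mk_inj]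
  rw [h1]

/-- Strong subadditivity for random variables. -/
private theorem H_ssa (X : ℤ → α) (Y : ℤ → β) (Z : ℤ → γ) :
    μ.H (fun n => (X n, (Y n, Z n))) + μ.H Z ≤ μ.H (fun n => (X n, Z n)) + μ.H (fun n => (Y n, Z n)) := by
  have h := ssa (fun (a : α) (b : β) (c : γ) => μ.P fun n => X n = a ∧ (Y n = b ∧ Z n = c)) (fun a b c => μ.P_nonneg _)
  have e1 : ∀ b c, ∑ a, μ.P (fun n => X n = a ∧ (Y n = b ∧ Z n = c)) = μ.P (fun n => Y n = b ∧ Z n = c) :=
    fun b c => μ.P_part X _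
  have e2 : ∀ a c, ∑ b, μ.P (fun n => X n = a ∧ (Y n = b ∧ Z n = c)) = μ.P (fun n => X n = a ∧ Z n = c) := by
    intro a c
    rw [← μ.P_part Y (fun n => X n = a ∧ Z n = c)]
    refine Finset.sum_congr rfl fun b _ => μ.P_congr fun n => ?_
    constructor
    · rintro ⟨h1, h2, h3⟩
      exact ⟨h2, h1, h3⟩
    · rintro ⟨h2, h1, h3⟩
      exact ⟨h1, h2, h3⟩
  have e3 : ∀ c, ∑ a, ∑ b, μ.P (fun n => X n = a ∧ (Y n = b ∧ Z n = c)) = μ.P (fun n => Z n = c) := by
    intro c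
    rw [Finset.sum_comm, Finset.sum_congr rfl fun b _ => e1 b c]
    exact μ.P_part Y _
  have s1 : ∑ c, Real.negMulLog (∑ a, ∑ b, μ.P (fun n => X n = a ∧ (Y n = b ∧ Z n = c))) = μ.H Z := by
    unfold Mn.H
    exact Finset.sum_congr rfl fun c _ => by rw [e3 c]
  have s2 : ∑ a, ∑ c, Real.negMulLog (∑ b, μ.P (fun n => X n = a ∧ (Y n = b ∧ Z n = c))) = μ.H (fun n => (X n, Z n)) := by
    rw [H_pair]
    exact Finset.sum_congr rfl fun a _ => Finset.sum_congr rfl fun c _ => by rw [e2 a c]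
  have s3 : ∑ b, ∑ c, Real.negMulLog (∑ a, μ.P (fun n => X n = a ∧ (Y n = b ∧ Z n = c))) = μ.H (fun n => (Y n, Z n)) := by
    rw [H_pair]
    exact Finset.sum_congr rfl fun b _ => Finset.sum_congr rfl fun c _ => by rw [e1 b c]
  rw [H_trip, ← s1, ← s2, ← s3]
  exact h

/-- Conditioning decreases the entropy. -/
theorem Hc_mono (X : ℤ → α) (Y : ℤ → β) (Z : ℤ → γ) : μ.Hc X (fun n => (Y n, Z n)) ≤ μ.Hc X Z := by
  unfold Mn.Hc
  have h := μ.H_ssa X Y Z
  linarith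

theorem Hc_nonneg (X : ℤ → α) (Z : ℤ → γ) : 0 ≤ μ.Hc X Z := by
  have h := μ.Hc_mono X X Z
  have h1 : μ.Hc X (fun n => (X n, Z n)) = 0 := by
    unfold Mn.Hc
    have hf : Function.Injective (fun p : α × γ => (p.1, p)) := fun p q hpq => (Prod.mk_inj.1 hpq).2
    have h2 := μ.H_inj (fun n => (X n, Z n)) hf
    exact sub_eq_zero.2 h2
  rw [h1] at h
  exact h

/-- Relabelling of both variables. -/
private theorem Hc_inj' (X : ℤ → α) (Z : ℤ → γ) {f : α → β} {g : γ → δ} (hf : Function.Injective f) (hg : Function.Injective g) :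
    μ.Hc (fun n => f (X n)) (fun n => g (Z n)) = μ.Hc X Z := by
  unfold Mn.Hc
  rw [μ.H_inj Z hg]
  have h2 := μ.H_inj (fun n => (X n, Z n)) (hf.prodMap hg)
  have h3 : μ.H (fun n => (f (X n), g (Z n))) = μ.H (fun n => (X n, Z n)) := h2
  rw [h3]

theorem Hc_le_log (X : ℤ → α) (Z : ℤ → γ) : μ.Hc X Z ≤ Real.log (Fintype.card α) := by
  have h := μ.Hc_mono X Z (fun _ => ())
  have h1 : μ.Hc X (fun n => (Z n, ())) = μ.Hc X Z :=
    μ.Hc_inj' X Z Function.injective_id (g := fun z : γ => (z, ())) fun a b hab => (Prod.mk_inj.1 hab).1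
  have h2 : μ.Hc X (fun _ => ()) ≤ μ.H X := by
    unfold Mn.Hc
    have h3 := μ.H_inj X (f := fun a : α => (a, ())) fun a b hab => (Prod.mk_inj.1 hab).1
    have h4 : μ.H (fun n => (X n, ())) = μ.H X := h3
    have h5 := μ.H_nonneg (fun _ => ())
    rw [h4]
    linarith
  rw [h1] at h
  exact h.trans (h2.trans (μ.H_le_log X))

/-- Subadditivity. -/
theorem Hc_pair (X : ℤ → α) (Y : ℤ → β) (Z : ℤ → γ) :
    μ.Hc (fun n => (X n, Y n)) Z ≤ μ.Hc X Z + μ.Hc Y Z := by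
  unfold Mn.Hc
  have h := μ.H_ssa X Y Z
  have h1 := μ.H_inj (fun n => ((X n, Y n), Z n)) (Equiv.prodAssoc α β γ).injective
  have h2 : μ.H (fun n => (X n, (Y n, Z n))) = μ.H (fun n => ((X n, Y n), Z n)) := h1
  rw [h2] at h
  linarith

/-- Relabelling of both variables. -/
theorem Hc_inj (X : ℤ → α) (Z : ℤ → γ) {f : α → β} {g : γ → δ} (hf : Function.Injective f) (hg : Function.Injective g) :
    μ.Hc (fun n => f (X n)) (fun n => g (Z n)) = μ.Hc X Z := by
  exact μ.Hc_inj' X Z hf hg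

theorem I_nonneg (X : ℤ → α) (Y : ℤ → β) (Z : ℤ → γ) : 0 ≤ μ.I X Y Z := by
  unfold Mn.I
  have h := μ.Hc_mono X Y Z
  linarith

end Mn
end ELG
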