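import Pool.Agent.ELG.Lst

/-!
# ELG-Fin0: cubes and collisions in a finite interval: definitions, the cases `s = 1` and the window

`Ct f M s` = number of relations `Dd f δ u = 0` on `s`-dimensional cubes in `[0, M)`; `Col f M` = number of pairs with equal value.

PLAN.  `Ct_one`: for `δ = [d]`: `Cu` says `u, u + d ∈ [0, M)`, `f u + f (u + d) = 0` iff `f u = f (u + d)`.  `Ct_le`: trivial bound.  `win`: `M = 8 s N`; for `u ∈ [2sN, 6sN)` and `|δ_j| < 2N` all vertices are in `[0, M)`: `Ct (fun v => L (x + B v)) M s ≥ ∑_u SL (2N) s 1_{Dd L (δ.map (B * ·)) (x + B u) = 0}`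
(`Dd_mul`, `SL_range`); apply `E` (`E_SL`, `P_shift`).  `Col_split`: `M ≤ M'`: cut `[0, M')` into `⌈M'/M⌉ ≤ 2M'/M` blocks of length `M`; for every value `(∑_b n_b)² ≤ (#blocks) ∑_b n_b²`; the mean of `Col` of a block is at most the one of `Col (L (x + ·)) M` (`E`, shift).
`Col_ap`: pairs in the same class mod `B` of `[0, B M)`; the mean over `x` of the class `r` is the mean of `Col (fun v => L (x + B v)) M`.
-/

set_option autoImplicit false

namespace ELG

open Finset

section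
variable {G : Type} [AddCommGroup G]

open Classical in
noncomputable def Ct (f : ℤ → G) (M s : ℕ) : ℝ := SL M s fun δ =>
  (((Ico (0 : ℤ) M).filter fun u => Cu (fun v => 0 ≤ v ∧ v < M) δ u ∧ Dd f δ u = 0).card : ℝ)

open Classical in
noncomputable def Col (f : ℤ → G) (M : ℕ) : ℝ :=
  (((Ico (0 : ℤ) M ×ˢ Ico (0 : ℤ) M).filter fun z => f z.1 = f z.2).card : ℝ)

private theorem SL_zero' (N r : ℕ) : SL N r (fun _ => (0 : ℝ)) = 0 := by
  have h := SL_smul N r 0 (fun _ => (0 : ℝ))
  simpa using h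

private theorem SL_nonneg' {N r : ℕ} {F : List ℤ → ℝ} (h : ∀ δ, 0 ≤ F δ) : 0 ≤ SL N r F := by
  rw [← SL_zero' N r]
  exact SL_mono fun δ _ _ => h δ

theorem Ct_nonneg (f : ℤ → G) (M s : ℕ) : 0 ≤ Ct f M s :=
  SL_nonneg' fun δ => Nat.cast_nonneg _

private theorem sum_Ico_range (M : ℕ) (g : ℤ → ℝ) : ∑ u ∈ Ico (0 : ℤ) M, g u = ∑ i ∈ range M, g i := by
  refine Finset.sum_nbij' Int.toNat Nat.cast ?_ ?_ ?_ ?_ ?_
  · intro a ha
    rw [mem_Ico] at ha
    rw [mem_range]
    omega
  · intro a ha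
    rw [mem_range] at ha
    rw [mem_Ico]
    omega
  · intro a ha
    rw [mem_Ico] at ha
    exact Int.toNat_of_nonneg ha.1
  · intro a _
    exact Int.toNat_natCast a
  · intro a ha
    rw [mem_Ico] at ha
    rw [Int.toNat_of_nonneg ha.1]

omit [AddCommGroup G] in
open Classical in
private theorem Col_eq (f : ℤ → G) (M : ℕ) :
    Col f M = ∑ i ∈ range M, ∑ j ∈ range M, if f i = f j then (1 : ℝ) else 0 := by
  unfold Col
  rw [card_filter, Nat.cast_sum, sum_product, sum_Ico_range]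
  refine sum_congr rfl fun i _ => ?_
  rw [sum_Ico_range]
  refine sum_congr rfl fun j _ => ?_
  simp only [Nat.cast_ite, Nat.cast_one, Nat.cast_zero]

theorem Col_le (f : ℤ → G) (M : ℕ) : Col f M ≤ M ^ 2 := by
  classical
  rw [Col_eq]
  calc (∑ i ∈ range M, ∑ j ∈ range M, if f i = f j then (1 : ℝ) else 0)
      ≤ ∑ i ∈ range M, ∑ j ∈ range M, (1 : ℝ) := by
        refine sum_le_sum fun i _ => sum_le_sum fun j _ => ?_
        split_ifs
        · exact le_rfl
        · exact zero_le_one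
    _ = M ^ 2 := by simp [sq]

private theorem e2_iff (hG : E2 G) (a b : G) : a + b = 0 ↔ a = b := by
  constructor
  · intro h
    have h1 := hG b
    exact add_right_cancel (h.trans h1.symm)
  · rintro rfl
    exact hG a

theorem Ct_one (hG : E2 G) (f : ℤ → G) (M : ℕ) : Ct f M 1 = Col f M := by
  classical
  unfold Ct Col
  show (∑ d ∈ Ioo (-(M : ℤ)) M, (((Ico (0 : ℤ) M).filter fun u =>
    Cu (fun v => 0 ≤ v ∧ v < M) [d] u ∧ Dd f [d] u = 0).card : ℝ)) = _
  rw [← Nat.cast_sum, Nat.cast_inj, ← card_sigma]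
  refine card_nbij' (fun p => (p.2, p.2 + p.1)) (fun z => ⟨z.2 - z.1, z.1⟩) ?_ ?_ ?_ ?_
  · rintro ⟨d, u⟩ h
    simp only [coe_sigma, Set.mem_sigma_iff, mem_coe, mem_filter, mem_Ioo, mem_Ico, Cu, Dd] at h
    simp only [coe_filter, mem_product, mem_Ico, Set.mem_ofPred_eq]
    obtain ⟨h1, h2, h3, h4⟩ := h
    exact ⟨⟨h3.1, h3.2⟩, (e2_iff hG _ _).1 h4⟩
  · rintro ⟨u, v⟩ h
    simp only [coe_filter, mem_product, mem_Ico, Set.mem_ofPred_eq] at h
    simp only [coe_sigma, Set.mem_sigma_iff, mem_coe, mem_filter, mem_Ioo, mem_Ico, Cu, Dd]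
    obtain ⟨⟨h1, h2⟩, h3⟩ := h
    refine ⟨⟨by omega, by omega⟩, h1, ⟨h1, by omega⟩, ?_⟩
    rw [add_sub_cancel]
    exact (e2_iff hG _ _).2 h3
  · rintro ⟨d, u⟩ h
    simp
  · rintro ⟨u, v⟩ h
    simp

theorem Ct_le (f : ℤ → G) (M s : ℕ) : Ct f M s ≤ (2 * M) ^ s * M := by
  classical
  have h1 : Ct f M s ≤ SL M s fun _ => (M : ℝ) := by
    refine SL_mono fun δ _ _ => ?_
    have h2 := card_filter_le (Ico (0 : ℤ) M) fun u => Cu (fun v => 0 ≤ v ∧ v < M) δ u ∧ Dd f δ u = 0
    rw [Int.card_Ico] at h2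
    have h3 : ((M : ℤ) - 0).toNat = M := by omega
    rw [h3] at h2
    exact_mod_cast h2
  rcases Nat.eq_zero_or_pos M with rfl | hM
  · refine h1.trans ?_
    have h4 := SL_zero' 0 s
    simp only [Nat.cast_zero] at h4 ⊢
    rw [h4]
    simp
  · refine h1.trans ?_
    rw [SL_const M s hM]
    have h5 : (1 : ℝ) ≤ M := by exact_mod_cast hM
    exact mul_le_mul_of_nonneg_right (pow_le_pow_left₀ (by linarith) (by linarith) s) (by linarith)

end

theorem Bd_Ct {G : Type} [AddCommGroup G] (L : ℤ → G) (B : ℤ) (M s : ℕ) : Bd fun x => Ct (fun v => L (x + B * v)) M s := by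
  refine ⟨(2 * M) ^ s * M, fun n => ?_⟩
  rw [abs_of_nonneg (Ct_nonneg _ _ _)]
  exact Ct_le _ _ _

private theorem Col_nonneg' {G : Type} (f : ℤ → G) (M : ℕ) : 0 ≤ Col f M := Nat.cast_nonneg _

theorem Bd_Col {G : Type} [AddCommGroup G] (L : ℤ → G) (B : ℤ) (M : ℕ) : Bd fun x => Col (fun v => L (x + B * v)) M := by
  refine ⟨M ^ 2, fun n => ?_⟩
  rw [abs_of_nonneg (Col_nonneg' _ _)]
  exact Col_le _ _

private theorem Cu_win {M D : ℤ} : ∀ (δ : List ℤ) (u : ℤ), (∀ d ∈ δ, -D < d ∧ d < D) →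
    δ.length * D ≤ u → u + δ.length * D < M → Cu (fun v => 0 ≤ v ∧ v < M) δ u := by
  intro δ
  induction δ with
  | nil =>
    intro u _ h1 h2
    simp only [List.length_nil, Nat.cast_zero, zero_mul, add_zero] at h1 h2
    exact ⟨h1, h2⟩
  | cons t ts ih =>
    intro u hd h1 h2
    have ht := hd t (by simp)
    have hts : ∀ d ∈ ts, -D < d ∧ d < D := fun d hd' => hd d (by simp [hd'])
    simp only [List.length_cons, Nat.cast_add, Nat.cast_one, add_mul, one_mul] at h1 h2
    exact ⟨ih u hts (by linarith) (by linarith), ih (u + t) hts (by linarith) (by linarith)⟩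

theorem win (μ : Mn) {G : Type} [AddCommGroup G] (L : ℤ → G) (B : ℤ) {N s : ℕ} (hN : 1 ≤ N) (hs : 1 ≤ s) :
    4 * s * N * SL (2 * N) s (fun δ => μ.P (fun x => Dd L (δ.map (B * ·)) x = 0)) ≤
      μ.E (fun x => Ct (fun v => L (x + B * v)) (8 * s * N) s) := by
  classical
  let J : Finset ℤ := Ico (2 * s * N : ℤ) (6 * s * N)
  let F : List ℤ → ℤ → ℝ := fun δ x => ∑ u ∈ J, if Dd L (δ.map (B * ·)) (x + B * u) = 0 then 1 else 0
  have hF : ∀ δ, Bd (F δ) := fun δ => Bd.sum fun u _ => Bd.ite _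
  obtain ⟨hb, hE⟩ := μ.E_SL (2 * N) s F hF
  have h1 : μ.E (fun x => SL (2 * N) s fun δ => F δ x) ≤ μ.E (fun x => Ct (fun v => L (x + B * v)) (8 * s * N) s) := by
    refine μ.E_mono hb (Bd_Ct L B _ _) fun x => ?_
    have h2 : SL (2 * N) s (fun δ => (((Ico (0 : ℤ) ((8 * s * N : ℕ) : ℤ)).filter fun u =>
        Cu (fun v => 0 ≤ v ∧ v < ((8 * s * N : ℕ) : ℤ)) δ u ∧ Dd (fun v => L (x + B * v)) δ u = 0).card : ℝ)) ≤
        Ct (fun v => L (x + B * v)) (8 * s * N) s := by
      refine SL_range ?_ fun δ => Nat.cast_nonneg _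
      have : 1 * N ≤ s * N := Nat.mul_le_mul_right N hs
      nlinarith
    refine le_trans (SL_mono fun δ hl hd => ?_) h2
    show (∑ u ∈ J, if Dd L (δ.map (B * ·)) (x + B * u) = 0 then (1 : ℝ) else 0) ≤ _
    rw [card_filter, Nat.cast_sum]
    have hJ : J ⊆ Ico (0 : ℤ) ((8 * s * N : ℕ) : ℤ) := by
      intro u hu
      rw [mem_Ico] at hu ⊢
      have h3 : (0 : ℤ) ≤ s * N := by positivity
      push_cast
      constructor
      · nlinarith [hu.1]
      · nlinarith [hu.2]
    refine le_trans (sum_le_sum fun u hu => ?_) (sum_le_sum_of_subset_of_nonneg hJ fun _ _ _ => Nat.cast_nonneg _)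
    rw [mem_Ico] at hu
    have hc : Cu (fun v => 0 ≤ v ∧ v < ((8 * s * N : ℕ) : ℤ)) δ u := by
      have hd' : ∀ d ∈ δ, -(2 * N : ℤ) < d ∧ d < 2 * N := by
        intro d h
        have := hd d h
        push_cast at this
        exact this
      refine Cu_win (D := 2 * N) δ u hd' ?_ ?_
      · rw [hl]
        nlinarith [hu.1]
      · rw [hl]
        push_cast
        nlinarith [hu.2]
    rw [Dd_mul]
    simp only [hc, true_and, Nat.cast_ite, Nat.cast_one, Nat.cast_zero, le_refl]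
  refine le_trans (le_of_eq ?_) h1
  rw [hE, ← SL_smul]
  refine SL_congr fun δ _ _ => ?_
  have h4 : μ.E (F δ) = ∑ u ∈ J, μ.P (fun x => Dd L (δ.map (B * ·)) (x + B * u) = 0) := by
    show μ.E (fun x => ∑ u ∈ J, if Dd L (δ.map (B * ·)) (x + B * u) = 0 then (1 : ℝ) else 0) = _
    rw [μ.E_sum J _ fun u _ => Bd.ite _]
    rfl
  rw [h4, sum_congr rfl fun u _ => μ.P_shift (fun x => Dd L (δ.map (B * ·)) x = 0) (B * u), sum_const, nsmul_eq_mul]
  congr 1
  show (4 * s * N : ℝ) = ((Ico (2 * s * N : ℤ) (6 * s * N)).card : ℝ)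
  rw [Int.card_Ico]
  have h5 : ((6 * s * N : ℤ) - 2 * s * N).toNat = 4 * s * N := by
    have : (6 * s * N : ℤ) - 2 * s * N = ((4 * s * N : ℕ) : ℤ) := by
      push_cast
      ring
    rw [this]
    exact Int.toNat_natCast _
  rw [h5]
  push_cast
  ring

private theorem sum_range_mul' (m k : ℕ) (g : ℕ → ℝ) :
    ∑ a ∈ range (m * k), g a = ∑ x ∈ range m, ∑ y ∈ range k, g (y + k * x) := by
  rw [Finset.sum_range, ← finProdFinEquiv.sum_comp, Fintype.sum_prod_type]
  rw [Finset.sum_range]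
  refine sum_congr rfl fun x _ => ?_
  rw [Finset.sum_range]
  rfl

open Classical in
private theorem cross_le {G : Type} (M : ℕ) (φ ψ : ℕ → G) :
    (∑ i ∈ range M, ∑ j ∈ range M, if φ i = ψ j then (1 : ℝ) else 0) ≤
      1 / 2 * ((∑ i ∈ range M, ∑ j ∈ range M, if φ i = φ j then (1 : ℝ) else 0) +
        ∑ i ∈ range M, ∑ j ∈ range M, if ψ i = ψ j then (1 : ℝ) else 0) := by
  let T : Finset G := (range M).image φ ∪ (range M).image ψ
  have key : ∀ a b : ℕ → G, (∀ i ∈ range M, a i ∈ T) →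
      (∑ i ∈ range M, ∑ j ∈ range M, if a i = b j then (1 : ℝ) else 0) =
        ∑ t ∈ T, (∑ i ∈ range M, if a i = t then (1 : ℝ) else 0) * ∑ j ∈ range M, if b j = t then (1 : ℝ) else 0 := by
    intro a b ha
    have h1 : ∀ i ∈ range M, ∀ j ∈ range M, (if a i = b j then (1 : ℝ) else 0) =
        ∑ t ∈ T, (if a i = t then (1 : ℝ) else 0) * if b j = t then (1 : ℝ) else 0 := by
      intro i hi j _
      rw [Finset.sum_eq_single (a i)]
      · simp [eq_comm]
      · intro t _ ht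
        simp [ht.symm]
      · intro h
        exact absurd (ha i hi) h
    rw [sum_congr rfl fun i hi => sum_congr rfl fun j hj => h1 i hi j hj]
    rw [sum_congr rfl fun i _ => sum_comm, sum_comm]
    refine sum_congr rfl fun t _ => ?_
    rw [sum_mul_sum]
  have hφ : ∀ i ∈ range M, φ i ∈ T := fun i hi => mem_union_left _ (mem_image_of_mem _ hi)
  have hψ : ∀ i ∈ range M, ψ i ∈ T := fun i hi => mem_union_right _ (mem_image_of_mem _ hi)
  rw [key φ ψ hφ, key φ φ hφ, key ψ ψ hψ, ← sum_add_distrib, mul_sum]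
  refine sum_le_sum fun t _ => ?_
  nlinarith [sq_nonneg ((∑ i ∈ range M, if φ i = t then (1 : ℝ) else 0) - ∑ j ∈ range M, if ψ j = t then (1 : ℝ) else 0)]

private theorem Col_mono' {G : Type} (f : ℤ → G) {M M' : ℕ} (h : M ≤ M') : Col f M ≤ Col f M' := by
  classical
  unfold Col
  have h1 : Ico (0 : ℤ) M ⊆ Ico (0 : ℤ) M' := Ico_subset_Ico le_rfl (by exact_mod_cast h)
  exact_mod_cast card_le_card (filter_subset_filter _ (product_subset_product h1 h1))

private theorem Col_blocks {G : Type} (f : ℤ → G) (K M : ℕ) :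
    Col f (K * M) ≤ K * ∑ b ∈ range K, Col (fun v => f (v + M * b)) M := by
  classical
  have e : Col f (K * M) = ∑ b ∈ range K, ∑ c ∈ range K, ∑ i ∈ range M, ∑ j ∈ range M,
      if f (i + M * b) = f (j + M * c) then (1 : ℝ) else 0 := by
    rw [Col_eq, sum_range_mul']
    refine sum_congr rfl fun b _ => ?_
    rw [sum_comm]
    rw [sum_range_mul']
    refine sum_congr rfl fun c _ => ?_
    rw [sum_comm]
    refine sum_congr rfl fun i _ => sum_congr rfl fun j _ => ?_
    push_cast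
    rfl
  rw [e]
  calc (∑ b ∈ range K, ∑ c ∈ range K, ∑ i ∈ range M, ∑ j ∈ range M,
      if f (i + M * b) = f (j + M * c) then (1 : ℝ) else 0)
      ≤ ∑ b ∈ range K, ∑ c ∈ range K, 1 / 2 * (Col (fun v => f (v + M * b)) M + Col (fun v => f (v + M * c)) M) := by
        refine sum_le_sum fun b _ => sum_le_sum fun c _ => ?_
        rw [Col_eq, Col_eq]
        exact cross_le M (fun i => f (i + M * b)) fun j => f (j + M * c)
    _ = K * ∑ b ∈ range K, Col (fun v => f (v + M * b)) M := by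
        simp only [mul_add, sum_add_distrib, sum_const, card_range, nsmul_eq_mul, ← mul_sum]
        ring

theorem Col_split (μ : Mn) {G : Type} [AddCommGroup G] (L : ℤ → G) {M M' : ℕ} (hM : 1 ≤ M) (h : M ≤ M') :
    μ.E (fun x => Col (fun v => L (x + v)) M') / M' ^ 2 ≤ 4 * (μ.E (fun x => Col (fun v => L (x + v)) M) / M ^ 2) := by
  have hbd : ∀ K : ℕ, Bd fun x => Col (fun v => L (x + v)) K := by
    intro K
    have := Bd_Col L 1 K
    simpa only [one_mul] using this
  let K : ℕ := M' / M + 1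
  have hK1 : M' ≤ K * M := by
    have h1 := Nat.div_add_mod M' M
    have h2 := Nat.mod_lt M' (show 0 < M by omega)
    show M' ≤ (M' / M + 1) * M
    nlinarith
  have hK2 : K * M ≤ 2 * M' := by
    have h1 := Nat.div_mul_le_self M' M
    show (M' / M + 1) * M ≤ 2 * M'
    nlinarith
  have h3 : μ.E (fun x => Col (fun v => L (x + v)) M') ≤ K ^ 2 * μ.E (fun x => Col (fun v => L (x + v)) M) := by
    have h4 : ∀ b : ℕ, Bd fun x => Col (fun v => L (x + (v + M * b))) M := by
      intro b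
      refine ⟨M ^ 2, fun n => ?_⟩
      rw [abs_of_nonneg (Col_nonneg' _ _)]
      exact Col_le _ _
    have h5 : μ.E (fun x => Col (fun v => L (x + v)) M') ≤
        μ.E (fun x => K * ∑ b ∈ range K, Col (fun v => L (x + (v + M * b))) M) := by
      refine μ.E_mono (hbd M') ((Bd.sum fun b _ => h4 b).smul _) fun x => ?_
      exact (Col_mono' _ hK1).trans (Col_blocks (fun v => L (x + v)) K M)
    have h6 : ∀ b ∈ range K, μ.E (fun x => Col (fun v => L (x + (v + M * b))) M) =
        μ.E (fun x => Col (fun v => L (x + v)) M) := by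
      intro b _
      have h7 := μ.shift (fun x => Col (fun v => L (x + v)) M) (M * b) (hbd M)
      rw [← h7]
      congr 1
      funext x
      congr 1
      funext v
      congr 1
      ring
    refine h5.trans (le_of_eq ?_)
    rw [μ.smul _ _ (Bd.sum fun b _ => h4 b), μ.E_sum _ _ (fun b _ => h4 b), sum_congr rfl h6, sum_const, card_range,
      nsmul_eq_mul]
    ring
  have hMp : (0 : ℝ) < M := by exact_mod_cast hM
  have hMp' : (0 : ℝ) < M' := by exact_mod_cast (show 0 < M' by omega)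
  have h0 : 0 ≤ μ.E (fun x => Col (fun v => L (x + v)) M) := μ.nonneg _ (hbd M) fun x => Col_nonneg' _ _
  rw [← mul_div_assoc, div_le_div_iff₀ (by positivity) (by positivity)]
  have hK3 : (K : ℝ) * M ≤ 2 * M' := by exact_mod_cast hK2
  have hK4 : ((K : ℝ) * M) ^ 2 ≤ (2 * M') ^ 2 := pow_le_pow_left₀ (by positivity) hK3 2
  calc μ.E (fun x => Col (fun v => L (x + v)) M') * M ^ 2
      ≤ (K ^ 2 * μ.E (fun x => Col (fun v => L (x + v)) M)) * M ^ 2 := mul_le_mul_of_nonneg_right h3 (by positivity)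
    _ = ((K : ℝ) * M) ^ 2 * μ.E (fun x => Col (fun v => L (x + v)) M) := by ring
    _ ≤ (2 * M') ^ 2 * μ.E (fun x => Col (fun v => L (x + v)) M) := mul_le_mul_of_nonneg_right hK4 h0
    _ = 4 * μ.E (fun x => Col (fun v => L (x + v)) M) * M' ^ 2 := by ring

theorem Col_ap (μ : Mn) {G : Type} [AddCommGroup G] (L : ℤ → G) {B M : ℕ} (hB : 1 ≤ B) :
    B * μ.E (fun x => Col (fun v => L (x + B * v)) M) ≤ μ.E (fun x => Col (fun v => L (x + v)) (B * M)) := by
  classical
  have h4 : ∀ r : ℕ, Bd fun x => Col (fun v => L (x + r + B * v)) M := by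
    intro r
    refine ⟨M ^ 2, fun n => ?_⟩
    rw [abs_of_nonneg (Col_nonneg' _ _)]
    exact Col_le _ _
  have hbd : Bd fun x => Col (fun v => L (x + v)) (B * M) := by
    have := Bd_Col L 1 (B * M)
    simpa only [one_mul] using this
  have h5 : μ.E (fun x => ∑ r ∈ range B, Col (fun v => L (x + r + B * v)) M) ≤
      μ.E (fun x => Col (fun v => L (x + v)) (B * M)) := by
    refine μ.E_mono (Bd.sum fun r _ => h4 r) hbd fun x => ?_
    have e : Col (fun v => L (x + v)) (B * M) = ∑ i ∈ range M, ∑ r ∈ range B, ∑ j ∈ range M, ∑ t ∈ range B,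
        if L (x + (r + B * i)) = L (x + (t + B * j)) then (1 : ℝ) else 0 := by
      rw [Col_eq, mul_comm B M, sum_range_mul']
      refine sum_congr rfl fun i _ => sum_congr rfl fun r _ => ?_
      rw [sum_range_mul']
      refine sum_congr rfl fun j _ => sum_congr rfl fun t _ => ?_
      push_cast
      rfl
    rw [e, sum_comm]
    refine sum_le_sum fun r hr => ?_
    rw [Col_eq]
    refine sum_le_sum fun i _ => sum_le_sum fun j _ => ?_
    have h6 : (if L (x + (r + B * i)) = L (x + (r + B * j)) then (1 : ℝ) else 0) ≤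
        ∑ t ∈ range B, if L (x + (r + B * i)) = L (x + (t + B * j)) then (1 : ℝ) else 0 :=
      single_le_sum (f := fun t : ℕ => if L (x + (r + B * i)) = L (x + (t + B * j)) then (1 : ℝ) else 0)
        (fun t _ => by split_ifs <;> norm_num) hr
    refine le_trans (le_of_eq ?_) h6
    simp only [add_assoc]
  refine le_trans (le_of_eq ?_) h5
  rw [μ.E_sum _ _ (fun r _ => h4 r)]
  have h6 : ∀ r ∈ range B, μ.E (fun x => Col (fun v => L (x + r + B * v)) M) =
      μ.E (fun x => Col (fun v => L (x + B * v)) M) := fun r _ =>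
    μ.shift (fun x => Col (fun v => L (x + B * v)) M) r (Bd_Col L B M)
  rw [sum_congr rfl h6, sum_const, card_range, nsmul_eq_mul]

end ELG
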