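import Pool.Agent.ELG.FinalI
import Pool.Agent.ELG.EnS

/-!
# ELG-FinG: Elliott's conjecture on average over a finite group, general form

`T` = the set of the `S` for which `∏_{i ∈ S} f i` is `-1` only on a set of primes with `∑ 1/p < ∞` (it contains `∅`).

PLAN.  As in `FinII`: `finalI` gives `C`, for `h`: `c`.  For every `S ∉ T`: `energy_small` for `u = ∏_{i ∈ S} f i` with `ε = 2^{-m}`: `K₀(S)`; `K` = the maximum of the `K₀(S)` and `1`, then `N₀(S)`; for `S ∈ T` the energy is at most `la N 1 ≤ 2` (`N ≥ 3`).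
So the mean energy is at most `2 |T|/2^m + 2^{-m} ≤ 3 |T|/2^m`, and with `δ = 2^{-m}`: `c X^C ≤ 4 |T|/2^m`, `X ≤ (4/c)^{1/C} (|T|/2^m)^{1/C}`; `γ = 1/C`.
-/

set_option autoImplicit false

namespace ELG

open Finset

theorem empty_fin {m : ℕ} (f : Fin m → ℕ → ℤ) : ¬ Dv (fun n => ∏ i ∈ (∅ : Finset (Fin m)), f i n) := by
  rw [Dv, not_not]
  have : (fun p : Nat.Primes => if (∏ i ∈ (∅ : Finset (Fin m)), f i p) = -1 then 1 / ((p : ℕ) : ℝ) else 0) = fun _ => 0 := by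
    funext p
    rw [prod_empty, if_neg (by norm_num)]
  rw [this]
  exact summable_zero

private theorem cms_prod {m : ℕ} {f : Fin m → ℕ → ℤ} (hf : ∀ i, CMS (f i)) (S : Finset (Fin m)) : CMS (fun n => ∏ i ∈ S, f i n) := by
  classical
  constructor
  · intro n hn
    induction S using Finset.induction_on with
    | empty => left; simp
    | insert a S ha ih =>
      rw [prod_insert ha]
      rcases (hf a).sgn n hn with h | h <;> rcases ih with h' | h' <;> rw [h, h'] <;> norm_num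
  · intro a b ha hb
    rw [← prod_mul_distrib]
    exact prod_congr rfl fun i _ => (hf i).mul a b ha hb

private theorem fS_cast {m : ℕ} (f : Fin m → ℕ → ℤ) (S : Finset (Fin m)) (n : ℕ) : fS f S n = ((∏ i ∈ S, f i n : ℤ) : ℝ) := by
  rw [fS]; push_cast; rfl

private theorem fS_abs {m : ℕ} {f : Fin m → ℕ → ℤ} (hf : ∀ i, CMS (f i)) (S : Finset (Fin m)) {n : ℕ} (hn : 0 < n) : |fS f S n| = 1 := by
  rw [fS_cast]
  rcases (cms_prod hf S).sgn n hn with h | h
  · have h' : ∏ i ∈ S, f i n = 1 := h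
    rw [h']; norm_num
  · have h' : ∏ i ∈ S, f i n = -1 := h
    rw [h']; norm_num

private theorem la_mono {N : ℕ} {g g' : ℕ → ℝ} (h : ∀ n ∈ Icc 1 N, g n ≤ g' n) : la N g ≤ la N g' := by
  rw [la, la]
  apply div_le_div_of_nonneg_right _ (Real.log_natCast_nonneg N)
  exact sum_le_sum fun n hn => div_le_div_of_nonneg_right (h n hn) (Nat.cast_nonneg n)

private theorem la_one {N : ℕ} (hN : 3 ≤ N) : la N (fun _ => 1) ≤ 2 := by
  rw [la]
  have h1 : ∑ n ∈ Icc 1 N, (1 : ℝ) / n = (harmonic N : ℝ) := by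
    rw [harmonic_eq_sum_Icc]
    push_cast
    exact sum_congr rfl fun n _ => by rw [one_div]
  have h2 : (harmonic N : ℝ) ≤ 1 + Real.log N := harmonic_le_one_add_log N
  have h3 : 1 ≤ Real.log N := by
    rw [Real.le_log_iff_exp_le (by positivity)]
    have h4 : (3 : ℝ) ≤ N := by exact_mod_cast hN
    have := Real.exp_one_lt_d9
    linarith
  rw [div_le_iff₀ (by linarith), h1]
  linarith

private theorem la_nonneg {N : ℕ} {g : ℕ → ℝ} (h : ∀ n, 0 ≤ g n) : 0 ≤ la N g := by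
  rw [la]
  exact div_nonneg (sum_nonneg fun n _ => div_nonneg (h n) (Nat.cast_nonneg n)) (Real.log_natCast_nonneg N)

open Classical in
theorem finalG (k : ℕ) (hk : 1 ≤ k) : ∃ γ : ℝ, 0 < γ ∧ γ ≤ 1 ∧ ∀ h : ℕ → ℕ, (∀ i < k, ∀ j < k, h i = h j → i = j) → ∃ C : ℝ, 0 < C ∧
    ∀ (m : ℕ) (f : Fin m → ℕ → ℤ), (∀ i, CMS (f i)) →
      ∃ N₀ : ℕ, ∀ N ≥ N₀, ∀ w : ℕ → ℝ, (∀ n, |w n| ≤ 1) →
        (∑ S : Finset (Fin m), la N (fun n => w n * ∏ i ∈ range k, fS f S (n + h i)) ^ 2) / 2 ^ m ≤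
          C * (((univ.filter fun S : Finset (Fin m) => ¬ Dv (fun n => ∏ i ∈ S, f i n)).card : ℝ) / 2 ^ m) ^ γ := by
  obtain ⟨C, hC, hmain⟩ := finalI k hk
  have hC0 : (0 : ℝ) < C := by exact_mod_cast hC
  refine ⟨1 / C, by positivity, by rw [div_le_one hC0]; exact_mod_cast hC, fun h hh => ?_⟩
  obtain ⟨c, hc, hmain⟩ := hmain h hh
  refine ⟨(4 / c) ^ ((1 : ℝ) / C), by positivity, fun m f hf => ?_⟩
  set T : Finset (Finset (Fin m)) := univ.filter fun S : Finset (Fin m) => ¬ Dv (fun n => ∏ i ∈ S, f i n) with hT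
  have hTc : (1 : ℝ) ≤ T.card := by
    have : ∅ ∈ T := by
      rw [hT, mem_filter]
      exact ⟨mem_univ _, empty_fin f⟩
    exact_mod_cast card_pos.2 ⟨_, this⟩
  have hpow : (0 : ℝ) < 2 ^ m := by positivity
  -- the range `K`
  have hK : ∀ S : Finset (Fin m), ∃ K₀ : ℕ, S ∉ T → ∀ K ≥ K₀, 1 ≤ K → ∃ N₀ : ℕ, ∀ N ≥ N₀,
      la N (fun n => ((∑ j ∈ range K, fS f S (n + j)) / K) ^ 2) ≤ 1 / 2 ^ m := by
    intro S
    by_cases hS : S ∈ T
    · exact ⟨0, fun h => absurd hS h⟩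
    · have hd : Dv (fun n => ∏ i ∈ S, f i n) := by
        by_contra h
        exact hS (by rw [hT, mem_filter]; exact ⟨mem_univ _, h⟩)
      obtain ⟨K₀, hK₀⟩ := energy_small (cms_prod hf S) hd (ε := 1 / 2 ^ m) (by positivity)
      refine ⟨K₀, fun _ K hK hK1 => ?_⟩
      obtain ⟨N₀, hN₀⟩ := hK₀ K hK hK1
      refine ⟨N₀, fun N hN => ?_⟩
      have := hN₀ N hN
      simp only [fS_cast]
      exact this
  choose K₀ hK₀ using hK
  set K : ℕ := (univ.sup K₀) + 1 with hKdef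
  have hKge : ∀ S, K₀ S ≤ K := fun S => (le_sup (mem_univ S)).trans (Nat.le_succ _)
  have hN : ∀ S : Finset (Fin m), ∃ N₀ : ℕ, S ∉ T → ∀ N ≥ N₀,
      la N (fun n => ((∑ j ∈ range K, fS f S (n + j)) / K) ^ 2) ≤ 1 / 2 ^ m := by
    intro S
    by_cases hS : S ∈ T
    · exact ⟨0, fun h => absurd hS h⟩
    · obtain ⟨N₀, hN₀⟩ := hK₀ S hS K (hKge S) (Nat.le_add_left _ _)
      exact ⟨N₀, fun _ => hN₀⟩
  choose N₁ hN₁ using hN
  obtain ⟨N₂, hN₂⟩ := hmain m f hf K (Nat.le_add_left _ _) (1 / 2 ^ m) (by positivity)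
  refine ⟨max N₂ (max 3 (univ.sup N₁)), fun N hN w hw => ?_⟩
  have hN2 : N ≥ N₂ := (le_max_left _ _).trans hN
  have hN3 : 3 ≤ N := (le_max_left _ _).trans ((le_max_right _ _).trans hN)
  have hNS : ∀ S, N₁ S ≤ N := fun S => (le_sup (mem_univ S)).trans ((le_max_right _ _).trans ((le_max_right _ _).trans hN))
  have h1 := hN₂ N hN2 w hw
  set X : ℝ := (∑ S : Finset (Fin m), la N (fun n => w n * ∏ i ∈ range k, fS f S (n + h i)) ^ 2) / 2 ^ m with hX
  have hX0 : 0 ≤ X := div_nonneg (sum_nonneg fun _ _ => sq_nonneg _) hpow.le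
  have hK1 : (1 : ℝ) ≤ K := by exact_mod_cast Nat.le_add_left _ _
  -- energies
  have hE : ∑ S : Finset (Fin m), la N (fun n => ((∑ j ∈ range K, fS f S (n + j)) / K) ^ 2) ≤ 3 * T.card := by
    have hT2 : ∀ S ∈ T, la N (fun n => ((∑ j ∈ range K, fS f S (n + j)) / K) ^ 2) ≤ 2 := by
      intro S _
      refine le_trans (la_mono fun n hn => ?_) (la_one hN3)
      have hn1 : 1 ≤ n := (mem_Icc.1 hn).1
      have h2 : |(∑ j ∈ range K, fS f S (n + j)) / K| ≤ 1 := by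
        rw [abs_div, Nat.abs_cast, div_le_one (by linarith)]
        refine (abs_sum_le_sum_abs _ _).trans ?_
        rw [sum_congr rfl fun j _ => fS_abs hf S (show 0 < n + j by omega), sum_const, card_range, nsmul_eq_mul, mul_one]
      rw [← sq_abs]
      exact pow_le_one₀ (abs_nonneg _) h2
    rw [← sum_filter_add_sum_filter_not univ (fun S => S ∈ T)]
    have e1 : (univ.filter fun S => S ∈ T) = T := by ext S; simp
    rw [e1]
    have h3 : ∑ S ∈ T, la N (fun n => ((∑ j ∈ range K, fS f S (n + j)) / K) ^ 2) ≤ 2 * T.card := by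
      refine (sum_le_sum hT2).trans (le_of_eq ?_)
      rw [sum_const, nsmul_eq_mul]; ring
    have h4 : ∑ S ∈ univ.filter (fun S => ¬ S ∈ T), la N (fun n => ((∑ j ∈ range K, fS f S (n + j)) / K) ^ 2) ≤ 1 := by
      refine (sum_le_sum fun S hS => hN₁ S (mem_filter.1 hS).2 N (hNS S)).trans ?_
      rw [sum_const, nsmul_eq_mul]
      have h5 : ((univ.filter fun S : Finset (Fin m) => ¬ S ∈ T).card : ℝ) ≤ 2 ^ m := by
        have h6 : (univ.filter fun S : Finset (Fin m) => ¬ S ∈ T).card ≤ (univ : Finset (Finset (Fin m))).card := card_filter_le _ _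
        rw [card_univ, Fintype.card_finset, Fintype.card_fin] at h6
        exact_mod_cast h6
      rw [mul_one_div, div_le_one hpow]
      exact h5
    linarith
  have h2 : c * X ^ C ≤ 4 * (T.card / 2 ^ m) := by
    refine h1.trans ?_
    have h3 : (∑ S : Finset (Fin m), la N (fun n => ((∑ j ∈ range K, fS f S (n + j)) / K) ^ 2)) / 2 ^ m ≤ 3 * T.card / 2 ^ m :=
      div_le_div_of_nonneg_right hE hpow.le
    have h4 : (1 : ℝ) / 2 ^ m ≤ T.card / 2 ^ m := div_le_div_of_nonneg_right hTc hpow.le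
    refine (add_le_add h3 h4).trans (le_of_eq ?_)
    ring
  have h3 : X ^ C ≤ 4 / c * (T.card / 2 ^ m) := by
    rw [div_mul_eq_mul_div, le_div_iff₀ hc]
    linarith
  have h4 : X = (X ^ C) ^ ((1 : ℝ) / C) := by
    rw [← Real.rpow_natCast, ← Real.rpow_mul hX0, mul_one_div, div_self hC0.ne', Real.rpow_one]
  have h5 : 0 ≤ 4 / c := by positivity
  have h6 : 0 ≤ (T.card : ℝ) / 2 ^ m := div_nonneg (Nat.cast_nonneg _) hpow.le
  have h7 : 0 ≤ X ^ C := pow_nonneg hX0 C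
  have h8 : (0 : ℝ) ≤ 1 / C := by positivity
  calc X = (X ^ C) ^ ((1 : ℝ) / C) := h4
    _ ≤ (4 / c * ((T.card : ℝ) / 2 ^ m)) ^ ((1 : ℝ) / C) := Real.rpow_le_rpow h7 h3 h8
    _ = _ := Real.mul_rpow h5 h6

end ELG
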