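import Pool.Agent.ELG.FinalI
import Pool.Agent.ELG.EnS

/-!
# ELG-FinII: Elliott's conjecture on average over a finite group

PLAN.  `finalI` gives `C`, for `h`: `c`.  For every nonempty `S`: `energy_small` for `u = ∏_{i ∈ S} f i` (`CMS` of a product: induction, `u = ∏`, values `± 1`) with `ε = 2^{-m}`: `K₀(S)`; `K` = the maximum of the `K₀(S)` and `1`, then `N₀(S)`; `fS f S n = (∏_{i ∈ S} f i n : ℤ)` as a real number.
For `S = ∅` the energy is `la N 1 ≤ 2` (`N ≥ 3`).  So the mean energy is at most `(2 + 1)/2^m` and with `δ = 2^{-m}`: `c X^C ≤ 4/2^m`, `X ≤ (4/c)^{1/C} 2^{-m/C}`; `γ = 1/C`.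
`finalII_count`: Markov with the threshold `2^{-γ'm}`, `γ' = γ/3`: `# ≤ 2^{m + 2γ'm} X ≤ C 2^{(1 - γ')m}`.
-/

set_option autoImplicit false

namespace ELG

open Finset

private theorem CMS_prod {m : ℕ} {f : Fin m → ℕ → ℤ} (hf : ∀ i, CMS (f i)) (S : Finset (Fin m)) :
    CMS (fun n => ∏ i ∈ S, f i n) := by
  constructor
  · intro n hn
    induction S using Finset.induction_on with
    | empty => left; simp
    | insert a S ha ih =>
      rw [Finset.prod_insert ha]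
      rcases (hf a).sgn n hn with h | h <;> rcases ih with h' | h' <;> rw [h, h'] <;> norm_num
  · intro a b ha hb
    rw [← Finset.prod_mul_distrib]
    exact Finset.prod_congr rfl (fun i _ => (hf i).mul a b ha hb)

private theorem la_one_le {N : ℕ} (hN : 3 ≤ N) : la N (fun _ => 1) ≤ 2 := by
  unfold la
  have hN' : (3 : ℝ) ≤ N := by exact_mod_cast hN
  have hlog : 1 ≤ Real.log N := by
    rw [Real.le_log_iff_exp_le (by linarith)]
    exact (Real.exp_one_lt_d9.le.trans (by norm_num)).trans hN'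
  have hpos : 0 < Real.log N := by linarith
  rw [div_le_iff₀ hpos]
  have h1 : ∑ n ∈ Icc 1 N, (1 : ℝ) / n ≤ 1 + Real.log N := by
    have := harmonic_le_one_add_log N
    rw [harmonic_eq_sum_Icc] at this
    push_cast at this
    simpa [one_div] using this
  linarith

private theorem la_congr {N : ℕ} {g g' : ℕ → ℝ} (h : ∀ n, g n = g' n) : la N g = la N g' := by
  have : g = g' := funext h
  rw [this]

theorem finalII (k : ℕ) (hk : 1 ≤ k) : ∃ γ : ℝ, 0 < γ ∧ γ ≤ 1 ∧ ∀ h : ℕ → ℕ, (∀ i < k, ∀ j < k, h i = h j → i = j) → ∃ C : ℝ, 0 < C ∧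
    ∀ (m : ℕ) (f : Fin m → ℕ → ℤ), (∀ i, CMS (f i)) → (∀ S : Finset (Fin m), S.Nonempty → Dv (fun n => ∏ i ∈ S, f i n)) →
      ∃ N₀ : ℕ, ∀ N ≥ N₀, ∀ w : ℕ → ℝ, (∀ n, |w n| ≤ 1) →
        (∑ S : Finset (Fin m), la N (fun n => w n * ∏ i ∈ range k, fS f S (n + h i)) ^ 2) / 2 ^ m ≤ C * (2 : ℝ) ^ (-(γ * m)) := by
  classical
  obtain ⟨C, hC, hmain⟩ := finalI k hk
  have hC0 : (0 : ℝ) < C := by exact_mod_cast hC
  have hC1 : (1 : ℝ) ≤ C := by exact_mod_cast hC
  refine ⟨1 / C, by positivity, ?_, fun h hh => ?_⟩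
  · rw [div_le_one hC0]
    exact hC1
  obtain ⟨c, hc, hmain⟩ := hmain h hh
  refine ⟨(4 / c) ^ (1 / (C : ℝ)), by positivity, fun m f hf hD => ?_⟩
  have h2m : (0 : ℝ) < 2 ^ m := by positivity
  have hε : (0 : ℝ) < 1 / 2 ^ m := by positivity
  have hES : ∀ S : Finset (Fin m), ∃ K₀ : ℕ, ∀ K ≥ K₀, 1 ≤ K → ∃ N₀ : ℕ, ∀ N ≥ N₀, S.Nonempty →
      la N (fun n => ((∑ j ∈ range K, fS f S (n + j)) / K) ^ 2) ≤ 1 / 2 ^ m := by
    intro S
    by_cases hS : S.Nonempty
    · obtain ⟨K₀, hK₀⟩ := energy_small (CMS_prod hf S) (hD S hS) hε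
      refine ⟨K₀, fun K hK hK1 => ?_⟩
      obtain ⟨N₀, hN₀⟩ := hK₀ K hK hK1
      refine ⟨N₀, fun N hN _ => ?_⟩
      refine le_trans (le_of_eq ?_) (hN₀ N hN)
      apply la_congr
      intro n
      congr 2
      apply Finset.sum_congr rfl
      intro j _
      unfold fS
      push_cast
      rfl
    · exact ⟨0, fun K _ _ => ⟨0, fun N _ h => absurd h hS⟩⟩
  choose K₀ hK₀ using hES
  set K : ℕ := max 1 (univ.sup K₀) with hKdef
  have hK1 : 1 ≤ K := le_max_left _ _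
  have hKS : ∀ S, K₀ S ≤ K := fun S => (Finset.le_sup (mem_univ S)).trans (le_max_right _ _)
  have hNS := fun S => hK₀ S K (hKS S) hK1
  choose N₁ hN₁ using hNS
  obtain ⟨N₂, hN₂⟩ := hmain m f hf K hK1 (1 / 2 ^ m) hε
  refine ⟨max (max N₂ 3) (univ.sup N₁), fun N hN w hw => ?_⟩
  have hNa : N₂ ≤ N := (le_max_left _ _).trans ((le_max_left _ _).trans hN)
  have hNb : 3 ≤ N := (le_max_right _ _).trans ((le_max_left _ _).trans hN)
  have hNc : ∀ S, N₁ S ≤ N := fun S =>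
    (Finset.le_sup (mem_univ S)).trans ((le_max_right _ _).trans hN)
  have hX := hN₂ N hNa w hw
  set X : ℝ := (∑ S : Finset (Fin m), la N (fun n => w n * ∏ i ∈ range k, fS f S (n + h i)) ^ 2) / 2 ^ m
    with hXdef
  have hX0 : 0 ≤ X := div_nonneg (Finset.sum_nonneg (fun S _ => sq_nonneg _)) h2m.le
  have hsum : ∑ S : Finset (Fin m), la N (fun n => ((∑ j ∈ range K, fS f S (n + j)) / K) ^ 2) ≤ 3 := by
    rw [← Finset.add_sum_erase univ _ (mem_univ (∅ : Finset (Fin m)))]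
    have h1 : la N (fun n => ((∑ j ∈ range K, fS f ∅ (n + j)) / K) ^ 2) ≤ 2 := by
      refine le_trans (le_of_eq ?_) (la_one_le hNb)
      apply la_congr
      intro n
      have hK0 : (K : ℝ) ≠ 0 := by
        have : 0 < K := hK1
        positivity
      simp [fS, hK0]
    have h2 : ∑ S ∈ univ.erase (∅ : Finset (Fin m)),
        la N (fun n => ((∑ j ∈ range K, fS f S (n + j)) / K) ^ 2) ≤ 1 := by
      calc ∑ S ∈ univ.erase (∅ : Finset (Fin m)),
            la N (fun n => ((∑ j ∈ range K, fS f S (n + j)) / K) ^ 2)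
          ≤ ∑ S ∈ univ.erase (∅ : Finset (Fin m)), (1 : ℝ) / 2 ^ m := by
            apply Finset.sum_le_sum
            intro S hS
            exact hN₁ S N (hNc S) (Finset.nonempty_iff_ne_empty.2 (Finset.ne_of_mem_erase hS))
        _ ≤ ∑ S : Finset (Fin m), (1 : ℝ) / 2 ^ m := by
            apply Finset.sum_le_sum_of_subset_of_nonneg (Finset.erase_subset _ _)
            intro _ _ _
            positivity
        _ = 1 := by
            rw [Finset.sum_const, Finset.card_univ, Fintype.card_finset, Fintype.card_fin, nsmul_eq_mul]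
            push_cast
            field_simp
    linarith
  have hcX : c * X ^ C ≤ 4 / 2 ^ m := by
    have h3 : (∑ S : Finset (Fin m), la N (fun n => ((∑ j ∈ range K, fS f S (n + j)) / K) ^ 2)) / 2 ^ m ≤
        3 / 2 ^ m := div_le_div_of_nonneg_right hsum h2m.le
    have h4 : (3 : ℝ) / 2 ^ m + 1 / 2 ^ m = 4 / 2 ^ m := by ring
    linarith
  have hXC : X ^ C ≤ 4 / c * (2 : ℝ) ^ (-(m : ℝ)) := by
    rw [Real.rpow_neg (by norm_num), Real.rpow_natCast]
    have : X ^ C = (c * X ^ C) / c := by field_simp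
    rw [this, div_le_iff₀ hc]
    refine hcX.trans (le_of_eq ?_)
    field_simp
  have hXr : X = (X ^ C) ^ (1 / (C : ℝ)) := by
    rw [← Real.rpow_natCast X C, ← Real.rpow_mul hX0]
    rw [mul_one_div_cancel hC0.ne', Real.rpow_one]
  rw [hXr]
  refine (Real.rpow_le_rpow (by positivity) hXC (by positivity)).trans (le_of_eq ?_)
  rw [Real.mul_rpow (by positivity) (by positivity), ← Real.rpow_mul (by norm_num)]
  congr 2
  ring

open Classical in
theorem finalII_count (k : ℕ) (hk : 1 ≤ k) : ∃ γ : ℝ, 0 < γ ∧ γ ≤ 1 ∧ ∀ h : ℕ → ℕ, (∀ i < k, ∀ j < k, h i = h j → i = j) → ∃ C : ℝ, 0 < C ∧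
    ∀ (m : ℕ) (f : Fin m → ℕ → ℤ), (∀ i, CMS (f i)) → (∀ S : Finset (Fin m), S.Nonempty → Dv (fun n => ∏ i ∈ S, f i n)) →
      ∃ N₀ : ℕ, ∀ N ≥ N₀, ∀ w : ℕ → ℝ, (∀ n, |w n| ≤ 1) →
        ((univ.filter fun S : Finset (Fin m) => (2 : ℝ) ^ (-(γ * m)) ≤ |la N (fun n => w n * ∏ i ∈ range k, fS f S (n + h i))|).card : ℝ) ≤
          C * (2 : ℝ) ^ ((1 - γ) * m) := by
  obtain ⟨γ, hγ, hγ1, hmain⟩ := finalII k hk
  refine ⟨γ / 3, by positivity, by linarith, fun h hh => ?_⟩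
  obtain ⟨C, hC, hmain⟩ := hmain h hh
  refine ⟨C, hC, fun m f hf hD => ?_⟩
  obtain ⟨N₀, hN₀⟩ := hmain m f hf hD
  refine ⟨N₀, fun N hN w hw => ?_⟩
  have hX := hN₀ N hN w hw
  have h2m : (0 : ℝ) < 2 ^ m := by positivity
  rw [div_le_iff₀ h2m] at hX
  set T := univ.filter fun S : Finset (Fin m) => (2 : ℝ) ^ (-(γ / 3 * m)) ≤
    |la N (fun n => w n * ∏ i ∈ range k, fS f S (n + h i))| with hT
  have ht : (0 : ℝ) < (2 : ℝ) ^ (-(γ / 3 * m)) := by positivity
  have h1 : (T.card : ℝ) * ((2 : ℝ) ^ (-(γ / 3 * m))) ^ 2 ≤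
      ∑ S : Finset (Fin m), la N (fun n => w n * ∏ i ∈ range k, fS f S (n + h i)) ^ 2 := by
    calc (T.card : ℝ) * ((2 : ℝ) ^ (-(γ / 3 * m))) ^ 2
        = ∑ S ∈ T, ((2 : ℝ) ^ (-(γ / 3 * m))) ^ 2 := by
          rw [Finset.sum_const, nsmul_eq_mul]
      _ ≤ ∑ S ∈ T, la N (fun n => w n * ∏ i ∈ range k, fS f S (n + h i)) ^ 2 := by
          apply Finset.sum_le_sum
          intro S hS
          have := (Finset.mem_filter.1 hS).2
          rw [← sq_abs (la N _)]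
          exact pow_le_pow_left₀ ht.le this 2
      _ ≤ _ := by
          apply Finset.sum_le_sum_of_subset_of_nonneg (Finset.subset_univ _)
          intro _ _ _
          positivity
  have h2 : ((2 : ℝ) ^ (-(γ / 3 * m))) ^ 2 = (2 : ℝ) ^ (-(2 * (γ / 3 * m))) := by
    rw [← Real.rpow_natCast, ← Real.rpow_mul (by norm_num)]
    congr 1
    push_cast
    ring
  have h3 : (0 : ℝ) < (2 : ℝ) ^ (-(2 * (γ / 3 * m))) := by positivity
  rw [h2] at h1
  have h4 : (T.card : ℝ) ≤ C * (2 : ℝ) ^ (-(γ * m)) * 2 ^ m / (2 : ℝ) ^ (-(2 * (γ / 3 * m))) := by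
    rw [le_div_iff₀ h3]
    exact h1.trans hX
  refine h4.trans (le_of_eq ?_)
  rw [← Real.rpow_natCast (2 : ℝ) m, mul_assoc, ← Real.rpow_add (by norm_num), mul_div_assoc,
    ← Real.rpow_sub (by norm_num)]
  congr 2
  ring

end ELG
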