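import Pool.Agent.Helper50.FS.Defs
import Pool.Agent.Helper50.FS.Ortho

/-!
# ELG-HbD: compact groups of completely multiplicative functions with values in `{-1, 1}`

`F i`, `i ∈ ℕ`: completely multiplicative functions which tend to `1` pointwise (`Fam F`); `fx F x = ∏_{i : x i = -1} F i`, `x ∈ {-1, 1}^ℕ`.

PLAN.  For `n > 0` the product is finite (`hF.fin`, `finprod_eq_prod_of_mulSupport_subset`), in `ℤˣ` every element has square `1`: `fx_mul` (`if x i * y i = -1 then e else 1 = (if x i = -1 then e else 1) * (if y i = -1 then e else 1)`, `finprod_mul_distrib`).  `fx_dep`: only the finitely many `i` with `F i n ≠ 1` matter.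
`fx_meas`: finite product of measurable functions of `x i` (`measurable` from the countable discrete space `ℤˣ`).  `signs_mul`: `signs` is invariant under `x ↦ x * y` (`Measure.infinitePi_map_pi`-type or as `map_flip` in `FS/Ortho.lean`; `half` is invariant under multiplication by `± 1`).
-/

set_option autoImplicit false

namespace ELG

open Finset MeasureTheory Pool.Agent.Helper50.FS

/-- Completely multiplicative functions with values in `{-1, 1}`. -/
def IsCM (u : ℕ → ℤˣ) : Prop := u 1 = 1 ∧ ∀ a b : ℕ, 0 < a → 0 < b → u (a * b) = u a * u b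

/-- Families of completely multiplicative functions which tend to `1` pointwise. -/
structure Fam (F : ℕ → ℕ → ℤˣ) : Prop where
  cm : ∀ i, IsCM (F i)
  fin : ∀ n, 0 < n → {i | F i n ≠ 1}.Finite

open Classical in
/-- `∏_{i : x i = -1} F i n`. -/
noncomputable def fx (F : ℕ → ℕ → ℤˣ) (x : ℕ → ℤˣ) (n : ℕ) : ℤˣ := ∏ᶠ i, if x i = -1 then F i n else 1

/-- The primes at which some `F i`, `i ≥ j`, is `-1`. -/
def Tl (F : ℕ → ℕ → ℤˣ) (j : ℕ) : Set ℕ := {p | p.Prime ∧ ∃ i, j ≤ i ∧ F i p = -1}

open Classical in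
/-- `∑_{p : fx F x p = -1} 1/p`. -/
noncomputable def Mx (F : ℕ → ℕ → ℤˣ) (x : ℕ → ℤˣ) : ENNReal :=
  ∑' p : Nat.Primes, if fx F x p = -1 then ENNReal.ofReal (1 / ((p : ℕ) : ℝ)) else 0

variable {F : ℕ → ℕ → ℤˣ}

private theorem hbd_measSet (s : Set ℤˣ) : MeasurableSet s := by
  refine ⟨Units.val '' s, trivial, ?_⟩
  exact Set.preimage_image_eq s Units.val_injective

private theorem hbd_meas {Z : Type*} [MeasurableSpace Z] (f : ℤˣ → Z) : Measurable f :=
  fun _ _ => hbd_measSet _

open Classical in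
private theorem hbd_eq (x : ℕ → ℤˣ) (n : ℕ) (s : Finset ℕ) (hs : ∀ i, F i n ≠ 1 → i ∈ s) :
    fx F x n = ∏ i ∈ s, if x i = -1 then F i n else 1 := by
  unfold fx
  refine finprod_eq_prod_of_mulSupport_subset _ fun i hi => ?_
  rw [Function.mem_mulSupport] at hi
  refine Finset.mem_coe.2 (hs i fun h => hi ?_)
  rw [h, ite_self]

theorem fx_one (hF : Fam F) {n : ℕ} (hn : 0 < n) : fx F 1 n = 1 := by
  classical
  rw [hbd_eq 1 n (hF.fin n hn).toFinset (fun i hi => (Set.Finite.mem_toFinset _).2 hi)]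
  refine Finset.prod_eq_one fun i _ => ?_
  have h : ¬ ((1 : ℕ → ℤˣ) i = -1) := by
    rw [Pi.one_apply]
    decide
  rw [if_neg h]

theorem fx_mul (hF : Fam F) (x y : ℕ → ℤˣ) {n : ℕ} (hn : 0 < n) : fx F (x * y) n = fx F x n * fx F y n := by
  classical
  have hs : ∀ i, F i n ≠ 1 → i ∈ (hF.fin n hn).toFinset := fun i hi => (Set.Finite.mem_toFinset _).2 hi
  rw [hbd_eq (x * y) n _ hs, hbd_eq x n _ hs, hbd_eq y n _ hs, ← Finset.prod_mul_distrib]
  refine Finset.prod_congr rfl fun i _ => ?_
  rw [Pi.mul_apply]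
  have h1 : ¬ ((1 : ℤˣ) = -1) := by decide
  have h2 : (-1 : ℤˣ) * -1 = 1 := by decide
  have h3 : ∀ e : ℤˣ, e * e = 1 := fun e => by
    rcases Int.units_eq_one_or e with h | h
    · rw [h, one_mul]
    · rw [h, h2]
  rcases Int.units_eq_one_or (x i) with hx | hx
  · rcases Int.units_eq_one_or (y i) with hy | hy
    · rw [hx, hy, one_mul, if_neg h1, one_mul]
    · rw [hx, hy, one_mul, if_pos rfl, if_neg h1, one_mul]
  · rcases Int.units_eq_one_or (y i) with hy | hy
    · rw [hx, hy, mul_one, if_pos rfl, if_neg h1, mul_one]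
    · rw [hx, hy, h2, if_pos rfl, if_neg h1, h3]

theorem fx_cm (hF : Fam F) (x : ℕ → ℤˣ) : IsCM (fx F x) := by
  classical
  constructor
  · rw [hbd_eq x 1 ∅ (fun i hi => absurd (hF.cm i).1 hi), Finset.prod_empty]
  · intro a b ha hb
    have hab : 0 < a * b := Nat.mul_pos ha hb
    let s : Finset ℕ := (hF.fin a ha).toFinset ∪ ((hF.fin b hb).toFinset ∪ (hF.fin _ hab).toFinset)
    have h1 : ∀ i, F i a ≠ 1 → i ∈ s := fun i hi =>
      Finset.mem_union_left _ ((Set.Finite.mem_toFinset _).2 hi)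
    have h2 : ∀ i, F i b ≠ 1 → i ∈ s := fun i hi =>
      Finset.mem_union_right _ (Finset.mem_union_left _ ((Set.Finite.mem_toFinset _).2 hi))
    have h3 : ∀ i, F i (a * b) ≠ 1 → i ∈ s := fun i hi =>
      Finset.mem_union_right _ (Finset.mem_union_right _ ((Set.Finite.mem_toFinset _).2 hi))
    rw [hbd_eq x _ s h3, hbd_eq x _ s h1, hbd_eq x _ s h2, ← Finset.prod_mul_distrib]
    refine Finset.prod_congr rfl fun i _ => ?_
    by_cases hx : x i = -1
    · rw [if_pos hx, if_pos hx, if_pos hx, (hF.cm i).2 a b ha hb]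
    · rw [if_neg hx, if_neg hx, if_neg hx, one_mul]

theorem fx_dep (hF : Fam F) {n : ℕ} (hn : 0 < n) {x y : ℕ → ℤˣ} (h : ∀ i, F i n ≠ 1 → x i = y i) : fx F x n = fx F y n := by
  classical
  have hs : ∀ i, F i n ≠ 1 → i ∈ (hF.fin n hn).toFinset := fun i hi => (Set.Finite.mem_toFinset _).2 hi
  rw [hbd_eq x n _ hs, hbd_eq y n _ hs]
  refine Finset.prod_congr rfl fun i hi => ?_
  rw [h i ((Set.Finite.mem_toFinset _).1 hi)]

theorem fx_prod (hF : Fam F) {m : ℕ} (x : Fin m → ℕ → ℤˣ) (S : Finset (Fin m)) {n : ℕ} (hn : 0 < n) :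
    fx F (∏ i ∈ S, x i) n = ∏ i ∈ S, fx F (x i) n := by
  classical
  induction S using Finset.induction_on with
  | empty => rw [Finset.prod_empty, Finset.prod_empty, fx_one hF hn]
  | insert i S hi ih => rw [Finset.prod_insert hi, Finset.prod_insert hi, fx_mul hF _ _ hn, ih]

theorem fx_meas (hF : Fam F) {n : ℕ} (hn : 0 < n) : Measurable fun x => fx F x n := by
  classical
  have _i : DiscreteMeasurableSpace ℤˣ := ⟨hbd_measSet⟩
  have _j : MeasurableMul₂ ℤˣ := inferInstance
  have hs : ∀ i, F i n ≠ 1 → i ∈ (hF.fin n hn).toFinset := fun i hi => (Set.Finite.mem_toFinset _).2 hi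
  have h1 : (fun x => fx F x n) = fun x : ℕ → ℤˣ =>
      ∏ i ∈ (hF.fin n hn).toFinset, if x i = -1 then F i n else 1 := by
    funext x
    exact hbd_eq x n _ hs
  rw [h1]
  refine Finset.measurable_fun_prod _ fun i _ => ?_
  exact (hbd_meas (fun e : ℤˣ => if e = -1 then F i n else 1)).comp (measurable_pi_apply i)

theorem Mx_meas (hF : Fam F) : Measurable (Mx F) := by
  classical
  unfold Mx
  refine Measurable.ennreal_tsum fun p => ?_
  exact (hbd_meas (fun e : ℤˣ => if e = -1 then ENNReal.ofReal (1 / ((p : ℕ) : ℝ)) else 0)).comp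
    (fx_meas hF p.2.pos)

theorem signs_prob : IsProbabilityMeasure signs := by
  unfold signs
  infer_instance

theorem signs_mul (y : ℕ → ℤˣ) : signs.map (fun x => x * y) = signs := by
  unfold signs
  have h := Measure.infinitePi_map_pi (μ := fun _ : ℕ => half)
    (f := fun q x => x * y q)
    (fun q => hbd_meas _)
  have h2 : (fun q : ℕ => half.map (fun x : ℤˣ => x * y q)) = fun _ : ℕ => half := by
    funext q
    rcases Int.units_eq_one_or (y q) with hq | hq
    · rw [hq]
      have h3 : (fun x : ℤˣ => x * 1) = id := by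
        funext x
        exact mul_one x
      rw [h3]
      exact Measure.map_id
    · rw [hq]
      have hm : Measurable (fun x : ℤˣ => x * -1) := hbd_meas _
      unfold half
      rw [Measure.map_smul, Measure.map_add _ _ hm, Measure.map_dirac' hm, Measure.map_dirac' hm,
        one_mul, neg_mul_neg, mul_one, add_comm]
  have h3 : (fun (x : ℕ → ℤˣ) (i : ℕ) => x i * y i) = fun x => x * y := rfl
  rw [h3] at h
  rw [h]
  exact congrArg _ h2

theorem isMult_mul {u v : ℕ → ℤˣ} (hu : IsMult u) (hv : IsCM v) : IsMult fun n => u n * v n := by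
  constructor
  · show u 1 * v 1 = 1
    rw [hu.1, hv.1, one_mul]
  · intro m n hm hn hc
    show u (m * n) * v (m * n) = u m * v m * (u n * v n)
    rw [hu.2 m n hm hn hc, hv.2 m n hm hn, mul_mul_mul_comm]

end ELG
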