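import Pool.Agent.ELG.FinG
import Pool.Agent.ELG.HbD

/-!
# ELG-FinP: Elliott's conjecture on average over a finite group: statement for groups
-/

set_option autoImplicit false

namespace ELG

open Finset Pool.Agent.Helper50.FS

/-- `∑_{p : u p = -1} 1/p < ∞`. -/
def FinMass (u : ℕ → ℤˣ) : Prop := Summable fun p : Nat.Primes => if u p = -1 then 1 / ((p : ℕ) : ℝ) else 0

private theorem uu (a : ℤˣ) : a * a = 1 := by
  rcases Int.units_eq_one_or a with h | h <;> rw [h] <;> decide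

private theorem fun_sq (u : ℕ → ℤˣ) : u * u = 1 := funext fun n => uu (u n)

private theorem card_fib {m : ℕ} {f : Fin m → ℕ → ℤˣ} {Γ : Finset (ℕ → ℤˣ)} (hf : ∀ u ∈ Γ, ∃ i, f i = u)
    (hmul : ∀ u ∈ Γ, ∀ v ∈ Γ, u * v ∈ Γ) [DecidableEq (ℕ → ℤˣ)] {u v : ℕ → ℤˣ} (hu : u ∈ Γ) (hv : v ∈ Γ) :
    (univ.filter fun S : Finset (Fin m) => ∏ i ∈ S, f i = u).card = (univ.filter fun S : Finset (Fin m) => ∏ i ∈ S, f i = v).card := by
  obtain ⟨i₀, hi₀⟩ := hf (u * v) (hmul u hu v hv)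
  have key : ∀ S : Finset (Fin m), ∏ i ∈ symmDiff S {i₀}, f i = (∏ i ∈ S, f i) * (u * v) := by
    intro S
    by_cases h : i₀ ∈ S
    · have e : symmDiff S {i₀} = S.erase i₀ := by
        ext j
        simp only [mem_symmDiff, mem_singleton, mem_erase]
        constructor
        · rintro (⟨h1, h2⟩ | ⟨h1, h2⟩)
          · exact ⟨h2, h1⟩
          · subst h1; exact absurd h h2
        · rintro ⟨h1, h2⟩
          exact Or.inl ⟨h2, h1⟩
      rw [e, ← mul_prod_erase S f h, hi₀]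
      rw [mul_comm (u * v), mul_assoc, fun_sq, mul_one]
    · have e : symmDiff S {i₀} = insert i₀ S := by
        ext j
        simp only [mem_symmDiff, mem_singleton, mem_insert]
        constructor
        · rintro (⟨h1, h2⟩ | ⟨h1, h2⟩)
          · exact Or.inr h1
          · exact Or.inl h1
        · rintro (h1 | h1)
          · subst h1; exact Or.inr ⟨rfl, h⟩
          · exact Or.inl ⟨h1, fun h2 => h (h2 ▸ h1)⟩
      rw [e, prod_insert h, hi₀, mul_comm]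
  refine card_bij' (fun S _ => symmDiff S {i₀}) (fun S _ => symmDiff S {i₀}) ?_ ?_ ?_ ?_
  · intro S hS
    simp only [mem_filter, mem_univ, true_and] at hS ⊢
    rw [key, hS, ← mul_assoc, fun_sq, one_mul]
  · intro S hS
    simp only [mem_filter, mem_univ, true_and] at hS ⊢
    rw [key, hS, mul_comm u v, ← mul_assoc, fun_sq, one_mul]
  · intro S _
    simp only [symmDiff_symmDiff_cancel_right]
  · intro S _
    simp only [symmDiff_symmDiff_cancel_right]

theorem finalP (k : ℕ) (hk : 1 ≤ k) : ∃ γ : ℝ, 0 < γ ∧ γ ≤ 1 ∧ ∀ h : ℕ → ℕ, (∀ i < k, ∀ j < k, h i = h j → i = j) → ∃ C : ℝ, 0 < C ∧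
    ∀ Γ : Finset (ℕ → ℤˣ), Γ.Nonempty → (∀ u ∈ Γ, IsCM u) → (∀ u ∈ Γ, ∀ v ∈ Γ, u * v ∈ Γ) →
      ∃ N₀ : ℕ, ∀ N ≥ N₀, ∀ w : ℕ → ℝ, (∀ n, |w n| ≤ 1) →
        (∑ u ∈ Γ, la N (fun n => w n * ∏ i ∈ range k, (((u (n + h i) : ℤˣ) : ℤ) : ℝ)) ^ 2) / Γ.card ≤
          C * ((Nat.card {u : ℕ → ℤˣ // u ∈ Γ ∧ FinMass u} : ℝ) / Γ.card) ^ γ := by
  classical
  obtain ⟨γ, h0, h1, hmain⟩ := finalG k hk
  refine ⟨γ, h0, h1, fun h hh => ?_⟩
  obtain ⟨C, hC, hmain⟩ := hmain h hh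
  refine ⟨C, hC, fun Γ hne hcm hmul => ?_⟩
  set m : ℕ := Γ.card with hm
  let e : Fin m ≃ Γ := (Γ.equivFin).symm
  let f : Fin m → ℕ → ℤˣ := fun i => (e i : ℕ → ℤˣ)
  have hfmem : ∀ i, f i ∈ Γ := fun i => (e i).2
  have hfsurj : ∀ u ∈ Γ, ∃ i, f i = u := fun u hu => ⟨e.symm ⟨u, hu⟩, by simp [f]⟩
  have h1Γ : (1 : ℕ → ℤˣ) ∈ Γ := by
    obtain ⟨u, hu⟩ := hne
    rw [← fun_sq u]
    exact hmul u hu u hu
  have hprod : ∀ S : Finset (Fin m), ∏ i ∈ S, f i ∈ Γ := by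
    intro S
    induction S using Finset.induction_on with
    | empty => simpa using h1Γ
    | insert a S ha ih => rw [prod_insert ha]; exact hmul _ (hfmem a) _ ih
  let g : Fin m → ℕ → ℤ := fun i n => ((f i n : ℤˣ) : ℤ)
  have hg : ∀ i, CMS (g i) := by
    intro i
    constructor
    · intro n _
      rcases Int.units_eq_one_or (f i n) with h | h
      · left; simp only [g, h]; rfl
      · right; simp only [g, h]; rfl
    · intro a b ha hb
      simp only [g]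
      rw [(hcm _ (hfmem i)).2 a b ha hb]
      push_cast
      rfl
  obtain ⟨N₀, hN₀⟩ := hmain m g hg
  refine ⟨N₀, fun N hN w hw => ?_⟩
  have hB := hN₀ N hN w hw
  have hgS : ∀ (S : Finset (Fin m)) (n : ℕ), (∏ i ∈ S, g i n : ℤ) = (((∏ i ∈ S, f i) n : ℤˣ) : ℤ) := by
    intro S n
    rw [prod_apply]
    simp only [g]
    rw [Units.coe_prod]
  have hfS : ∀ (S : Finset (Fin m)) (n : ℕ), fS g S n = ((((∏ i ∈ S, f i) n : ℤˣ) : ℤ) : ℝ) := by
    intro S n
    rw [← hgS, fS]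
    push_cast
    rfl
  -- fibres
  have hfib : ∀ u ∈ Γ, (univ.filter fun S : Finset (Fin m) => ∏ i ∈ S, f i = u).card =
      (univ.filter fun S : Finset (Fin m) => ∏ i ∈ S, f i = 1).card := fun u hu => card_fib hfsurj hmul hu h1Γ
  set M : ℕ := (univ.filter fun S : Finset (Fin m) => ∏ i ∈ S, f i = 1).card with hM
  have hsum : ∀ φ : (ℕ → ℤˣ) → ℝ, ∑ S : Finset (Fin m), φ (∏ i ∈ S, f i) = M * ∑ u ∈ Γ, φ u := by
    intro φ
    rw [← sum_fiberwise_of_maps_to (g := fun S : Finset (Fin m) => ∏ i ∈ S, f i) (t := Γ) (fun S _ => hprod S), mul_sum]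
    refine sum_congr rfl fun u hu => ?_
    rw [sum_congr rfl (g := fun _ => φ u) (fun S hS => by rw [(mem_filter.1 hS).2]), sum_const, hfib u hu, nsmul_eq_mul]
  have hcard : (2 : ℝ) ^ m = M * Γ.card := by
    have h2 := hsum fun _ => 1
    simp only [sum_const, nsmul_eq_mul, mul_one] at h2
    rw [← h2, card_univ, Fintype.card_finset, Fintype.card_fin]
    push_cast
    rfl
  have hM0 : (M : ℝ) ≠ 0 := by
    intro h3
    rw [h3, zero_mul] at hcard
    exact absurd hcard (by positivity)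
  have hL : (∑ S : Finset (Fin m), la N (fun n => w n * ∏ i ∈ range k, fS g S (n + h i)) ^ 2) / 2 ^ m =
      (∑ u ∈ Γ, la N (fun n => w n * ∏ i ∈ range k, (((u (n + h i) : ℤˣ) : ℤ) : ℝ)) ^ 2) / Γ.card := by
    simp only [hfS]
    rw [hsum fun u => la N (fun n => w n * ∏ i ∈ range k, (((u (n + h i) : ℤˣ) : ℤ) : ℝ)) ^ 2, hcard, mul_div_mul_left _ _ hM0]
  have hdv : ∀ S : Finset (Fin m), ¬ Dv (fun n => ∏ i ∈ S, g i n) ↔ FinMass (∏ i ∈ S, f i) := by
    intro S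
    rw [Dv, not_not, FinMass]
    have : (fun p : Nat.Primes => if (∏ i ∈ S, g i p) = -1 then 1 / ((p : ℕ) : ℝ) else 0) =
        fun p : Nat.Primes => if (∏ i ∈ S, f i) p = -1 then 1 / ((p : ℕ) : ℝ) else 0 := by
      funext p
      rw [hgS]
      have : (((∏ i ∈ S, f i) (p : ℕ) : ℤˣ) : ℤ) = -1 ↔ (∏ i ∈ S, f i) (p : ℕ) = -1 := by
        rw [← Units.val_inj]
        simp
      simp only [this]
    rw [this]
  have hR : ((univ.filter fun S : Finset (Fin m) => ¬ Dv (fun n => ∏ i ∈ S, g i n)).card : ℝ) / 2 ^ m =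
      (Nat.card {u : ℕ → ℤˣ // u ∈ Γ ∧ FinMass u} : ℝ) / Γ.card := by
    have h2 : ((univ.filter fun S : Finset (Fin m) => ¬ Dv (fun n => ∏ i ∈ S, g i n)).card : ℝ) =
        ∑ S : Finset (Fin m), (if FinMass (∏ i ∈ S, f i) then (1 : ℝ) else 0) := by
      rw [card_filter]
      push_cast
      exact sum_congr rfl fun S _ => by simp only [hdv]
    have h3 : (Nat.card {u : ℕ → ℤˣ // u ∈ Γ ∧ FinMass u} : ℝ) = ∑ u ∈ Γ, (if FinMass u then (1 : ℝ) else 0) := by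
      have h4 : Nat.card {u : ℕ → ℤˣ // u ∈ Γ ∧ FinMass u} = (Γ.filter fun u => FinMass u).card := by
        exact Nat.subtype_card (Γ.filter fun u => FinMass u) fun u => by rw [mem_filter]
      rw [h4, card_filter]
      push_cast
      rfl
    rw [h2, hsum fun u => if FinMass u then (1 : ℝ) else 0, h3, hcard, mul_div_mul_left _ _ hM0]
  rw [hL, hR] at hB
  exact hB

end ELG
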