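import Pool.Agent.ELG.Bsg
import Pool.Agent.ELG.Fin0

/-!
# ELG-FinQ: additive quadruples give collisions (exponent two)

Balog-Szemeredi-Gowers and Pluennecke for the graph of `f`; sums with doubled elements have the same second component.
-/

set_option autoImplicit false

namespace ELG

open Finset Pointwise

private theorem neg_self {G : Type} [AddCommGroup G] (hG : E2 G) (g : G) : -g = g :=
  neg_eq_of_add_eq_zero_left (hG g)

private def pt {G : Type} (f : ℤ → G) (u : ℤ) : ℤ × G := (u, f u)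

private theorem pt_inj {G : Type} (f : ℤ → G) : Function.Injective (pt f) :=
  fun _ _ h => congrArg Prod.fst h

private noncomputable def gA {G : Type} (f : ℤ → G) (M : ℕ) : Finset (ℤ × G) :=
  (Ico (0 : ℤ) M).map ⟨pt f, pt_inj f⟩

private theorem mem_gA {G : Type} {f : ℤ → G} {M : ℕ} {z : ℤ × G} :
    z ∈ gA f M ↔ (0 ≤ z.1 ∧ z.1 < M) ∧ z.2 = f z.1 := by
  unfold gA
  rw [Finset.mem_map]
  constructor
  · rintro ⟨u, hu, rfl⟩
    exact ⟨mem_Ico.1 hu, rfl⟩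
  · rintro ⟨h1, h2⟩
    exact ⟨z.1, mem_Ico.2 h1, Prod.ext rfl h2.symm⟩

private theorem card_gA {G : Type} (f : ℤ → G) (M : ℕ) : (gA f M).card = M := by
  unfold gA
  rw [card_map, Int.card_Ico]
  simp

private theorem mf {α : Type} {p : α → Prop} (inst : DecidablePred p) {s : Finset α} {a : α} :
    a ∈ @Finset.filter α p inst s ↔ a ∈ s ∧ p a := Finset.mem_filter

open Classical in
private noncomputable def FF {G : Type} [AddCommGroup G] (f : ℤ → G) (M : ℕ) (δ : List ℤ) : Finset ℤ :=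
  (Ico (0 : ℤ) M).filter fun u => Cu (fun v => 0 ≤ v ∧ v < M) δ u ∧ Dd f δ u = 0

private theorem mem_FF {G : Type} [AddCommGroup G] {f : ℤ → G} {M : ℕ} {δ : List ℤ} {u : ℤ} :
    u ∈ FF f M δ ↔ u ∈ Ico (0 : ℤ) M ∧ Cu (fun v => 0 ≤ v ∧ v < M) δ u ∧ Dd f δ u = 0 := by
  exact mf _

private theorem Ct_two {G : Type} [AddCommGroup G] (f : ℤ → G) (M : ℕ) : Ct f M 2 =
    ((((Ioo (-(M : ℤ)) M ×ˢ Ioo (-(M : ℤ)) M).sigma fun z => FF f M [z.1, z.2]).card : ℕ) : ℝ) := by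
  rw [card_sigma, Nat.cast_sum, sum_product]
  rfl

private theorem Ct_quad {G : Type} [AddCommGroup G] (hG : E2 G) (f : ℤ → G) (M : ℕ)
    [DecidablePred fun z : (ℤ × G) × (ℤ × G) × (ℤ × G) × (ℤ × G) => z.1 - z.2.1 = z.2.2.1 - z.2.2.2] :
    Ct f M 2 ≤ (((gA f M ×ˢ gA f M ×ˢ gA f M ×ˢ gA f M).filter
      fun z => z.1 - z.2.1 = z.2.2.1 - z.2.2.2).card : ℝ) := by
  rw [Ct_two, Nat.cast_le]
  refine card_le_card_of_injOn
    (fun x => (pt f x.2, pt f (x.2 + x.1.2), pt f (x.2 + x.1.1), pt f (x.2 + x.1.1 + x.1.2))) ?_ ?_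
  · rintro ⟨⟨d, d'⟩, u⟩ hx
    obtain ⟨_, hx2⟩ := mem_sigma.1 (mem_coe.1 hx)
    obtain ⟨_, h1, h2⟩ := mem_FF.1 hx2
    have c1 : (0 ≤ u ∧ u < M) ∧ (0 ≤ u + d' ∧ u + d' < M) := h1.1
    have c2 : (0 ≤ u + d ∧ u + d < M) ∧ (0 ≤ u + d + d' ∧ u + d + d' < M) := h1.2
    have c3 : (f u + f (u + d')) + (f (u + d) + f (u + d + d')) = 0 := h2
    have c4 : f u - f (u + d') = f (u + d) - f (u + d + d') := by
      rw [sub_eq_add_neg, sub_eq_add_neg, neg_self hG, neg_self hG, eq_neg_of_add_eq_zero_left c3,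
        neg_self hG]
    refine mem_coe.2 (mem_filter.2 ⟨?_, ?_⟩)
    · rw [mem_product, mem_product, mem_product]
      exact ⟨mem_gA.2 ⟨c1.1, rfl⟩, mem_gA.2 ⟨c1.2, rfl⟩, mem_gA.2 ⟨c2.1, rfl⟩, mem_gA.2 ⟨c2.2, rfl⟩⟩
    · refine Prod.ext ?_ ?_
      · show u - (u + d') = u + d - (u + d + d')
        ring
      · exact c4
  · rintro ⟨⟨d, d'⟩, u⟩ _ ⟨⟨e, e'⟩, v⟩ _ h
    have h' : (pt f u, pt f (u + d'), pt f (u + d), pt f (u + d + d')) =
        (pt f v, pt f (v + e'), pt f (v + e), pt f (v + e + e')) := h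
    obtain ⟨h1, h2⟩ := Prod.mk.inj h'
    obtain ⟨h3, h4⟩ := Prod.mk.inj h2
    obtain ⟨h5, _⟩ := Prod.mk.inj h4
    have a1 := pt_inj f h1
    have a2 := pt_inj f h3
    have a3 := pt_inj f h5
    have b1 : d' = e' := by omega
    have b2 : d = e := by omega
    subst b1 b2 a1
    rfl

private theorem quad_le {Z : Type} [AddCommGroup Z] (A : Finset Z)
    [DecidablePred fun z : Z × Z × Z × Z => z.1 - z.2.1 = z.2.2.1 - z.2.2.2] :
    ((A ×ˢ A ×ˢ A ×ˢ A).filter fun z => z.1 - z.2.1 = z.2.2.1 - z.2.2.2).card ≤ A.card ^ 3 := by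
  have h : ((A ×ˢ A ×ˢ A ×ˢ A).filter fun z => z.1 - z.2.1 = z.2.2.1 - z.2.2.2).card ≤
      (A ×ˢ A ×ˢ A).card := by
    refine card_le_card_of_injOn (fun z => (z.1, z.2.1, z.2.2.1)) ?_ ?_
    · rintro ⟨a, b, c, d⟩ hz
      have h1 := (mem_filter.1 (mem_coe.1 hz)).1
      rw [mem_product, mem_product, mem_product] at h1
      refine mem_coe.2 ?_
      rw [mem_product, mem_product]
      exact ⟨h1.1, h1.2.1, h1.2.2.1⟩
    · rintro ⟨a, b, c, d⟩ hz ⟨a', b', c', d'⟩ hz' h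
      have h' : (a, b, c) = (a', b', c') := h
      obtain ⟨h1, h2⟩ := Prod.mk.inj h'
      obtain ⟨h3, h4⟩ := Prod.mk.inj h2
      subst h1 h3 h4
      have e1 : a - b = c - d := (mem_filter.1 (mem_coe.1 hz)).2
      have e2 : a - b = c - d' := (mem_filter.1 (mem_coe.1 hz')).2
      have e3 : c - d = c - d' := by rw [← e1, e2]
      have e4 : d = d' := by rwa [sub_right_inj] at e3
      rw [e4]
  refine h.trans (le_of_eq ?_)
  rw [card_product, card_product]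
  ring

private theorem pow5_le {G : Type} [AddCommGroup G] [DecidableEq (ℤ × G)] (hG : E2 G) (f : ℤ → G) (M : ℕ)
    (A : Finset (ℤ × G)) (hA : A.Nonempty) (hsub : ∀ z ∈ A, (0 ≤ z.1 ∧ z.1 < M) ∧ z.2 = f z.1) :
    (A.card : ℝ) ^ 5 ≤ Col f M * ((A - A).card : ℝ) ^ 3 := by
  classical
  have hcard : (0 : ℝ) < A.card := by exact_mod_cast hA.card_pos
  obtain ⟨V, hV⟩ : ∃ V : Finset G, V = A.image Prod.snd := ⟨_, rfl⟩
  -- at most `K³` values
  have hex : ∀ v : G, ∃ a : ℤ × G, v ∈ V → a ∈ A ∧ a.2 = v := by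
    intro v
    by_cases hv : v ∈ V
    · rw [hV, mem_image] at hv
      obtain ⟨a, ha, hav⟩ := hv
      exact ⟨a, fun _ => ⟨ha, hav⟩⟩
    · exact ⟨(0, 0), fun h => absurd h hv⟩
  choose r hr using hex
  have h3 : (3 : ℕ) • A = A + A + A := by
    rw [show (3 : ℕ) = 2 + 1 from rfl, succ_nsmul, two_nsmul]
  have hinj : (V ×ˢ A).card ≤ ((3 : ℕ) • A).card := by
    refine card_le_card_of_injOn (fun z => r z.1 + z.2 + z.2) ?_ ?_
    · rintro ⟨v, y⟩ hz
      obtain ⟨hz1, hz2⟩ := mem_product.1 (mem_coe.1 hz)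
      rw [h3]
      exact mem_coe.2 (add_mem_add (add_mem_add (hr v hz1).1 hz2) hz2)
    · rintro ⟨v, y⟩ hz ⟨v', y'⟩ hz' h
      obtain ⟨hz1, hz2⟩ := mem_product.1 (mem_coe.1 hz)
      obtain ⟨hz1', hz2'⟩ := mem_product.1 (mem_coe.1 hz')
      have h' : r v + y + y = r v' + y' + y' := h
      have e1 : (r v).2 + y.2 + y.2 = (r v').2 + y'.2 + y'.2 := congrArg Prod.snd h'
      rw [add_assoc, hG, add_assoc, hG, add_zero, add_zero, (hr v hz1).2, (hr v' hz1').2] at e1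
      subst e1
      have e2 : (r v).1 + y.1 + y.1 = (r v).1 + y'.1 + y'.1 := congrArg Prod.fst h'
      have e3 : y.1 = y'.1 := by omega
      have e4 : y.2 = y'.2 := by
        rw [(hsub y hz2).2, (hsub y' hz2').2, e3]
      rw [Prod.ext e3 e4]
  rw [card_product] at hinj
  have hpl : (((3 : ℕ) • A).card : ℝ) ≤ (((A - A).card : ℝ) / A.card) ^ 3 * A.card := by
    have h := Finset.pluennecke_ruzsa_inequality_nsmul_sub hA A 3
    have h' := (NNRat.cast_le (K := ℝ)).2 h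
    push_cast at h'
    exact h'
  have hV3 : (V.card : ℝ) * (A.card : ℝ) ^ 3 ≤ ((A - A).card : ℝ) ^ 3 := by
    have h4 : (V.card : ℝ) * A.card ≤ (((A - A).card : ℝ) / A.card) ^ 3 * A.card := by
      refine le_trans ?_ hpl
      exact_mod_cast hinj
    have h5 : (V.card : ℝ) ≤ (((A - A).card : ℝ) / A.card) ^ 3 := le_of_mul_le_mul_right h4 hcard
    rw [div_pow, le_div_iff₀ (by positivity)] at h5
    exact h5
  -- the number of collisions
  have hcs : (A.card : ℝ) ^ 2 ≤ V.card * Col f M := by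
    have h4 : A.card = ∑ v ∈ V, (A.filter fun a => a.2 = v).card := by
      rw [hV]
      exact card_eq_sum_card_image Prod.snd A
    have h5 : ((A.card : ℕ) : ℝ) = ∑ v ∈ V, ((A.filter fun a => a.2 = v).card : ℝ) := by
      conv_lhs => rw [h4]
      push_cast
      rfl
    have h6 : (∑ v ∈ V, ((A.filter fun a => a.2 = v).card : ℝ)) ^ 2 ≤
        V.card * ∑ v ∈ V, ((A.filter fun a => a.2 = v).card : ℝ) ^ 2 := sq_sum_le_card_mul_sum_sq
    rw [h5]
    refine h6.trans (mul_le_mul_of_nonneg_left ?_ (Nat.cast_nonneg _))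
    have h7 : ∑ v ∈ V, ((A.filter fun a => a.2 = v).card : ℝ) ^ 2 =
        (((V.sigma fun v => (A.filter fun a => a.2 = v) ×ˢ (A.filter fun a => a.2 = v)).card : ℕ) : ℝ) := by
      rw [card_sigma, Nat.cast_sum]
      apply sum_congr rfl
      intro v _
      rw [card_product]
      push_cast
      ring
    rw [h7]
    unfold Col
    rw [Nat.cast_le]
    refine card_le_card_of_injOn (fun x => (x.2.1.1, x.2.2.1)) ?_ ?_
    · rintro ⟨v, a, b⟩ hx
      obtain ⟨_, hx2⟩ := mem_sigma.1 (mem_coe.1 hx)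
      have hx3 := mem_product.1 hx2
      have ha := mem_filter.1 hx3.1
      have hb := mem_filter.1 hx3.2
      have ha2 := hsub a ha.1
      have hb2 := hsub b hb.1
      have ha3 : a.2 = v := ha.2
      have hb3 : b.2 = v := hb.2
      refine mem_coe.2 (mem_filter.2 ⟨mem_product.2 ⟨mem_Ico.2 ha2.1, mem_Ico.2 hb2.1⟩, ?_⟩)
      show f a.1 = f b.1
      rw [← ha2.2, ← hb2.2, ha3, hb3]
    · rintro ⟨v, a, b⟩ hx ⟨v', a', b'⟩ hx' h
      obtain ⟨_, hx2⟩ := mem_sigma.1 (mem_coe.1 hx)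
      have hx3 := mem_product.1 hx2
      have ha := mem_filter.1 hx3.1
      have hb := mem_filter.1 hx3.2
      obtain ⟨_, hx2'⟩ := mem_sigma.1 (mem_coe.1 hx')
      have hx3' := mem_product.1 hx2'
      have ha' := mem_filter.1 hx3'.1
      have hb' := mem_filter.1 hx3'.2
      have h' : (a.1, b.1) = (a'.1, b'.1) := h
      obtain ⟨e1, e2⟩ := Prod.mk.inj h'
      have e3 : a = a' := Prod.ext e1 (by rw [(hsub a ha.1).2, (hsub a' ha'.1).2, e1])
      have e4 : b = b' := Prod.ext e2 (by rw [(hsub b hb.1).2, (hsub b' hb'.1).2, e2])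
      have e5 : v = v' := by
        have f1 : a.2 = v := ha.2
        have f2 : a'.2 = v' := ha'.2
        rw [← f1, ← f2, e3]
      subst e3 e4 e5
      rfl
  have hcol : 0 ≤ Col f M := by
    unfold Col
    exact Nat.cast_nonneg _
  calc (A.card : ℝ) ^ 5 = (A.card : ℝ) ^ 2 * (A.card : ℝ) ^ 3 := by ring
    _ ≤ (V.card * Col f M) * (A.card : ℝ) ^ 3 := mul_le_mul_of_nonneg_right hcs (by positivity)
    _ = Col f M * (V.card * (A.card : ℝ) ^ 3) := by ring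
    _ ≤ Col f M * ((A - A).card : ℝ) ^ 3 := mul_le_mul_of_nonneg_left hV3 hcol

theorem fin_two : ∃ c : ℝ, 0 < c ∧ ∀ (G : Type) [AddCommGroup G], E2 G → ∀ (f : ℤ → G) (M : ℕ), 1 ≤ M →
    c * (Ct f M 2 / M ^ 3) ^ 32 ≤ Col f M / M ^ 2 := by
  obtain ⟨c, hc, hbsg⟩ := bsg
  refine ⟨c ^ 5, by positivity, ?_⟩
  intro G _ hG f M hM
  have hMr : (0 : ℝ) < M := by exact_mod_cast hM
  have hcol : 0 ≤ Col f M := by
    unfold Col
    exact Nat.cast_nonneg _
  obtain ⟨η, hη⟩ : ∃ η : ℝ, η = Ct f M 2 / (M : ℝ) ^ 3 := ⟨_, rfl⟩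
  rw [← hη]
  have hη0 : 0 ≤ η := by
    rw [hη]
    exact div_nonneg (Ct_nonneg f M 2) (by positivity)
  rcases hη0.eq_or_lt with h0 | hpos
  · rw [← h0]
    have : 0 ≤ Col f M / (M : ℝ) ^ 2 := by positivity
    simpa using this
  have hCt : Ct f M 2 = η * (M : ℝ) ^ 3 := by
    rw [hη]
    field_simp
  have hη1 : η ≤ 1 := by
    classical
    have h1 := Ct_quad hG f M
    have h2 := quad_le (gA f M)
    rw [card_gA] at h2
    have h3 : Ct f M 2 ≤ (M : ℝ) ^ 3 := h1.trans (by exact_mod_cast h2)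
    rw [hη, div_le_one (by positivity)]
    exact h3
  have hne : (gA f M).Nonempty := by
    rw [← card_pos, card_gA]
    exact hM
  obtain ⟨A', hsub, hA'ne, h1, h2⟩ := hbsg (ℤ × G) (gA f M) η hpos hη1 hne (by
    rw [card_gA, ← hCt]
    exact @Ct_quad G _ hG f M (fun _ => Classical.propDecidable _))
  have h3 := @pow5_le G _ (fun a b => Classical.propDecidable (a = b)) hG f M A' hA'ne (fun z hz => mem_gA.1 (hsub hz))
  rw [card_gA] at h1
  have hcard : (0 : ℝ) < A'.card := by exact_mod_cast hA'ne.card_pos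
  obtain ⟨a, ha⟩ : ∃ a : ℝ, a = A'.card := ⟨_, rfl⟩
  rw [← ha] at h1 h2 h3 hcard
  have key : ∀ D : ℝ, 0 ≤ D → c * η ^ 10 * D ≤ a → a ^ 5 ≤ Col f M * D ^ 3 →
      c ^ 5 * η ^ 32 ≤ Col f M / (M : ℝ) ^ 2 := by
    intro D hD hD1 hD2
    have h4 : (c * η ^ 10 * D) ^ 3 ≤ a ^ 3 := pow_le_pow_left₀ (by positivity) hD1 3
    have h5 : (c * η ^ 10) ^ 3 * a ^ 5 ≤ Col f M * a ^ 3 := by
      calc (c * η ^ 10) ^ 3 * a ^ 5 ≤ (c * η ^ 10) ^ 3 * (Col f M * D ^ 3) :=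
            mul_le_mul_of_nonneg_left hD2 (by positivity)
        _ = Col f M * (c * η ^ 10 * D) ^ 3 := by ring
        _ ≤ Col f M * a ^ 3 := mul_le_mul_of_nonneg_left h4 hcol
    have h6 : (c * η ^ 10) ^ 3 * a ^ 2 ≤ Col f M := by
      have h7 : a ^ 3 * ((c * η ^ 10) ^ 3 * a ^ 2) ≤ a ^ 3 * Col f M := by
        calc a ^ 3 * ((c * η ^ 10) ^ 3 * a ^ 2) = (c * η ^ 10) ^ 3 * a ^ 5 := by ring
          _ ≤ Col f M * a ^ 3 := h5
          _ = a ^ 3 * Col f M := by ring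
      exact le_of_mul_le_mul_left h7 (by positivity)
    rw [le_div_iff₀ (by positivity)]
    have h8 : (c * η * M) ^ 2 ≤ a ^ 2 := pow_le_pow_left₀ (by positivity) h1 2
    calc c ^ 5 * η ^ 32 * (M : ℝ) ^ 2 = (c * η ^ 10) ^ 3 * (c * η * M) ^ 2 := by ring
      _ ≤ (c * η ^ 10) ^ 3 * a ^ 2 := mul_le_mul_of_nonneg_left h8 (by positivity)
      _ ≤ Col f M := h6
  exact key _ (Nat.cast_nonneg _) h2 h3

end ELG
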