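import Pool.Agent.ELG.FinQ

/-!
# ELG-FinS: cubes give collisions

PLAN.  Induction on `s ≥ 1`: `s = 1`: `Ct_one` (`c = 1`, exponent `1`).  `s → s + 1` (`s ≥ 1`): `Ct f M (s+1) = ∑_{|t| < M} C_t`, `C_t` = number of `s`-dimensional relations of `g_t u = f u + f (u + t)` with all vertices in `I_t = [0, M) ∩ ([0, M) - t)` (`Dd_Dd`; `Cu (t :: δ) u ↔ Cu δ u ∧ Cu δ (u + t)`, `Cu` for `u + t` is `Cu` of the shifted
interval).  `I_t` is an interval of length `M' = M - |t| ≥ 1`, translate it to `[0, M')` (`Dd_shift`).  Induction hypothesis: `Col_t ≥ c M'^2 (C_t/M'^(s+1))^C ≥ c M² (C_t/M^(s+1))^C` (`C (s+1) ≥ 2`), `Col_t = #{(u,u') ∈ I_t² : g_t u = g_t u'}`.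
`∑_t Col_t ≤ Ct f M 2` (`δ = [u' - u, t]`: `f u + f (u+t) + f u' + f (u'+t) = 0`), and by Jensen (`2M` terms, `inner_le_nnorm_mul_nnorm`/`Finset.inner_mul_le_norm..` or `inv_pow`: `Finset.sum_pow_le_pow_sum`..., power mean `(∑ x_t)^C ≤ (2M)^(C-1) ∑ x_t^C`): `Ct f M 2/M³ ≥ c' (Ct f M (s+1)/M^(s+2))^C`.  `fin_two`.
-/

set_option autoImplicit false

namespace ELG

open Finset

private theorem finS_SL_zero {N r : ℕ} {F : List ℤ → ℝ} (h : ∀ δ, F δ = 0) : SL N r F = 0 := by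
  have h1 := SL_smul N r 0 F
  simp only [zero_mul] at h1
  rw [← h1]
  exact SL_congr fun δ _ _ => h δ

private theorem finS_SL_restrict {N' N : ℕ} (h : N' ≤ N) : ∀ (r : ℕ) (F : List ℤ → ℝ),
    (∀ δ, (∃ d ∈ δ, ¬ (-(N' : ℤ) < d ∧ d < N')) → F δ = 0) → SL N r F = SL N' r F := by
  intro r
  induction r with
  | zero => intro F _; rfl
  | succ r ih =>
    intro F hF
    change (∑ d ∈ Finset.Ioo (-(N : ℤ)) N, SL N r fun δ => F (d :: δ)) =
      ∑ d ∈ Finset.Ioo (-(N' : ℤ)) N', SL N' r fun δ => F (d :: δ)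
    have hsub : Finset.Ioo (-(N' : ℤ)) N' ⊆ Finset.Ioo (-(N : ℤ)) N := by
      intro d hd
      rw [Finset.mem_Ioo] at hd ⊢
      omega
    rw [← Finset.sum_subset hsub]
    · refine Finset.sum_congr rfl fun d _ => ?_
      apply ih
      rintro δ ⟨e, he, h2⟩
      exact hF _ ⟨e, List.mem_cons_of_mem _ he, h2⟩
    · intro d _ hd
      apply finS_SL_zero
      intro δ
      apply hF
      refine ⟨d, List.mem_cons_self, ?_⟩
      rw [Finset.mem_Ioo] at hd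
      exact hd

private theorem finS_Cu_shift (Q : ℤ → Prop) (a : ℤ) : ∀ (δ : List ℤ) (p : ℤ),
    Cu Q δ (p + a) ↔ Cu (fun v => Q (v + a)) δ p := by
  intro δ
  induction δ with
  | nil => intro p; exact Iff.rfl
  | cons d δ ih =>
    intro p
    change (Cu Q δ (p + a) ∧ Cu Q δ (p + a + d)) ↔
      (Cu (fun v => Q (v + a)) δ p ∧ Cu (fun v => Q (v + a)) δ (p + d))
    rw [ih, ← ih (p + d), add_right_comm]

private theorem finS_Cu_and (Q Q' : ℤ → Prop) : ∀ (δ : List ℤ) (p : ℤ),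
    (Cu Q δ p ∧ Cu Q' δ p) ↔ Cu (fun v => Q v ∧ Q' v) δ p := by
  intro δ
  induction δ with
  | nil => intro p; exact Iff.rfl
  | cons d δ ih =>
    intro p
    change ((Cu Q δ p ∧ Cu Q δ (p + d)) ∧ (Cu Q' δ p ∧ Cu Q' δ (p + d))) ↔
      (Cu (fun v => Q v ∧ Q' v) δ p ∧ Cu (fun v => Q v ∧ Q' v) δ (p + d))
    rw [← ih p, ← ih (p + d)]
    tauto

private theorem finS_Cu_small {A B : ℤ} : ∀ (δ : List ℤ) (p : ℤ),
    Cu (fun v => A ≤ v ∧ v < B) δ p → ∀ d ∈ δ, -(B - A) < d ∧ d < B - A := by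
  intro δ
  induction δ with
  | nil => intro p _ d hd; simp at hd
  | cons e δ ih =>
    intro p h d hd
    obtain ⟨h1, h2⟩ : Cu (fun v => A ≤ v ∧ v < B) δ p ∧ Cu (fun v => A ≤ v ∧ v < B) δ (p + e) := h
    rcases List.mem_cons.mp hd with rfl | hd
    · have h3 := Cu_base h1
      have h4 := Cu_base h2
      constructor
      · linarith [h3.1, h3.2, h4.1, h4.2]
      · linarith [h3.1, h3.2, h4.1, h4.2]
    · exact ih p h1 d hd

section
variable {G : Type} [AddCommGroup G]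

/-- The derivative, translated. -/
private def finS_g (f : ℤ → G) (t : ℤ) : ℤ → G := fun u => f (u + max 0 (-t)) + f (u + max 0 (-t) + t)

open Classical in
private theorem finS_step (f : ℤ → G) (M s : ℕ) (t : ℤ) (ht : -(M : ℤ) < t ∧ t < M) (m : ℕ)
    (hm : (m : ℤ) = M - |t|) :
    (SL M s fun δ => (((Ico (0 : ℤ) M).filter fun u => Cu (fun v => 0 ≤ v ∧ v < M) (t :: δ) u ∧
      Dd f (t :: δ) u = 0).card : ℝ)) ≤ Ct (finS_g f t) m s := by
  have hmM : m ≤ M := by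
    have := abs_nonneg t
    omega
  have hI : ∀ u : ℤ, ((0 ≤ u ∧ u < M) ∧ (0 ≤ u + t ∧ u + t < M)) ↔
      (0 ≤ u - max 0 (-t) ∧ u - max 0 (-t) < m) := by
    intro u
    rcases le_total 0 t with h | h
    · rw [abs_of_nonneg h] at hm
      rw [max_eq_left (by omega)]
      omega
    · rw [abs_of_nonpos h] at hm
      rw [max_eq_right (by omega)]
      omega
  have hCu : ∀ (δ : List ℤ) (u : ℤ), Cu (fun v => 0 ≤ v ∧ v < M) (t :: δ) u ↔
      Cu (fun v => 0 ≤ v ∧ v < (m : ℤ)) δ (u - max 0 (-t)) := by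
    intro δ u
    change (Cu (fun v => 0 ≤ v ∧ v < M) δ u ∧ Cu (fun v => 0 ≤ v ∧ v < M) δ (u + t)) ↔ _
    rw [finS_Cu_shift, finS_Cu_and, sub_eq_add_neg, finS_Cu_shift]
    have : (fun v : ℤ => (0 ≤ v ∧ v < (M : ℤ)) ∧ (0 ≤ v + t ∧ v + t < (M : ℤ))) =
        fun v : ℤ => 0 ≤ v + -max 0 (-t) ∧ v + -max 0 (-t) < (m : ℤ) := by
      funext v
      have := hI v
      rw [← sub_eq_add_neg]
      exact propext this
    rw [this]
  have hDd : ∀ (δ : List ℤ) (u : ℤ), Dd f (t :: δ) u = Dd (finS_g f t) δ (u - max 0 (-t)) := by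
    intro δ u
    have h1 : finS_g f t = fun y => (fun z => f z + f (z + t)) (y + max 0 (-t)) := rfl
    rw [h1, Dd_shift (fun z => f z + f (z + t)), sub_add_cancel, Dd_Dd]
  unfold Ct
  rw [finS_SL_restrict hmM]
  · apply SL_mono
    intro δ _ _
    have hcard : ((Ico (0 : ℤ) M).filter fun u => Cu (fun v => 0 ≤ v ∧ v < M) (t :: δ) u ∧
        Dd f (t :: δ) u = 0).card ≤ ((Ico (0 : ℤ) m).filter fun u => Cu (fun v => 0 ≤ v ∧ v < m) δ u ∧
        Dd (finS_g f t) δ u = 0).card := by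
      apply Finset.card_le_card_of_injOn (fun u => u - max 0 (-t))
      · intro u hu
        simp only [Finset.coe_filter, Set.mem_ofPred_eq, Finset.mem_Ico] at hu ⊢
        obtain ⟨_, h2, h3⟩ := hu
        rw [hCu] at h2
        rw [hDd] at h3
        exact ⟨Cu_base h2, h2, h3⟩
      · intro u _ v _ h
        simpa using h
    exact (Nat.cast_le (α := ℝ)).mpr hcard
  · rintro δ ⟨d, hd, hd'⟩
    rw [Nat.cast_eq_zero, Finset.card_eq_zero, Finset.filter_eq_empty_iff]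
    rintro u _ ⟨h2, _⟩
    rw [hCu] at h2
    have := finS_Cu_small δ _ h2 d hd
    apply hd'
    simpa using this

open Classical in
private theorem finS_col (hG : E2 G) (f : ℤ → G) (M : ℕ) (t : ℤ) (ht : -(M : ℤ) < t ∧ t < M) (m : ℕ)
    (hm : (m : ℤ) = M - |t|) :
    Col (finS_g f t) m ≤ SL M 1 fun δ => (((Ico (0 : ℤ) M).filter fun u => Cu (fun v => 0 ≤ v ∧ v < M) (t :: δ) u ∧
      Dd f (t :: δ) u = 0).card : ℝ) := by
  have hmM : m ≤ M := by
    have := abs_nonneg t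
    omega
  have h0 : (SL M 1 fun δ => (((Ico (0 : ℤ) M).filter fun u => Cu (fun v => 0 ≤ v ∧ v < M) (t :: δ) u ∧
      Dd f (t :: δ) u = 0).card : ℝ)) = ∑ d ∈ Finset.Ioo (-(M : ℤ)) M,
      (((Ico (0 : ℤ) M).filter fun u => Cu (fun v => 0 ≤ v ∧ v < M) [t, d] u ∧ Dd f [t, d] u = 0).card : ℝ) := rfl
  rw [h0]
  have h1 : (∑ d ∈ Finset.Ioo (-(M : ℤ)) M,
      (((Ico (0 : ℤ) M).filter fun u => Cu (fun v => 0 ≤ v ∧ v < M) [t, d] u ∧ Dd f [t, d] u = 0).card : ℝ)) =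
      (((Finset.Ioo (-(M : ℤ)) M ×ˢ Ico (0 : ℤ) M).filter fun z => Cu (fun v => 0 ≤ v ∧ v < M) [t, z.1] z.2 ∧
        Dd f [t, z.1] z.2 = 0).card : ℝ) := by
    rw [Finset.card_filter, Finset.sum_product]
    push_cast
    refine Finset.sum_congr rfl fun d _ => ?_
    rw [Finset.card_filter]
    push_cast
    rfl
  have h2 : Col (finS_g f t) m = ((((Ico (0 : ℤ) m ×ˢ Ico (0 : ℤ) m).filter fun z =>
      finS_g f t z.1 = finS_g f t z.2).card : ℕ) : ℝ) := rfl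
  have h3 : ((Ico (0 : ℤ) m ×ˢ Ico (0 : ℤ) m).filter fun z =>
      finS_g f t z.1 = finS_g f t z.2).card ≤
      ((Finset.Ioo (-(M : ℤ)) M ×ˢ Ico (0 : ℤ) M).filter fun z => Cu (fun v => 0 ≤ v ∧ v < M) [t, z.1] z.2 ∧
        Dd f [t, z.1] z.2 = 0).card := by
    apply Finset.card_le_card_of_injOn (fun z => (z.2 - z.1, z.1 + max 0 (-t)))
    · rintro ⟨v, w⟩ hz
      simp only [Finset.coe_filter, Set.mem_ofPred_eq, Finset.mem_Ico, Finset.mem_product, Finset.mem_Ioo] at hz ⊢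
      obtain ⟨⟨⟨h1, h2⟩, h3, h4⟩, h5⟩ := hz
      have key : ∀ x : ℤ, 0 ≤ x → x < m → (0 ≤ x + max 0 (-t) ∧ x + max 0 (-t) < M) ∧
          (0 ≤ x + max 0 (-t) + t ∧ x + max 0 (-t) + t < M) := by
        intro x hx1 hx2
        rcases le_total 0 t with h | h
        · rw [abs_of_nonneg h] at hm
          rw [max_eq_left (by omega)]
          omega
        · rw [abs_of_nonpos h] at hm
          rw [max_eq_right (by omega)]
          omega
      have kv := key v h1 h2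
      have kw := key w h3 h4
      have e1 : v + max 0 (-t) + (w - v) = w + max 0 (-t) := by ring
      have e2 : v + max 0 (-t) + t + (w - v) = w + max 0 (-t) + t := by ring
      refine ⟨⟨⟨by omega, by omega⟩, kv.1⟩, ?_, ?_⟩
      · change ((0 ≤ v + max 0 (-t) ∧ v + max 0 (-t) < M) ∧
          (0 ≤ v + max 0 (-t) + (w - v) ∧ v + max 0 (-t) + (w - v) < M)) ∧
          ((0 ≤ v + max 0 (-t) + t ∧ v + max 0 (-t) + t < M) ∧
          (0 ≤ v + max 0 (-t) + t + (w - v) ∧ v + max 0 (-t) + t + (w - v) < M))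
        rw [e1, e2]
        exact ⟨⟨kv.1, kw.1⟩, ⟨kv.2, kw.2⟩⟩
      · change (f (v + max 0 (-t)) + f (v + max 0 (-t) + (w - v))) +
          (f (v + max 0 (-t) + t) + f (v + max 0 (-t) + t + (w - v))) = 0
        rw [e1, e2]
        unfold finS_g at h5
        rw [add_add_add_comm, h5]
        exact hG _
    · rintro ⟨v, w⟩ _ ⟨v', w'⟩ _ h
      simp only [Prod.mk.injEq] at h ⊢
      obtain ⟨h1, h2⟩ := h
      constructor
      · linarith
      · linarith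
  rw [h1, h2]
  exact (Nat.cast_le (α := ℝ)).mpr h3

end

private theorem finS_pow {c x m M : ℝ} {a C : ℕ} (hc : 0 < c) (hx : 0 ≤ x) (hm : 0 < m) (hmM : m ≤ M)
    (ha : 2 ≤ a * C) {Y : ℝ} (h : c * (x / m ^ a) ^ C ≤ Y / m ^ 2) :
    c * M ^ 2 * (x / M ^ a) ^ C ≤ Y := by
  have hM : 0 < M := lt_of_lt_of_le hm hmM
  have h1 : c * (x / m ^ a) ^ C * m ^ 2 ≤ Y := by
    rwa [le_div_iff₀ (by positivity)] at h
  refine le_trans ?_ h1
  obtain ⟨k, hk⟩ := Nat.exists_eq_add_of_le ha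
  have e : ∀ y : ℝ, 0 < y → c * (x / y ^ a) ^ C * y ^ 2 = c * x ^ C / y ^ k := by
    intro y hy
    rw [div_pow, ← pow_mul, hk, pow_add]
    field_simp
  have e2 : c * M ^ 2 * (x / M ^ a) ^ C = c * (x / M ^ a) ^ C * M ^ 2 := by ring
  rw [e2, e M hM, e m hm]
  apply div_le_div_of_nonneg_left (by positivity) (by positivity)
  exact pow_le_pow_left₀ hm.le hmM k

open Classical in
private theorem finS_main (s : ℕ) (hs : 1 ≤ s) : ∃ c : ℝ, 0 < c ∧ ∃ C : ℕ, 1 ≤ C ∧ ∀ (G : Type) [AddCommGroup G], E2 G → ∀ (f : ℤ → G) (M : ℕ), 1 ≤ M →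
    c * (Ct f M s / M ^ (s + 1)) ^ C ≤ Col f M / M ^ 2 := by
  induction s, hs using Nat.le_induction with
  | base =>
    refine ⟨1, one_pos, 1, le_rfl, ?_⟩
    intro G _ hG f M hM
    rw [Ct_one hG, pow_one, one_mul]
  | succ s hs ih =>
    obtain ⟨c, hc, C, hC, h⟩ := ih
    obtain ⟨c₂, hc₂, h₂⟩ := fin_two
    obtain ⟨k, rfl⟩ : ∃ k, C = k + 1 := ⟨C - 1, by omega⟩
    refine ⟨c₂ * (c / 2 ^ k) ^ 32, by positivity, 32 * (k + 1), by omega, ?_⟩
    intro G _ hG f M hM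
    have hM0 : (0 : ℝ) < M := by exact_mod_cast hM
    refine le_trans ?_ (h₂ G hG f M hM)
    rw [mul_comm 32 (k + 1), pow_mul, mul_assoc, ← mul_pow]
    refine mul_le_mul_of_nonneg_left ?_ hc₂.le
    have hCt0 : 0 ≤ Ct f M (s + 1) := Ct_nonneg _ _ _
    refine pow_le_pow_left₀ (by positivity) ?_ 32
    -- main inequality
    have hm : ∀ t ∈ Finset.Ioo (-(M : ℤ)) M, ((((M : ℤ) - |t|).toNat : ℕ) : ℤ) = M - |t| ∧ 1 ≤ ((M : ℤ) - |t|).toNat ∧
        ((M : ℤ) - |t|).toNat ≤ M := by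
      intro t ht
      rw [Finset.mem_Ioo] at ht
      have h1 : |t| < M := abs_lt.mpr ht
      have h2 := abs_nonneg t
      omega
    have hA : Ct f M (s + 1) ≤ ∑ t ∈ Finset.Ioo (-(M : ℤ)) M, Ct (finS_g f t) ((M : ℤ) - |t|).toNat s := by
      have : Ct f M (s + 1) = ∑ t ∈ Finset.Ioo (-(M : ℤ)) M, (SL M s fun δ => (((Ico (0 : ℤ) M).filter fun u =>
        Cu (fun v => 0 ≤ v ∧ v < M) (t :: δ) u ∧ Dd f (t :: δ) u = 0).card : ℝ)) := rfl
      rw [this]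
      refine Finset.sum_le_sum fun t ht => ?_
      exact finS_step f M s t (Finset.mem_Ioo.mp ht) _ (hm t ht).1
    have hB : ∑ t ∈ Finset.Ioo (-(M : ℤ)) M, Col (finS_g f t) ((M : ℤ) - |t|).toNat ≤ Ct f M 2 := by
      have : Ct f M 2 = ∑ t ∈ Finset.Ioo (-(M : ℤ)) M, (SL M 1 fun δ => (((Ico (0 : ℤ) M).filter fun u =>
        Cu (fun v => 0 ≤ v ∧ v < M) (t :: δ) u ∧ Dd f (t :: δ) u = 0).card : ℝ)) := rfl
      rw [this]
      refine Finset.sum_le_sum fun t ht => ?_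
      exact finS_col hG f M t (Finset.mem_Ioo.mp ht) _ (hm t ht).1
    have hD : ∀ t ∈ Finset.Ioo (-(M : ℤ)) M, c * (M : ℝ) ^ 2 * (Ct (finS_g f t) ((M : ℤ) - |t|).toNat s / (M : ℝ) ^ (s + 1)) ^ (k + 1) ≤
        Col (finS_g f t) ((M : ℤ) - |t|).toNat := by
      intro t ht
      obtain ⟨_, h2, h3⟩ := hm t ht
      refine finS_pow hc (Ct_nonneg _ _ _) (m := (((M : ℤ) - |t|).toNat : ℝ)) (by exact_mod_cast h2) (by exact_mod_cast h3) ?_
        (h G hG _ _ h2)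
      nlinarith
    have hcard : ((Finset.Ioo (-(M : ℤ)) M).card : ℝ) ≤ 2 * M := by
      have : (Finset.Ioo (-(M : ℤ)) M).card ≤ 2 * M := by
        rw [Int.card_Ioo]
        omega
      exact_mod_cast this
    have hcard0 : (0 : ℝ) < ((Finset.Ioo (-(M : ℤ)) M).card : ℝ) := by
      have : 0 < (Finset.Ioo (-(M : ℤ)) M).card := by
        rw [Int.card_Ioo]
        omega
      exact_mod_cast this
    have hJ := pow_sum_div_card_le_sum_pow (s := Finset.Ioo (-(M : ℤ)) M)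
      (f := fun t => Ct (finS_g f t) ((M : ℤ) - |t|).toNat s / (M : ℝ) ^ (s + 1))
      (fun t _ => div_nonneg (Ct_nonneg _ _ _) (by positivity)) k
    have hS : Ct f M (s + 1) / (M : ℝ) ^ (s + 1) ≤
        ∑ t ∈ Finset.Ioo (-(M : ℤ)) M, Ct (finS_g f t) ((M : ℤ) - |t|).toNat s / (M : ℝ) ^ (s + 1) := by
      rw [← Finset.sum_div]
      exact div_le_div_of_nonneg_right hA (by positivity)
    have hE : (Ct f M (s + 1) / (M : ℝ) ^ (s + 1)) ^ (k + 1) / (2 * M) ^ k ≤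
        ∑ t ∈ Finset.Ioo (-(M : ℤ)) M, (Ct (finS_g f t) ((M : ℤ) - |t|).toNat s / (M : ℝ) ^ (s + 1)) ^ (k + 1) := by
      refine le_trans ?_ hJ
      refine div_le_div₀ ?_ ?_ (by positivity) ?_
      · exact pow_nonneg (le_trans (by positivity) hS) _
      · exact pow_le_pow_left₀ (by positivity) hS _
      · exact pow_le_pow_left₀ hcard0.le hcard k
    have hF : c * (M : ℝ) ^ 2 * ((Ct f M (s + 1) / (M : ℝ) ^ (s + 1)) ^ (k + 1) / (2 * M) ^ k) ≤ Ct f M 2 := by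
      calc _ ≤ c * (M : ℝ) ^ 2 * ∑ t ∈ Finset.Ioo (-(M : ℤ)) M,
            (Ct (finS_g f t) ((M : ℤ) - |t|).toNat s / (M : ℝ) ^ (s + 1)) ^ (k + 1) :=
            mul_le_mul_of_nonneg_left hE (by positivity)
        _ = ∑ t ∈ Finset.Ioo (-(M : ℤ)) M, c * (M : ℝ) ^ 2 *
            (Ct (finS_g f t) ((M : ℤ) - |t|).toNat s / (M : ℝ) ^ (s + 1)) ^ (k + 1) := by
            rw [Finset.mul_sum]
        _ ≤ ∑ t ∈ Finset.Ioo (-(M : ℤ)) M, Col (finS_g f t) ((M : ℤ) - |t|).toNat := Finset.sum_le_sum hD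
        _ ≤ _ := hB
    rw [le_div_iff₀ (by positivity)]
    refine le_trans (le_of_eq ?_) hF
    rw [div_pow, div_pow, mul_pow]
    field_simp
    ring

theorem fin_cubes (s : ℕ) (hs : 1 ≤ s) : ∃ c : ℝ, 0 < c ∧ ∃ C : ℕ, 1 ≤ C ∧ ∀ (G : Type) [AddCommGroup G], E2 G → ∀ (f : ℤ → G) (M : ℕ), 1 ≤ M →
    c * (Ct f M s / M ^ (s + 1)) ^ C ≤ Col f M / M ^ 2 := finS_main s hs

end ELG
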