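import Pool.Agent.ELG.Mn

/-!
# ELG-LogM: logarithmic means along an ultrafilter
-/

set_option autoImplicit false

namespace ELG

open Finset Filter Topology

/-- Logarithmic average. -/
noncomputable def lav (N : ℕ) (f : ℤ → ℝ) : ℝ := (∑ n ∈ Icc 1 N, f n / n) / Real.log N

/-- the sum -/
private noncomputable def lS (N : ℕ) (f : ℤ → ℝ) : ℝ := ∑ n ∈ Icc 1 N, f n / n

private theorem lav_eq (N : ℕ) (f : ℤ → ℝ) : lav N f = lS N f / Real.log N := rfl

private theorem lS_succ (N : ℕ) (f : ℤ → ℝ) :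
    lS (N + 1) f = lS N f + f ((N + 1 : ℕ) : ℤ) / ((N + 1 : ℕ) : ℝ) := by
  unfold lS
  rw [Finset.sum_Icc_succ_top (by omega)]

private theorem lS_one (N : ℕ) : lS N (fun _ => 1) = (harmonic N : ℝ) := by
  unfold lS
  rw [harmonic_eq_sum_Icc]
  push_cast
  exact Finset.sum_congr rfl fun n _ => one_div _

private theorem lS_abs {f : ℤ → ℝ} {C : ℝ} (h : ∀ n, |f n| ≤ C) (N : ℕ) :
    |lS N f| ≤ C * (1 + Real.log N) := by
  have hC : 0 ≤ C := (abs_nonneg _).trans (h 0)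
  have h1 : |lS N f| ≤ C * lS N (fun _ => 1) := by
    unfold lS
    rw [Finset.mul_sum]
    refine (Finset.abs_sum_le_sum_abs _ _).trans (Finset.sum_le_sum fun n _ => ?_)
    rw [abs_div, Nat.abs_cast, mul_one_div]
    exact div_le_div_of_nonneg_right (h n) (Nat.cast_nonneg n)
  refine h1.trans (mul_le_mul_of_nonneg_left ?_ hC)
  rw [lS_one]
  exact harmonic_le_one_add_log N

private theorem log_ge {N : ℕ} (hN : 3 ≤ N) : 1 ≤ Real.log N := by
  have h1 : Real.exp 1 ≤ (3 : ℝ) := Real.exp_one_lt_d9.le.trans (by norm_num)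
  have h2 : (3 : ℝ) ≤ N := by exact_mod_cast hN
  rw [Real.le_log_iff_exp_le (by linarith)]
  exact h1.trans h2

private theorem lav_abs {f : ℤ → ℝ} {C : ℝ} (h : ∀ n, |f n| ≤ C) {N : ℕ} (hN : 3 ≤ N) :
    |lav N f| ≤ 2 * C := by
  have hC : 0 ≤ C := (abs_nonneg _).trans (h 0)
  have hl := log_ge hN
  rw [lav_eq, abs_div, abs_of_nonneg (by linarith : 0 ≤ Real.log N), div_le_iff₀ (by linarith)]
  refine (lS_abs h N).trans ?_
  nlinarith

private theorem ev_ge {U : Ultrafilter ℕ} (hU : (U : Filter ℕ) ≤ atTop) (k : ℕ) :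
    ∀ᶠ N in (U : Filter ℕ), k ≤ N := hU (eventually_ge_atTop k)

private theorem exists_lim {U : Ultrafilter ℕ} (hU : (U : Filter ℕ) ≤ atTop) {f : ℤ → ℝ}
    (hf : Bd f) : ∃ y : ℝ, Tendsto (fun N => lav N f) U (𝓝 y) := by
  obtain ⟨C, hC⟩ := hf
  have h1 : ∀ᶠ N in (U : Filter ℕ), lav N f ∈ Set.Icc (-(2 * C)) (2 * C) := by
    filter_upwards [ev_ge hU 3] with N hN
    exact abs_le.1 (lav_abs hC hN)
  obtain ⟨y, _, hy⟩ := (isCompact_Icc (a := -(2 * C)) (b := 2 * C)).ultrafilter_le_nhds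
    (U.map fun N => lav N f) (by
      rw [Filter.le_principal_iff]
      exact h1)
  exact ⟨y, hy⟩

open Classical in
/-- the limit -/
private noncomputable def lE (U : Ultrafilter ℕ) (f : ℤ → ℝ) : ℝ :=
  if h : ∃ y : ℝ, Tendsto (fun N => lav N f) U (𝓝 y) then h.choose else 0

private theorem lE_tendsto {U : Ultrafilter ℕ} (hU : (U : Filter ℕ) ≤ atTop) {f : ℤ → ℝ}
    (hf : Bd f) : Tendsto (fun N => lav N f) U (𝓝 (lE U f)) := by
  have h := exists_lim hU hf
  unfold lE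
  rw [dif_pos h]
  exact h.choose_spec

private theorem lE_eq {U : Ultrafilter ℕ} (hU : (U : Filter ℕ) ≤ atTop) {f : ℤ → ℝ}
    (hf : Bd f) {y : ℝ} (hy : Tendsto (fun N => lav N f) U (𝓝 y)) : lE U f = y :=
  tendsto_nhds_unique (lE_tendsto hU hf) hy

private theorem log_top {U : Ultrafilter ℕ} (hU : (U : Filter ℕ) ≤ atTop) :
    Tendsto (fun N : ℕ => Real.log N) U atTop :=
  (Real.tendsto_log_atTop.comp tendsto_natCast_atTop_atTop).mono_left hU

private theorem div_zero' {U : Ultrafilter ℕ} (hU : (U : Filter ℕ) ≤ atTop) (K : ℝ) :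
    Tendsto (fun N : ℕ => K / Real.log N) U (𝓝 0) :=
  (log_top hU).const_div_atTop K

/-- functions with sums at bounded distance have the same mean -/
private theorem lE_close {U : Ultrafilter ℕ} (hU : (U : Filter ℕ) ≤ atTop) {f g : ℤ → ℝ}
    (hf : Bd f) (hg : Bd g) {K : ℝ} (h : ∀ N, 1 ≤ N → |lS N g - lS N f| ≤ K) : lE U g = lE U f := by
  refine lE_eq hU hg ?_
  have h1 : Tendsto (fun N => lav N g - lav N f) U (𝓝 0) := by
    refine squeeze_zero_norm' ?_ (div_zero' hU K)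
    filter_upwards [ev_ge hU 3] with N hN
    have hl := log_ge hN
    rw [Real.norm_eq_abs, lav_eq, lav_eq, ← sub_div, abs_div,
      abs_of_nonneg (by linarith : 0 ≤ Real.log N)]
    exact div_le_div_of_nonneg_right (h N (by omega)) (by linarith)
  have h2 := h1.add (lE_tendsto hU hf)
  rw [zero_add] at h2
  refine h2.congr fun N => ?_
  ring

private theorem shift_bound {f : ℤ → ℝ} {C : ℝ} (h : ∀ n, |f n| ≤ C) (N : ℕ) :
    |lS N (fun n => f (n + 1)) - (lS (N + 1) f - f 1)| ≤ C * (1 - 1 / ((N : ℝ) + 1)) := by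
  induction N with
  | zero =>
    have h1 : lS 0 (fun n => f (n + 1)) = 0 := by
      unfold lS
      simp
    have h2 : lS (0 + 1) f = f 1 := by
      unfold lS
      simp
    rw [h1, h2]
    simp
  | succ N ih =>
    rw [lS_succ N, lS_succ (N + 1)]
    have e1 : (((N + 1 : ℕ) : ℤ) + 1) = ((N + 1 + 1 : ℕ) : ℤ) := by push_cast; ring
    rw [e1]
    have hN1 : (0 : ℝ) < (N : ℝ) + 1 := by positivity
    have hN2 : (0 : ℝ) < (N : ℝ) + 1 + 1 := by positivity
    obtain ⟨z, hz⟩ : ∃ z, z = f ((N + 1 + 1 : ℕ) : ℤ) := ⟨_, rfl⟩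
    have hzC : |z| ≤ C := by
      rw [hz]
      exact h _
    rw [← hz]
    have e2 : |z / ((N + 1 : ℕ) : ℝ) - z / ((N + 1 + 1 : ℕ) : ℝ)| ≤
        C * (1 / ((N : ℝ) + 1) - 1 / ((N : ℝ) + 1 + 1)) := by
      have e3 : z / ((N + 1 : ℕ) : ℝ) - z / ((N + 1 + 1 : ℕ) : ℝ) =
          z * (1 / ((N : ℝ) + 1) - 1 / ((N : ℝ) + 1 + 1)) := by
        push_cast
        ring
      have e4 : 0 ≤ 1 / ((N : ℝ) + 1) - 1 / ((N : ℝ) + 1 + 1) := by
        rw [sub_nonneg]
        exact one_div_le_one_div_of_le hN1 (by linarith)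
      rw [e3, abs_mul, abs_of_nonneg e4]
      exact mul_le_mul_of_nonneg_right hzC e4
    have e5 : lS N (fun n => f (n + 1)) + z / ((N + 1 : ℕ) : ℝ) -
        (lS (N + 1) f + z / ((N + 1 + 1 : ℕ) : ℝ) - f 1) =
        (lS N (fun n => f (n + 1)) - (lS (N + 1) f - f 1)) +
          (z / ((N + 1 : ℕ) : ℝ) - z / ((N + 1 + 1 : ℕ) : ℝ)) := by ring
    rw [e5]
    refine (abs_add_le _ _).trans ((add_le_add ih e2).trans (le_of_eq ?_))
    push_cast
    ring

private theorem lE_shift1 {U : Ultrafilter ℕ} (hU : (U : Filter ℕ) ≤ atTop) {f : ℤ → ℝ}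
    (hf : Bd f) : lE U (fun n => f (n + 1)) = lE U f := by
  obtain ⟨C, hC⟩ := hf
  have hC0 : 0 ≤ C := (abs_nonneg _).trans (hC 0)
  refine lE_close hU ⟨C, hC⟩ ⟨C, fun n => hC _⟩ (K := 3 * C) ?_
  intro N _
  have h1 := shift_bound hC N
  have hN1 : (0 : ℝ) < (N : ℝ) + 1 := by positivity
  have h2 : C * (1 - 1 / ((N : ℝ) + 1)) ≤ C := by
    have : 0 ≤ C * (1 / ((N : ℝ) + 1)) := by positivity
    linarith
  rw [lS_succ] at h1
  have h3 : |f ((N + 1 : ℕ) : ℤ) / ((N + 1 : ℕ) : ℝ)| ≤ C := by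
    rw [abs_div, Nat.abs_cast]
    refine (div_le_self (abs_nonneg _) ?_).trans (hC _)
    push_cast
    linarith [(Nat.cast_nonneg N : (0 : ℝ) ≤ N)]
  have h4 := hC 1
  have e : lS N (fun n => f (n + 1)) - lS N f =
      (lS N (fun n => f (n + 1)) - (lS N f + f ((N + 1 : ℕ) : ℤ) / ((N + 1 : ℕ) : ℝ) - f 1)) +
        (f ((N + 1 : ℕ) : ℤ) / ((N + 1 : ℕ) : ℝ) + -f 1) := by ring
  rw [e]
  refine (abs_add_le _ _).trans ?_
  have h5 := abs_add_le (f ((N + 1 : ℕ) : ℤ) / ((N + 1 : ℕ) : ℝ)) (-f 1)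
  rw [abs_neg] at h5
  linarith

private theorem bd_shift {f : ℤ → ℝ} (hf : Bd f) (a : ℤ) : Bd fun n => f (n + a) := by
  obtain ⟨C, hC⟩ := hf
  exact ⟨C, fun n => hC _⟩

private theorem lE_shift {U : Ultrafilter ℕ} (hU : (U : Filter ℕ) ≤ atTop) {f : ℤ → ℝ}
    (hf : Bd f) (a : ℤ) : lE U (fun n => f (n + a)) = lE U f := by
  induction a using Int.induction_on with
  | zero => simp
  | succ i ih =>
    have h1 := lE_shift1 hU (bd_shift hf i)
    have h2 : (fun n : ℤ => f (n + 1 + i)) = fun n => f (n + (i + 1)) := by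
      funext n
      congr 1
      ring
    rw [h2] at h1
    rw [h1, ih]
  | pred i ih =>
    have h1 := lE_shift1 hU (bd_shift hf (-i - 1))
    have h2 : (fun n : ℤ => f (n + 1 + (-i - 1))) = fun n => f (n + -i) := by
      funext n
      congr 1
      ring
    rw [h2] at h1
    rw [← h1, ih]

private theorem lS_dil {q : ℕ} (hq : 0 < q) (f : ℤ → ℝ) (N : ℕ) :
    lS N (fun n => if (q : ℤ) ∣ n then (q : ℝ) * f (n / q) else 0) = lS (N / q) f := by
  have hq0 : (q : ℝ) ≠ 0 := by exact_mod_cast hq.ne'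
  have hqz : (q : ℤ) ≠ 0 := by exact_mod_cast hq.ne'
  unfold lS
  have h1 : ∑ k ∈ Icc 1 (N / q), f k / k = ∑ k ∈ Icc 1 (N / q),
      (fun m : ℕ => (if (q : ℤ) ∣ (m : ℤ) then (q : ℝ) * f ((m : ℤ) / q) else 0) / (m : ℝ)) (q * k) := by
    refine Finset.sum_congr rfl fun k _ => ?_
    have e1 : (((q * k : ℕ) : ℕ) : ℤ) = (q : ℤ) * k := by push_cast; ring
    have e2 : (((q * k : ℕ) : ℕ) : ℝ) = (q : ℝ) * k := by push_cast; ring
    show f k / k = (if (q : ℤ) ∣ ((q * k : ℕ) : ℤ) then (q : ℝ) * f (((q * k : ℕ) : ℤ) / q) else 0) /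
      ((q * k : ℕ) : ℝ)
    rw [e1, e2, if_pos (Dvd.intro _ rfl), Int.mul_ediv_cancel_left _ hqz,
      mul_div_mul_left _ _ hq0]
  rw [h1, ← Finset.sum_image (s := Icc 1 (N / q)) (g := fun k => q * k)
    (f := fun m : ℕ => (if (q : ℤ) ∣ (m : ℤ) then (q : ℝ) * f ((m : ℤ) / q) else 0) / (m : ℝ))
    (fun x _ y _ hxy => Nat.eq_of_mul_eq_mul_left hq hxy)]
  symm
  refine Finset.sum_subset ?_ ?_
  · intro m hm
    rw [mem_image] at hm
    obtain ⟨k, hk, rfl⟩ := hm
    rw [mem_Icc] at hk ⊢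
    refine ⟨Nat.mul_pos hq hk.1, ?_⟩
    calc q * k ≤ q * (N / q) := Nat.mul_le_mul_left q hk.2
      _ ≤ N := Nat.mul_div_le N q
  · intro m hm hm'
    rw [mem_Icc] at hm
    rw [if_neg, zero_div]
    intro hd
    apply hm'
    have hd' : q ∣ m := by exact_mod_cast hd
    obtain ⟨k, rfl⟩ := hd'
    rw [mem_image]
    refine ⟨k, ?_, rfl⟩
    rw [mem_Icc]
    refine ⟨Nat.pos_of_mul_pos_left hm.1, ?_⟩
    rw [Nat.le_div_iff_mul_le hq, mul_comm]
    exact hm.2

private theorem lS_diff {f : ℤ → ℝ} {C : ℝ} (h : ∀ n, |f n| ≤ C) {M N : ℕ} (hMN : M ≤ N) :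
    |lS N f - lS M f| ≤ C * ((harmonic N : ℝ) - (harmonic M : ℝ)) := by
  have hC : 0 ≤ C := (abs_nonneg _).trans (h 0)
  induction N, hMN using Nat.le_induction with
  | base => simp
  | succ N _ ih =>
    rw [lS_succ]
    have e : lS N f + f ((N + 1 : ℕ) : ℤ) / ((N + 1 : ℕ) : ℝ) - lS M f =
        (lS N f - lS M f) + f ((N + 1 : ℕ) : ℤ) / ((N + 1 : ℕ) : ℝ) := by ring
    rw [e]
    refine (abs_add_le _ _).trans ?_
    have h1 : |f ((N + 1 : ℕ) : ℤ) / ((N + 1 : ℕ) : ℝ)| ≤ C * (((N + 1 : ℕ) : ℝ))⁻¹ := by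
      rw [abs_div, Nat.abs_cast, div_eq_mul_inv]
      exact mul_le_mul_of_nonneg_right (h _) (by positivity)
    have h2 : (harmonic (N + 1) : ℝ) = (harmonic N : ℝ) + (((N + 1 : ℕ) : ℝ))⁻¹ := by
      rw [harmonic_succ]
      push_cast
      ring
    rw [h2]
    linarith

private theorem lE_dil {U : Ultrafilter ℕ} (hU : (U : Filter ℕ) ≤ atTop) {q : ℕ} (hq : 0 < q)
    {f : ℤ → ℝ} (hf : Bd f) :
    lE U (fun n => if (q : ℤ) ∣ n then (q : ℝ) * f (n / q) else 0) = lE U f := by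
  obtain ⟨C, hC⟩ := hf
  have hC0 : 0 ≤ C := (abs_nonneg _).trans (hC 0)
  have hq0 : (0 : ℝ) < q := by exact_mod_cast hq
  refine lE_close hU ⟨C, hC⟩ ⟨q * C, fun n => ?_⟩ (K := C * (1 + Real.log q)) ?_
  · show |if (q : ℤ) ∣ n then (q : ℝ) * f (n / q) else 0| ≤ q * C
    split_ifs
    · rw [abs_mul, Nat.abs_cast]
      exact mul_le_mul_of_nonneg_left (hC _) hq0.le
    · rw [abs_zero]
      positivity
  · intro N hN
    have hN0 : (0 : ℝ) < N := by exact_mod_cast hN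
    rw [lS_dil hq, abs_sub_comm]
    refine (lS_diff hC (Nat.div_le_self N q)).trans (mul_le_mul_of_nonneg_left ?_ hC0)
    have h1 := harmonic_le_one_add_log N
    have h2 := log_add_one_le_harmonic (N / q)
    have h3 : (N : ℝ) ≤ q * (((N / q + 1 : ℕ)) : ℝ) := by
      have : N ≤ q * (N / q + 1) := by
        have := Nat.lt_mul_div_succ N hq
        omega
      exact_mod_cast this
    have h4 : Real.log N ≤ Real.log q + Real.log (((N / q + 1 : ℕ)) : ℝ) := by
      rw [← Real.log_mul hq0.ne' (by positivity)]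
      exact Real.log_le_log hN0 h3
    linarith

private theorem lE_one {U : Ultrafilter ℕ} (hU : (U : Filter ℕ) ≤ atTop) :
    lE U (fun _ => 1) = 1 := by
  refine lE_eq hU ⟨1, fun _ => by simp⟩ ?_
  have h1 : Tendsto (fun N : ℕ => 1 + 1 / Real.log N) U (𝓝 (1 + 0)) :=
    tendsto_const_nhds.add (div_zero' hU 1)
  rw [add_zero] at h1
  refine tendsto_of_tendsto_of_tendsto_of_le_of_le' tendsto_const_nhds h1 ?_ ?_
  · filter_upwards [ev_ge hU 3] with N hN
    have hl := log_ge hN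
    rw [lav_eq, lS_one, le_div_iff₀ (by linarith), one_mul]
    refine le_trans ?_ (log_add_one_le_harmonic N)
    refine Real.log_le_log (by exact_mod_cast (by omega : 0 < N)) ?_
    push_cast
    linarith
  · filter_upwards [ev_ge hU 3] with N hN
    have hl := log_ge hN
    rw [lav_eq, lS_one, div_le_iff₀ (by linarith), add_mul, one_mul,
      one_div_mul_cancel (by linarith)]
    have := harmonic_le_one_add_log N
    linarith

theorem exists_lmn (U : Ultrafilter ℕ) (hU : (U : Filter ℕ) ≤ atTop) :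
    ∃ μ : LMn, ∀ f : ℤ → ℝ, Bd f → Tendsto (fun N => lav N f) U (𝓝 (μ.E f)) := by
  refine ⟨{ E := lE U
            add := ?_
            smul := ?_
            nonneg := ?_
            one := lE_one hU
            shift := fun f a hf => lE_shift hU hf a
            dil := fun q hq f hf => lE_dil hU hq hf }, fun f hf => lE_tendsto hU hf⟩
  · intro f g hf hg
    have hfg : Bd fun n => f n + g n := by
      obtain ⟨C, hC⟩ := hf
      obtain ⟨D, hD⟩ := hg
      exact ⟨C + D, fun n => (abs_add_le _ _).trans (add_le_add (hC n) (hD n))⟩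
    refine lE_eq hU hfg (((lE_tendsto hU hf).add (lE_tendsto hU hg)).congr fun N => ?_)
    unfold lav
    rw [← add_div, ← Finset.sum_add_distrib]
    congr 1
    exact Finset.sum_congr rfl fun n _ => (add_div _ _ _).symm
  · intro c f hf
    have hcf : Bd fun n => c * f n := by
      obtain ⟨C, hC⟩ := hf
      exact ⟨|c| * C, fun n => by
        rw [abs_mul]
        exact mul_le_mul_of_nonneg_left (hC n) (abs_nonneg c)⟩
    refine lE_eq hU hcf (((lE_tendsto hU hf).const_mul c).congr fun N => ?_)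
    unfold lav
    rw [← mul_div_assoc, Finset.mul_sum]
    congr 1
    exact Finset.sum_congr rfl fun n _ => (mul_div_assoc _ _ _).symm
  · intro f hf h
    refine ge_of_tendsto' (lE_tendsto hU hf) fun N => ?_
    unfold lav
    refine div_nonneg (Finset.sum_nonneg fun n _ => div_nonneg (h _) (Nat.cast_nonneg n)) ?_
    exact Real.log_natCast_nonneg N

end ELG
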