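import Pool.Agent.ELG.GrpB
import Pool.Agent.ELG.LogM

/-!
# ELG-GrpC: correlations at finite `N`

`la N g` = logarithmic average of `g : ℕ → ℝ`.
-/

set_option autoImplicit false

namespace ELG

open Finset

/-- Logarithmic average of a function on the positive integers. -/
noncomputable def la (N : ℕ) (g : ℕ → ℝ) : ℝ := (∑ n ∈ Icc 1 N, g n / n) / Real.log N

private theorem gc_one {m : ℕ} {f : Fin m → ℕ → ℤ} (hf : ∀ i, CMS (f i)) (S : Finset (Fin m))
    {n : ℕ} (hn : 0 < n) : fS f S n = chi S (Lo f (n : ℤ)) := by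
  rw [chi_Lo hf S (by exact_mod_cast hn.ne'), Int.natAbs_natCast]

private theorem gc_prod {m : ℕ} (S : Finset (Fin m)) (G : ℕ → Fin m → ZMod 2) (k : ℕ) :
    ∏ i ∈ range k, chi S (G i) = chi S (∑ i ∈ range k, G i) := by
  induction k with
  | zero => rw [Finset.prod_range_zero, Finset.sum_range_zero, chi_zero]
  | succ k ih => rw [Finset.prod_range_succ, Finset.sum_range_succ, chi_add, ih]

open Classical in
private theorem gc_main {m N : ℕ} (G : ℕ → Fin m → ZMod 2) {w : ℕ → ℝ} (hw : ∀ n, |w n| ≤ 1)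
    {B : ℝ} (hB : ∀ g, (∑ n ∈ Icc 1 N, (if G n = g then (1 : ℝ) else 0) / n) / Real.log N ≤ B) :
    (∑ S : Finset (Fin m), ((∑ n ∈ Icc 1 N, w n * chi S (G n) / n) / Real.log N) ^ 2) / 2 ^ m ≤
      B * ((∑ n ∈ Icc 1 N, (1 : ℝ) / n) / Real.log N) := by
  have hl : 0 ≤ Real.log N := Real.log_natCast_nonneg N
  obtain ⟨W, hW⟩ : ∃ W : (Fin m → ZMod 2) → ℝ, W = fun g =>
    (∑ n ∈ Icc 1 N, (if G n = g then w n else 0) / n) / Real.log N := ⟨_, rfl⟩
  obtain ⟨P, hP⟩ : ∃ P : (Fin m → ZMod 2) → ℝ, P = fun g =>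
    (∑ n ∈ Icc 1 N, (if G n = g then (1 : ℝ) else 0) / n) / Real.log N := ⟨_, rfl⟩
  have h1 : ∀ S : Finset (Fin m), (∑ n ∈ Icc 1 N, w n * chi S (G n) / n) / Real.log N =
      ∑ g, W g * chi S g := by
    intro S
    have e1 : ∀ g, W g * chi S g =
        (∑ n ∈ Icc 1 N, (if G n = g then w n else 0) / n * chi S g) / Real.log N := by
      intro g
      rw [hW]
      show (∑ n ∈ Icc 1 N, (if G n = g then w n else 0) / n) / Real.log N * chi S g = _
      rw [div_mul_eq_mul_div, Finset.sum_mul]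
    rw [Finset.sum_congr rfl fun g _ => e1 g, ← Finset.sum_div, Finset.sum_comm]
    congr 1
    refine Finset.sum_congr rfl fun n _ => ?_
    rw [Finset.sum_eq_single (G n)]
    · rw [if_pos rfl]
      ring
    · intro g _ hg
      rw [if_neg fun h => hg h.symm]
      simp
    · intro h
      exact absurd (Finset.mem_univ _) h
  rw [Finset.sum_congr rfl fun S _ => by rw [h1 S], parseval W, mul_div_assoc, mul_comm,
    div_mul_cancel₀ _ (by positivity : (2 : ℝ) ^ m ≠ 0)]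
  have hWP : ∀ g, |W g| ≤ P g := by
    intro g
    rw [hW, hP]
    show |(∑ n ∈ Icc 1 N, (if G n = g then w n else 0) / n) / Real.log N| ≤
      (∑ n ∈ Icc 1 N, (if G n = g then (1 : ℝ) else 0) / n) / Real.log N
    rw [abs_div, abs_of_nonneg hl]
    refine div_le_div_of_nonneg_right ?_ hl
    refine (Finset.abs_sum_le_sum_abs _ _).trans (Finset.sum_le_sum fun n _ => ?_)
    rw [abs_div, abs_of_nonneg (Nat.cast_nonneg n : (0 : ℝ) ≤ n)]
    refine div_le_div_of_nonneg_right ?_ (Nat.cast_nonneg n)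
    split_ifs
    · exact hw n
    · rw [abs_zero]
  have hPB : ∀ g, P g ≤ B := fun g => by
    rw [hP]
    exact hB g
  have hPs : ∑ g, P g = (∑ n ∈ Icc 1 N, (1 : ℝ) / n) / Real.log N := by
    rw [hP, ← Finset.sum_div, Finset.sum_comm]
    congr 1
    refine Finset.sum_congr rfl fun n _ => ?_
    rw [Finset.sum_eq_single (G n)]
    · rw [if_pos rfl]
    · intro g _ hg
      rw [if_neg fun h => hg h.symm, zero_div]
    · intro h
      exact absurd (Finset.mem_univ _) h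
  rw [← hPs, Finset.mul_sum]
  refine Finset.sum_le_sum fun g _ => ?_
  have h2 := hWP g
  have h3 := abs_nonneg (W g)
  have h4 := hPB g
  calc W g ^ 2 = |W g| * |W g| := by rw [← sq, sq_abs]
    _ ≤ P g * P g := mul_le_mul h2 h2 h3 (h3.trans h2)
    _ ≤ B * P g := mul_le_mul_of_nonneg_right h4 (h3.trans h2)

open Classical in
theorem cor_le {m : ℕ} {f : Fin m → ℕ → ℤ} (hf : ∀ i, CMS (f i)) (k : ℕ) (h : ℕ → ℕ) (N : ℕ) {w : ℕ → ℝ} (hw : ∀ n, |w n| ≤ 1) {B : ℝ}
    (hB : ∀ g, lav N (fun n => if ∑ i ∈ range k, Lo f (n + h i) = g then 1 else 0) ≤ B) :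
    (∑ S : Finset (Fin m), la N (fun n => w n * ∏ i ∈ range k, fS f S (n + h i)) ^ 2) / 2 ^ m ≤ B * lav N (fun _ => 1) := by
  have h1 := gc_main (N := N) (fun n : ℕ => ∑ i ∈ range k, Lo f ((n : ℤ) + h i)) hw hB
  refine le_trans (le_of_eq ?_) h1
  congr 1
  refine Finset.sum_congr rfl fun S _ => ?_
  unfold la
  congr 2
  refine Finset.sum_congr rfl fun n hn => ?_
  rw [Finset.mem_Icc] at hn
  beta_reduce
  rw [← gc_prod]
  have h2 : ∏ i ∈ range k, fS f S (n + h i) =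
      ∏ i ∈ range k, chi S (Lo f ((n : ℤ) + h i)) := by
    refine Finset.prod_congr rfl fun i _ => ?_
    rw [gc_one hf S (by omega)]
    push_cast
    rfl
  rw [h2]

theorem la_energy {m : ℕ} {f : Fin m → ℕ → ℤ} (hf : ∀ i, CMS (f i)) (N K : ℕ) :
    (∑ S : Finset (Fin m), la N (fun n => ((∑ j ∈ range K, fS f S (n + j)) / K) ^ 2)) / 2 ^ m =
      lav N (fun x => Col (fun v => Lo f (x + v)) K / K ^ 2) := by
  unfold la lav
  rw [← Finset.sum_div, Finset.sum_comm, div_right_comm]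
  congr 1
  rw [Finset.sum_div]
  refine Finset.sum_congr rfl fun n hn => ?_
  rw [Finset.mem_Icc] at hn
  have h1 : ∀ S : Finset (Fin m), ((∑ j ∈ range K, fS f S (n + j)) / (K : ℝ)) ^ 2 / (n : ℝ) =
      (∑ j ∈ range K, chi S (Lo f ((n : ℤ) + j))) ^ 2 / ((K : ℝ) ^ 2 * n) := by
    intro S
    have h2 : ∑ j ∈ range K, fS f S (n + j) = ∑ j ∈ range K, chi S (Lo f ((n : ℤ) + j)) := by
      refine Finset.sum_congr rfl fun j _ => ?_
      rw [gc_one hf S (by omega)]
      push_cast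
      rfl
    rw [h2, div_pow, div_div]
  rw [Finset.sum_congr rfl fun S _ => h1 S, ← Finset.sum_div, energy_eq]
  have h3 : (2 : ℝ) ^ m ≠ 0 := by positivity
  rw [div_right_comm, mul_div_assoc, mul_comm ((2 : ℝ) ^ m), div_mul_cancel₀ _ h3, div_div]

end ELG
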