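import Pool.Agent.ELG.MainI
import Pool.Agent.ELG.GrpC

/-!
# ELG-FinalI: correlations of a finite group of completely multiplicative functions and energy in short intervals

If the inequality fails for infinitely many `N`, take the logarithmic mean along an ultrafilter containing these `N`: the probability of the
most popular value contradicts `mainI`.
-/

set_option autoImplicit false

namespace ELG

open Finset Filter Topology

theorem finalI (k : ℕ) (hk : 1 ≤ k) : ∃ C : ℕ, 1 ≤ C ∧ ∀ h : ℕ → ℕ, (∀ i < k, ∀ j < k, h i = h j → i = j) → ∃ c : ℝ, 0 < c ∧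
    ∀ (m : ℕ) (f : Fin m → ℕ → ℤ), (∀ i, CMS (f i)) → ∀ K : ℕ, 1 ≤ K → ∀ δ : ℝ, 0 < δ → ∃ N₀ : ℕ, ∀ N ≥ N₀, ∀ w : ℕ → ℝ, (∀ n, |w n| ≤ 1) →
      c * ((∑ S : Finset (Fin m), la N (fun n => w n * ∏ i ∈ range k, fS f S (n + h i)) ^ 2) / 2 ^ m) ^ C ≤
        (∑ S : Finset (Fin m), la N (fun n => ((∑ j ∈ range K, fS f S (n + j)) / K) ^ 2)) / 2 ^ m + δ := by
  obtain ⟨C, hC, hmain⟩ := mainI k hk
  refine ⟨C, hC, fun h hh => ?_⟩
  obtain ⟨c, hc, hm⟩ := hmain h hh
  refine ⟨c, hc, fun m f hf K hK δ hδ => ?_⟩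
  by_contra hcon
  push Not at hcon
  set bad : Set ℕ := {N | ∃ w : ℕ → ℝ, (∀ n, |w n| ≤ 1) ∧
    (∑ S : Finset (Fin m), la N (fun n => ((∑ j ∈ range K, fS f S (n + j)) / K) ^ 2)) / 2 ^ m + δ <
      c * ((∑ S : Finset (Fin m), la N (fun n => w n * ∏ i ∈ range k, fS f S (n + h i)) ^ 2) / 2 ^ m) ^ C}
    with hbad
  have hfr : ∃ᶠ N in (atTop : Filter ℕ), N ∈ bad := by
    rw [Filter.frequently_atTop]
    intro N₀
    obtain ⟨N, hN, w, hw, hlt⟩ := hcon N₀
    exact ⟨N, hN, w, hw, hlt⟩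
  have hne : NeBot ((atTop : Filter ℕ) ⊓ 𝓟 bad) := Filter.frequently_mem_iff_neBot.1 hfr
  set U : Ultrafilter ℕ := Ultrafilter.of ((atTop : Filter ℕ) ⊓ 𝓟 bad) with hU
  have hUle : (U : Filter ℕ) ≤ (atTop : Filter ℕ) ⊓ 𝓟 bad := Ultrafilter.of_le _
  have hUbad : ∀ᶠ N in (U : Filter ℕ), N ∈ bad :=
    hUle (mem_inf_of_right (mem_principal_self bad))
  obtain ⟨μ, hμ⟩ := exists_lmn U (hUle.trans inf_le_left)
  -- the probabilities
  set A : (Fin m → ZMod 2) → ℤ → Prop := fun g n => ∑ i ∈ range k, Lo f (n + h i) = g with hA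
  set PN : ℕ → (Fin m → ZMod 2) → ℝ := fun N g =>
    lav N (fun n => @ite ℝ (A g n) (Classical.propDecidable _) 1 0) with hPN
  have hP : ∀ g, Tendsto (fun N => PN N g) U (𝓝 (μ.P (A g))) := by
    intro g
    exact hμ _ (@Bd.ite (A g) (fun n => Classical.propDecidable _))
  have hne' : (univ : Finset (Fin m → ZMod 2)).Nonempty := ⟨0, mem_univ _⟩
  have hsup : Tendsto (fun N => univ.sup' hne' (PN N)) U
      (𝓝 (univ.sup' hne' (fun g => μ.P (A g)))) := by
    have := Filter.Tendsto.finset_sup'_nhds_apply hne' (f := fun g N => PN N g)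
      (g := fun g => μ.P (A g)) (l := (U : Filter ℕ)) (fun g _ => hP g)
    exact this
  obtain ⟨g₀, -, hg₀⟩ := Finset.exists_mem_eq_sup' hne' (fun g => μ.P (A g))
  rw [hg₀] at hsup
  have hone : Tendsto (fun N => lav N (fun _ => 1)) U (𝓝 1) := by
    have := hμ (fun _ => 1) (Bd.const 1)
    rwa [μ.one] at this
  have hBd : Bd fun x => Col (fun v => Lo f (x + v)) K / (K : ℝ) ^ 2 := by
    have h1 := Bd_Col (Lo f) 1 K
    have h2 := h1.smul (((K : ℝ) ^ 2)⁻¹)
    refine Eq.mp (congrArg Bd ?_) h2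
    funext x
    simp only [one_mul]
    rw [div_eq_inv_mul]
  have hEn := hμ _ hBd
  have hlim : Tendsto (fun N => c * (univ.sup' hne' (PN N) * lav N (fun _ => 1)) ^ C) U
      (𝓝 (c * (μ.P (A g₀) * 1) ^ C)) := ((hsup.mul hone).pow C).const_mul c
  have hle : μ.E (fun x => Col (fun v => Lo f (x + v)) K / (K : ℝ) ^ 2) + δ ≤
      c * (μ.P (A g₀) * 1) ^ C := by
    refine le_of_tendsto_of_tendsto (hEn.add_const δ) hlim ?_
    filter_upwards [hUbad] with N hN
    obtain ⟨w, hw, hlt⟩ := hN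
    rw [la_energy hf] at hlt
    refine hlt.le.trans (mul_le_mul_of_nonneg_left ?_ hc.le)
    refine pow_le_pow_left₀ (by positivity) ?_ C
    refine cor_le hf k h N hw (fun g => ?_)
    have := Finset.le_sup' (PN N) (mem_univ g)
    refine le_trans (le_of_eq ?_) this
    simp only [hPN, hA]
  rw [mul_one] at hle
  have hfin := hm μ (Fin m → ZMod 2) (E2_fin m) (Lo f) (Lo_CA hf) g₀ (μ.P (A g₀))
    (μ.P_nonneg _) le_rfl K hK
  linarith

end ELG
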