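import Pool.Agent.ELG.DilA
import Pool.Agent.ELG.Dec
import Pool.Agent.ELG.Cheb

/-!
# ELG-Good: many good primes at infinitely many scales

The informations `J l p` are summable against `1 / 4 ^ l` (`entropy_decrement`), so at infinitely many scales `l`
most of the primes of the block have a small information, and `dil_ca`, `dil_main` apply.
-/

set_option autoImplicit false

namespace ELG

open Finset

/-- a scale with a small sum -/
private theorem scale {a : ℕ → ℝ} {B κ : ℝ} (ha : ∀ l, 0 ≤ a l) (hκ : 0 < κ)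
    (hB : ∀ m, ∑ l ∈ range m, a l ≤ B) (l₂ : ℕ) : ∃ l ≥ l₂, a l ≤ κ / (l + 1) := by
  by_contra hcon
  push Not at hcon
  have h1 : ∀ m : ℕ, ∑ l ∈ range m, (1 / ((l : ℝ) + 1)) ≤ (B + κ * l₂) / κ := by
    intro m
    rw [le_div_iff₀ hκ, Finset.sum_mul]
    have h2 : ∀ l ∈ range m, 1 / ((l : ℝ) + 1) * κ ≤ a l + if l < l₂ then κ else 0 := by
      intro l _
      by_cases hl : l < l₂
      · rw [if_pos hl]
        have h3 : 1 / ((l : ℝ) + 1) ≤ 1 := by
          rw [div_le_one (by positivity)]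
          have : (0 : ℝ) ≤ l := Nat.cast_nonneg l
          linarith
        have h4 := ha l
        nlinarith
      · rw [if_neg hl, add_zero]
        have h3 := hcon l (not_lt.1 hl)
        rw [div_mul_eq_mul_div, one_mul]
        exact h3.le
    refine (Finset.sum_le_sum h2).trans ?_
    rw [Finset.sum_add_distrib]
    refine add_le_add (hB m) ?_
    rw [← Finset.sum_filter, Finset.sum_const, nsmul_eq_mul, mul_comm]
    refine mul_le_mul_of_nonneg_left ?_ hκ.le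
    have h5 : ((range m).filter fun l => l < l₂).card ≤ l₂ := by
      calc ((range m).filter fun l => l < l₂).card ≤ (range l₂).card :=
            Finset.card_le_card fun x hx => Finset.mem_range.2 (Finset.mem_filter.1 hx).2
        _ = l₂ := Finset.card_range l₂
    exact_mod_cast h5
  obtain ⟨m, hm⟩ := (Real.tendsto_sum_range_one_div_nat_succ_atTop.eventually_gt_atTop
    ((B + κ * l₂) / κ)).exists
  exact absurd (h1 m) (not_le.2 hm)

open Classical in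
/-- the information of a prime -/
private noncomputable def JJ (μ : Mn) {G : Type} [Fintype G] (L : ℤ → G) (W l p : ℕ) : ℝ :=
  if hp : p = 0 then 0 else
    haveI : NeZero p := ⟨hp⟩
    μ.I (Xw L (W * 4 ^ l)) (Yr p) (Yr (Qp l))

private theorem JJ_eq (μ : Mn) {G : Type} [Fintype G] (L : ℤ → G) (W l p : ℕ) [hp : NeZero p] :
    JJ μ L W l p = μ.I (Xw L (W * 4 ^ l)) (Yr p) (Yr (Qp l)) := by
  unfold JJ
  rw [dif_neg hp.ne]

private theorem JJ_nonneg (μ : Mn) {G : Type} [Fintype G] (L : ℤ → G) (W l p : ℕ) :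
    0 ≤ JJ μ L W l p := by
  by_cases hp : p = 0
  · unfold JJ
    rw [dif_pos hp]
  · haveI : NeZero p := ⟨hp⟩
    rw [JJ_eq]
    exact Mn.I_nonneg μ _ _ _

theorem good_primes : ∃ c₁ : ℝ, 0 < c₁ ∧ ∀ (μ : LMn) (G : Type) [AddCommGroup G] [Fintype G] (L : ℤ → G), CA L → ∀ (k : ℕ) (h : ℕ → ℕ) (c : G)
    (ε : ℝ), 0 < ε → ε ≤ μ.P (fun n => ∑ i ∈ range k, L (n + h i) = c) → ∀ l₀ : ℕ, ∃ l ≥ l₀, ∃ Q ⊆ Pb l,
      c₁ * 4 ^ l / (l + 1) ≤ (Q.card : ℝ) ∧
        ∀ p ∈ Q, ε / 2 ≤ μ.P (fun n => ∑ i ∈ range k, L (n + p * h i) = c + k • L p) := by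
  classical
  obtain ⟨c₀, hc₀, l₁, hl₁⟩ := card_Pb
  refine ⟨c₀ / 2, by positivity, ?_⟩
  intro μ G _ _ L hL k h c ε hε hP l₀
  obtain ⟨W, hWdef⟩ : ∃ W : ℕ, W = 1 + 4 * ∑ i ∈ range k, h i := ⟨_, rfl⟩
  have hW : ∀ i < k, 1 + 4 * h i ≤ W := by
    intro i hi
    have h1 : h i ≤ ∑ i ∈ range k, h i :=
      Finset.single_le_sum (f := h) (fun j _ => Nat.zero_le _) (Finset.mem_range.2 hi)
    omega
  obtain ⟨κ, hκdef⟩ : ∃ κ : ℝ, κ = c₀ * ε ^ 2 / 256 := ⟨_, rfl⟩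
  have hκ : 0 < κ := by rw [hκdef]; positivity
  have hsum : ∀ m, ∑ l ∈ range m, (∑ p ∈ Pb l, JJ μ.toMn L W l p) / 4 ^ l ≤
      W * Real.log (Fintype.card G) :=
    entropy_decrement μ.toMn L W (JJ μ.toMn L W) fun l p _ _ => JJ_eq μ.toMn L W l p
  have hJ0 : ∀ l, 0 ≤ (∑ p ∈ Pb l, JJ μ.toMn L W l p) / (4 : ℝ) ^ l := fun l =>
    div_nonneg (Finset.sum_nonneg fun p _ => JJ_nonneg μ.toMn L W l p) (by positivity)
  obtain ⟨l, hl, hJ⟩ := scale hJ0 hκ hsum (max l₀ l₁)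
  have hcard := hl₁ l ((le_max_right l₀ l₁).trans hl)
  have h4 : (0 : ℝ) < 4 ^ l := by positivity
  have hl1 : (0 : ℝ) < (l : ℝ) + 1 := by positivity
  refine ⟨l, (le_max_left l₀ l₁).trans hl,
    (Pb l).filter (fun p => JJ μ.toMn L W l p ≤ ε ^ 2 / 128), Finset.filter_subset _ _, ?_, ?_⟩
  · have e1 : (((Pb l).filter fun p => ¬ JJ μ.toMn L W l p ≤ ε ^ 2 / 128).card : ℝ) *
        (ε ^ 2 / 128) ≤ ∑ p ∈ Pb l, JJ μ.toMn L W l p := by
      calc (((Pb l).filter fun p => ¬ JJ μ.toMn L W l p ≤ ε ^ 2 / 128).card : ℝ) *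
            (ε ^ 2 / 128) = ∑ _p ∈ (Pb l).filter (fun p => ¬ JJ μ.toMn L W l p ≤ ε ^ 2 / 128),
              (ε ^ 2 / 128) := by rw [Finset.sum_const, nsmul_eq_mul]
        _ ≤ ∑ p ∈ (Pb l).filter (fun p => ¬ JJ μ.toMn L W l p ≤ ε ^ 2 / 128),
              JJ μ.toMn L W l p :=
            Finset.sum_le_sum fun p hp => (not_le.1 (Finset.mem_filter.1 hp).2).le
        _ ≤ ∑ p ∈ Pb l, JJ μ.toMn L W l p :=
            Finset.sum_le_sum_of_subset_of_nonneg (Finset.filter_subset _ _)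
              fun p _ _ => JJ_nonneg μ.toMn L W l p
    have e2 : ∑ p ∈ Pb l, JJ μ.toMn L W l p ≤ κ / (l + 1) * 4 ^ l := (div_le_iff₀ h4).1 hJ
    have e3 : (((Pb l).filter fun p => ¬ JJ μ.toMn L W l p ≤ ε ^ 2 / 128).card : ℝ) ≤
        c₀ / 2 * 4 ^ l / (l + 1) := by
      have e4 : (0 : ℝ) < ε ^ 2 / 128 := by positivity
      refine le_of_mul_le_mul_right ((e1.trans e2).trans (le_of_eq ?_)) e4
      rw [hκdef]
      ring
    have e5 := Finset.card_filter_add_card_filter_not (s := Pb l)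
      (fun p => JJ μ.toMn L W l p ≤ ε ^ 2 / 128)
    have e6 : ((((Pb l).filter fun p => JJ μ.toMn L W l p ≤ ε ^ 2 / 128).card : ℝ)) +
        (((Pb l).filter fun p => ¬ JJ μ.toMn L W l p ≤ ε ^ 2 / 128).card : ℝ) =
        ((Pb l).card : ℝ) := by exact_mod_cast e5
    have e7 : c₀ * 4 ^ l / ((l : ℝ) + 1) = c₀ / 2 * 4 ^ l / (l + 1) + c₀ / 2 * 4 ^ l / (l + 1) := by
      ring
    linarith
  · intro p hp
    obtain ⟨hpP, hpJ⟩ := Finset.mem_filter.1 hp
    have hprime : p.Prime := by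
      have h5 := hpP
      unfold Pb at h5
      exact (Finset.mem_filter.1 h5).2
    haveI : NeZero p := ⟨hprime.ne_zero⟩
    rw [JJ_eq] at hpJ
    have f1 := dil_ca μ hL hprime.pos k (fun i => (h i : ℤ)) c
    have f2 := dil_main μ (L := L) hpP k h hW (c + k • L p)
    have f3 : 4 * √(2 * μ.toMn.I (Xw L (W * 4 ^ l)) (Yr p) (Yr (Qp l))) ≤ ε / 2 := by
      have f4 : √(2 * μ.toMn.I (Xw L (W * 4 ^ l)) (Yr p) (Yr (Qp l))) ≤ ε / 8 := by
        refine Real.sqrt_le_iff.2 ⟨by positivity, ?_⟩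
        have f5 : (ε / 8) ^ 2 = ε ^ 2 / 64 := by ring
        rw [f5]
        linarith
      linarith
    have f6 := (abs_le.1 f2).2
    rw [f1] at hP
    linarith

end ELG
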