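import Mathlib

/-!
# ELG-GrpA: characters of `(ZMod 2)^m`, Parseval
-/

set_option autoImplicit false

namespace ELG

open Finset

/-- The character of `(ZMod 2)^m` of a subset `S`. -/
noncomputable def chi {m : ℕ} (S : Finset (Fin m)) (g : Fin m → ZMod 2) : ℝ := ∏ i ∈ S, (-1 : ℝ) ^ (g i).val

private theorem sgn_add (a b : ZMod 2) : (-1 : ℝ) ^ (a + b).val = (-1) ^ a.val * (-1) ^ b.val := by
  have key : ∀ a b : ZMod 2, (a + b).val % 2 = (a.val + b.val) % 2 := by decide
  rw [← pow_add, neg_one_pow_eq_pow_mod_two (n := (a + b).val),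
    neg_one_pow_eq_pow_mod_two (n := a.val + b.val), key]

theorem chi_add {m : ℕ} (S : Finset (Fin m)) (g g' : Fin m → ZMod 2) : chi S (g + g') = chi S g * chi S g' := by
  unfold chi
  rw [← Finset.prod_mul_distrib]
  exact Finset.prod_congr rfl fun i _ => sgn_add _ _

theorem chi_zero {m : ℕ} (S : Finset (Fin m)) : chi S 0 = 1 := by
  unfold chi
  exact Finset.prod_eq_one fun i _ => by simp

theorem chi_abs {m : ℕ} (S : Finset (Fin m)) (g : Fin m → ZMod 2) : |chi S g| = 1 := by
  unfold chi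
  rw [Finset.abs_prod]
  refine Finset.prod_eq_one fun i _ => ?_
  rw [abs_pow, abs_neg, abs_one, one_pow]

theorem chi_orth {m : ℕ} (g : Fin m → ZMod 2) : ∑ S : Finset (Fin m), chi S g = if g = 0 then 2 ^ m else 0 := by
  have h1 : ∑ S : Finset (Fin m), chi S g = ∏ i, (1 + (-1 : ℝ) ^ (g i).val) := by
    rw [Finset.prod_one_add, Finset.powerset_univ]
    rfl
  rw [h1]
  by_cases hg : g = 0
  · rw [if_pos hg, hg]
    have h2 : ∀ i : Fin m, (1 : ℝ) + (-1) ^ ((0 : Fin m → ZMod 2) i).val = 2 := by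
      intro i
      rw [Pi.zero_apply, ZMod.val_zero, pow_zero]
      norm_num
    rw [Finset.prod_congr rfl fun i _ => h2 i, Finset.prod_const, Finset.card_univ, Fintype.card_fin]
  · rw [if_neg hg]
    obtain ⟨i, hi⟩ : ∃ i, g i ≠ 0 := by
      by_contra h
      push Not at h
      exact hg (funext h)
    refine Finset.prod_eq_zero (Finset.mem_univ i) ?_
    have h3 : ∀ a : ZMod 2, a ≠ 0 → a.val = 1 := by decide
    rw [h3 _ hi, pow_one]
    norm_num

private theorem add_zero_iff {m : ℕ} (g g' : Fin m → ZMod 2) : g + g' = 0 ↔ g = g' := by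
  have h1 : ∀ a b : ZMod 2, a + b = 0 ↔ a = b := by decide
  constructor
  · intro h
    funext i
    exact (h1 _ _).1 (congrFun h i)
  · intro h
    funext i
    exact (h1 _ _).2 (congrFun h i)

theorem parseval {m : ℕ} (W : (Fin m → ZMod 2) → ℝ) :
    ∑ S : Finset (Fin m), (∑ g, W g * chi S g) ^ 2 = 2 ^ m * ∑ g, W g ^ 2 := by
  have h1 : ∀ S : Finset (Fin m), (∑ g, W g * chi S g) ^ 2 =
      ∑ g, ∑ g', W g * W g' * chi S (g + g') := by
    intro S
    rw [pow_two, Finset.sum_mul_sum]
    refine Finset.sum_congr rfl fun g _ => Finset.sum_congr rfl fun g' _ => ?_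
    rw [chi_add]
    ring
  rw [Finset.sum_congr rfl fun S _ => h1 S, Finset.sum_comm, Finset.mul_sum]
  refine Finset.sum_congr rfl fun g _ => ?_
  rw [Finset.sum_comm]
  have h2 : ∀ g', ∑ S : Finset (Fin m), W g * W g' * chi S (g + g') =
      if g' = g then W g * W g' * 2 ^ m else 0 := by
    intro g'
    rw [← Finset.mul_sum, chi_orth]
    by_cases hg : g' = g
    · rw [if_pos hg, if_pos ((add_zero_iff g g').2 hg.symm)]
    · rw [if_neg hg, if_neg (fun h => hg ((add_zero_iff g g').1 h).symm), mul_zero]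
  rw [Finset.sum_congr rfl fun g' _ => h2 g', Finset.sum_ite_eq', if_pos (Finset.mem_univ g)]
  ring

end ELG
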