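import Pool.Agent.ELG.GrpA
import Pool.Agent.ELG.Fin0

/-!
# ELG-GrpB: families of completely multiplicative functions with values ±1

`f : Fin m → ℕ → ℤ`; `fS f S n = ∏_{i ∈ S} f i n`; `Lo f n` = the vector of the `i` with `f i |n| ≠ 1`.

PLAN.  `Lo_CA`: `natAbs (a b) = natAbs a * natAbs b`, values `± 1` (case distinction for every `i`).  `E2_fin`: `g i + g i = 0` in `ZMod 2`.  `chi_Lo`: factor by factor.
`energy_eq`: `∑_{j<K} chi S (Lo (x+j)) = ∑_g W g * chi S g` with `W g = #{j < K : Lo (x+j) = g}` (`Finset.sum_fiberwise`), `parseval`, `∑_g W g² = Col`.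
-/

set_option autoImplicit false

namespace ELG

open Finset

/-- Completely multiplicative functions with values `± 1` (on the positive integers). -/
structure CMS (u : ℕ → ℤ) : Prop where
  sgn : ∀ n, 0 < n → u n = 1 ∨ u n = -1
  mul : ∀ a b, 0 < a → 0 < b → u (a * b) = u a * u b

/-- The product of the functions with index in `S`. -/
noncomputable def fS {m : ℕ} (f : Fin m → ℕ → ℤ) (S : Finset (Fin m)) (n : ℕ) : ℝ := ∏ i ∈ S, (f i n : ℝ)

open Classical in
noncomputable def Lo {m : ℕ} (f : Fin m → ℕ → ℤ) (n : ℤ) : Fin m → ZMod 2 := fun i => if f i n.natAbs = 1 then 0 else 1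

theorem E2_fin (m : ℕ) : E2 (Fin m → ZMod 2) := by
  intro g
  funext i
  exact CharTwo.add_self_eq_zero (g i)

theorem Lo_CA {m : ℕ} {f : Fin m → ℕ → ℤ} (hf : ∀ i, CMS (f i)) : CA (Lo f) := by
  intro a b ha hb
  funext i
  have ha' : 0 < a.natAbs := Int.natAbs_pos.2 ha
  have hb' : 0 < b.natAbs := Int.natAbs_pos.2 hb
  have h1 : Lo f (a * b) i = if f i a.natAbs * f i b.natAbs = 1 then 0 else 1 := by
    unfold Lo
    rw [Int.natAbs_mul, (hf i).mul _ _ ha' hb']
  have h2 : Lo f a i = if f i a.natAbs = 1 then 0 else 1 := rfl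
  have h3 : Lo f b i = if f i b.natAbs = 1 then 0 else 1 := rfl
  rw [Pi.add_apply, h1, h2, h3]
  have h11 : (1 : ZMod 2) + 1 = 0 := rfl
  rcases (hf i).sgn _ ha' with e1 | e1 <;> rcases (hf i).sgn _ hb' with e2 | e2 <;> rw [e1, e2] <;> norm_num [h11]

theorem chi_Lo {m : ℕ} {f : Fin m → ℕ → ℤ} (hf : ∀ i, CMS (f i)) (S : Finset (Fin m)) {n : ℤ} (hn : n ≠ 0) :
    chi S (Lo f n) = fS f S n.natAbs := by
  have hn' : 0 < n.natAbs := Int.natAbs_pos.2 hn
  unfold chi fS
  refine Finset.prod_congr rfl fun i _ => ?_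
  have h2 : Lo f n i = if f i n.natAbs = 1 then 0 else 1 := rfl
  rcases (hf i).sgn _ hn' with e1 | e1
  · rw [h2, if_pos e1, e1]
    simp
  · have h3 : ¬ f i n.natAbs = 1 := by
      rw [e1]
      norm_num
    have h4 : (1 : ZMod 2).val = 1 := rfl
    rw [h2, if_neg h3, h4, e1]
    simp

open Classical in
private theorem fib {G : Type} [Fintype G] (h : ℤ → G) (A : Finset ℤ) (φ : G → ℝ) :
    ∑ u ∈ A, φ (h u) = ∑ g, ((A.filter (fun u => h u = g)).card : ℝ) * φ g := by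
  rw [← Finset.sum_fiberwise A h (fun u => φ (h u))]
  refine Finset.sum_congr rfl fun g _ => ?_
  have h1 : ∑ u ∈ A.filter (fun u => h u = g), φ (h u) = ∑ _u ∈ A.filter (fun u => h u = g), φ g :=
    Finset.sum_congr rfl fun u hu => by rw [(Finset.mem_filter.1 hu).2]
  rw [h1, Finset.sum_const, nsmul_eq_mul]

open Classical in
private theorem col_eq {G : Type} [AddCommGroup G] [Fintype G] (h : ℤ → G) (K : ℕ) :
    Col h K = ∑ g, (((Ico (0 : ℤ) K).filter (fun u => h u = g)).card : ℝ) ^ 2 := by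
  unfold Col
  obtain ⟨A, hA⟩ : ∃ A : Finset ℤ, A = Ico (0 : ℤ) K := ⟨_, rfl⟩
  rw [← hA]
  have h1 : ∀ g : G, ((A.filter (fun u => h u = g)).card : ℝ) = ∑ u ∈ A, if h u = g then (1 : ℝ) else 0 := by
    intro g
    rw [Finset.sum_boole]
  have h2 : (((A ×ˢ A).filter fun z : ℤ × ℤ => h z.1 = h z.2).card : ℝ) =
      ∑ u ∈ A, ∑ v ∈ A, if h u = h v then (1 : ℝ) else 0 := by
    rw [← Finset.sum_product', Finset.sum_boole]
  rw [h2]
  have h3 : ∀ g : G, ((A.filter (fun u => h u = g)).card : ℝ) ^ 2 =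
      ∑ u ∈ A, ∑ v ∈ A, (if h u = g then (1 : ℝ) else 0) * (if h v = g then (1 : ℝ) else 0) := by
    intro g
    rw [h1 g, sq, Finset.sum_mul_sum]
  have h3' : ∑ g : G, ((A.filter (fun u => h u = g)).card : ℝ) ^ 2 = ∑ g : G, ∑ u ∈ A, ∑ v ∈ A,
      (if h u = g then (1 : ℝ) else 0) * (if h v = g then (1 : ℝ) else 0) :=
    Finset.sum_congr rfl fun g _ => h3 g
  have h3'' : ∑ g : G, ∑ u ∈ A, ∑ v ∈ A, (if h u = g then (1 : ℝ) else 0) * (if h v = g then (1 : ℝ) else 0) =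
      ∑ u ∈ A, ∑ v ∈ A, ∑ g : G, (if h u = g then (1 : ℝ) else 0) * (if h v = g then (1 : ℝ) else 0) := by
    rw [Finset.sum_comm]
    exact Finset.sum_congr rfl fun u _ => Finset.sum_comm
  rw [h3', h3'']
  refine Finset.sum_congr rfl fun u _ => ?_
  refine Finset.sum_congr rfl fun v _ => ?_
  have h4 : ∀ g : G, (if h u = g then (1 : ℝ) else 0) * (if h v = g then (1 : ℝ) else 0) =
      if h u = g then (if h v = g then (1 : ℝ) else 0) else 0 := by
    intro g
    rw [ite_mul, one_mul, zero_mul]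
  have h4' : ∑ g : G, (if h u = g then (1 : ℝ) else 0) * (if h v = g then (1 : ℝ) else 0) =
      ∑ g : G, if h u = g then (if h v = g then (1 : ℝ) else 0) else 0 := Finset.sum_congr rfl fun g _ => h4 g
  rw [h4', Finset.sum_ite_eq Finset.univ (h u) (fun g => if h v = g then (1 : ℝ) else 0),
    if_pos (Finset.mem_univ _)]
  by_cases h5 : h u = h v
  · rw [if_pos h5, if_pos h5.symm]
  · rw [if_neg h5, if_neg fun h6 => h5 h6.symm]

private theorem cast_sum (K : ℕ) (φ : ℤ → ℝ) : ∑ j ∈ range K, φ (j : ℤ) = ∑ u ∈ Ico (0 : ℤ) K, φ u := by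
  refine Finset.sum_nbij' (fun j : ℕ => (j : ℤ)) (fun u : ℤ => u.toNat) ?_ ?_ ?_ ?_ ?_
  · intro j hj
    have h1 := Finset.mem_range.1 hj
    exact Finset.mem_Ico.2 ⟨by omega, by omega⟩
  · intro u hu
    have h1 := Finset.mem_Ico.1 hu
    exact Finset.mem_range.2 (by omega)
  · intro j _
    exact Int.toNat_natCast j
  · intro u hu
    have h1 := Finset.mem_Ico.1 hu
    exact Int.toNat_of_nonneg h1.1
  · intro j _
    rfl

theorem energy_eq {m : ℕ} (f : Fin m → ℕ → ℤ) (K : ℕ) (x : ℤ) :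
    ∑ S : Finset (Fin m), (∑ j ∈ range K, chi S (Lo f (x + j))) ^ 2 = 2 ^ m * Col (fun v => Lo f (x + v)) K := by
  rw [col_eq, ← parseval]
  refine Finset.sum_congr rfl fun S _ => ?_
  rw [← fib (fun v => Lo f (x + v)) (Ico (0 : ℤ) K) (chi S), ← cast_sum K (fun v => chi S (Lo f (x + v)))]

end ELG
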