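import Pool.Agent.ELG.HbD

/-!
# ELG-HbA: almost every element has infinite mass

If not, `{Mx ≤ M}` has positive measure for some `M`, by the theorem of Steinhaus all `x` with `x i = 1` for `i < j` have mass at most `2 M`, and the mean of their masses is `∑_{p ∈ Tl F j} 1/(2p)`.
-/

set_option autoImplicit false

namespace ELG

open Finset MeasureTheory Pool.Agent.Helper50.FS
open scoped Pointwise

private theorem hb_meas (s : Set ℤˣ) : MeasurableSet s := by
  refine ⟨Units.val '' s, trivial, ?_⟩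
  exact Set.preimage_image_eq s Units.val_injective

private theorem hb_borel : BorelSpace ℤˣ := by
  constructor
  refine MeasurableSpace.ext fun s => ⟨fun _ => ?_, fun _ => hb_meas s⟩
  exact MeasurableSpace.measurableSet_generateFrom (isOpen_discrete s)

private theorem hb_borel' : BorelSpace (ℕ → ℤˣ) := by
  have h := hb_borel
  exact Pi.borelSpace

private theorem hb_haar : @Measure.IsHaarMeasure (ℕ → ℤˣ) _ _ _ signs := by
  have hB := hb_borel'
  have hP := signs_prob
  have hI : signs.IsMulLeftInvariant := by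
    constructor
    intro g
    have h1 := signs_mul g
    have h2 : (fun x : ℕ → ℤˣ => g * x) = fun x => x * g := funext fun x => mul_comm g x
    rw [h2]
    exact h1
  refine Measure.isHaarMeasure_of_isCompact_nonempty_interior signs Set.univ isCompact_univ ?_ ?_ ?_
  · rw [interior_univ]
    exact ⟨1, trivial⟩
  · rw [measure_univ]
    exact one_ne_zero
  · rw [measure_univ]
    exact ENNReal.one_ne_top

private theorem hb_steinhaus {E : Set (ℕ → ℤˣ)} (hE : MeasurableSet E) (h0 : 0 < signs E) :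
    ∃ j : ℕ, ∀ x : ℕ → ℤˣ, (∀ i < j, x i = 1) → ∃ y ∈ E, ∃ z ∈ E, y * z = x := by
  have hB := hb_borel'
  have hP := signs_prob
  have hH := hb_haar
  have h1 : E / E ∈ nhds (1 : ℕ → ℤˣ) :=
    Measure.div_mem_nhds_one_of_haar_pos_ne_top signs E hE h0 (measure_ne_top _ _)
  obtain ⟨t, ht, hto, h1t⟩ := mem_nhds_iff.1 h1
  obtain ⟨I, u, hu, hI⟩ := isOpen_pi_iff.1 hto 1 h1t
  refine ⟨I.sup id + 1, fun x hx => ?_⟩
  have h2 : x ∈ E / E := by
    refine ht (hI ?_)
    intro a ha
    have h3 : a ≤ I.sup id := Finset.le_sup (f := id) ha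
    rw [hx a (by omega)]
    exact (hu a ha).2
  obtain ⟨y, hy, z, hz, hyz⟩ := Set.mem_div.1 h2
  refine ⟨y, hy, z, hz, ?_⟩
  rw [← hyz, div_eq_mul_inv]
  congr 1
  funext i
  rw [Pi.inv_apply]
  rcases Int.units_eq_one_or (z i) with h | h <;> rw [h] <;> rfl

private theorem hb_Mx_mul {F : ℕ → ℕ → ℤˣ} (hF : Fam F) (x y : ℕ → ℤˣ) : Mx F (x * y) ≤ Mx F x + Mx F y := by
  classical
  unfold Mx
  rw [← ENNReal.tsum_add]
  refine ENNReal.tsum_le_tsum fun p => ?_
  rw [fx_mul hF x y p.2.pos]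
  rcases Int.units_eq_one_or (fx F x p) with h1 | h1 <;>
    rcases Int.units_eq_one_or (fx F y p) with h2 | h2 <;> rw [h1, h2] <;> simp

/-- the first `j` coordinates are replaced by `1` -/
private def cutx (j : ℕ) (x : ℕ → ℤˣ) : ℕ → ℤˣ := fun i => if i < j then 1 else x i

private theorem cutx_meas (j : ℕ) : Measurable (cutx j) := by
  refine measurable_pi_lambda _ fun i => ?_
  unfold cutx
  by_cases h : i < j
  · simp only [h, if_true]
    exact measurable_const
  · simp only [h, if_false]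
    exact measurable_pi_apply i

private def dl (i : ℕ) : ℕ → ℤˣ := fun k => if k = i then -1 else 1

private theorem cutx_dl {i j : ℕ} (h : j ≤ i) (x : ℕ → ℤˣ) : cutx j (x * dl i) = cutx j x * dl i := by
  funext k
  rw [Pi.mul_apply]
  unfold cutx dl
  by_cases h1 : k < j
  · have h2 : k ≠ i := by omega
    simp [h1, h2]
  · simp only [h1, if_false, Pi.mul_apply]

private theorem fx_dl {F : ℕ → ℕ → ℤˣ} (i n : ℕ) : fx F (dl i) n = F i n := by
  classical
  unfold fx
  rw [finprod_eq_single _ i]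
  · simp [dl]
  · intro k hk
    have h1 : dl i k = 1 := by simp [dl, hk]
    rw [h1, if_neg]
    decide

private theorem hb_half {F : ℕ → ℕ → ℤˣ} (hF : Fam F) {j p : ℕ} (hp : p ∈ Tl F j) :
    signs {x | fx F (cutx j x) p = -1} = 2⁻¹ := by
  have hP := signs_prob
  obtain ⟨hpp, i, hij, hi⟩ := hp
  have hm : Measurable fun x => fx F (cutx j x) p := (fx_meas hF hpp.pos).comp (cutx_meas j)
  have hA : MeasurableSet {x | fx F (cutx j x) p = -1} := hm (hb_meas {-1})
  have hmul : Measurable fun x : ℕ → ℤˣ => x * dl i := by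
    have hB := hb_borel'
    exact (continuous_id.mul continuous_const).measurable
  have h1 : signs {x | fx F (cutx j x) p = -1} = signs {x | fx F (cutx j x) p = -1}ᶜ := by
    conv_lhs => rw [← signs_mul (dl i)]
    rw [Measure.map_apply hmul hA]
    congr 1
    ext x
    show fx F (cutx j (x * dl i)) p = -1 ↔ ¬ fx F (cutx j x) p = -1
    rw [cutx_dl hij, fx_mul hF _ _ hpp.pos, fx_dl, hi]
    rcases Int.units_eq_one_or (fx F (cutx j x) p) with h | h <;> rw [h] <;> decide
  have h2 := measure_add_measure_compl (μ := signs) hA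
  rw [← h1, measure_univ, ← two_mul] at h2
  rw [← one_mul (2⁻¹ : ENNReal), ← div_eq_mul_inv, ENNReal.eq_div_iff two_ne_zero ENNReal.ofNat_ne_top]
  exact h2

private theorem hb_mean {F : ℕ → ℕ → ℤˣ} (hF : Fam F) (j : ℕ) :
    ∑' p : Tl F j, ENNReal.ofReal (1 / ((p : ℕ) : ℝ)) * 2⁻¹ ≤ ∫⁻ x, Mx F (cutx j x) ∂signs := by
  classical
  unfold Mx
  rw [lintegral_tsum]
  · let f : Tl F j → Nat.Primes := fun p => ⟨p.1, p.2.1⟩
    have hf : Function.Injective f := fun p q h => Subtype.ext (congrArg (fun r : Nat.Primes => (r : ℕ)) h)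
    refine le_trans ?_ (ENNReal.tsum_comp_le_tsum_of_injective hf _)
    refine ENNReal.tsum_le_tsum fun p => ?_
    have hm : Measurable fun x => fx F (cutx j x) (p : ℕ) := (fx_meas hF p.2.1.pos).comp (cutx_meas j)
    have hA : MeasurableSet {x | fx F (cutx j x) (p : ℕ) = -1} := hm (hb_meas {-1})
    have h1 : ∫⁻ x, (if fx F (cutx j x) ((f p : Nat.Primes) : ℕ) = -1 then
        ENNReal.ofReal (1 / (((f p : Nat.Primes) : ℕ) : ℝ)) else 0) ∂signs =
        ∫⁻ x, ({x | fx F (cutx j x) (p : ℕ) = -1} : Set (ℕ → ℤˣ)).indicator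
          (fun _ => ENNReal.ofReal (1 / ((p : ℕ) : ℝ))) x ∂signs := by
      refine lintegral_congr fun x => ?_
      rw [Set.indicator_apply]
      rfl
    rw [h1, lintegral_indicator_const hA, hb_half hF p.2]
  · intro p
    have hm : Measurable fun x => fx F (cutx j x) (p : ℕ) := (fx_meas hF p.2.pos).comp (cutx_meas j)
    have hA : MeasurableSet {x | fx F (cutx j x) (p : ℕ) = -1} := hm (hb_meas {-1})
    exact (Measurable.ite hA measurable_const measurable_const).aemeasurable

theorem ae_top {F : ℕ → ℕ → ℤˣ} (hF : Fam F) (h : ∀ j, ¬ Summable fun p : Tl F j => 1 / ((p : ℕ) : ℝ)) : ∀ᵐ x ∂signs, Mx F x = ⊤ := by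
  have hP := signs_prob
  by_contra hcon
  have h1 : signs {x | Mx F x ≠ ⊤} ≠ 0 := by
    intro h2
    exact hcon (ae_iff.2 h2)
  have h2 : {x | Mx F x ≠ ⊤} = ⋃ M : ℕ, {x | Mx F x ≤ M} := by
    ext x
    rw [Set.mem_iUnion]
    constructor
    · intro hx
      obtain ⟨M, hM⟩ := ENNReal.exists_nat_gt hx
      exact ⟨M, hM.le⟩
    · rintro ⟨M, hM⟩
      exact ne_top_of_le_ne_top (ENNReal.natCast_ne_top M) hM
  obtain ⟨M, hM⟩ : ∃ M : ℕ, signs {x | Mx F x ≤ M} ≠ 0 := by
    by_contra hc
    push Not at hc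
    apply h1
    rw [h2]
    exact measure_iUnion_null hc
  obtain ⟨j, hj⟩ := hb_steinhaus (Mx_meas hF measurableSet_Iic : MeasurableSet {x | Mx F x ≤ M})
    (pos_iff_ne_zero.2 hM)
  have h3 : ∀ x, Mx F (cutx j x) ≤ 2 * M := by
    intro x
    obtain ⟨y, hy, z, hz, hyz⟩ := hj (cutx j x) (fun i hi => by simp [cutx, hi])
    rw [← hyz, two_mul]
    exact (hb_Mx_mul hF y z).trans (add_le_add hy hz)
  have h4 : ∫⁻ x, Mx F (cutx j x) ∂signs ≤ 2 * M := by
    refine (lintegral_mono h3).trans ?_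
    rw [lintegral_const, measure_univ, mul_one]
  have h5 := (hb_mean hF j).trans h4
  rw [ENNReal.tsum_mul_right] at h5
  have h6 : (∑' p : Tl F j, ENNReal.ofReal (1 / ((p : ℕ) : ℝ))) ≠ ⊤ := by
    intro h7
    rw [h7, ENNReal.top_mul (by simp)] at h5
    exact absurd (top_le_iff.1 h5) (ENNReal.mul_ne_top (by simp) (ENNReal.natCast_ne_top M))
  apply h j
  have h7 := ENNReal.summable_toReal h6
  refine h7.congr fun p => ?_
  exact ENNReal.toReal_ofReal (by positivity)

end ELG
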