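import Pool.Agent.ELG.HbA

/-!
# ELG-HbB: finite groups of elements of infinite mass

Induction on `m`; the next element is chosen outside of finitely many null sets.
-/

set_option autoImplicit false

namespace ELG

open Finset MeasureTheory Pool.Agent.Helper50.FS

private theorem hbb_set (s : Set ℤˣ) : MeasurableSet s := by
  refine ⟨Units.val '' s, trivial, ?_⟩
  exact Set.preimage_image_eq s Units.val_injective

private theorem hbb_mul (g : ℕ → ℤˣ) : Measurable fun x : ℕ → ℤˣ => x * g := by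
  refine measurable_pi_lambda _ fun i => ?_
  have h : Measurable fun e : ℤˣ => e * g i := fun _ _ => hbb_set _
  exact h.comp (measurable_pi_apply i)

private theorem hbb_ae {F : ℕ → ℕ → ℤˣ} (hF : Fam F)
    (h : ∀ j, ¬ Summable fun p : Tl F j => 1 / ((p : ℕ) : ℝ)) (g : ℕ → ℤˣ) :
    ∀ᵐ y ∂signs, Mx F (y * g) = ⊤ := by
  have h1 := ae_top hF h
  rw [← signs_mul g] at h1
  exact ae_of_ae_map (hbb_mul g).aemeasurable h1

private theorem hbb_prod {m : ℕ} (x : Fin m → ℕ → ℤˣ) (y : ℕ → ℤˣ) (S : Finset (Fin (m + 1))) :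
    ∏ i ∈ S, (Fin.snoc x y : Fin (m + 1) → ℕ → ℤˣ) i =
      (∏ i ∈ Finset.univ.filter (fun i : Fin m => i.castSucc ∈ S), x i) *
        (if Fin.last m ∈ S then y else 1) := by
  have h1 : ∏ i ∈ S, (Fin.snoc x y : Fin (m + 1) → ℕ → ℤˣ) i =
      ∏ i : Fin (m + 1), if i ∈ S then (Fin.snoc x y : Fin (m + 1) → ℕ → ℤˣ) i else 1 := by
    rw [Finset.prod_ite_mem, Finset.univ_inter]
  rw [h1, Fin.prod_univ_castSucc, Finset.prod_filter]
  simp only [Fin.snoc_castSucc, Fin.snoc_last]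

theorem exists_indep {F : ℕ → ℕ → ℤˣ} (hF : Fam F) (h : ∀ j, ¬ Summable fun p : Tl F j => 1 / ((p : ℕ) : ℝ)) (m : ℕ) :
    ∃ x : Fin m → ℕ → ℤˣ, ∀ S : Finset (Fin m), S.Nonempty → Mx F (∏ i ∈ S, x i) = ⊤ := by
  have hP := signs_prob
  induction m with
  | zero =>
    refine ⟨fun _ _ => 1, fun S hS => ?_⟩
    obtain ⟨i, _⟩ := hS
    exact i.elim0
  | succ m ih =>
    obtain ⟨x, hx⟩ := ih
    have h1 : ∀ᵐ y ∂signs, ∀ S : Finset (Fin m), Mx F (y * ∏ i ∈ S, x i) = ⊤ :=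
      ae_all_iff.2 fun S => hbb_ae hF h _
    obtain ⟨y, hy⟩ := h1.exists
    refine ⟨Fin.snoc x y, fun S hS => ?_⟩
    rw [hbb_prod]
    by_cases hl : Fin.last m ∈ S
    · rw [if_pos hl, mul_comm]
      exact hy _
    · rw [if_neg hl, mul_one]
      apply hx
      obtain ⟨i, hi⟩ := hS
      have h2 : i ≠ Fin.last m := fun h => hl (h ▸ hi)
      obtain ⟨j, rfl⟩ := Fin.exists_castSucc_eq.2 h2
      exact ⟨j, Finset.mem_filter.2 ⟨Finset.mem_univ _, hi⟩⟩

end ELG
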