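import Pool.Agent.ELG.HbB
import Pool.Agent.ELG.FinII

/-!
# ELG-HbC: mean square of the correlations over the group

The mean over the `2^m` cosets of a finite group of elements of infinite mass is small by `finalII`; `signs` is
invariant.
-/

set_option autoImplicit false

namespace ELG

open Finset MeasureTheory Pool.Agent.Helper50.FS

private theorem hbc_sg_mul (x y : ℤˣ) : Pool.Agent.Helper50.FS.sg (x * y) = Pool.Agent.Helper50.FS.sg x * Pool.Agent.Helper50.FS.sg y := by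
  unfold Pool.Agent.Helper50.FS.sg
  push_cast
  ring

private theorem hbc_abs_sg (e : ℤˣ) : |Pool.Agent.Helper50.FS.sg e| = 1 := by
  unfold Pool.Agent.Helper50.FS.sg
  rcases Int.units_eq_one_or e with h | h <;> simp [h]

private theorem hbc_measurable_sg : Measurable Pool.Agent.Helper50.FS.sg := by
  have h1 : Measurable fun e : ℤˣ => (e : ℤ) := fun s hs => ⟨s, hs, rfl⟩
  have h2 : Measurable fun z : ℤ => (z : ℝ) := measurable_of_countable _
  exact h2.comp h1

theorem ncorr_meas {F : ℕ → ℕ → ℤˣ} (hF : Fam F) (u : ℕ → ℤˣ) (A : Finset ℕ) (N : ℕ) :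
    Measurable fun x => ncorr (fun n => u n * fx F x n) A N := by
  unfold ncorr
  refine Measurable.const_mul ?_ _
  refine Finset.measurable_fun_sum _ fun n hn => ?_
  refine Measurable.div_const ?_ _
  refine Finset.measurable_fun_prod _ fun a _ => ?_
  have hn' : 0 < n + a := by
    have := (mem_Icc.1 hn).1
    omega
  have h1 : (fun x => Pool.Agent.Helper50.FS.sg (u (n + a) * fx F x (n + a))) = fun x => Pool.Agent.Helper50.FS.sg (u (n + a)) * Pool.Agent.Helper50.FS.sg (fx F x (n + a)) := by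
    funext x
    exact hbc_sg_mul _ _
  rw [h1]
  exact (hbc_measurable_sg.comp (fx_meas hF hn')).const_mul _

private theorem hbc_bound (u : ℕ → ℤˣ) (A : Finset ℕ) (N : ℕ) :
    |ncorr u A N| ≤ |1 / Real.log N| * ∑ n ∈ Icc 1 N, 1 / (n : ℝ) := by
  unfold ncorr
  rw [abs_mul]
  refine mul_le_mul_of_nonneg_left ((Finset.abs_sum_le_sum_abs _ _).trans
    (Finset.sum_le_sum fun n _ => ?_)) (abs_nonneg _)
  rw [abs_div, Finset.abs_prod, Finset.prod_eq_one fun a _ => hbc_abs_sg _, Nat.abs_cast]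

private theorem hbc_shift {F : ℕ → ℕ → ℤˣ} (hF : Fam F) (u : ℕ → ℤˣ) (A : Finset ℕ) (N : ℕ) (x y : ℕ → ℤˣ) :
    ncorr (fun n => u n * fx F (x * y) n) A N = ncorr (fun n => (u n * fx F y n) * fx F x n) A N := by
  unfold ncorr
  congr 1
  refine Finset.sum_congr rfl fun n hn => ?_
  congr 1
  refine Finset.prod_congr rfl fun a _ => ?_
  have hn' : 0 < n + a := by
    have := (mem_Icc.1 hn).1
    omega
  simp only []
  rw [fx_mul hF x y hn', mul_assoc, mul_comm (fx F y (n + a))]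

private theorem hbc_int {F : ℕ → ℕ → ℤˣ} (hF : Fam F) (u : ℕ → ℤˣ) (A : Finset ℕ) (N : ℕ) (y : ℕ → ℤˣ) :
    Integrable (fun x => ncorr (fun n => u n * fx F (x * y) n) A N ^ 2) signs ∧
      ∫ x, ncorr (fun n => u n * fx F (x * y) n) A N ^ 2 ∂signs = ∫ x, ncorr (fun n => u n * fx F x n) A N ^ 2 ∂signs := by
  haveI := signs_prob
  constructor
  · have h1 : (fun x => ncorr (fun n => u n * fx F (x * y) n) A N ^ 2) =
        fun x => ncorr (fun n => (u n * fx F y n) * fx F x n) A N ^ 2 := by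
      funext x
      rw [hbc_shift hF]
    rw [h1]
    refine Integrable.of_bound (C := (|1 / Real.log N| * ∑ n ∈ Icc 1 N, 1 / (n : ℝ)) ^ 2)
      ((ncorr_meas hF (fun n => u n * fx F y n) A N).pow_const 2).aestronglyMeasurable ?_
    refine Filter.Eventually.of_forall fun x => ?_
    rw [norm_pow, Real.norm_eq_abs]
    exact pow_le_pow_left₀ (abs_nonneg _) (hbc_bound _ A N) 2
  · have hφ : AEMeasurable (fun x : ℕ → ℤˣ => x * y) signs := by
      by_contra hcon
      have h1 := signs_mul y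
      rw [Measure.map_of_not_aemeasurable hcon] at h1
      have h2 : signs Set.univ = 1 := measure_univ
      rw [← h1] at h2
      simp at h2
    have h3 := integral_map (μ := signs) hφ
      (f := fun x => ncorr (fun n => u n * fx F x n) A N ^ 2)
      ((ncorr_meas hF u A N).pow_const 2).aestronglyMeasurable
    rw [signs_mul y] at h3
    exact h3.symm

theorem mean_sq {F : ℕ → ℕ → ℤˣ} (hF : Fam F) (h : ∀ j, ¬ Summable fun p : Tl F j => 1 / ((p : ℕ) : ℝ)) {A : Finset ℕ} (hA : A.Nonempty) {ε : ℝ} (hε : 0 < ε) :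
    ∃ N₀ : ℕ, ∀ N ≥ N₀, ∀ u : ℕ → ℤˣ, ∫ x, ncorr (fun n => u n * fx F x n) A N ^ 2 ∂signs ≤ ε := by
  classical
  haveI := signs_prob
  obtain ⟨k, hk⟩ : ∃ k, k = A.card := ⟨_, rfl⟩
  have hk1 : 1 ≤ k := by
    rw [hk]
    exact Finset.card_pos.2 hA
  let e : Fin k ≃ A := (finCongr hk).trans A.equivFin.symm
  let hh : ℕ → ℕ := fun i => if hi : i < k then ((e ⟨i, hi⟩ : A) : ℕ) else 0
  have hh_lt : ∀ (i : ℕ) (hi : i < k), hh i = ((e ⟨i, hi⟩ : A) : ℕ) := fun i hi => dif_pos hi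
  have hinj : ∀ i < k, ∀ j < k, hh i = hh j → i = j := by
    intro i hi j hj hij
    rw [hh_lt i hi, hh_lt j hj] at hij
    have h1 := e.injective (Subtype.ext hij)
    exact congrArg Fin.val h1
  have hprod : ∀ φ : ℕ → ℝ, ∏ i ∈ range k, φ (hh i) = ∏ a ∈ A, φ a := by
    intro φ
    rw [Finset.prod_range]
    have h1 : ∀ i : Fin k, φ (hh i) = φ ((e i : A) : ℕ) := fun i => by rw [hh_lt i i.2]
    rw [Finset.prod_congr rfl fun i _ => h1 i, Equiv.prod_comp e (fun a : A => φ (a : ℕ)),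
      Finset.prod_coe_sort A φ]
  obtain ⟨γ, hγ, _, hfin⟩ := finalII k hk1
  obtain ⟨C, hC, hmain⟩ := hfin hh hinj
  obtain ⟨m, hm⟩ : ∃ m : ℕ, C * (2 : ℝ) ^ (-(γ * m)) ≤ ε := by
    have h1 : (2 : ℝ) ^ (-γ) < 1 := Real.rpow_lt_one_of_one_lt_of_neg (by norm_num) (by linarith)
    obtain ⟨m, hm⟩ := exists_pow_lt_of_lt_one (show 0 < ε / C by positivity) h1
    refine ⟨m, ?_⟩
    have h2 : (2 : ℝ) ^ (-(γ * m)) = ((2 : ℝ) ^ (-γ)) ^ m := by
      rw [← Real.rpow_natCast, ← Real.rpow_mul (by norm_num)]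
      congr 1
      ring
    rw [h2]
    have h3 := mul_le_mul_of_nonneg_left hm.le hC.le
    rw [mul_div_cancel₀ _ hC.ne'] at h3
    exact h3
  obtain ⟨x, hx⟩ := exists_indep hF h m
  obtain ⟨f, hf⟩ : ∃ f : Fin m → ℕ → ℤ, f = fun j n => ((fx F (x j) n : ℤˣ) : ℤ) := ⟨_, rfl⟩
  have hCM : ∀ i, CMS (f i) := by
    intro i
    rw [hf]
    refine ⟨fun n _ => ?_, fun a b ha hb => ?_⟩
    · show ((fx F (x i) n : ℤˣ) : ℤ) = 1 ∨ ((fx F (x i) n : ℤˣ) : ℤ) = -1
      rcases Int.units_eq_one_or (fx F (x i) n) with h1 | h1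
      · left
        rw [h1]
        rfl
      · right
        rw [h1]
        rfl
    · show ((fx F (x i) (a * b) : ℤˣ) : ℤ) = ((fx F (x i) a : ℤˣ) : ℤ) * ((fx F (x i) b : ℤˣ) : ℤ)
      rw [(fx_cm hF (x i)).2 a b ha hb, Units.val_mul]
  have hfprod : ∀ (S : Finset (Fin m)) (n : ℕ), 0 < n →
      ∏ i ∈ S, f i n = ((fx F (∏ i ∈ S, x i) n : ℤˣ) : ℤ) := by
    intro S n hn
    rw [fx_prod hF x S hn, Units.coe_prod, hf]
  have hDv : ∀ S : Finset (Fin m), S.Nonempty → Dv (fun n => ∏ i ∈ S, f i n) := by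
    intro S hS hsum
    have h1 := hsum.tsum_ofReal_ne_top
    apply h1
    rw [← hx S hS]
    unfold Mx
    refine tsum_congr fun p => ?_
    have h2 : (∏ i ∈ S, f i (p : ℕ) = -1) ↔ fx F (∏ i ∈ S, x i) (p : ℕ) = -1 := by
      rw [hfprod S p p.2.pos]
      constructor
      · intro h3
        apply Units.ext
        rw [h3]
        rfl
      · intro h3
        rw [h3]
        rfl
    by_cases h3 : fx F (∏ i ∈ S, x i) (p : ℕ) = -1
    · rw [if_pos h3, if_pos (h2.2 h3)]
    · rw [if_neg h3, if_neg (fun h4 => h3 (h2.1 h4)), ENNReal.ofReal_zero]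
  obtain ⟨N₀, hN₀⟩ := hmain m f hCM hDv
  refine ⟨N₀, fun N hN u => ?_⟩
  have hkey : ∀ z : ℕ → ℤˣ, (∑ S : Finset (Fin m), ncorr (fun n => u n * fx F (z * ∏ i ∈ S, x i) n) A N ^ 2) / 2 ^ m ≤ ε := by
    intro z
    have h1 := hN₀ N hN (fun n => ∏ a ∈ A, Pool.Agent.Helper50.FS.sg (u (n + a) * fx F z (n + a))) (fun n => by
      rw [Finset.abs_prod, Finset.prod_eq_one fun a _ => hbc_abs_sg _])
    refine le_trans (le_of_eq ?_) (h1.trans hm)
    congr 1
    refine Finset.sum_congr rfl fun S _ => ?_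
    congr 1
    unfold ncorr la
    rw [one_div, inv_mul_eq_div]
    congr 1
    refine Finset.sum_congr rfl fun n hn => ?_
    congr 1
    simp only []
    rw [hprod (fun a => fS f S (n + a)), ← Finset.prod_mul_distrib]
    refine Finset.prod_congr rfl fun a _ => ?_
    have hn' : 0 < n + a := by
      have := (mem_Icc.1 hn).1
      omega
    have h2 : fS f S (n + a) = Pool.Agent.Helper50.FS.sg (fx F (∏ i ∈ S, x i) (n + a)) := by
      unfold fS Pool.Agent.Helper50.FS.sg
      rw [← hfprod S (n + a) hn']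
      push_cast
      rfl
    rw [h2, ← hbc_sg_mul, fx_mul hF z _ hn', mul_assoc]
  have h1 : ∫ z, (∑ S : Finset (Fin m), ncorr (fun n => u n * fx F (z * ∏ i ∈ S, x i) n) A N ^ 2) / 2 ^ m ∂signs ≤ ε := by
    have h2 : ∫ z, (∑ S : Finset (Fin m), ncorr (fun n => u n * fx F (z * ∏ i ∈ S, x i) n) A N ^ 2) / 2 ^ m ∂signs ≤
        ∫ _z : ℕ → ℤˣ, ε ∂signs := by
      refine integral_mono ?_ (integrable_const ε) hkey
      exact (integrable_finset_sum _ fun S _ => (hbc_int hF u A N _).1).div_const _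
    refine h2.trans (le_of_eq ?_)
    rw [integral_const, probReal_univ, one_smul]
  refine le_trans (le_of_eq ?_) h1
  rw [integral_div, integral_finset_sum _ fun S _ => (hbc_int hF u A N _).1,
    Finset.sum_congr rfl fun S _ => (hbc_int hF u A N (∏ i ∈ S, x i)).2, Finset.sum_const, Finset.card_univ,
    Fintype.card_finset, Fintype.card_fin, nsmul_eq_mul]
  push_cast
  rw [mul_div_cancel_left₀]
  positivity

end ELG
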