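import Pool.Agent.ELG.HbC
import Pool.Agent.Helper50.FS.BernIff
import Pool.Agent.Helper50.FS.Distance

/-!
# ELG-HbE: Bernoulli systems in compact groups

Along a suitable sequence all correlations tend to zero almost surely (Borel–Cantelli); elements of the group with the
same first coordinates are at finite distance if the tail is summable.
-/

set_option autoImplicit false

namespace ELG

open Finset MeasureTheory Filter Topology Pool.Agent.Helper50.FS

private theorem hbe_tendsto {Ω : Type*} [MeasurableSpace Ω] (μ : Measure Ω) (f : ℕ → Ω → ℝ)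
    (hf : ∀ j, Measurable (f j)) (hi : ∀ j, Integrable (fun r => (f j r) ^ 2) μ) (c : ℕ → ℝ)
    (hc : Summable c) (hfc : ∀ j, ∫ r, (f j r) ^ 2 ∂μ ≤ c j) :
    ∀ᵐ r ∂μ, Tendsto (fun j => f j r) atTop (𝓝 0) := by
  have hc0 : ∀ j, 0 ≤ c j := fun j => (integral_nonneg fun r => sq_nonneg _).trans (hfc j)
  have h1 : ∫⁻ r, ∑' j, ENNReal.ofReal ((f j r) ^ 2) ∂μ ≠ ⊤ := by
    rw [lintegral_tsum (fun j => ((hf j).pow_const 2).ennreal_ofReal.aemeasurable)]
    have h2 : ∀ j, ∫⁻ r, ENNReal.ofReal ((f j r) ^ 2) ∂μ ≤ ENNReal.ofReal (c j) := by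
      intro j
      rw [← ofReal_integral_eq_lintegral_ofReal (hi j) (Eventually.of_forall fun r => sq_nonneg _)]
      exact ENNReal.ofReal_le_ofReal (hfc j)
    refine ne_top_of_le_ne_top ?_ (ENNReal.tsum_le_tsum h2)
    rw [← ENNReal.ofReal_tsum_of_nonneg hc0 hc]
    exact ENNReal.ofReal_ne_top
  have h3 : ∀ᵐ r ∂μ, ∑' j, ENNReal.ofReal ((f j r) ^ 2) < ⊤ :=
    ae_lt_top (Measurable.tsum fun j => ((hf j).pow_const 2).ennreal_ofReal) h1
  filter_upwards [h3] with r hr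
  have h4 : Tendsto (fun j => ENNReal.ofReal ((f j r) ^ 2)) atTop (𝓝 0) :=
    ENNReal.tendsto_atTop_zero_of_tsum_ne_top hr.ne
  have h5 : Tendsto (fun j => (f j r) ^ 2) atTop (𝓝 0) := by
    have h6 := (ENNReal.tendsto_toReal ENNReal.zero_ne_top).comp h4
    simpa [Function.comp_def, ENNReal.toReal_ofReal (sq_nonneg _)] using h6
  have h7 : Tendsto (fun j => Real.sqrt ((f j r) ^ 2)) atTop (𝓝 (Real.sqrt 0)) :=
    (Real.continuous_sqrt.tendsto 0).comp h5
  rw [Real.sqrt_zero] at h7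
  refine (tendsto_zero_iff_abs_tendsto_zero _).2 ?_
  refine h7.congr fun j => ?_
  rw [Real.sqrt_sq_eq_abs]
  rfl

private theorem hbe_sg (a : ℤˣ) : |Pool.Agent.Helper50.FS.sg a| = 1 := by
  rcases Int.units_eq_one_or a with h | h <;> simp [Pool.Agent.Helper50.FS.sg, h]

private theorem hbe_bound (v : ℕ → ℤˣ) (A : Finset ℕ) (N : ℕ) :
    |ncorr v A N| ≤ |1 / Real.log N| * ∑ n ∈ Finset.Icc 1 N, 1 / (n : ℝ) := by
  unfold ncorr
  rw [abs_mul]
  refine mul_le_mul_of_nonneg_left ?_ (abs_nonneg _)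
  refine (Finset.abs_sum_le_sum_abs _ _).trans (le_of_eq ?_)
  refine Finset.sum_congr rfl fun n _ => ?_
  rw [abs_div, Finset.abs_prod, Finset.prod_congr rfl (fun a _ => hbe_sg _), Finset.prod_const_one,
    Nat.abs_cast]

private theorem hbe_int {F : ℕ → ℕ → ℤˣ} (hF : Fam F) (u : ℕ → ℤˣ) (A : Finset ℕ) (N : ℕ) :
    Integrable (fun x => ncorr (fun n => u n * fx F x n) A N ^ 2) signs := by
  have hp : IsProbabilityMeasure signs := signs_prob
  refine Integrable.of_bound ((ncorr_meas hF u A N).pow_const 2).aestronglyMeasurable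
    ((|1 / Real.log N| * ∑ n ∈ Finset.Icc 1 N, 1 / (n : ℝ)) ^ 2) (Eventually.of_forall fun x => ?_)
  rw [Real.norm_eq_abs, abs_pow]
  exact pow_le_pow_left₀ (abs_nonneg _) (hbe_bound _ A N) 2

theorem along {F : ℕ → ℕ → ℤˣ} (hF : Fam F) (h : ∀ j, ¬ Summable fun p : Tl F j => 1 / ((p : ℕ) : ℝ)) :
    ∃ N : ℕ → ℕ, Tendsto N atTop atTop ∧ ∀ u : ℕ → ℤˣ, ∀ᵐ x ∂signs, BernAlong (fun n => u n * fx F x n) (map N atTop) := by
  obtain ⟨e, he⟩ := exists_surjective_nat (Finset ℕ)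
  have hex : ∀ j i : ℕ, ∃ N₀ : ℕ, ∀ N ≥ N₀, (e i).Nonempty → ∀ u : ℕ → ℤˣ,
      ∫ x, ncorr (fun n => u n * fx F x n) (e i) N ^ 2 ∂signs ≤ (1 / 2 : ℝ) ^ j := by
    intro j i
    by_cases hi : (e i).Nonempty
    · obtain ⟨N₀, hN₀⟩ := mean_sq hF h hi (ε := (1 / 2 : ℝ) ^ j) (by positivity)
      exact ⟨N₀, fun N hN _ u => hN₀ N hN u⟩
    · exact ⟨0, fun N _ hi' => absurd hi' hi⟩
  choose N₀ hN₀ using hex
  set N : ℕ → ℕ := fun j => j + ∑ i ∈ Finset.range (j + 1), N₀ j i with hN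
  have hNt : Tendsto N atTop atTop :=
    tendsto_atTop_mono (fun j => Nat.le_add_right j _) tendsto_id
  have hNge : ∀ j, ∀ i ≤ j, N₀ j i ≤ N j := by
    intro j i hij
    have h1 : N₀ j i ≤ ∑ i ∈ Finset.range (j + 1), N₀ j i :=
      Finset.single_le_sum (f := fun i => N₀ j i) (fun _ _ => Nat.zero_le _)
        (Finset.mem_range.2 (Nat.lt_succ_of_le hij))
    exact h1.trans (Nat.le_add_left _ _)
  refine ⟨N, hNt, fun u => ?_⟩
  have key : ∀ i : ℕ, ∀ᵐ x ∂signs, (e i).Nonempty →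
      Tendsto (fun j => ncorr (fun n => u n * fx F x n) (e i) (N j)) atTop (𝓝 0) := by
    intro i
    by_cases hi : (e i).Nonempty
    · have h1 := hbe_tendsto signs (fun j x => ncorr (fun n => u n * fx F x n) (e i) (N (j + i)))
        (fun j => ncorr_meas hF u (e i) (N (j + i))) (fun j => hbe_int hF u (e i) (N (j + i)))
        (fun j => (1 / 2 : ℝ) ^ (j + i)) ?_ ?_
      · filter_upwards [h1] with x hx _
        exact (tendsto_add_atTop_iff_nat i).1 hx
      · exact (summable_nat_add_iff (f := fun j => (1 / 2 : ℝ) ^ j) i).2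
          (summable_geometric_of_lt_one (by norm_num) (by norm_num))
      · intro j
        exact hN₀ (j + i) i (N (j + i)) (hNge (j + i) i (Nat.le_add_left i j)) hi u
    · exact Eventually.of_forall fun x hx => absurd hx hi
  filter_upwards [ae_all_iff.2 key] with x hx
  rw [bernAlong_iff _ _ hNt]
  intro A hA
  obtain ⟨i, rfl⟩ := he A
  rw [tendsto_map'_iff]
  exact hx i hA

theorem same {F : ℕ → ℕ → ℤˣ} (hF : Fam F) {j : ℕ} (h : Summable fun p : Tl F j => 1 / ((p : ℕ) : ℝ)) {u : ℕ → ℤˣ} (hu : IsMult u) {x x' : ℕ → ℤˣ}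
    (hx : ∀ i < j, x i = x' i) {l : Filter ℕ} (hl : l ≤ atTop) : BernAlong (fun n => u n * fx F x n) l ↔ BernAlong (fun n => u n * fx F x' n) l := by
  refine distance _ _ (isMult_mul hu (fx_cm hF x)) (isMult_mul hu (fx_cm hF x')) ?_ l hl
  have hsub : ∀ p : ℕ, p.Prime ∧ u p * fx F x p ≠ u p * fx F x' p → p ∈ Tl F j := by
    rintro p ⟨hp, hne⟩
    refine ⟨hp, ?_⟩
    by_contra hcon
    apply hne
    rw [fx_dep hF hp.pos (x := x) (y := x') fun i hi => ?_]
    by_contra hxi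
    have hij : j ≤ i := by
      by_contra hlt
      exact hxi (hx i (not_le.1 hlt))
    refine hcon ⟨i, hij, ?_⟩
    rcases Int.units_eq_one_or (F i p) with h1 | h1
    · exact absurd h1 hi
    · exact h1
  exact h.comp_injective (i := fun p : {p : ℕ // p.Prime ∧ u p * fx F x p ≠ u p * fx F x' p} =>
    (⟨p.1, hsub p.1 p.2⟩ : Tl F j)) fun p q hpq => by
      have h1 := congrArg (fun z : Tl F j => (z : ℕ)) hpq
      exact Subtype.ext h1

end ELG
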