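import Pool.Agent.ELG.HbD

/-!
# ELG-HcD: completely multiplicative functions and sign patterns on the primes

`cmf v` = the completely multiplicative function with the values `v p` at the primes; `Sup V S` = the primes `p` at which some `v ∈ V` which is `1` on `S` has the value `-1`.
-/

set_option autoImplicit false

namespace ELG

open Finset MeasureTheory Pool.Agent.Helper50.FS

/-- The completely multiplicative function with the values `v p` at the primes `p`. -/
noncomputable def cmf (v : Nat.Primes → ℤˣ) (n : ℕ) : ℤˣ := n.factorization.prod fun p k => if h : p.Prime then v ⟨p, h⟩ ^ k else 1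

/-- The primes `p` with `v p = -1` for some `v ∈ V` which is `1` on `S`. -/
def Sup (V : Subgroup (Nat.Primes → ℤˣ)) (S : Finset Nat.Primes) : Set ℕ := {p | ∃ h : p.Prime, ∃ v ∈ V, (∀ q ∈ S, v q = 1) ∧ v ⟨p, h⟩ = -1}

private theorem hcd_measSet (s : Set ℤˣ) : MeasurableSet s := by
  refine ⟨Units.val '' s, trivial, ?_⟩
  exact Set.preimage_image_eq s Units.val_injective

private theorem hcd_meas {Z : Type*} [MeasurableSpace Z] (f : ℤˣ → Z) : Measurable f :=
  fun _ _ => hcd_measSet _

theorem cmf_cm (v : Nat.Primes → ℤˣ) : IsCM (cmf v) := by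
  constructor
  · unfold cmf
    rw [Nat.factorization_one, Finsupp.prod_zero_index]
  · intro a b ha hb
    unfold cmf
    rw [Nat.factorization_mul ha.ne' hb.ne']
    refine Finsupp.prod_add_index' (fun p => ?_) (fun p k l => ?_)
    · by_cases h : p.Prime
      · rw [dif_pos h, pow_zero]
      · rw [dif_neg h]
    · by_cases h : p.Prime
      · rw [dif_pos h, dif_pos h, dif_pos h, pow_add]
      · rw [dif_neg h, dif_neg h, dif_neg h, one_mul]

theorem cmf_prime (v : Nat.Primes → ℤˣ) (p : Nat.Primes) : cmf v p = v p := by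
  unfold cmf
  rw [p.2.factorization, Finsupp.prod_single_index, dif_pos p.2, pow_one]
  · rfl
  · rw [dif_pos p.2, pow_zero]

theorem cmf_mul (v w : Nat.Primes → ℤˣ) (n : ℕ) : cmf (v * w) n = cmf v n * cmf w n := by
  unfold cmf
  rw [← Finsupp.prod_mul]
  refine Finsupp.prod_congr fun p _ => ?_
  by_cases h : p.Prime
  · rw [dif_pos h, dif_pos h, dif_pos h]
    exact mul_pow (v ⟨p, h⟩) (w ⟨p, h⟩) _
  · rw [dif_neg h, dif_neg h, dif_neg h, one_mul]

theorem cmf_meas (n : ℕ) : Measurable fun v => cmf v n := by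
  have _i : DiscreteMeasurableSpace ℤˣ := ⟨hcd_measSet⟩
  have _j : MeasurableMul₂ ℤˣ := inferInstance
  have h1 : (fun v => cmf v n) = fun v : Nat.Primes → ℤˣ => ∏ p ∈ n.factorization.support,
      if h : p.Prime then v ⟨p, h⟩ ^ (n.factorization p) else 1 := rfl
  rw [h1]
  refine Finset.measurable_fun_prod _ fun p _ => ?_
  by_cases h : p.Prime
  · have h2 : (fun v : Nat.Primes → ℤˣ => if h : p.Prime then v ⟨p, h⟩ ^ (n.factorization p) else 1) =
        fun v : Nat.Primes → ℤˣ => v ⟨p, h⟩ ^ (n.factorization p) := by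
      funext v
      rw [dif_pos h]
    rw [h2]
    exact (hcd_meas (fun e : ℤˣ => e ^ (n.factorization p))).comp (measurable_pi_apply _)
  · have h2 : (fun v : Nat.Primes → ℤˣ => if h : p.Prime then v ⟨p, h⟩ ^ (n.factorization p) else 1) =
        fun _ : Nat.Primes → ℤˣ => 1 := by
      funext v
      rw [dif_neg h]
    rw [h2]
    exact measurable_const

theorem cm_eq {u w : ℕ → ℤˣ} (hu : IsCM u) (hw : IsCM w) (h : ∀ p : ℕ, p.Prime → u p = w p) {n : ℕ} (hn : 0 < n) : u n = w n := by
  induction n using Nat.recOnMul with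
  | zero => exact absurd hn (lt_irrefl 0)
  | one => rw [hu.1, hw.1]
  | prime p hp => exact h p hp
  | mul a b iha ihb =>
    have ha : 0 < a := Nat.pos_of_mul_pos_right hn
    have hb : 0 < b := Nat.pos_of_mul_pos_left hn
    rw [hu.2 a b ha hb, hw.2 a b ha hb, iha ha, ihb hb]

end ELG
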