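import Pool.Agent.ELG.HcD

/-!
# ELG-HcG: the Haar measure of a closed group of sign patterns

`Φ x = ⟨fun p => fx F x p, _⟩` is a measurable surjective homomorphism `(ℕ → ℤˣ) → V`, so `signs.map Φ` is a probability measure
invariant under multiplication. `V` is a compact, second countable group: uniqueness of the Haar probability measure.
-/

set_option autoImplicit false

namespace ELG

open Finset MeasureTheory Pool.Agent.Helper50.FS

private theorem hcg_measSet (s : Set ℤˣ) : MeasurableSet s := by
  refine ⟨Units.val '' s, trivial, ?_⟩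
  exact Set.preimage_image_eq s Units.val_injective

private theorem hcg_borel : BorelSpace ℤˣ := by
  have hd : DiscreteTopology ℤˣ := inferInstance
  refine ⟨?_⟩
  refine le_antisymm ?_ ?_
  · intro s _
    exact MeasurableSpace.measurableSet_generateFrom (isOpen_discrete s)
  · intro s _
    exact hcg_measSet s

theorem push_meas {V : Subgroup (Nat.Primes → ℤˣ)} {F : ℕ → ℕ → ℤˣ} (hF : Fam F) (hm : ∀ x, (fun p : Nat.Primes => fx F x p) ∈ V) :
    Measurable fun x => (⟨fun p => fx F x p, hm x⟩ : V) :=
  Measurable.subtype_mk (measurable_pi_lambda _ fun p => fx_meas hF p.2.pos)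

theorem haar_push {V : Subgroup (Nat.Primes → ℤˣ)} (hV : IsClosed (V : Set (Nat.Primes → ℤˣ))) (μ : Measure V) [μ.IsHaarMeasure] [IsProbabilityMeasure μ]
    {F : ℕ → ℕ → ℤˣ} (hF : Fam F) (hm : ∀ x, (fun p : Nat.Primes => fx F x p) ∈ V) (hs : ∀ v ∈ V, ∃ x, (fun p : Nat.Primes => fx F x p) = v) :
    signs.map (fun x => (⟨fun p => fx F x p, hm x⟩ : V)) = μ := by
  have hb : BorelSpace ℤˣ := hcg_borel
  have hb2 : BorelSpace (Nat.Primes → ℤˣ) := Pi.borelSpace
  have hb3 : BorelSpace V := Subtype.borelSpace _
  have hc : CompactSpace V := isCompact_iff_compactSpace.1 hV.isCompact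
  have hmeas := push_meas hF hm
  have hp : IsProbabilityMeasure signs := signs_prob
  have hp2 : IsProbabilityMeasure (signs.map (fun x => (⟨fun p => fx F x p, hm x⟩ : V))) :=
    Measure.isProbabilityMeasure_map hmeas.aemeasurable
  have hinv : (signs.map (fun x => (⟨fun p => fx F x p, hm x⟩ : V))).IsMulLeftInvariant := by
    refine ⟨fun v => ?_⟩
    obtain ⟨x0, hx0⟩ := hs v.1 v.2
    have h1 : Measurable fun w : V => v * w := (continuous_const.mul continuous_id).measurable
    rw [Measure.map_map h1 hmeas]
    have h2 : (fun w : V => v * w) ∘ (fun x => (⟨fun p => fx F x p, hm x⟩ : V)) =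
        (fun x => (⟨fun p => fx F x p, hm x⟩ : V)) ∘ fun x : ℕ → ℤˣ => x * x0 := by
      funext x
      apply Subtype.ext
      funext p
      show v.1 p * fx F x p = fx F (x * x0) p
      rw [fx_mul hF x x0 p.2.pos, mul_comm, ← hx0]
    have h3 : Measurable fun x : ℕ → ℤˣ => x * x0 := by
      refine measurable_pi_lambda _ fun i => ?_
      have h4 : Measurable fun e : ℤˣ => e * x0 i := fun s _ => hcg_measSet _
      exact h4.comp (measurable_pi_apply i)
    rw [h2, ← Measure.map_map hmeas h3, signs_mul x0]
  have hh : (signs.map (fun x => (⟨fun p => fx F x p, hm x⟩ : V))).IsHaarMeasure := by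
    refine Measure.isHaarMeasure_of_isCompact_nonempty_interior _ Set.univ isCompact_univ ?_ ?_ ?_
    · rw [interior_univ]
      exact Set.univ_nonempty
    · rw [measure_univ]
      exact one_ne_zero
    · rw [measure_univ]
      exact ENNReal.one_ne_top
  exact Measure.isHaarMeasure_eq_of_isProbabilityMeasure _ _

end ELG
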