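import Pool.Agent.ELG.HcF
import Pool.Agent.ELG.HcG
import Pool.Agent.ELG.HbE

/-!
# ELG-HcE: the dichotomy for closed groups
-/

set_option autoImplicit false

namespace ELG

open Finset MeasureTheory Filter Pool.Agent.Helper50.FS

private theorem hce_sg_mul (x y : ℤˣ) : Pool.Agent.Helper50.FS.sg (x * y) = Pool.Agent.Helper50.FS.sg x * Pool.Agent.Helper50.FS.sg y := by
  unfold Pool.Agent.Helper50.FS.sg
  push_cast
  ring

private theorem hce_measurable_sg : Measurable Pool.Agent.Helper50.FS.sg := by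
  have h1 : Measurable fun e : ℤˣ => (e : ℤ) := fun s hs => ⟨s, hs, rfl⟩
  have h2 : Measurable fun z : ℤ => (z : ℝ) := measurable_of_countable _
  exact h2.comp h1

private theorem hce_ncorr_meas (V : Subgroup (Nat.Primes → ℤˣ)) (u : ℕ → ℤˣ) (A : Finset ℕ) (N : ℕ) :
    Measurable fun v : V => ncorr (fun n => u n * cmf (v : Nat.Primes → ℤˣ) n) A N := by
  unfold ncorr
  refine Measurable.const_mul ?_ _
  refine Finset.measurable_fun_sum _ fun n hn => ?_
  refine Measurable.div_const ?_ _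
  refine Finset.measurable_fun_prod _ fun a _ => ?_
  have h1 : (fun v : V => Pool.Agent.Helper50.FS.sg (u (n + a) * cmf (v : Nat.Primes → ℤˣ) (n + a))) =
      fun v : V => Pool.Agent.Helper50.FS.sg (u (n + a)) * Pool.Agent.Helper50.FS.sg (cmf (v : Nat.Primes → ℤˣ) (n + a)) := by
    funext v
    exact hce_sg_mul _ _
  rw [h1]
  have h2 : Measurable fun v : V => cmf (v : Nat.Primes → ℤˣ) (n + a) :=
    (cmf_meas (n + a)).comp measurable_subtype_coe
  exact (hce_measurable_sg.comp h2).const_mul _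

private theorem hce_congr {u w : ℕ → ℤˣ} (h : ∀ n, 0 < n → u n = w n) {l : Filter ℕ} (hl : l ≤ atTop)
    (hb : BernAlong u l) : BernAlong w l := by
  rw [bernAlong_iff _ _ hl] at hb ⊢
  intro A hA
  refine (hb A hA).congr fun N => ?_
  unfold ncorr
  congr 1
  refine Finset.sum_congr rfl fun n hn => ?_
  congr 1
  refine Finset.prod_congr rfl fun a _ => ?_
  have hn' : 0 < n + a := by
    have := (Finset.mem_Icc.1 hn).1
    omega
  rw [h _ hn']

theorem closed_along {V : Subgroup (Nat.Primes → ℤˣ)} (hV : IsClosed (V : Set (Nat.Primes → ℤˣ))) (μ : Measure V) [μ.IsHaarMeasure] [IsProbabilityMeasure μ]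
    (h : ∀ S : Finset Nat.Primes, ¬ Summable fun p : Sup V S => 1 / ((p : ℕ) : ℝ)) :
    ∃ N : ℕ → ℕ, Tendsto N atTop atTop ∧ ∀ u : ℕ → ℤˣ, ∀ᵐ v : V ∂μ, BernAlong (fun n => u n * cmf (v : Nat.Primes → ℤˣ) n) (map N atTop) := by
  obtain ⟨F, hF, hm, hs, hT⟩ := exists_fam hV
  have hTl : ∀ j, ¬ Summable fun p : Tl F j => 1 / ((p : ℕ) : ℝ) := by
    intro j hj
    obtain ⟨S, hS⟩ := hT j
    refine h S ?_
    exact hj.comp_injective (i := fun p : Sup V S => (⟨p.1, hS p.2⟩ : Tl F j)) fun p q hpq => by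
      have h1 := congrArg (fun z : Tl F j => (z : ℕ)) hpq
      exact Subtype.ext h1
  obtain ⟨N, hN, hA⟩ := along hF hTl
  refine ⟨N, hN, fun u => ?_⟩
  have hset : MeasurableSet {v : V | BernAlong (fun n => u n * cmf (v : Nat.Primes → ℤˣ) n) (map N atTop)} := by
    have h1 : {v : V | BernAlong (fun n => u n * cmf (v : Nat.Primes → ℤˣ) n) (map N atTop)} =
        ⋂ A : Finset ℕ, {v : V | A.Nonempty →
          Tendsto (fun j => ncorr (fun n => u n * cmf (v : Nat.Primes → ℤˣ) n) A (N j)) atTop (nhds 0)} := by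
      ext v
      rw [Set.mem_iInter]
      constructor
      · intro hv A hA'
        have h2 := (bernAlong_iff _ _ hN).1 hv A hA'
        exact tendsto_map'_iff.1 h2
      · intro hv
        refine (bernAlong_iff _ _ hN).2 fun A hA' => ?_
        exact tendsto_map'_iff.2 (hv A hA')
    rw [h1]
    refine MeasurableSet.iInter fun A => ?_
    by_cases hA' : A.Nonempty
    · have h2 : {v : V | A.Nonempty →
          Tendsto (fun j => ncorr (fun n => u n * cmf (v : Nat.Primes → ℤˣ) n) A (N j)) atTop (nhds 0)} =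
          {v : V | Tendsto (fun j => ncorr (fun n => u n * cmf (v : Nat.Primes → ℤˣ) n) A (N j)) atTop (nhds 0)} := by
        ext v
        exact ⟨fun hv => hv hA', fun hv _ => hv⟩
      rw [h2]
      exact measurableSet_tendsto (nhds 0) fun j => hce_ncorr_meas V u A (N j)
    · have h2 : {v : V | A.Nonempty →
          Tendsto (fun j => ncorr (fun n => u n * cmf (v : Nat.Primes → ℤˣ) n) A (N j)) atTop (nhds 0)} = Set.univ :=
        Set.eq_univ_of_forall fun v hv => absurd hv hA'
      rw [h2]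
      exact MeasurableSet.univ
  rw [← haar_push hV μ hF hm hs, ae_map_iff (push_meas hF hm).aemeasurable hset]
  filter_upwards [hA u] with x hx
  refine hce_congr (fun n hn => ?_) hN hx
  have h1 : fx F x n = cmf (fun p : Nat.Primes => fx F x p) n :=
    cm_eq (fx_cm hF x) (cmf_cm _) (fun p hp => (cmf_prime (fun p : Nat.Primes => fx F x p) ⟨p, hp⟩).symm) hn
  show u n * fx F x n = u n * cmf (fun p : Nat.Primes => fx F x p) n
  rw [← h1]

theorem closed_same {V : Subgroup (Nat.Primes → ℤˣ)} {S : Finset Nat.Primes} (h : Summable fun p : Sup V S => 1 / ((p : ℕ) : ℝ)) {u w : ℕ → ℤˣ} (hu : IsMult u)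
    (hw : IsMult w) (huw : ∀ p : ℕ, p.Prime → p ∉ Sup V S → u p = w p) {l : Filter ℕ} (hl : l ≤ atTop) : BernAlong u l ↔ BernAlong w l := by
  refine distance _ _ hu hw ?_ l hl
  have hsub : ∀ p : ℕ, p.Prime ∧ u p ≠ w p → p ∈ Sup V S := by
    rintro p ⟨hp, hne⟩
    by_contra hcon
    exact hne (huw p hp hcon)
  exact h.comp_injective (i := fun p : {p : ℕ // p.Prime ∧ u p ≠ w p} =>
    (⟨p.1, hsub p.1 p.2⟩ : Sup V S)) fun p q hpq => by
      have h1 := congrArg (fun z : Sup V S => (z : ℕ)) hpq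
      exact Subtype.ext h1

end ELG
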