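import Pool.Agent.ELG.HcD

/-!
# ELG-HcF: a closed group of sign patterns has a basis which tends to 1

Gaussian elimination with respect to an enumeration of the primes.
-/

set_option autoImplicit false

namespace ELG

open Finset MeasureTheory Pool.Agent.Helper50.FS

private theorem hcf_sq (a : ℤˣ) : a * a = 1 := by
  rcases Int.units_eq_one_or a with h | h
  · rw [h, one_mul]
  · rw [h]
    decide

private theorem hcf_eq {a b : ℤˣ} (h : a * b = 1) : b = a := by
  rcases Int.units_eq_one_or a with h1 | h1 <;> rcases Int.units_eq_one_or b with h2 | h2 <;>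
    rw [h1, h2] at h ⊢ <;> revert h <;> decide

private theorem hcf_cmf_one (v : Nat.Primes → ℤˣ) (m : ℕ)
    (h : ∀ p : Nat.Primes, (p : ℕ) ∈ m.primeFactors → v p = 1) : cmf v m = 1 := by
  unfold cmf Finsupp.prod
  refine Finset.prod_eq_one fun p hp => ?_
  rw [Nat.support_factorization] at hp
  have hp' := Nat.prime_of_mem_primeFactors hp
  show (if h : p.Prime then v ⟨p, h⟩ ^ m.factorization p else 1) = 1
  rw [dif_pos hp', h ⟨p, hp'⟩ hp, one_pow]

/-- The finite products. -/
private noncomputable def hcP (g : ℕ → Nat.Primes → ℤˣ) (x : ℕ → ℤˣ) (n : ℕ) : Nat.Primes → ℤˣ :=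
  ∏ i ∈ range n, if x i = -1 then g i else 1

private theorem hcf_fx (e : ℕ ≃ Nat.Primes) (g : ℕ → Nat.Primes → ℤˣ) (hg : ∀ n i, i < n → g n (e i) = 1)
    (x : ℕ → ℤˣ) {k n : ℕ} (h : k < n) : fx (fun i => cmf (g i)) x (e k) = hcP g x n (e k) := by
  classical
  unfold fx hcP
  rw [Finset.prod_apply, finprod_eq_prod_of_mulSupport_subset (s := range n)]
  · refine Finset.prod_congr rfl fun i _ => ?_
    by_cases hx : x i = -1
    · rw [if_pos hx, if_pos hx]
      exact cmf_prime (g i) (e k)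
    · rw [if_neg hx, if_neg hx, Pi.one_apply]
  · intro i hi
    rw [Function.mem_mulSupport] at hi
    rw [Finset.mem_coe, Finset.mem_range]
    by_contra hin
    apply hi
    have h1 : cmf (g i) (e k) = 1 := by
      rw [cmf_prime]
      exact hg i k (by omega)
    show (if x i = -1 then cmf (g i) (e k) else 1) = 1
    rw [h1, ite_self]

private theorem hcf_mem {V : Subgroup (Nat.Primes → ℤˣ)} (g : ℕ → Nat.Primes → ℤˣ) (hgV : ∀ n, g n ∈ V)
    (x : ℕ → ℤˣ) (n : ℕ) : hcP g x n ∈ V := by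
  unfold hcP
  refine Subgroup.prod_mem V fun i _ => ?_
  by_cases hx : x i = -1
  · rw [if_pos hx]
    exact hgV i
  · rw [if_neg hx]
    exact V.one_mem

private theorem hcf_lift {V : Subgroup (Nat.Primes → ℤˣ)} (e : ℕ ≃ Nat.Primes) (g : ℕ → Nat.Primes → ℤˣ)
    (hgV : ∀ n, g n ∈ V) (hg : ∀ n i, i < n → g n (e i) = 1)
    (hg' : ∀ n, (∃ v ∈ V, (∀ i < n, v (e i) = 1) ∧ v (e n) = -1) → g n (e n) = -1)
    (v : Nat.Primes → ℤˣ) (hv : v ∈ V) (j : ℕ) (hj : ∀ k < j, v (e k) = 1) :
    ∃ x : ℕ → ℤˣ, (fun p : Nat.Primes => fx (fun i => cmf (g i)) x p) = v ∧ ∀ i < j, x i = 1 := by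
  obtain ⟨u, hu0, hus⟩ : ∃ u : ℕ → (Nat.Primes → ℤˣ), u 0 = v ∧
      ∀ n, u (n + 1) = u n * (if u n (e n) = -1 then g n else 1) :=
    ⟨fun n => Nat.rec v (fun n w => w * (if w (e n) = -1 then g n else 1)) n, rfl, fun n => rfl⟩
  have h1 : ∀ n, u n = v * hcP g (fun i => u i (e i)) n := by
    intro n
    induction n with
    | zero =>
      unfold hcP
      rw [hu0, Finset.range_zero, Finset.prod_empty, mul_one]
    | succ n ih =>
      have h2 : hcP g (fun i => u i (e i)) (n + 1) = hcP g (fun i => u i (e i)) n *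
          (if u n (e n) = -1 then g n else 1) := by
        unfold hcP
        rw [Finset.prod_range_succ]
      rw [h2, ← mul_assoc, ← ih]
      exact hus n
  have h2 : ∀ n, u n ∈ V := by
    intro n
    rw [h1 n]
    exact V.mul_mem hv (hcf_mem g hgV _ n)
  have h3 : ∀ n, ∀ k < n, u n (e k) = 1 := by
    intro n
    induction n with
    | zero =>
      intro k hk
      omega
    | succ n ih =>
      intro k hk
      rw [hus n, Pi.mul_apply]
      by_cases hx : u n (e n) = -1
      · rw [if_pos hx]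
        rcases Nat.lt_succ_iff_lt_or_eq.1 hk with h4 | h4
        · rw [ih k h4, hg n k h4, one_mul]
        · rw [h4, hx, hg' n ⟨u n, h2 n, ih, hx⟩]
          decide
      · rw [if_neg hx, Pi.one_apply, mul_one]
        rcases Nat.lt_succ_iff_lt_or_eq.1 hk with h4 | h4
        · exact ih k h4
        · rw [h4]
          exact (Int.units_eq_one_or _).resolve_right hx
  refine ⟨fun i => u i (e i), ?_, ?_⟩
  · funext p
    obtain ⟨k, rfl⟩ := e.surjective p
    rw [hcf_fx e g hg _ (Nat.lt_succ_self k)]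
    have h4 := h3 (k + 1) k (Nat.lt_succ_self k)
    rw [h1 (k + 1), Pi.mul_apply] at h4
    exact hcf_eq h4
  · have h4 : ∀ n ≤ j, u n = v := by
      intro n
      induction n with
      | zero => exact fun _ => hu0
      | succ n ih =>
        intro hn
        have h5 := ih (by omega)
        have h6 : ¬ (1 : ℤˣ) = -1 := by decide
        rw [hus n, h5, hj n (by omega), if_neg h6, mul_one]
    intro i hi
    show u i (e i) = 1
    rw [h4 i hi.le]
    exact hj i hi

theorem exists_fam {V : Subgroup (Nat.Primes → ℤˣ)} (hV : IsClosed (V : Set (Nat.Primes → ℤˣ))) :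
    ∃ F : ℕ → ℕ → ℤˣ, Fam F ∧ (∀ x, (fun p : Nat.Primes => fx F x p) ∈ V) ∧
      (∀ v ∈ V, ∃ x, (fun p : Nat.Primes => fx F x p) = v) ∧ ∀ j, ∃ S : Finset Nat.Primes, Sup V S ⊆ Tl F j := by
  classical
  obtain ⟨e⟩ : Nonempty (ℕ ≃ Nat.Primes) := nonempty_equiv_of_countable
  have h0 : ∀ n, ∃ g : Nat.Primes → ℤˣ, g ∈ V ∧ (∀ i < n, g (e i) = 1) ∧
      ((∃ v ∈ V, (∀ i < n, v (e i) = 1) ∧ v (e n) = -1) → g (e n) = -1) := by
    intro n
    by_cases h : ∃ v ∈ V, (∀ i < n, v (e i) = 1) ∧ v (e n) = -1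
    · obtain ⟨v, hv, h1, h2⟩ := h
      exact ⟨v, hv, h1, fun _ => h2⟩
    · exact ⟨1, V.one_mem, fun _ _ => rfl, fun h' => absurd h' h⟩
  choose g hgV hg hg' using h0
  have hgi : ∀ n i, i < n → g n (e i) = 1 := fun n i hi => hg n i hi
  refine ⟨fun i => cmf (g i), ⟨fun i => cmf_cm (g i), fun m hm => ?_⟩, fun x => ?_, fun v hv => ?_,
    fun j => ⟨(range j).image e, ?_⟩⟩
  · obtain ⟨N, hN⟩ : ∃ N, ∀ p : Nat.Primes, (p : ℕ) ∈ m.primeFactors → e.symm p ≤ N := by
      refine ⟨m.primeFactors.sup fun p => if h : p.Prime then e.symm ⟨p, h⟩ else 0, fun p hp => ?_⟩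
      have h1 := Finset.le_sup (f := fun p : ℕ => if h : p.Prime then e.symm ⟨p, h⟩ else 0) hp
      beta_reduce at h1
      rw [dif_pos p.2] at h1
      exact h1
    refine (Set.finite_Iic N).subset fun i hi => ?_
    by_contra h
    rw [Set.mem_Iic, not_le] at h
    refine hi (hcf_cmf_one (g i) m fun p hp => ?_)
    have h1 := hg i (e.symm p) (lt_of_le_of_lt (hN p hp) h)
    rw [Equiv.apply_symm_apply] at h1
    exact h1
  · refine hV.mem_of_tendsto (b := Filter.atTop) (f := fun n => hcP g x n) ?_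
      (Filter.Eventually.of_forall fun n => hcf_mem g hgV x n)
    rw [tendsto_pi_nhds]
    intro p
    obtain ⟨k, rfl⟩ := e.surjective p
    refine tendsto_const_nhds.congr' ?_
    filter_upwards [Filter.eventually_gt_atTop k] with n hn
    exact hcf_fx e g hgi x hn
  · obtain ⟨x, hx, -⟩ := hcf_lift e g hgV hgi hg' v hv 0 (fun k hk => absurd hk (Nat.not_lt_zero k))
    exact ⟨x, hx⟩
  · rintro p ⟨hp, v, hv, hv1, hv2⟩
    obtain ⟨x, hx, hxj⟩ := hcf_lift e g hgV hgi hg' v hv j
      (fun k hk => hv1 _ (Finset.mem_image_of_mem e (Finset.mem_range.2 hk)))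
    refine ⟨hp, ?_⟩
    by_contra hno
    have h1 := congrFun hx ⟨p, hp⟩
    rw [hv2] at h1
    have h2 : fx (fun i => cmf (g i)) x p = 1 := by
      unfold fx
      refine finprod_eq_one_of_forall_eq_one fun i => ?_
      by_cases hxi : x i = -1
      · rw [if_pos hxi]
        by_cases hij : j ≤ i
        · exact (Int.units_eq_one_or _).resolve_right fun h => hno ⟨i, hij, h⟩
        · rw [hxj i (not_le.1 hij)] at hxi
          exact absurd hxi (by decide)
      · rw [if_neg hxi]
    have h3 : (1 : ℤˣ) = -1 := h2.symm.trans h1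
    exact absurd h3 (by decide)

end ELG
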