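import Pool.Agent.ELG.Mn

/-! # ELG-Lst: sums over lists, cube derivatives (helper2) -/

set_option autoImplicit false

namespace ELG

open Finset

theorem SL_congr {N r : ℕ} {F F' : List ℤ → ℝ} (h : ∀ δ : List ℤ, δ.length = r → (∀ d ∈ δ, -(N : ℤ) < d ∧ d < N) → F δ = F' δ) :
    SL N r F = SL N r F' := by
  induction r generalizing F F' with
  | zero => exact h [] rfl (by simp)
  | succ r ih =>
    simp only [SL]
    refine Finset.sum_congr rfl fun d hd => ih fun δ hl hb => h (d :: δ) (by simp [hl]) ?_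
    intro e he
    rcases List.mem_cons.1 he with rfl | he
    · exact Finset.mem_Ioo.1 hd
    · exact hb e he

theorem SL_mono {N r : ℕ} {F F' : List ℤ → ℝ} (h : ∀ δ : List ℤ, δ.length = r → (∀ d ∈ δ, -(N : ℤ) < d ∧ d < N) → F δ ≤ F' δ) :
    SL N r F ≤ SL N r F' := by
  induction r generalizing F F' with
  | zero => exact h [] rfl (by simp)
  | succ r ih =>
    simp only [SL]
    refine Finset.sum_le_sum fun d hd => ih fun δ hl hb => h (d :: δ) (by simp [hl]) ?_
    intro e he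
    rcases List.mem_cons.1 he with rfl | he
    · exact Finset.mem_Ioo.1 hd
    · exact hb e he

theorem SL_add (N r : ℕ) (F F' : List ℤ → ℝ) : SL N r (fun δ => F δ + F' δ) = SL N r F + SL N r F' := by
  induction r generalizing F F' with
  | zero => rfl
  | succ r ih =>
    simp only [SL]
    rw [← Finset.sum_add_distrib]
    exact Finset.sum_congr rfl fun d _ => ih _ _

theorem SL_smul (N r : ℕ) (c : ℝ) (F : List ℤ → ℝ) : SL N r (fun δ => c * F δ) = c * SL N r F := by
  induction r generalizing F with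
  | zero => rfl
  | succ r ih =>
    simp only [SL]
    rw [Finset.mul_sum]
    exact Finset.sum_congr rfl fun d _ => ih _

theorem SL_sum {ι : Type} (s : Finset ι) (N r : ℕ) (F : ι → List ℤ → ℝ) :
    SL N r (fun δ => ∑ i ∈ s, F i δ) = ∑ i ∈ s, SL N r (F i) := by
  induction r generalizing F with
  | zero => rfl
  | succ r ih =>
    simp only [SL]
    rw [Finset.sum_comm]
    exact Finset.sum_congr rfl fun d _ => ih fun i δ => F i (d :: δ)

private theorem SL_nonneg {N r : ℕ} {F : List ℤ → ℝ} (h0 : ∀ δ, 0 ≤ F δ) : 0 ≤ SL N r F := by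
  induction r generalizing F with
  | zero => exact h0 []
  | succ r ih =>
    simp only [SL]
    exact Finset.sum_nonneg fun d _ => ih fun δ => h0 _

theorem SL_const (N r : ℕ) (hN : 1 ≤ N) (c : ℝ) : SL N r (fun _ => c) = (2 * N - 1) ^ r * c := by
  induction r with
  | zero => simp [SL]
  | succ r ih =>
    simp only [SL]
    rw [ih, Finset.sum_const, Int.card_Ioo, nsmul_eq_mul]
    have e : (((N : ℤ) - -(N : ℤ) - 1).toNat : ℝ) = 2 * N - 1 := by
      have h1 : (0 : ℤ) ≤ (N : ℤ) - -(N : ℤ) - 1 := by omega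
      have h2 : ((((N : ℤ) - -(N : ℤ) - 1).toNat : ℤ) : ℝ) = (((N : ℤ) - -(N : ℤ) - 1 : ℤ) : ℝ) := by
        rw [Int.toNat_of_nonneg h1]
      rw [Int.cast_natCast] at h2
      rw [h2]
      push_cast
      ring
    rw [e, pow_succ]
    ring

/-- Larger range. -/
theorem SL_range {N N' r : ℕ} (h : N ≤ N') {F : List ℤ → ℝ} (h0 : ∀ δ, 0 ≤ F δ) : SL N r F ≤ SL N' r F := by
  induction r generalizing F with
  | zero => exact le_rfl
  | succ r ih =>
    simp only [SL]
    calc ∑ d ∈ Finset.Ioo (-(N : ℤ)) N, SL N r (fun δ => F (d :: δ))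
        ≤ ∑ d ∈ Finset.Ioo (-(N : ℤ)) N, SL N' r (fun δ => F (d :: δ)) :=
          Finset.sum_le_sum fun d _ => ih fun δ => h0 _
      _ ≤ ∑ d ∈ Finset.Ioo (-(N' : ℤ)) N', SL N' r (fun δ => F (d :: δ)) := by
          refine Finset.sum_le_sum_of_subset_of_nonneg ?_ fun d _ _ => SL_nonneg fun δ => h0 _
          exact Finset.Ioo_subset_Ioo (by omega) (by omega)

theorem SL_sq (N r : ℕ) (F : List ℤ → ℝ) : SL N r F ^ 2 ≤ (2 * N) ^ r * SL N r fun δ => F δ ^ 2 := by
  induction r generalizing F with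
  | zero => simp [SL]
  | succ r ih =>
    simp only [SL]
    have hc : ((Finset.Ioo (-(N : ℤ)) N).card : ℝ) ≤ 2 * N := by
      rw [Int.card_Ioo]
      have : ((N : ℤ) - -(N : ℤ) - 1).toNat ≤ 2 * N := by omega
      exact_mod_cast this
    have h1 := sq_sum_le_card_mul_sum_sq (s := Finset.Ioo (-(N : ℤ)) N)
      (f := fun d => SL N r (fun δ => F (d :: δ)))
    have h2 : ∑ d ∈ Finset.Ioo (-(N : ℤ)) N, SL N r (fun δ => F (d :: δ)) ^ 2 ≤
        (2 * N) ^ r * ∑ d ∈ Finset.Ioo (-(N : ℤ)) N, SL N r (fun δ => F (d :: δ) ^ 2) := by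
      rw [Finset.mul_sum]
      exact Finset.sum_le_sum fun d _ => ih _
    have h3 : 0 ≤ ∑ d ∈ Finset.Ioo (-(N : ℤ)) N, SL N r (fun δ => F (d :: δ)) ^ 2 :=
      Finset.sum_nonneg fun d _ => sq_nonneg _
    calc (∑ d ∈ Finset.Ioo (-(N : ℤ)) N, SL N r (fun δ => F (d :: δ))) ^ 2
        ≤ ((Finset.Ioo (-(N : ℤ)) N).card : ℝ) *
          ∑ d ∈ Finset.Ioo (-(N : ℤ)) N, SL N r (fun δ => F (d :: δ)) ^ 2 := h1
      _ ≤ (2 * N) * ∑ d ∈ Finset.Ioo (-(N : ℤ)) N, SL N r (fun δ => F (d :: δ)) ^ 2 :=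
          mul_le_mul_of_nonneg_right hc h3
      _ ≤ (2 * N) * ((2 * N) ^ r *
          ∑ d ∈ Finset.Ioo (-(N : ℤ)) N, SL N r (fun δ => F (d :: δ) ^ 2)) :=
          mul_le_mul_of_nonneg_left h2 (by positivity)
      _ = (2 * N) ^ (r + 1) *
          ∑ d ∈ Finset.Ioo (-(N : ℤ)) N, SL N r (fun δ => F (d :: δ) ^ 2) := by
          rw [pow_succ]
          ring

/-- Cauchy–Schwarz. -/
theorem SL_cs (N r : ℕ) (F F' : List ℤ → ℝ) :
    SL N r (fun δ => F δ * F' δ) ^ 2 ≤ SL N r (fun δ => F δ ^ 2) * SL N r fun δ => F' δ ^ 2 := by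
  have key : ∀ x : ℝ, 0 ≤ (SL N r fun δ => F' δ ^ 2) * (x * x) + (2 * SL N r fun δ => F δ * F' δ) * x +
      SL N r fun δ => F δ ^ 2 := by
    intro x
    have h : 0 ≤ SL N r (fun δ => (F δ + x * F' δ) ^ 2) := SL_nonneg fun δ => sq_nonneg _
    have e : SL N r (fun δ => (F δ + x * F' δ) ^ 2) =
        SL N r (fun δ => (F δ ^ 2 + (2 * x) * (F δ * F' δ)) + (x * x) * F' δ ^ 2) := by
      refine SL_congr fun δ _ _ => ?_
      ring
    rw [e, SL_add N r (fun δ => F δ ^ 2 + (2 * x) * (F δ * F' δ)) (fun δ => (x * x) * F' δ ^ 2),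
      SL_add N r (fun δ => F δ ^ 2) (fun δ => (2 * x) * (F δ * F' δ)),
      SL_smul N r (2 * x) (fun δ => F δ * F' δ), SL_smul N r (x * x) (fun δ => F' δ ^ 2)] at h
    linarith
  have h := discrim_le_zero key
  unfold discrim at h
  nlinarith

/-- The mean of a sum over lists. -/
theorem Mn.E_SL (μ : Mn) (N r : ℕ) (F : List ℤ → ℤ → ℝ) (h : ∀ δ, Bd (F δ)) :
    Bd (fun n => SL N r fun δ => F δ n) ∧ μ.E (fun n => SL N r fun δ => F δ n) = SL N r fun δ => μ.E (F δ) := by
  induction r generalizing F with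
  | zero => exact ⟨h [], rfl⟩
  | succ r ih =>
    simp only [SL]
    have h1 : ∀ d ∈ Finset.Ioo (-(N : ℤ)) (N : ℤ), Bd (fun n => SL N r fun δ => F (d :: δ) n) :=
      fun d _ => (ih (fun δ => F (d :: δ)) fun δ => h _).1
    refine ⟨Bd.sum h1, ?_⟩
    rw [Mn.E_sum μ (Finset.Ioo (-(N : ℤ)) (N : ℤ)) (fun d n => SL N r fun δ => F (d :: δ) n) h1]
    exact Finset.sum_congr rfl fun d _ => (ih (fun δ => F (d :: δ)) fun δ => h _).2

section
variable {G : Type} [AddCommGroup G] (f : ℤ → G)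

theorem Dd_shift (ts : List ℤ) (a x : ℤ) : Dd (fun y => f (y + a)) ts x = Dd f ts (x + a) := by
  induction ts generalizing x with
  | nil => rfl
  | cons t ts ih =>
    simp only [Dd]
    rw [ih, ih, add_right_comm]

theorem Dd_perm {l l' : List ℤ} (h : l.Perm l') (x : ℤ) : Dd f l x = Dd f l' x := by
  induction h generalizing x with
  | nil => rfl
  | cons t _ ih =>
    simp only [Dd]
    rw [ih, ih]
  | swap a b l =>
    simp only [Dd]
    rw [add_add_add_comm, add_right_comm x a b]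
  | trans _ _ ih1 ih2 => rw [ih1, ih2]

/-- `Dd` along an arithmetic progression. -/
theorem Dd_mul (B : ℤ) (ts : List ℤ) (x u : ℤ) :
    Dd (fun v => f (x + B * v)) ts u = Dd f (ts.map (B * ·)) (x + B * u) := by
  induction ts generalizing u with
  | nil => rfl
  | cons t ts ih =>
    simp only [Dd, List.map_cons]
    rw [ih, ih, mul_add, ← add_assoc]

/-- The derivative of a derivative. -/
theorem Dd_Dd (t : ℤ) (ts : List ℤ) (x : ℤ) : Dd (fun y => f y + f (y + t)) ts x = Dd f (t :: ts) x := by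
  induction ts generalizing x with
  | nil => rfl
  | cons u ts ih =>
    simp only [Dd] at ih ⊢
    rw [ih, ih, add_add_add_comm, add_right_comm x u t]

end

theorem Cu_perm (Q : ℤ → Prop) {l l' : List ℤ} (h : l.Perm l') (p : ℤ) : Cu Q l p ↔ Cu Q l' p := by
  induction h generalizing p with
  | nil => exact Iff.rfl
  | cons t _ ih =>
    simp only [Cu]
    rw [ih, ih]
  | swap a b l =>
    simp only [Cu]
    rw [add_right_comm p a b]
    tauto
  | trans _ _ ih1 ih2 => rw [ih1, ih2]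

theorem Cu_mono {Q Q' : ℤ → Prop} (h : ∀ x, Q x → Q' x) (l : List ℤ) (p : ℤ) (hc : Cu Q l p) : Cu Q' l p := by
  induction l generalizing p with
  | nil => exact h p hc
  | cons d l ih => exact ⟨ih p hc.1, ih (p + d) hc.2⟩

/-- The base vertex is a vertex. -/
theorem Cu_base {Q : ℤ → Prop} {l : List ℤ} {p : ℤ} (hc : Cu Q l p) : Q p := by
  induction l generalizing p with
  | nil => exact hc
  | cons d l ih => exact ih hc.1

end ELG
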