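import Pool.Agent.ELG.StB
import Pool.Agent.ELG.FinS

/-!
# ELG-MainI: a popular value of `L(n + h₁) + ⋯ + L(n + h_k)` forces collisions in short intervals

PLAN.  Given `M₁ ≥ 1`: `many_window` with `M₀ = M₁`: `M`.  `fin_cubes` for every `x` (`f v = L (x + B v)`), `E_mono`, `E_pow`: `E (Col (L (x + B v)) M/M²) ≥ c (E (Ct/M^(k+1)))^C ≥ c (c₃ ε^(2^k))^C`.  `Col_ap`: `E (Col (L (x + ·)) (B M))/(B M)² ≥ (1/B) E (Col (L (x + B ·)) M)/M²`; `Col_split` (`M₁ ≤ B M`).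
For `ε ≤ 0` the statement is trivial if `C ≥ 1` and ... (assume `0 ≤ ε`).
-/

set_option autoImplicit false

namespace ELG

open Finset

private theorem E_div' (μ : Mn) {f : ℤ → ℝ} (hf : Bd f) (c : ℝ) : μ.E (fun x => f x / c) = μ.E f / c := by
  have h := μ.smul c⁻¹ f hf
  have e : (fun x => f x / c) = fun x => c⁻¹ * f x := by
    funext x
    rw [div_eq_mul_inv, mul_comm]
  rw [e, h, div_eq_mul_inv, mul_comm]

theorem mainI (k : ℕ) (hk : 1 ≤ k) : ∃ C : ℕ, 1 ≤ C ∧ ∀ (h : ℕ → ℕ), (∀ i < k, ∀ j < k, h i = h j → i = j) → ∃ c : ℝ, 0 < c ∧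
    ∀ (μ : LMn) (G : Type) [AddCommGroup G] [Fintype G], E2 G → ∀ L : ℤ → G, CA L → ∀ (g : G) (ε : ℝ), 0 ≤ ε →
      ε ≤ μ.P (fun n => ∑ i ∈ range k, L (n + h i) = g) → ∀ M : ℕ, 1 ≤ M →
        c * ε ^ C ≤ μ.E (fun x => Col (fun v => L (x + v)) M / M ^ 2) := by
  obtain ⟨c, hc, C, hC, hfin⟩ := fin_cubes k hk
  refine ⟨2 ^ k * C, Nat.mul_pos (pow_pos (by norm_num) k) hC, fun h hh => ?_⟩
  obtain ⟨c₃, hc₃, B, hB, hwin⟩ := many_window k hk h hh
  have hBr : (0 : ℝ) < B := by exact_mod_cast hB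
  refine ⟨c * c₃ ^ C / (4 * B), by positivity, ?_⟩
  intro μ G _ _ hG L hL g ε hε hP M hM
  have hMr : (0 : ℝ) < M := by exact_mod_cast hM
  have hbd : ∀ K : ℕ, Bd fun x => Col (fun v => L (x + v)) K := by
    intro K
    have := Bd_Col L 1 K
    simpa only [one_mul] using this
  have hnn : ∀ K : ℕ, 0 ≤ μ.E (fun x => Col (fun v => L (x + v)) K) := fun K =>
    μ.nonneg _ (hbd K) fun x => Nat.cast_nonneg _
  rw [E_div' μ.toMn (hbd M)]
  rcases hε.eq_or_lt with h0 | h0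
  · rw [← h0, zero_pow (Nat.mul_pos (pow_pos (by norm_num) k) hC).ne', mul_zero]
    exact div_nonneg (hnn M) (by positivity)
  obtain ⟨M', hM', hM'1, hw⟩ := hwin μ G hG L hL g ε h0 hP M
  have hM'r : (0 : ℝ) < M' := by exact_mod_cast hM'1
  have hCt : Bd fun x => Ct (fun v => L (x + B * v)) M' k := Bd_Ct L B M' k
  have hCtd : Bd fun x => Ct (fun v => L (x + B * v)) M' k / M' ^ (k + 1) := by
    have h1 := hCt.mul (Bd.const ((M' : ℝ) ^ (k + 1))⁻¹)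
    simpa only [div_eq_mul_inv] using h1
  have hCB : Bd fun x => Col (fun v => L (x + B * v)) M' := Bd_Col L B M'
  have hCBd : Bd fun x => Col (fun v => L (x + B * v)) M' / M' ^ 2 := by
    have h1 := hCB.mul (Bd.const ((M' : ℝ) ^ 2)⁻¹)
    simpa only [div_eq_mul_inv] using h1
  have h1 : c * (c₃ * ε ^ (2 ^ k)) ^ C ≤ μ.E (fun x => Col (fun v => L (x + B * v)) M') / M' ^ 2 := by
    rw [← E_div' μ.toMn hCB]
    calc c * (c₃ * ε ^ (2 ^ k)) ^ C
        ≤ c * μ.E (fun x => Ct (fun v => L (x + B * v)) M' k / M' ^ (k + 1)) ^ C :=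
          mul_le_mul_of_nonneg_left (pow_le_pow_left₀ (by positivity) hw C) hc.le
      _ ≤ c * μ.E (fun x => (Ct (fun v => L (x + B * v)) M' k / M' ^ (k + 1)) ^ C) :=
          mul_le_mul_of_nonneg_left (μ.toMn.E_pow hCtd (fun x => div_nonneg (Ct_nonneg _ _ _) (by positivity)) C) hc.le
      _ = μ.E (fun x => c * (Ct (fun v => L (x + B * v)) M' k / M' ^ (k + 1)) ^ C) :=
          (μ.smul c _ (hCtd.pow C)).symm
      _ ≤ μ.E (fun x => Col (fun v => L (x + B * v)) M' / M' ^ 2) :=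
          μ.toMn.E_mono ((hCtd.pow C).smul c) hCBd fun x => hfin G hG (fun v => L (x + B * v)) M' hM'1
  have h2 := Col_ap μ.toMn L (M := M') hB
  have h3 := Col_split μ.toMn L hM (show M ≤ B * M' by nlinarith)
  have h4 : c * (c₃ * ε ^ (2 ^ k)) ^ C / B ≤
      μ.E (fun x => Col (fun v => L (x + v)) (B * M')) / ((B * M' : ℕ) : ℝ) ^ 2 := by
    rw [div_le_div_iff₀ hBr (by positivity)]
    have h5 := (le_div_iff₀ (pow_pos hM'r 2)).1 h1
    calc c * (c₃ * ε ^ (2 ^ k)) ^ C * ((B * M' : ℕ) : ℝ) ^ 2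
        = B ^ 2 * (c * (c₃ * ε ^ (2 ^ k)) ^ C * M' ^ 2) := by push_cast; ring
      _ ≤ B ^ 2 * μ.E (fun x => Col (fun v => L (x + B * v)) M') := mul_le_mul_of_nonneg_left h5 (by positivity)
      _ = (B * μ.E (fun x => Col (fun v => L (x + B * v)) M')) * B := by ring
      _ ≤ μ.E (fun x => Col (fun v => L (x + v)) (B * M')) * B := mul_le_mul_of_nonneg_right h2 hBr.le
  have h6 := h4.trans h3
  have h7 : c * c₃ ^ C / (4 * B) * ε ^ (2 ^ k * C) = c * (c₃ * ε ^ (2 ^ k)) ^ C / B / 4 := by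
    rw [mul_pow, ← pow_mul]
    field_simp
  rw [h7]
  linarith

end ELG
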