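import Pool.Agent.ELG.Defs

/-!
# ELG-Mn: elementary properties of means
-/

set_option autoImplicit false

namespace ELG

open Finset

theorem Bd.const (c : ℝ) : Bd fun _ => c := by
  exact ⟨|c|, fun _ => le_rfl⟩

theorem Bd.add {f g : ℤ → ℝ} (hf : Bd f) (hg : Bd g) : Bd fun n => f n + g n := by
  obtain ⟨C, hC⟩ := hf
  obtain ⟨D, hD⟩ := hg
  exact ⟨C + D, fun n => (abs_add_le _ _).trans (add_le_add (hC n) (hD n))⟩

theorem Bd.sub {f g : ℤ → ℝ} (hf : Bd f) (hg : Bd g) : Bd fun n => f n - g n := by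
  obtain ⟨C, hC⟩ := hf
  obtain ⟨D, hD⟩ := hg
  refine ⟨C + D, fun n => ?_⟩
  have h := abs_add_le (f n) (-g n)
  rw [abs_neg, ← sub_eq_add_neg] at h
  exact h.trans (add_le_add (hC n) (hD n))

theorem Bd.mul {f g : ℤ → ℝ} (hf : Bd f) (hg : Bd g) : Bd fun n => f n * g n := by
  obtain ⟨C, hC⟩ := hf
  obtain ⟨D, hD⟩ := hg
  refine ⟨C * D, fun n => ?_⟩
  show |f n * g n| ≤ C * D
  rw [abs_mul]
  exact mul_le_mul (hC n) (hD n) (abs_nonneg _) ((abs_nonneg _).trans (hC n))

theorem Bd.smul {f : ℤ → ℝ} (c : ℝ) (hf : Bd f) : Bd fun n => c * f n := by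
  exact (Bd.const c).mul hf

theorem Bd.pow {f : ℤ → ℝ} (hf : Bd f) (k : ℕ) : Bd fun n => f n ^ k := by
  obtain ⟨C, hC⟩ := hf
  refine ⟨C ^ k, fun n => ?_⟩
  show |f n ^ k| ≤ C ^ k
  rw [abs_pow]
  exact pow_le_pow_left₀ (abs_nonneg _) (hC n) k

theorem Bd.shift {f : ℤ → ℝ} (hf : Bd f) (a : ℤ) : Bd fun n => f (n + a) := by
  obtain ⟨C, hC⟩ := hf
  exact ⟨C, fun n => hC _⟩

theorem Bd.sum {ι : Type} {s : Finset ι} {f : ι → ℤ → ℝ} (h : ∀ i ∈ s, Bd (f i)) : Bd fun n => ∑ i ∈ s, f i n := by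
  classical
  induction s using Finset.induction_on with
  | empty =>
    simp only [Finset.sum_empty]
    exact Bd.const 0
  | insert i s hi ih =>
    simp only [Finset.sum_insert hi]
    exact (h i (Finset.mem_insert_self i s)).add
      (ih fun j hj => h j (Finset.mem_insert_of_mem hj))

/-- Functions of a random variable with finitely many values are bounded. -/
theorem Bd.comp {α : Type} [Finite α] (X : ℤ → α) (φ : α → ℝ) : Bd fun n => φ (X n) := by
  obtain ⟨C, hC⟩ := (Set.finite_range fun a => |φ a|).bddAbove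
  exact ⟨C, fun n => hC ⟨X n, rfl⟩⟩

theorem Bd.ite (A : ℤ → Prop) [DecidablePred A] : Bd fun n => if A n then (1 : ℝ) else 0 := by
  refine ⟨1, fun n => ?_⟩
  show |if A n then (1 : ℝ) else 0| ≤ 1
  split_ifs
  · rw [abs_one]
  · rw [abs_zero]
    exact zero_le_one

namespace Mn

/-- the indicator function -/
private noncomputable def ind (A : ℤ → Prop) (n : ℤ) : ℝ :=
  open Classical in if A n then 1 else 0

private theorem ind_pos {A : ℤ → Prop} {n : ℤ} (h : A n) : ind A n = 1 := by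
  unfold ind
  rw [if_pos h]

private theorem ind_neg {A : ℤ → Prop} {n : ℤ} (h : ¬ A n) : ind A n = 0 := by
  unfold ind
  rw [if_neg h]

private theorem ind_nonneg (A : ℤ → Prop) (n : ℤ) : 0 ≤ ind A n := by
  by_cases h : A n
  · rw [ind_pos h]
    exact zero_le_one
  · rw [ind_neg h]

private theorem ind_le_one (A : ℤ → Prop) (n : ℤ) : ind A n ≤ 1 := by
  by_cases h : A n
  · rw [ind_pos h]
  · rw [ind_neg h]
    exact zero_le_one

private theorem ind_bd (A : ℤ → Prop) : Bd (ind A) := by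
  refine ⟨1, fun n => ?_⟩
  rw [abs_of_nonneg (ind_nonneg A n)]
  exact ind_le_one A n

variable (μ : Mn)

private theorem P_ind (A : ℤ → Prop) : μ.P A = μ.E (ind A) := rfl

theorem E_const (c : ℝ) : μ.E (fun _ => c) = c := by
  have h := μ.smul c (fun _ => 1) (Bd.const 1)
  simp only [mul_one, μ.one] at h
  exact h

theorem E_sub {f g : ℤ → ℝ} (hf : Bd f) (hg : Bd g) : μ.E (fun n => f n - g n) = μ.E f - μ.E g := by
  have h1 := μ.add f (fun n => (-1) * g n) hf (hg.smul (-1))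
  have h2 := μ.smul (-1) g hg
  have h3 : (fun n => f n - g n) = fun n => f n + (-1) * g n := by
    funext n
    ring
  rw [h3, h1, h2]
  ring

theorem E_mono {f g : ℤ → ℝ} (hf : Bd f) (hg : Bd g) (h : ∀ n, f n ≤ g n) : μ.E f ≤ μ.E g := by
  have h1 := μ.nonneg (fun n => g n - f n) (hg.sub hf) fun n => sub_nonneg.2 (h n)
  rw [μ.E_sub hg hf] at h1
  linarith

theorem E_sum {ι : Type} (s : Finset ι) (f : ι → ℤ → ℝ) (h : ∀ i ∈ s, Bd (f i)) :
    μ.E (fun n => ∑ i ∈ s, f i n) = ∑ i ∈ s, μ.E (f i) := by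
  classical
  induction s using Finset.induction_on with
  | empty =>
    simp only [Finset.sum_empty]
    exact μ.E_const 0
  | insert i s hi ih =>
    simp only [Finset.sum_insert hi]
    rw [μ.add (f i) (fun n => ∑ j ∈ s, f j n) (h i (Finset.mem_insert_self i s))
      (Bd.sum fun j hj => h j (Finset.mem_insert_of_mem hj)),
      ih fun j hj => h j (Finset.mem_insert_of_mem hj)]

theorem E_abs {f : ℤ → ℝ} (hf : Bd f) {c : ℝ} (h : ∀ n, |f n| ≤ c) : |μ.E f| ≤ c := by
  rw [abs_le]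
  constructor
  · have h1 := μ.E_mono (Bd.const (-c)) hf fun n => (abs_le.1 (h n)).1
    rwa [μ.E_const] at h1
  · have h1 := μ.E_mono hf (Bd.const c) fun n => (abs_le.1 (h n)).2
    rwa [μ.E_const] at h1

/-- Cauchy–Schwarz. -/
theorem E_cs {f g : ℤ → ℝ} (hf : Bd f) (hg : Bd g) :
    μ.E (fun n => f n * g n) ^ 2 ≤ μ.E (fun n => f n ^ 2) * μ.E (fun n => g n ^ 2) := by
  have hfg := hf.mul hg
  have hf2 := hf.pow 2
  have hg2 := hg.pow 2
  have key : ∀ t : ℝ, 0 ≤ μ.E (fun n => g n ^ 2) * (t * t) + (2 * μ.E (fun n => f n * g n)) * t +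
      μ.E (fun n => f n ^ 2) := by
    intro t
    have h1 := μ.nonneg (fun n => (f n + t * g n) ^ 2) ((hf.add (hg.smul t)).pow 2)
      fun n => sq_nonneg _
    have h2 : (fun n => (f n + t * g n) ^ 2) =
        fun n => f n ^ 2 + ((2 * t) * (f n * g n) + (t * t) * g n ^ 2) := by
      funext n
      ring
    rw [h2, μ.add (fun n => f n ^ 2) (fun n => (2 * t) * (f n * g n) + (t * t) * g n ^ 2) hf2
      ((hfg.smul (2 * t)).add (hg2.smul (t * t))),
      μ.add (fun n => (2 * t) * (f n * g n)) (fun n => (t * t) * g n ^ 2) (hfg.smul (2 * t))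
        (hg2.smul (t * t)), μ.smul (2 * t) _ hfg, μ.smul (t * t) _ hg2] at h1
    linarith
  have h3 := discrim_le_zero key
  unfold discrim at h3
  nlinarith

theorem E_sq {f : ℤ → ℝ} (hf : Bd f) : μ.E f ^ 2 ≤ μ.E (fun n => f n ^ 2) := by
  have h := μ.E_cs hf (Bd.const 1)
  simp only [mul_one, one_pow, μ.one] at h
  exact h

/-- Jensen (tangent line at `E f`). -/
theorem E_pow {f : ℤ → ℝ} (hf : Bd f) (h : ∀ n, 0 ≤ f n) (k : ℕ) : μ.E f ^ k ≤ μ.E (fun n => f n ^ k) := by
  have hm : 0 ≤ μ.E f := μ.nonneg f hf h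
  rcases Nat.eq_zero_or_pos k with hk | hk
  · rw [hk]
    simp only [pow_zero]
    rw [μ.one]
  rcases hm.eq_or_lt with h0 | h0
  · rw [← h0, zero_pow (by omega)]
    exact μ.nonneg _ (hf.pow k) fun n => pow_nonneg (h n) k
  have hmk : 0 < μ.E f ^ k := pow_pos h0 k
  have hpt : ∀ n, μ.E f ^ k * (1 - k) + μ.E f ^ k * k / μ.E f * f n ≤ f n ^ k := by
    intro n
    have h1 : -2 ≤ f n / μ.E f - 1 := by
      have h2 : 0 ≤ f n / μ.E f := div_nonneg (h n) hm
      linarith
    have h2 := one_add_mul_le_pow h1 k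
    have h3 : 1 + (f n / μ.E f - 1) = f n / μ.E f := by ring
    rw [h3, div_pow, le_div_iff₀ hmk] at h2
    refine le_trans (le_of_eq ?_) h2
    field_simp
    ring
  have h2 := μ.E_mono ((Bd.const (μ.E f ^ k * (1 - k))).add (hf.smul (μ.E f ^ k * k / μ.E f)))
    (hf.pow k) hpt
  rw [μ.add (fun _ => μ.E f ^ k * (1 - k)) (fun n => μ.E f ^ k * k / μ.E f * f n)
    (Bd.const _) (hf.smul _), μ.E_const, μ.smul _ f hf] at h2
  refine le_trans (le_of_eq ?_) h2
  field_simp
  ring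

theorem P_nonneg (A : ℤ → Prop) : 0 ≤ μ.P A := by
  rw [μ.P_ind]
  exact μ.nonneg _ (ind_bd A) (ind_nonneg A)

theorem P_le_one (A : ℤ → Prop) : μ.P A ≤ 1 := by
  rw [μ.P_ind, ← μ.one]
  exact μ.E_mono (ind_bd A) (Bd.const 1) (ind_le_one A)

theorem P_mono {A B : ℤ → Prop} (h : ∀ n, A n → B n) : μ.P A ≤ μ.P B := by
  rw [μ.P_ind, μ.P_ind]
  refine μ.E_mono (ind_bd A) (ind_bd B) fun n => ?_
  by_cases hA : A n
  · rw [ind_pos hA, ind_pos (h n hA)]
  · rw [ind_neg hA]
    exact ind_nonneg B n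

theorem P_shift (A : ℤ → Prop) (a : ℤ) : μ.P (fun n => A (n + a)) = μ.P A := by
  exact μ.shift (ind A) a (ind_bd A)

theorem P_or_le (A B : ℤ → Prop) : μ.P (fun n => A n ∨ B n) ≤ μ.P A + μ.P B := by
  rw [μ.P_ind, μ.P_ind, μ.P_ind, ← μ.add _ _ (ind_bd A) (ind_bd B)]
  refine μ.E_mono (ind_bd _) ((ind_bd A).add (ind_bd B)) fun n => ?_
  have hA0 := ind_nonneg A n
  have hB0 := ind_nonneg B n
  by_cases hA : A n
  · rw [ind_pos hA]
    have := ind_le_one (fun n => A n ∨ B n) n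
    linarith
  · by_cases hB : B n
    · rw [ind_pos hB]
      have := ind_le_one (fun n => A n ∨ B n) n
      linarith
    · rw [ind_neg (A := fun n => A n ∨ B n) (not_or.2 ⟨hA, hB⟩)]
      linarith

theorem P_true : μ.P (fun _ => True) = 1 := by
  rw [μ.P_ind]
  have h : ind (fun _ => True) = fun _ => 1 := by
    funext n
    exact ind_pos trivial
  rw [h, μ.one]

/-- Partition by the values of a random variable. -/
theorem P_part {α : Type} [Fintype α] (X : ℤ → α) (A : ℤ → Prop) : ∑ a, μ.P (fun n => X n = a ∧ A n) = μ.P A := by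
  classical
  have h1 : ∑ a, μ.P (fun n => X n = a ∧ A n) =
      μ.E (fun n => ∑ a, ind (fun n => X n = a ∧ A n) n) :=
    (μ.E_sum Finset.univ (fun a => ind (fun n => X n = a ∧ A n)) fun a _ => ind_bd _).symm
  rw [h1, μ.P_ind]
  congr 1
  funext n
  by_cases hA : A n
  · rw [ind_pos hA, Finset.sum_eq_single (X n)]
    · exact ind_pos ⟨rfl, hA⟩
    · intro b _ hb
      exact ind_neg fun h => hb h.1.symm
    · intro h
      exact absurd (Finset.mem_univ _) h
  · rw [ind_neg hA]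
    exact Finset.sum_eq_zero fun a _ => ind_neg fun h => hA h.2

theorem P_sum {α : Type} [Fintype α] (X : ℤ → α) : ∑ a, μ.P (fun n => X n = a) = 1 := by
  have h := μ.P_part X (fun _ => True)
  simp only [and_true] at h
  rw [h, μ.P_true]

theorem E_comp {α : Type} [Fintype α] (X : ℤ → α) (φ : α → ℝ) :
    μ.E (fun n => φ (X n)) = ∑ a, φ a * μ.P (fun n => X n = a) := by
  classical
  have h1 : ∑ a, φ a * μ.P (fun n => X n = a) =
      ∑ a, μ.E (fun n => φ a * ind (fun n => X n = a) n) :=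
    Finset.sum_congr rfl fun a _ => (μ.smul (φ a) _ (ind_bd _)).symm
  rw [h1, ← μ.E_sum Finset.univ (fun a n => φ a * ind (fun n => X n = a) n)
    fun a _ => (ind_bd _).smul (φ a)]
  congr 1
  funext n
  rw [Finset.sum_eq_single (X n)]
  · have h2 : ind (fun k => X k = X n) n = 1 := ind_pos rfl
    rw [h2, mul_one]
  · intro b _ hb
    have h2 : ind (fun k => X k = b) n = 0 := ind_neg fun h => hb h.symm
    rw [h2, mul_zero]
  · intro h
    exact absurd (Finset.mem_univ _) h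

/-- Points have probability `0`. -/
theorem P_point (a : ℤ) : μ.P (fun n => n = a) = 0 := by
  have h0 := μ.P_nonneg (fun n => n = a)
  by_contra hne
  have hpos : 0 < μ.P (fun n => n = a) := lt_of_le_of_ne h0 (Ne.symm hne)
  obtain ⟨m, hm⟩ := exists_nat_gt (1 / μ.P (fun n => n = a))
  rw [div_lt_iff₀ hpos] at hm
  have h1 : ∀ k ∈ range m, μ.P (fun n => n = a + (k : ℤ)) = μ.P (fun n => n = a) := by
    intro k _
    rw [← μ.P_shift (fun n => n = a + (k : ℤ)) k]
    congr 1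
    funext n
    exact propext ⟨fun h => by omega, fun h => by omega⟩
  have h2 : ∑ k ∈ range m, μ.P (fun n => n = a + (k : ℤ)) ≤ 1 := by
    have h3 : ∑ k ∈ range m, μ.P (fun n => n = a + (k : ℤ)) =
        μ.E (fun n => ∑ k ∈ range m, ind (fun n => n = a + (k : ℤ)) n) :=
      (μ.E_sum (range m) (fun k => ind (fun n => n = a + (k : ℤ))) fun k _ => ind_bd _).symm
    rw [h3, ← μ.one]
    refine μ.E_mono (Bd.sum fun k _ => ind_bd _) (Bd.const 1) fun n => ?_
    by_cases hk : ∃ k ∈ range m, n = a + (k : ℤ)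
    · obtain ⟨k, hk1, hk2⟩ := hk
      rw [Finset.sum_eq_single k]
      · exact ind_le_one _ _
      · intro j _ hj
        refine ind_neg fun h => hj ?_
        omega
      · intro h
        exact absurd hk1 h
    · refine le_trans (le_of_eq (Finset.sum_eq_zero fun k hk1 => ?_)) zero_le_one
      exact ind_neg fun h => hk ⟨k, hk1, h⟩
  rw [Finset.sum_congr rfl h1, Finset.sum_const, Finset.card_range, nsmul_eq_mul] at h2
  linarith

end Mn
end ELG
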