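import Mathlib

/-!
# ELG-Pin: Pinsker's inequality (finite sums)

The difference of the two sides of the elementary inequality is `2 x (x + 2)` times a function with derivative
`(x - 1)³ / (x² (x + 2)²)` which vanishes at `1`; Pinsker's inequality follows by Cauchy–Schwarz.
-/

set_option autoImplicit false

namespace ELG

open Finset Real

private noncomputable def hf (x : ℝ) : ℝ := log x - (x - 1) * (5 * x + 1) / (2 * x * (x + 2))

private theorem hf_deriv {x : ℝ} (hx : 0 < x) :
    HasDerivAt hf ((x - 1) ^ 3 / (x ^ 2 * (x + 2) ^ 2)) x := by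
  have h1 : HasDerivAt (fun y : ℝ => (y - 1) * (5 * y + 1)) (1 * (5 * x + 1) + (x - 1) * (5 * 1)) x := by
    have a1 : HasDerivAt (fun y : ℝ => y - 1) 1 x := (hasDerivAt_id x).sub_const 1
    have a2 : HasDerivAt (fun y : ℝ => 5 * y + 1) (5 * 1) x :=
      ((hasDerivAt_id x).const_mul 5).add_const 1
    exact a1.mul a2
  have h2 : HasDerivAt (fun y : ℝ => 2 * y * (y + 2)) ((2 * 1) * (x + 2) + (2 * x) * 1) x := by
    have a1 : HasDerivAt (fun y : ℝ => 2 * y) (2 * 1) x := (hasDerivAt_id x).const_mul 2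
    have a2 : HasDerivAt (fun y : ℝ => y + 2) 1 x := (hasDerivAt_id x).add_const 2
    exact a1.mul a2
  have hne : 2 * x * (x + 2) ≠ 0 := by positivity
  have h3 := (hasDerivAt_log hx.ne').sub (h1.div h2 hne)
  have he : x⁻¹ - ((1 * (5 * x + 1) + (x - 1) * (5 * 1)) * (2 * x * (x + 2)) -
      (x - 1) * (5 * x + 1) * ((2 * 1) * (x + 2) + (2 * x) * 1)) / (2 * x * (x + 2)) ^ 2 =
      (x - 1) ^ 3 / (x ^ 2 * (x + 2) ^ 2) := by
    have hx0 : x ≠ 0 := hx.ne'
    have hx2 : x + 2 ≠ 0 := by positivity
    field_simp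
    ring
  rw [← he]
  exact h3

private theorem hf_one : hf 1 = 0 := by simp [hf]

private theorem hf_nonneg {x : ℝ} (hx : 0 < x) : 0 ≤ hf x := by
  rcases le_total 1 x with h | h
  · have hm : MonotoneOn hf (Set.Ici 1) := by
      refine monotoneOn_of_deriv_nonneg (convex_Ici 1) ?_ ?_ ?_
      · intro y hy
        exact (hf_deriv (lt_of_lt_of_le one_pos hy)).continuousAt.continuousWithinAt
      · intro y hy
        rw [interior_Ici] at hy
        exact (hf_deriv (one_pos.trans hy)).differentiableAt.differentiableWithinAt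
      · intro y hy
        rw [interior_Ici] at hy
        rw [(hf_deriv (one_pos.trans hy)).deriv]
        have : (0 : ℝ) ≤ y - 1 := by
          have := Set.mem_Ioi.1 hy
          linarith
        positivity
    have := hm (Set.mem_Ici.2 le_rfl) (Set.mem_Ici.2 h) h
    rwa [hf_one] at this
  · have hm : AntitoneOn hf (Set.Ioc 0 1) := by
      refine antitoneOn_of_deriv_nonpos (convex_Ioc 0 1) ?_ ?_ ?_
      · intro y hy
        exact (hf_deriv hy.1).continuousAt.continuousWithinAt
      · intro y hy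
        rw [interior_Ioc] at hy
        exact (hf_deriv hy.1).differentiableAt.differentiableWithinAt
      · intro y hy
        rw [interior_Ioc] at hy
        rw [(hf_deriv hy.1).deriv]
        have h3 : (y - 1) ^ 3 ≤ 0 := by
          have h1 : y - 1 ≤ 0 := by linarith [hy.2]
          have h2 : 0 ≤ (y - 1) ^ 2 := sq_nonneg _
          have : (y - 1) ^ 3 = (y - 1) ^ 2 * (y - 1) := by ring
          rw [this]
          exact mul_nonpos_of_nonneg_of_nonpos h2 h1
        exact div_nonpos_of_nonpos_of_nonneg h3 (by positivity)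
    have := hm (Set.mem_Ioc.2 ⟨hx, h⟩) (Set.mem_Ioc.2 ⟨one_pos, le_rfl⟩) h
    rwa [hf_one] at this

theorem pin_aux {x : ℝ} (hx : 0 ≤ x) : 3 * (x - 1) ^ 2 ≤ (4 + 2 * x) * (x * log x - x + 1) := by
  rcases hx.eq_or_lt with h | h
  · rw [← h]
    norm_num
  · have h1 := hf_nonneg h
    have h2 : 0 ≤ 2 * x * (x + 2) * hf x := by positivity
    have hne : 2 * x * (x + 2) ≠ 0 := by positivity
    have h3 : 2 * x * (x + 2) * hf x = 2 * x * (x + 2) * log x - (x - 1) * (5 * x + 1) := by
      unfold hf
      rw [mul_sub, mul_div_cancel₀ _ hne]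
    rw [h3] at h2
    nlinarith [h2]

theorem pinsker {α : Type} [Fintype α] (p q : α → ℝ) (hp : ∀ a, 0 ≤ p a) (hq : ∀ a, 0 ≤ q a) (h1 : ∑ a, p a = 1)
    (h2 : ∑ a, q a = 1) (hac : ∀ a, q a = 0 → p a = 0) :
    (∑ a, |p a - q a|) ^ 2 ≤ 2 * ∑ a, p a * log (p a / q a) := by
  have key : ∀ a, 0 ≤ (4 * q a + 2 * p a) / 3 ∧ 0 ≤ p a * log (p a / q a) - p a + q a ∧
      |p a - q a| ^ 2 ≤ (4 * q a + 2 * p a) / 3 * (p a * log (p a / q a) - p a + q a) := by
    intro a
    have hpa := hp a
    have hqa := hq a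
    refine ⟨by positivity, ?_⟩
    rcases hqa.eq_or_lt with h | h
    · have hp0 : p a = 0 := hac a h.symm
      rw [hp0, ← h]
      norm_num
    · have hx : 0 ≤ p a / q a := by positivity
      have hA := pin_aux hx
      have e1 : p a * log (p a / q a) - p a + q a =
          q a * (p a / q a * log (p a / q a) - p a / q a + 1) := by
        field_simp
      have e2 : (4 * q a + 2 * p a) / 3 = q a * (4 + 2 * (p a / q a)) / 3 := by
        field_simp
      have e3 : |p a - q a| ^ 2 = q a ^ 2 * (p a / q a - 1) ^ 2 := by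
        rw [sq_abs]
        field_simp
      have hpos : 0 ≤ p a / q a * log (p a / q a) - p a / q a + 1 := by
        have h4 : 0 < 4 + 2 * (p a / q a) := by positivity
        have h5 : 0 ≤ (4 + 2 * (p a / q a)) * (p a / q a * log (p a / q a) - p a / q a + 1) :=
          le_trans (by positivity) hA
        exact nonneg_of_mul_nonneg_right h5 h4
      refine ⟨by rw [e1]; positivity, ?_⟩
      rw [e1, e2, e3]
      have hq2 : 0 ≤ q a ^ 2 := sq_nonneg _
      have := mul_le_mul_of_nonneg_left hA hq2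
      nlinarith [this]
  have hcs := Finset.sum_sq_le_sum_mul_sum_of_sq_le_mul (R := ℝ) univ
    (fun a _ => (key a).1) (fun a _ => (key a).2.1) (fun a _ => (key a).2.2)
  have s1 : ∑ a, (4 * q a + 2 * p a) / 3 = 2 := by
    rw [← Finset.sum_div, Finset.sum_add_distrib, ← Finset.mul_sum, ← Finset.mul_sum, h1, h2]
    norm_num
  have s2 : ∑ a, (p a * log (p a / q a) - p a + q a) = ∑ a, p a * log (p a / q a) := by
    rw [Finset.sum_add_distrib, Finset.sum_sub_distrib, h1, h2]
    ring
  rw [s1, s2] at hcs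
  exact hcs

end ELG
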