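import Pool.Agent.ELG.Ssa
import Pool.Agent.ELG.Pin

/-!
# ELG-PinC: conditional Pinsker inequality
-/

set_option autoImplicit false

namespace ELG

open Finset Real

variable {α β γ : Type} [Fintype α] [Fintype β] [Fintype γ]

private theorem pinC_prod (f : α → β → γ → ℝ) :
    ∑ x : α × β × γ, f x.1 x.2.1 x.2.2 = ∑ a, ∑ b, ∑ c, f a b c := by
  rw [Fintype.sum_prod_type]
  refine sum_congr rfl fun a _ => ?_
  rw [Fintype.sum_prod_type]

private theorem pinC_A (p : α → β → γ → ℝ) (g : α → γ → ℝ) :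
    ∑ a, ∑ b, ∑ c, p a b c * g a c = ∑ a, ∑ c, (∑ b, p a b c) * g a c := by
  refine sum_congr rfl fun a _ => ?_
  rw [sum_comm]
  refine sum_congr rfl fun c _ => ?_
  rw [sum_mul]

private theorem pinC_B (p : α → β → γ → ℝ) (g : β → γ → ℝ) :
    ∑ a, ∑ b, ∑ c, p a b c * g b c = ∑ b, ∑ c, (∑ a, p a b c) * g b c := by
  rw [sum_comm]
  refine sum_congr rfl fun b _ => ?_
  rw [sum_comm]
  refine sum_congr rfl fun c _ => ?_
  rw [sum_mul]

private theorem pinC_C (p : α → β → γ → ℝ) (g : γ → ℝ) :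
    ∑ a, ∑ b, ∑ c, p a b c * g c = ∑ c, (∑ a, ∑ b, p a b c) * g c := by
  rw [pinC_A p (fun _ c => g c), sum_comm]
  refine sum_congr rfl fun c _ => ?_
  rw [sum_mul]

theorem pinsker_cond (p : α → β → γ → ℝ) (h0 : ∀ a b c, 0 ≤ p a b c) (h1 : ∑ a, ∑ b, ∑ c, p a b c = 1)
    (F : α → β → γ → ℝ) {B : ℝ} (hF : ∀ a b c, |F a b c| ≤ B) :
    |∑ a, ∑ b, ∑ c, F a b c * (p a b c - (∑ b', p a b' c) * (∑ a', p a' b c) / (∑ a', ∑ b', p a' b' c))| ≤
      B * √(2 * (∑ a, ∑ c, negMulLog (∑ b, p a b c) + ∑ b, ∑ c, negMulLog (∑ a, p a b c) -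
        ∑ a, ∑ b, ∑ c, negMulLog (p a b c) - ∑ c, negMulLog (∑ a, ∑ b, p a b c))) := by
  classical
  have hN : ∀ x : ℝ, negMulLog x = -(x * log x) := by
    intro x
    rw [negMulLog]
    ring
  have hA0 : ∀ a c, 0 ≤ ∑ b, p a b c := fun a c => sum_nonneg fun b _ => h0 a b c
  have hB0 : ∀ b c, 0 ≤ ∑ a, p a b c := fun b c => sum_nonneg fun a _ => h0 a b c
  have hC0 : ∀ c, 0 ≤ ∑ a, ∑ b, p a b c :=
    fun c => sum_nonneg fun a _ => sum_nonneg fun b _ => h0 a b c
  have hAz : ∀ a b c, ∑ b', p a b' c = 0 → p a b c = 0 := by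
    intro a b c h
    exact (sum_eq_zero_iff_of_nonneg (fun b' _ => h0 a b' c)).mp h b (mem_univ b)
  have hBz : ∀ a b c, ∑ a', p a' b c = 0 → p a b c = 0 := by
    intro a b c h
    exact (sum_eq_zero_iff_of_nonneg (fun a' _ => h0 a' b c)).mp h a (mem_univ a)
  have hCz : ∀ a b c, ∑ a', ∑ b', p a' b' c = 0 → p a b c = 0 := by
    intro a b c h
    exact hAz a b c ((sum_eq_zero_iff_of_nonneg (fun a' _ => hA0 a' c)).mp h a (mem_univ a))
  set q : α → β → γ → ℝ := fun a b c =>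
    (∑ b', p a b' c) * (∑ a', p a' b c) / (∑ a', ∑ b', p a' b' c) with hq
  have hq0 : ∀ a b c, 0 ≤ q a b c :=
    fun a b c => div_nonneg (mul_nonneg (hA0 a c) (hB0 b c)) (hC0 c)
  have hqz : ∀ a b c, q a b c = 0 → p a b c = 0 := by
    intro a b c h
    rcases div_eq_zero_iff.mp h with h | h
    · rcases mul_eq_zero.mp h with h | h
      · exact hAz a b c h
      · exact hBz a b c h
    · exact hCz a b c h
  have hqC : ∀ c, ∑ a, ∑ b, q a b c = ∑ a, ∑ b, p a b c := by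
    intro c
    have e1 : ∑ a, ∑ b, q a b c =
        (∑ a, ∑ b', p a b' c) * (∑ b, ∑ a', p a' b c) / (∑ a', ∑ b', p a' b' c) := by
      rw [sum_mul, sum_div]
      refine sum_congr rfl fun a _ => ?_
      rw [mul_sum, sum_div]
    have e2 : ∑ b, ∑ a', p a' b c = ∑ a', ∑ b', p a' b' c := sum_comm
    rw [e1, e2, mul_self_div_self]
  have hq1 : ∑ a, ∑ b, ∑ c, q a b c = 1 := by
    have e1 := pinC_C q (fun _ => 1)
    have e2 := pinC_C p (fun _ => 1)
    simp only [mul_one] at e1 e2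
    rw [e1, ← h1, e2]
    exact sum_congr rfl fun c _ => hqC c
  have hpin := pinsker (fun x : α × β × γ => p x.1 x.2.1 x.2.2)
    (fun x : α × β × γ => q x.1 x.2.1 x.2.2) (fun x => h0 _ _ _) (fun x => hq0 _ _ _)
    (by rw [pinC_prod p, h1]) (by rw [pinC_prod q, hq1]) (fun x hx => hqz _ _ _ hx)
  rw [pinC_prod (fun a b c => |p a b c - q a b c|),
    pinC_prod (fun a b c => p a b c * log (p a b c / q a b c))] at hpin
  have hterm : ∀ a b c, p a b c * log (p a b c / q a b c) =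
      p a b c * log (p a b c) - p a b c * log (∑ b', p a b' c) -
        p a b c * log (∑ a', p a' b c) + p a b c * log (∑ a', ∑ b', p a' b' c) := by
    intro a b c
    rcases (h0 a b c).eq_or_lt with h | h
    · rw [← h]
      ring
    · have hA : (∑ b', p a b' c) ≠ 0 := fun hh => h.ne' (hAz a b c hh)
      have hB : (∑ a', p a' b c) ≠ 0 := fun hh => h.ne' (hBz a b c hh)
      have hC : (∑ a', ∑ b', p a' b' c) ≠ 0 := fun hh => h.ne' (hCz a b c hh)
      have hQ : q a b c ≠ 0 := fun hh => h.ne' (hqz a b c hh)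
      rw [log_div h.ne' hQ]
      have e1 : log (q a b c) = log (∑ b', p a b' c) + log (∑ a', p a' b c) -
          log (∑ a', ∑ b', p a' b' c) := by
        change log ((∑ b', p a b' c) * (∑ a', p a' b c) / (∑ a', ∑ b', p a' b' c)) = _
        rw [log_div (mul_ne_zero hA hB) hC, log_mul hA hB]
      rw [e1]
      ring
  have hD : ∑ a, ∑ b, ∑ c, p a b c * log (p a b c / q a b c) =
      ∑ a, ∑ c, negMulLog (∑ b, p a b c) + ∑ b, ∑ c, negMulLog (∑ a, p a b c) -
        ∑ a, ∑ b, ∑ c, negMulLog (p a b c) - ∑ c, negMulLog (∑ a, ∑ b, p a b c) := by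
    simp only [hterm, sum_add_distrib, sum_sub_distrib, hN, sum_neg_distrib]
    rw [pinC_A p (fun a c => log (∑ b', p a b' c)), pinC_B p (fun b c => log (∑ a', p a' b c)),
      pinC_C p (fun c => log (∑ a', ∑ b', p a' b' c))]
    ring
  rw [hD] at hpin
  have hroot : ∑ a, ∑ b, ∑ c, |p a b c - q a b c| ≤
      √(2 * (∑ a, ∑ c, negMulLog (∑ b, p a b c) + ∑ b, ∑ c, negMulLog (∑ a, p a b c) -
        ∑ a, ∑ b, ∑ c, negMulLog (p a b c) - ∑ c, negMulLog (∑ a, ∑ b, p a b c))) :=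
    Real.le_sqrt_of_sq_le hpin
  have hB : 0 ≤ B := by
    by_contra hcon
    have hz : ∑ a, ∑ b, ∑ c, p a b c = 0 := by
      refine sum_eq_zero fun a _ => sum_eq_zero fun b _ => sum_eq_zero fun c _ => ?_
      exact absurd ((abs_nonneg _).trans (hF a b c)) hcon
    rw [hz] at h1
    exact zero_ne_one h1
  calc |∑ a, ∑ b, ∑ c, F a b c * (p a b c - q a b c)|
      ≤ ∑ a, |∑ b, ∑ c, F a b c * (p a b c - q a b c)| := abs_sum_le_sum_abs _ _
    _ ≤ ∑ a, ∑ b, |∑ c, F a b c * (p a b c - q a b c)| :=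
        sum_le_sum fun a _ => abs_sum_le_sum_abs _ _
    _ ≤ ∑ a, ∑ b, ∑ c, |F a b c * (p a b c - q a b c)| :=
        sum_le_sum fun a _ => sum_le_sum fun b _ => abs_sum_le_sum_abs _ _
    _ ≤ ∑ a, ∑ b, ∑ c, B * |p a b c - q a b c| := by
        refine sum_le_sum fun a _ => sum_le_sum fun b _ => sum_le_sum fun c _ => ?_
        rw [abs_mul]
        exact mul_le_mul_of_nonneg_right (hF a b c) (abs_nonneg _)
    _ = B * ∑ a, ∑ b, ∑ c, |p a b c - q a b c| := by
        simp only [mul_sum]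
    _ ≤ _ := mul_le_mul_of_nonneg_left hroot hB

end ELG
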