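import Pool.Agent.ELG.Ent
import Pool.Agent.ELG.PinC

/-!
# ELG-PinM: replacing an independent variable

`Y` is uniform and independent of `Z`; `F x y` has mean zero in `y` for every `x`: then `E F(X, Y)` is bounded by the mutual information of `X` and `Y` given `Z`.

PLAN.  `p a b c = P (X = a ∧ Y = b ∧ Z = c)`, `∑_a p = P (Y = b ∧ Z = c) = P (Z = c) / card β` (`hu`), so `q = p_ac / card β` and `∑ F q = 0`.  `pinsker_cond`; the bracket is `I` (`Mn.I`, `Mn.Hc`; the order of the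
components of the pairs: `H_inj`).
-/

set_option autoImplicit false

namespace ELG
namespace Mn

variable (μ : Mn) {α β γ : Type} [Fintype α] [Fintype β] [Fintype γ]

private theorem pinM_congr {A B : ℤ → Prop} (h : ∀ n, A n ↔ B n) : μ.P A = μ.P B := by
  have h1 : A = B := funext fun n => propext (h n)
  rw [h1]

private theorem pinM_pair (X : ℤ → α) (Z : ℤ → γ) :
    μ.H (fun n => (X n, Z n)) = ∑ a, ∑ c, Real.negMulLog (μ.P fun n => X n = a ∧ Z n = c) := by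
  unfold Mn.H
  rw [Fintype.sum_prod_type]
  refine Finset.sum_congr rfl fun a _ => Finset.sum_congr rfl fun c _ => ?_
  have h1 : μ.P (fun n => (X n, Z n) = (a, c)) = μ.P (fun n => X n = a ∧ Z n = c) :=
    μ.pinM_congr fun n => Prod.mk_inj
  rw [h1]

private theorem pinM_trip (X : ℤ → α) (Y : ℤ → β) (Z : ℤ → γ) :
    μ.H (fun n => (X n, (Y n, Z n))) =
      ∑ a, ∑ b, ∑ c, Real.negMulLog (μ.P fun n => X n = a ∧ (Y n = b ∧ Z n = c)) := by
  unfold Mn.H
  rw [Fintype.sum_prod_type]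
  refine Finset.sum_congr rfl fun a _ => ?_
  rw [Fintype.sum_prod_type]
  refine Finset.sum_congr rfl fun b _ => Finset.sum_congr rfl fun c _ => ?_
  have h1 : μ.P (fun n => (X n, (Y n, Z n)) = (a, (b, c))) = μ.P (fun n => X n = a ∧ (Y n = b ∧ Z n = c)) :=
    μ.pinM_congr fun n => by rw [Prod.mk_inj, Prod.mk_inj]
  rw [h1]

theorem E_le_I (X : ℤ → α) (Y : ℤ → β) (Z : ℤ → γ)
    (hu : ∀ b c, μ.P (fun n => Y n = b ∧ Z n = c) = μ.P (fun n => Z n = c) / Fintype.card β)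
    (F : α → β → ℝ) {B : ℝ} (hF : ∀ a b, |F a b| ≤ B) (h0 : ∀ a, ∑ b, F a b = 0) :
    |μ.E (fun n => F (X n) (Y n))| ≤ B * √(2 * μ.I X Y Z) := by
  have e1 : ∀ b c, ∑ a, μ.P (fun n => X n = a ∧ (Y n = b ∧ Z n = c)) = μ.P (fun n => Y n = b ∧ Z n = c) :=
    fun b c => μ.P_part X _
  have e2 : ∀ a c, ∑ b, μ.P (fun n => X n = a ∧ (Y n = b ∧ Z n = c)) = μ.P (fun n => X n = a ∧ Z n = c) := by
    intro a c
    rw [← μ.P_part Y (fun n => X n = a ∧ Z n = c)]
    refine Finset.sum_congr rfl fun b _ => μ.pinM_congr fun n => ?_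
    constructor
    · rintro ⟨h1, h2, h3⟩
      exact ⟨h2, h1, h3⟩
    · rintro ⟨h2, h1, h3⟩
      exact ⟨h1, h2, h3⟩
  have e3 : ∀ c, ∑ a, ∑ b, μ.P (fun n => X n = a ∧ (Y n = b ∧ Z n = c)) = μ.P (fun n => Z n = c) := by
    intro c
    rw [Finset.sum_comm, Finset.sum_congr rfl fun b _ => e1 b c]
    exact μ.P_part Y _
  have s1 : ∑ c, Real.negMulLog (∑ a, ∑ b, μ.P (fun n => X n = a ∧ (Y n = b ∧ Z n = c))) = μ.H Z := by
    unfold Mn.H
    exact Finset.sum_congr rfl fun c _ => by rw [e3 c]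
  have s2 : ∑ a, ∑ c, Real.negMulLog (∑ b, μ.P (fun n => X n = a ∧ (Y n = b ∧ Z n = c))) = μ.H (fun n => (X n, Z n)) := by
    rw [pinM_pair]
    exact Finset.sum_congr rfl fun a _ => Finset.sum_congr rfl fun c _ => by rw [e2 a c]
  have s3 : ∑ b, ∑ c, Real.negMulLog (∑ a, μ.P (fun n => X n = a ∧ (Y n = b ∧ Z n = c))) = μ.H (fun n => (Y n, Z n)) := by
    rw [pinM_pair]
    exact Finset.sum_congr rfl fun b _ => Finset.sum_congr rfl fun c _ => by rw [e1 b c]
  have t1 : ∑ a, ∑ b, ∑ c, μ.P (fun n => X n = a ∧ (Y n = b ∧ Z n = c)) = 1 := by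
    have h2 : ∀ a, ∑ b, ∑ c, μ.P (fun n => X n = a ∧ (Y n = b ∧ Z n = c)) = μ.P (fun n => X n = a) := by
      intro a
      rw [Finset.sum_comm, Finset.sum_congr rfl fun c _ => e2 a c]
      rw [← μ.P_part Z (fun n => X n = a)]
      exact Finset.sum_congr rfl fun c _ => μ.pinM_congr fun n => and_comm
    rw [Finset.sum_congr rfl fun a _ => h2 a]
    exact μ.P_sum X
  have h := pinsker_cond (fun (a : α) (b : β) (c : γ) => μ.P fun n => X n = a ∧ (Y n = b ∧ Z n = c))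
    (fun a b c => μ.P_nonneg _) t1 (fun a b _ => F a b) (B := B) (fun a b _ => hF a b)
  rw [s1, s2, s3, ← μ.pinM_trip X Y Z] at h
  have hI : μ.H (fun n => (X n, Z n)) + μ.H (fun n => (Y n, Z n)) - μ.H (fun n => (X n, (Y n, Z n))) - μ.H Z =
      μ.I X Y Z := by
    unfold Mn.I Mn.Hc
    ring
  rw [hI] at h
  have hE : ∑ a, ∑ b, ∑ c, F a b * (μ.P (fun n => X n = a ∧ (Y n = b ∧ Z n = c)) -
      (∑ b', μ.P (fun n => X n = a ∧ (Y n = b' ∧ Z n = c))) * (∑ a', μ.P (fun n => X n = a' ∧ (Y n = b ∧ Z n = c))) /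
        (∑ a', ∑ b', μ.P (fun n => X n = a' ∧ (Y n = b' ∧ Z n = c)))) = μ.E (fun n => F (X n) (Y n)) := by
    have h1 : μ.E (fun n => F (X n) (Y n)) =
        ∑ a, ∑ b, ∑ c, F a b * μ.P (fun n => X n = a ∧ (Y n = b ∧ Z n = c)) := by
      have h2 := μ.E_comp (fun n => (X n, (Y n, Z n))) (fun x : α × β × γ => F x.1 x.2.1)
      rw [Fintype.sum_prod_type] at h2
      refine h2.trans (Finset.sum_congr rfl fun a _ => ?_)
      rw [Fintype.sum_prod_type]
      refine Finset.sum_congr rfl fun b _ => Finset.sum_congr rfl fun c _ => ?_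
      have h3 : μ.P (fun n => (X n, (Y n, Z n)) = (a, (b, c))) = μ.P (fun n => X n = a ∧ (Y n = b ∧ Z n = c)) :=
        μ.pinM_congr fun n => by rw [Prod.mk_inj, Prod.mk_inj]
      rw [h3]
    rw [h1]
    refine Finset.sum_congr rfl fun a _ => ?_
    have h4 : ∑ b, ∑ c, F a b * ((∑ b', μ.P (fun n => X n = a ∧ (Y n = b' ∧ Z n = c))) *
        (∑ a', μ.P (fun n => X n = a' ∧ (Y n = b ∧ Z n = c))) /
        (∑ a', ∑ b', μ.P (fun n => X n = a' ∧ (Y n = b' ∧ Z n = c)))) = 0 := by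
      rw [Finset.sum_comm]
      refine Finset.sum_eq_zero fun c _ => ?_
      have h5 : ∀ b, F a b * ((∑ b', μ.P (fun n => X n = a ∧ (Y n = b' ∧ Z n = c))) *
        (∑ a', μ.P (fun n => X n = a' ∧ (Y n = b ∧ Z n = c))) /
        (∑ a', ∑ b', μ.P (fun n => X n = a' ∧ (Y n = b' ∧ Z n = c)))) =
          F a b * (μ.P (fun n => X n = a ∧ Z n = c) * (μ.P (fun n => Z n = c) / Fintype.card β) /
            μ.P (fun n => Z n = c)) := by
        intro b
        rw [e2 a c, e1 b c, e3 c, hu b c]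
      rw [Finset.sum_congr rfl fun b _ => h5 b, ← Finset.sum_mul, h0 a, zero_mul]
    have h6 : ∀ b c, F a b * (μ.P (fun n => X n = a ∧ (Y n = b ∧ Z n = c)) -
      (∑ b', μ.P (fun n => X n = a ∧ (Y n = b' ∧ Z n = c))) * (∑ a', μ.P (fun n => X n = a' ∧ (Y n = b ∧ Z n = c))) /
        (∑ a', ∑ b', μ.P (fun n => X n = a' ∧ (Y n = b' ∧ Z n = c)))) =
        F a b * μ.P (fun n => X n = a ∧ (Y n = b ∧ Z n = c)) -
        F a b * ((∑ b', μ.P (fun n => X n = a ∧ (Y n = b' ∧ Z n = c))) *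
        (∑ a', μ.P (fun n => X n = a' ∧ (Y n = b ∧ Z n = c))) /
        (∑ a', ∑ b', μ.P (fun n => X n = a' ∧ (Y n = b' ∧ Z n = c)))) := fun b c => mul_sub _ _ _
    rw [Finset.sum_congr rfl fun b _ => Finset.sum_congr rfl fun c _ => h6 b c]
    rw [Finset.sum_congr rfl fun b _ => Finset.sum_sub_distrib _ _, Finset.sum_sub_distrib, h4, sub_zero]
  rw [hE] at h
  exact h

end Mn
end ELG
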