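import Pool.Agent.ELG.CubS

/-!
# ELG-PsM: moments of `∏_{q ∣ n} (1 + 1/q)`

`psi n ^ s ≤ ∏_{q ∣ n} (1 + 2 ^ s / q)`, expanded over the sets of prime divisors of `n`; the number of multiples of the product of the
primes of a set; `1 + x ≤ exp x`.
-/

set_option autoImplicit false

namespace ELG

open Finset

private theorem psm_one_le (S : Finset ℕ) (f : ℕ → ℝ) (hf : ∀ q, 0 ≤ f q) : 1 ≤ ∏ q ∈ S, (1 + f q) := by
  calc (1 : ℝ) = ∏ _q ∈ S, (1 : ℝ) := Finset.prod_const_one.symm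
    _ ≤ ∏ q ∈ S, (1 + f q) := Finset.prod_le_prod (fun _ _ => zero_le_one) fun q _ => by linarith [hf q]

theorem one_le_psi (n : ℕ) : 1 ≤ psi n := psm_one_le _ (fun q => 1 / (q : ℝ)) fun q => by positivity

theorem psi_mul_le (a b : ℕ) : psi (a * b) ≤ psi a * psi b := by
  by_cases ha : a = 0
  · have h1 : psi (a * b) = 1 := by
      unfold psi
      rw [ha, zero_mul, Nat.primeFactors_zero, Finset.prod_empty]
    rw [h1]
    exact one_le_mul_of_one_le_of_one_le (one_le_psi a) (one_le_psi b)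
  by_cases hb : b = 0
  · have h1 : psi (a * b) = 1 := by
      unfold psi
      rw [hb, mul_zero, Nat.primeFactors_zero, Finset.prod_empty]
    rw [h1]
    exact one_le_mul_of_one_le_of_one_le (one_le_psi a) (one_le_psi b)
  have h1 := Finset.prod_union_inter (s₁ := a.primeFactors) (s₂ := b.primeFactors)
    (f := fun q : ℕ => (1 + 1 / (q : ℝ)))
  have h2 := psm_one_le (a.primeFactors ∩ b.primeFactors) (fun q => 1 / (q : ℝ)) fun q => by positivity
  unfold psi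
  rw [Nat.primeFactors_mul ha hb, ← h1]
  refine le_mul_of_one_le_right ?_ h2
  exact zero_le_one.trans (psm_one_le _ (fun q => 1 / (q : ℝ)) fun q => by positivity)

private theorem psm_pow (s : ℕ) {x : ℝ} (h0 : 0 ≤ x) (h1 : x ≤ 1) : (1 + x) ^ s ≤ 1 + (2 ^ s - 1) * x := by
  induction s with
  | zero => simp
  | succ s ih =>
    have h2 : (1 : ℝ) ≤ 2 ^ s := one_le_pow₀ (by norm_num)
    have h3 : 0 ≤ (2 ^ s - 1) * x * (1 - x) := mul_nonneg (mul_nonneg (by linarith) h0) (by linarith)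
    calc (1 + x) ^ (s + 1) = (1 + x) ^ s * (1 + x) := pow_succ _ _
      _ ≤ (1 + (2 ^ s - 1) * x) * (1 + x) := mul_le_mul_of_nonneg_right ih (by linarith)
      _ ≤ 1 + (2 ^ (s + 1) - 1) * x := by
        rw [pow_succ]
        nlinarith

private theorem psm_psi (s n : ℕ) : psi n ^ s ≤ ∏ q ∈ n.primeFactors, (1 + (2 : ℝ) ^ s / q) := by
  unfold psi
  rw [← Finset.prod_pow]
  refine Finset.prod_le_prod (fun q _ => by positivity) fun q hq => ?_
  have hq1 : (1 : ℝ) ≤ q := by exact_mod_cast (Nat.prime_of_mem_primeFactors hq).one_le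
  have hq0 : (0 : ℝ) < q := by linarith
  have h1 := psm_pow s (x := 1 / (q : ℝ)) (by positivity) (by rw [div_le_one hq0]; exact hq1)
  refine h1.trans ?_
  have h2 : (2 ^ s - 1) * (1 / (q : ℝ)) ≤ 2 ^ s * (1 / (q : ℝ)) :=
    mul_le_mul_of_nonneg_right (by linarith) (by positivity)
  rw [mul_one_div] at h2
  rw [mul_one_div] at h2 ⊢
  linarith

private theorem psm_count (X : ℕ) (T : Finset ℕ) (hT : ∀ q ∈ T, q.Prime) :
    (((Icc 1 X).filter fun n => T ⊆ n.primeFactors).card : ℝ) ≤ X * ∏ q ∈ T, (1 / (q : ℝ)) := by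
  have h1 : (Icc 1 X).filter (fun n => T ⊆ n.primeFactors) ⊆ (Ioc 0 X).filter (fun n => (∏ q ∈ T, q) ∣ n) := by
    intro n hn
    rw [Finset.mem_filter, Finset.mem_Icc] at hn
    rw [Finset.mem_filter, Finset.mem_Ioc]
    refine ⟨⟨by omega, hn.1.2⟩, ?_⟩
    exact Finset.prod_primes_dvd n (fun q hq => (hT q hq).prime) fun q hq =>
      Nat.dvd_of_mem_primeFactors (hn.2 hq)
  have h2 := Finset.card_le_card h1
  rw [Nat.Ioc_filter_dvd_card_eq_div] at h2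
  have h3 : (((Icc 1 X).filter fun n => T ⊆ n.primeFactors).card : ℝ) ≤ ((X / ∏ q ∈ T, q : ℕ) : ℝ) := by
    exact_mod_cast h2
  refine h3.trans (Nat.cast_div_le.trans (le_of_eq ?_))
  rw [Finset.prod_div_distrib, Finset.prod_const_one, Nat.cast_prod, mul_one_div]

theorem psi_moment (s : ℕ) : ∃ C : ℝ, 0 < C ∧ ∀ X : ℕ, ∑ n ∈ Icc 1 X, psi n ^ s ≤ C * X := by
  classical
  refine ⟨Real.exp (∑' n : ℕ, 2 ^ s * (1 / (n : ℝ) ^ 2)), Real.exp_pos _, fun X => ?_⟩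
  obtain ⟨P, hP⟩ : ∃ P : Finset ℕ, P = (Icc 1 X).filter Nat.Prime := ⟨_, rfl⟩
  have h1 : ∀ n ∈ Icc 1 X, psi n ^ s ≤ ∑ T ∈ P.powerset, if T ⊆ n.primeFactors then
      ∏ q ∈ T, ((2 : ℝ) ^ s / q) else 0 := by
    intro n hn
    refine (psm_psi s n).trans (le_of_eq ?_)
    rw [Finset.prod_one_add, ← Finset.sum_filter]
    refine Finset.sum_congr ?_ fun _ _ => rfl
    ext T
    rw [Finset.mem_filter, Finset.mem_powerset, Finset.mem_powerset]
    refine ⟨fun h => ⟨fun q hq => ?_, h⟩, fun h => h.2⟩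
    have h2 := h hq
    have h3 := Nat.prime_of_mem_primeFactors h2
    rw [Finset.mem_Icc] at hn
    rw [hP, Finset.mem_filter, Finset.mem_Icc]
    exact ⟨⟨h3.one_le, (Nat.le_of_mem_primeFactors h2).trans hn.2⟩, h3⟩
  have h2 : ∑ n ∈ Icc 1 X, psi n ^ s ≤ ∑ T ∈ P.powerset,
      (((Icc 1 X).filter fun n => T ⊆ n.primeFactors).card : ℝ) * ∏ q ∈ T, ((2 : ℝ) ^ s / q) := by
    refine (Finset.sum_le_sum h1).trans (le_of_eq ?_)
    rw [Finset.sum_comm]
    refine Finset.sum_congr rfl fun T _ => ?_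
    rw [← Finset.sum_filter, Finset.sum_const, nsmul_eq_mul]
  have h3 : ∑ T ∈ P.powerset,
      (((Icc 1 X).filter fun n => T ⊆ n.primeFactors).card : ℝ) * ∏ q ∈ T, ((2 : ℝ) ^ s / q) ≤
      ∑ T ∈ P.powerset, (X : ℝ) * ∏ q ∈ T, (2 ^ s * (1 / (q : ℝ) ^ 2)) := by
    refine Finset.sum_le_sum fun T hT => ?_
    have hT' : ∀ q ∈ T, q.Prime := by
      intro q hq
      have := (Finset.mem_powerset.1 hT) hq
      rw [hP, Finset.mem_filter] at this
      exact this.2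
    have h4 := mul_le_mul_of_nonneg_right (psm_count X T hT') (Finset.prod_nonneg fun q _ =>
      (by positivity : (0 : ℝ) ≤ 2 ^ s / q) : 0 ≤ ∏ q ∈ T, ((2 : ℝ) ^ s / q))
    refine h4.trans (le_of_eq ?_)
    rw [mul_assoc, ← Finset.prod_mul_distrib]
    congr 1
    refine Finset.prod_congr rfl fun q hq => ?_
    have hq0 : (q : ℝ) ≠ 0 := by exact_mod_cast (hT' q hq).ne_zero
    field_simp
  have h4 : ∑ T ∈ P.powerset, (X : ℝ) * ∏ q ∈ T, (2 ^ s * (1 / (q : ℝ) ^ 2)) =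
      X * ∏ q ∈ P, (1 + 2 ^ s * (1 / (q : ℝ) ^ 2)) := by
    rw [← Finset.mul_sum, Finset.prod_one_add]
  have h5 : ∏ q ∈ P, (1 + 2 ^ s * (1 / (q : ℝ) ^ 2)) ≤ Real.exp (∑' n : ℕ, 2 ^ s * (1 / (n : ℝ) ^ 2)) := by
    have h6 : ∏ q ∈ P, (1 + 2 ^ s * (1 / (q : ℝ) ^ 2)) ≤ ∏ q ∈ P, Real.exp (2 ^ s * (1 / (q : ℝ) ^ 2)) := by
      refine Finset.prod_le_prod (fun q _ => by positivity) fun q _ => ?_
      rw [add_comm]
      exact Real.add_one_le_exp _
    refine h6.trans ?_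
    rw [← Real.exp_sum]
    refine Real.exp_le_exp.2 ?_
    exact ((Real.summable_one_div_nat_pow.2 (by norm_num)).mul_left _).sum_le_tsum P
      fun q _ => by positivity
  calc ∑ n ∈ Icc 1 X, psi n ^ s ≤ X * ∏ q ∈ P, (1 + 2 ^ s * (1 / (q : ℝ) ^ 2)) := (h2.trans h3).trans (le_of_eq h4)
    _ ≤ X * Real.exp (∑' n : ℕ, 2 ^ s * (1 / (n : ℝ) ^ 2)) := mul_le_mul_of_nonneg_left h5 (Nat.cast_nonneg X)
    _ = Real.exp (∑' n : ℕ, 2 ^ s * (1 / (n : ℝ) ^ 2)) * X := mul_comm _ _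

end ELG
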