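import Pool.Agent.ELG.Good
import Pool.Agent.ELG.Cub

/-!
# ELG-StA: many cube relations at infinitely many scales

PLAN.  `good_primes` (level `l` large): `Q' = Q` as integers (`p ↦ (p : ℤ)`), `N = 4^(l+1)`: `N ≤ 4 p`, `p < N`, `|Q'| ≥ c₁ 4^l/(l+1) ≥ c₂ N/log N` (`log N = (l+1) log 4`).  `cs_main` with `c p = c + k • L p`, `a = ε/2`; `Qc_le`.  So
`(ε c₂ N/(2 log N))^(2^k) N ≤ (2N)^(2^k - 2k) C N^(k+1)/(log N)^(2^k) * SL ..`, i.e. `SL .. ≥ c ε^(2^k) N^k` (`2^k ≥ 2k` for `k ≥ 1`).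
-/

set_option autoImplicit false

namespace ELG

open Finset

private theorem sta_SL_nonneg (N : ℕ) : ∀ (r : ℕ) (F : List ℤ → ℝ), (∀ δ, 0 ≤ F δ) → 0 ≤ SL N r F
  | 0, _, h => h []
  | r + 1, _, h => Finset.sum_nonneg fun d _ => sta_SL_nonneg N r _ fun δ => h (d :: δ)

private theorem sta_two_mul_le (k : ℕ) (hk : 1 ≤ k) : 2 * k ≤ 2 ^ k := by
  induction k, hk using Nat.le_induction with
  | base => norm_num
  | succ n hn ih =>
    rw [pow_succ]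
    have : 2 ≤ 2 ^ n := by
      calc 2 = 2 ^ 1 := by norm_num
        _ ≤ 2 ^ n := Nat.pow_le_pow_right (by norm_num) hn
    omega

/-- The algebra: from `(a q)^K N ≤ (2N)^(K - 2k) X S`, `X ≤ C N^(k+1)/l^K`, `q ≥ c₃ N/l`. -/
private theorem sta_alg {k K : ℕ} (hK : 2 * k ≤ K) {N l a c₃ C X S q : ℝ} (hN : 0 < N) (hl : 0 < l) (ha : 0 ≤ a)
    (hc : 0 < c₃) (hC : 0 < C) (hS : 0 ≤ S) (hq : c₃ * N / l ≤ q) (hX : X ≤ C * (N ^ (k + 1) / l ^ K))
    (h : (a * q) ^ K * N ≤ (2 * N) ^ (K - 2 * k) * X * S) :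
    (c₃ * a) ^ K / (2 ^ (K - 2 * k) * C) * N ^ k ≤ S := by
  have h1 : (a * (c₃ * N / l)) ^ K * N ≤ (2 * N) ^ (K - 2 * k) * (C * (N ^ (k + 1) / l ^ K)) * S := by
    refine le_trans ?_ (h.trans ?_)
    · refine mul_le_mul_of_nonneg_right (pow_le_pow_left₀ (by positivity) ?_ K) hN.le
      exact mul_le_mul_of_nonneg_left hq ha
    · refine mul_le_mul_of_nonneg_right (mul_le_mul_of_nonneg_left hX (by positivity)) hS
  have e1 : (a * (c₃ * N / l)) ^ K * N = (c₃ * a) ^ K * N ^ k * (N ^ (K - 2 * k) * N ^ (k + 1) / l ^ K) := by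
    obtain ⟨m, rfl⟩ := Nat.exists_eq_add_of_le hK
    have e : 2 * k + m - 2 * k = m := by omega
    rw [e, show a * (c₃ * N / l) = c₃ * a * (N / l) by ring, mul_pow, div_pow]
    have : N ^ (2 * k + m) * N = N ^ k * (N ^ m * N ^ (k + 1)) := by ring
    calc (c₃ * a) ^ (2 * k + m) * (N ^ (2 * k + m) / l ^ (2 * k + m)) * N
        = (c₃ * a) ^ (2 * k + m) * (N ^ (2 * k + m) * N) / l ^ (2 * k + m) := by ring
      _ = _ := by rw [this]; ring
  have e2 : (2 * N) ^ (K - 2 * k) * (C * (N ^ (k + 1) / l ^ K)) * S =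
      (2 ^ (K - 2 * k) * C * S) * (N ^ (K - 2 * k) * N ^ (k + 1) / l ^ K) := by
    rw [mul_pow]; ring
  rw [e1, e2] at h1
  have hpos : 0 < N ^ (K - 2 * k) * N ^ (k + 1) / l ^ K := by positivity
  have h2 : (c₃ * a) ^ K * N ^ k ≤ 2 ^ (K - 2 * k) * C * S := le_of_mul_le_mul_right h1 hpos
  have hD : 0 < (2 : ℝ) ^ (K - 2 * k) * C := by positivity
  rw [div_mul_eq_mul_div, div_le_iff₀ hD]
  linarith

theorem many_cubes (k : ℕ) (hk : 1 ≤ k) : ∃ c₂ : ℝ, 0 < c₂ ∧ ∀ (μ : LMn) (G : Type) [AddCommGroup G] [Fintype G], E2 G → ∀ L : ℤ → G, CA L →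
    ∀ (h : ℕ → ℕ) (g : G) (ε : ℝ), 0 < ε → ε ≤ μ.P (fun n => ∑ i ∈ range k, L (n + h i) = g) → ∀ N₀ : ℕ, ∃ N ≥ N₀,
      c₂ * ε ^ (2 ^ k) * N ^ k ≤ SL N (k - 1) fun δ =>
        ∑ d ∈ Ioo (-(N : ℤ)) N, μ.P (fun x => Dd L (d :: Bm (fun i => (h i : ℤ)) (k - 1) δ) x = 0) := by
  obtain ⟨c₁, hc₁, hg⟩ := good_primes
  obtain ⟨C, hC, N₁, hQ⟩ := Qc_le k
  have hlog4 : 0 < Real.log 4 := Real.log_pos (by norm_num)
  set c₃ : ℝ := c₁ * Real.log 4 / 4 with hc₃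
  have hc₃0 : 0 < c₃ := by positivity
  refine ⟨(c₃ / 2) ^ (2 ^ k) / (2 ^ (2 ^ k - 2 * k) * C), by positivity, ?_⟩
  intro μ G _ _ hG L hL h g ε hε hP N₀
  obtain ⟨l, hl, Q, hQP, hQc, hQp⟩ := hg μ G L hL k h g ε hε hP (N₀ + N₁)
  have hNlt : N₀ + N₁ < 4 ^ (l + 1) := by
    have : l + 1 < 4 ^ (l + 1) := Nat.lt_pow_self (by norm_num)
    omega
  refine ⟨4 ^ (l + 1), by omega, ?_⟩
  set N : ℕ := 4 ^ (l + 1) with hN
  have hNpos : 0 < N := by positivity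
  have hmem : ∀ p ∈ Q.map Nat.castEmbedding, ∃ q ∈ Q, ((q : ℕ) : ℤ) = p := by
    intro p hp
    obtain ⟨q, hq, rfl⟩ := Finset.mem_map.1 hp
    exact ⟨q, hq, rfl⟩
  have hPb : ∀ q ∈ Q, 4 ^ l ≤ q ∧ q < N ∧ q.Prime := by
    intro q hq
    have := hQP hq
    rw [Pb, Finset.mem_filter, Finset.mem_Ico] at this
    exact ⟨this.1.1, this.1.2, this.2⟩
  have hcs := cs_main μ.toMn hG L (fun p => g + k • L p) (fun i => (h i : ℤ)) hk (Q := Q.map Nat.castEmbedding) (N := N)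
    (by omega) (by
      intro p hp
      obtain ⟨q, hq, rfl⟩ := hmem p hp
      have := hPb q hq
      exact ⟨by positivity, by exact_mod_cast this.2.1⟩) (a := ε / 2) (by positivity) (by
      intro p hp
      obtain ⟨q, hq, rfl⟩ := hmem p hp
      exact hQp q hq)
  have hQcle := hQ N (by omega) (Q.map Nat.castEmbedding) (by
    intro p hp
    obtain ⟨q, hq, rfl⟩ := hmem p hp
    obtain ⟨h1, h2, h3⟩ := hPb q hq
    refine ⟨?_, by exact_mod_cast h2, by simpa using h3⟩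
    have : N ≤ 4 * q := by rw [hN, pow_succ]; omega
    exact_mod_cast this)
  rw [Finset.card_map] at hcs
  have hlogN : Real.log (N : ℝ) = (l + 1) * Real.log 4 := by
    rw [hN]; push_cast; rw [Real.log_pow]; push_cast; ring
  have hlogpos : 0 < Real.log (N : ℝ) := by rw [hlogN]; positivity
  have hcard : c₃ * N / Real.log N ≤ (Q.card : ℝ) := by
    refine le_trans (le_of_eq ?_) hQc
    rw [hlogN, hc₃, hN]
    push_cast
    field_simp
    ring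
  have hS : 0 ≤ SL N (k - 1) fun δ =>
        ∑ d ∈ Ioo (-(N : ℤ)) N, μ.P (fun x => Dd L (d :: Bm (fun i => (h i : ℤ)) (k - 1) δ) x = 0) := by
    refine sta_SL_nonneg N _ _ fun δ => Finset.sum_nonneg fun d _ => ?_
    exact μ.toMn.P_nonneg _
  have := sta_alg (sta_two_mul_le k hk) (N := (N : ℝ)) (l := Real.log N) (a := ε / 2) (c₃ := c₃) (C := C)
    (by exact_mod_cast hNpos) hlogpos (by positivity) hc₃0 hC hS hcard hQcle hcs
  refine le_trans (le_of_eq ?_) this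
  rw [show c₃ * (ε / 2) = c₃ / 2 * ε by ring, mul_pow]
  ring

end ELG
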