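import Pool.Agent.ELG.SubR

/-! # ELG-Sub: all increments multiples of the same number (helper2) -/

set_option autoImplicit false

namespace ELG

open Finset

private theorem e2_iff {G : Type} [AddCommGroup G] (hG : E2 G) (a c : G) : a + c = 0 ↔ a = c := by
  constructor
  · intro h
    have h2 : a + c = c + c := by rw [h, hG c]
    exact add_right_cancel h2
  · rintro rfl
    exact hG a

private theorem P_congr (μ : Mn) {A B : ℤ → Prop} (h : ∀ n, A n ↔ B n) : μ.P A = μ.P B :=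
  congrArg μ.P (funext fun n => propext (h n))

private theorem sub_one' (μ : Mn) {G : Type} [Finite G] (φ : ℤ → G) {B N : ℕ} (hB : 0 < B) (hN : 1 ≤ N)
    {b : ℤ} (hb : b ∣ (B : ℤ)) :
    ∑ d ∈ Ioo (-(N : ℤ)) N, μ.P (fun x => φ x = φ (x + d * b)) ≤
      2 * B * ∑ d ∈ Ioo (-((2 * N : ℕ) : ℤ)) ((2 * N : ℕ) : ℤ), μ.P (fun x => φ x = φ (x + (B : ℤ) * d)) := by
  obtain ⟨c, hc⟩ := hb
  have hc0 : c ≠ 0 := by
    rintro rfl
    rw [mul_zero] at hc
    have : B = 0 := by exact_mod_cast hc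
    omega
  have hq : 1 ≤ c.natAbs := Int.natAbs_pos.2 hc0
  have hqB : c.natAbs ≤ B := by
    have h1 : c ∣ (B : ℤ) := ⟨b, by rw [hc, mul_comm]⟩
    have h2 := Int.natAbs_dvd_natAbs.2 h1
    rw [Int.natAbs_natCast] at h2
    exact Nat.le_of_dvd hB h2
  have h := sub_res μ φ b hN hq
  have hs : ∑ d ∈ Ioo (-(2 * (N : ℤ))) (2 * (N : ℤ)), μ.P (fun x => φ x = φ (x + d * ((c.natAbs : ℤ) * b))) =
      ∑ d ∈ Ioo (-((2 * N : ℕ) : ℤ)) ((2 * N : ℕ) : ℤ), μ.P (fun x => φ x = φ (x + (B : ℤ) * d)) := by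
    have hN2 : ((2 * N : ℕ) : ℤ) = 2 * (N : ℤ) := by push_cast; ring
    rw [hN2]
    rcases lt_or_gt_of_ne hc0 with hneg | hpos
    · refine Finset.sum_equiv (Equiv.neg ℤ) ?_ ?_
      · intro d
        simp only [Finset.mem_Ioo, Equiv.neg_apply]
        constructor
        · rintro ⟨h1, h2⟩
          exact ⟨by linarith, by linarith⟩
        · rintro ⟨h1, h2⟩
          exact ⟨by linarith, by linarith⟩
      · intro d _
        have e : (c.natAbs : ℤ) = -c := Int.ofNat_natAbs_of_nonpos hneg.le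
        have e2 : d * ((c.natAbs : ℤ) * b) = (B : ℤ) * (Equiv.neg ℤ) d := by
          rw [e, hc, Equiv.neg_apply]
          ring
        rw [e2]
    · refine Finset.sum_congr rfl fun d _ => ?_
      have e : (c.natAbs : ℤ) = c := Int.natAbs_of_nonneg hpos.le
      have e2 : d * ((c.natAbs : ℤ) * b) = (B : ℤ) * d := by
        rw [e, hc]
        ring
      rw [e2]
  rw [hs] at h
  refine h.trans ?_
  have h0 : 0 ≤ ∑ d ∈ Ioo (-((2 * N : ℕ) : ℤ)) ((2 * N : ℕ) : ℤ), μ.P (fun x => φ x = φ (x + (B : ℤ) * d)) :=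
    Finset.sum_nonneg fun d _ => μ.P_nonneg _
  have h1 : (2 * (c.natAbs : ℝ)) ≤ 2 * B := by
    have : (c.natAbs : ℝ) ≤ B := by exact_mod_cast hqB
    linarith
  exact mul_le_mul_of_nonneg_right h1 h0

theorem sub_aux (μ : Mn) {G : Type} [AddCommGroup G] [Finite G] (hG : E2 G) (L : ℤ → G) {B N : ℕ} (hB : 0 < B) (hN : 1 ≤ N) (bs : List ℤ)
    (hb : ∀ b ∈ bs, b ≠ 0 ∧ b ∣ (B : ℤ)) (E : List ℤ) :
    SL N bs.length (fun δ => μ.P (fun x => Dd L (List.zipWith (· * ·) δ bs ++ E) x = 0)) ≤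
      (2 * B) ^ bs.length * SL (2 * N) bs.length (fun δ => μ.P (fun x => Dd L (δ.map ((B : ℤ) * ·) ++ E) x = 0)) := by
  induction bs generalizing E with
  | nil => simp [SL]
  | cons b bs ih =>
    have ih' := fun E => ih (fun b' hb' => hb b' (List.mem_cons_of_mem _ hb')) E
    have hb1 := hb b List.mem_cons_self
    simp only [List.length_cons, SL]
    have s1 : ∑ d ∈ Ioo (-(N : ℤ)) (N : ℤ),
          SL N bs.length (fun δ => μ.P (fun x => Dd L (List.zipWith (· * ·) (d :: δ) (b :: bs) ++ E) x = 0)) ≤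
        ∑ d ∈ Ioo (-(N : ℤ)) (N : ℤ), (2 * B) ^ bs.length *
          SL (2 * N) bs.length (fun δ => μ.P (fun x => Dd L (δ.map ((B : ℤ) * ·) ++ (d * b :: E)) x = 0)) := by
      refine Finset.sum_le_sum fun d _ => ?_
      refine le_trans (le_of_eq ?_) (ih' (d * b :: E))
      refine SL_congr fun δ _ _ => P_congr μ fun x => ?_
      have e : Dd L (List.zipWith (· * ·) (d :: δ) (b :: bs) ++ E) x =
          Dd L (List.zipWith (· * ·) δ bs ++ (d * b :: E)) x := by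
        rw [List.zipWith_cons_cons, List.cons_append]
        exact Dd_perm L List.perm_middle.symm x
      rw [e]
    have s2 : ∑ d ∈ Ioo (-(N : ℤ)) (N : ℤ), (2 * (B : ℝ)) ^ bs.length *
          SL (2 * N) bs.length (fun δ => μ.P (fun x => Dd L (δ.map ((B : ℤ) * ·) ++ (d * b :: E)) x = 0)) =
        (2 * B) ^ bs.length * SL (2 * N) bs.length (fun δ => ∑ d ∈ Ioo (-(N : ℤ)) (N : ℤ),
          μ.P (fun x => Dd L (δ.map ((B : ℤ) * ·) ++ (d * b :: E)) x = 0)) := by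
      rw [← Finset.mul_sum]
      congr 1
      exact (SL_sum (Ioo (-(N : ℤ)) (N : ℤ)) (2 * N) bs.length
        (fun d δ => μ.P (fun x => Dd L (δ.map ((B : ℤ) * ·) ++ (d * b :: E)) x = 0))).symm
    have s3 : SL (2 * N) bs.length (fun δ => ∑ d ∈ Ioo (-(N : ℤ)) (N : ℤ),
          μ.P (fun x => Dd L (δ.map ((B : ℤ) * ·) ++ (d * b :: E)) x = 0)) ≤
        SL (2 * N) bs.length (fun δ => (2 * (B : ℝ)) * ∑ d ∈ Ioo (-((2 * N : ℕ) : ℤ)) ((2 * N : ℕ) : ℤ),
          μ.P (fun x => Dd L ((d :: δ).map ((B : ℤ) * ·) ++ E) x = 0)) := by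
      refine SL_mono fun δ _ _ => ?_
      have h := sub_one' μ (fun x => Dd L (δ.map ((B : ℤ) * ·) ++ E) x) hB hN hb1.2
      refine le_trans (le_of_eq ?_) (h.trans (le_of_eq ?_))
      · refine Finset.sum_congr rfl fun d _ => P_congr μ fun x => ?_
        have e : Dd L (δ.map ((B : ℤ) * ·) ++ (d * b :: E)) x =
            Dd L (δ.map ((B : ℤ) * ·) ++ E) x + Dd L (δ.map ((B : ℤ) * ·) ++ E) (x + d * b) := by
          rw [Dd_perm L List.perm_middle x]
          rfl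
        rw [e, e2_iff hG]
      · congr 1
        refine Finset.sum_congr rfl fun d _ => P_congr μ fun x => ?_
        have e : Dd L ((d :: δ).map ((B : ℤ) * ·) ++ E) x =
            Dd L (δ.map ((B : ℤ) * ·) ++ E) x + Dd L (δ.map ((B : ℤ) * ·) ++ E) (x + (B : ℤ) * d) := by
          rw [List.map_cons, List.cons_append]
          rfl
        rw [e, e2_iff hG]
    have s4 : SL (2 * N) bs.length (fun δ => (2 * (B : ℝ)) * ∑ d ∈ Ioo (-((2 * N : ℕ) : ℤ)) ((2 * N : ℕ) : ℤ),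
          μ.P (fun x => Dd L ((d :: δ).map ((B : ℤ) * ·) ++ E) x = 0)) =
        (2 * B) * ∑ d ∈ Ioo (-((2 * N : ℕ) : ℤ)) ((2 * N : ℕ) : ℤ), SL (2 * N) bs.length (fun δ =>
          μ.P (fun x => Dd L ((d :: δ).map ((B : ℤ) * ·) ++ E) x = 0)) := by
      rw [SL_smul]
      congr 1
      exact SL_sum (Ioo (-((2 * N : ℕ) : ℤ)) ((2 * N : ℕ) : ℤ)) (2 * N) bs.length
        (fun d δ => μ.P (fun x => Dd L ((d :: δ).map ((B : ℤ) * ·) ++ E) x = 0))
    refine s1.trans (s2.le.trans ?_)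
    have h0 : (0 : ℝ) ≤ (2 * B) ^ bs.length := by positivity
    refine (mul_le_mul_of_nonneg_left (s3.trans s4.le) h0).trans (le_of_eq ?_)
    rw [pow_succ]
    ring

end ELG
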