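import Pool.Agent.ELG.StA
import Pool.Agent.ELG.Sub
import Pool.Agent.ELG.Fin0

/-!
# ELG-StB: many relations on cubes in windows

PLAN.  `B = ∏_{j < k-1} |h_(k-1) - h_j|` (nonzero by `hh`).  For `δ` of length `k - 1`: `Bm h (k-1) δ = List.zipWith (*) δ bs'` with `bs' = [h_(k-1) - h_(k-2), …, h_(k-1) - h_0]` (induction; the head has index `δ.length`).  So the left side of `many_cubes` is
`SL N k (fun δ => P (Dd L (zipWith (*) δ (1 :: bs')) x = 0))` (`SL` with `k = (k-1) + 1`; exchange of the sums: `SL_sum`).  `sub_aux` (`E = []`), then `win` (`s = k`): the mean of `Ct (fun v => L (x + B v)) (8kN) k` is at least `4kN (2B)^(-k) c₂ ε^(2^k) N^k`.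
-/

set_option autoImplicit false

namespace ELG

open Finset

/-- multipliers of `Bm` -/
private def stbMl (h : ℕ → ℤ) (i : ℕ) : ℕ → List ℤ
  | 0 => []
  | n + 1 => (h i - h n) :: stbMl h i n

private theorem stb_length (h : ℕ → ℤ) (i n : ℕ) : (stbMl h i n).length = n := by
  induction n with
  | zero => rfl
  | succ n ih => simp only [stbMl, List.length_cons, ih]

private theorem stb_mem (h : ℕ → ℤ) (i n : ℕ) {b : ℤ} (hb : b ∈ stbMl h i n) :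
    ∃ j < n, b = h i - h j := by
  induction n with
  | zero => simp [stbMl] at hb
  | succ n ih =>
    simp only [stbMl, List.mem_cons] at hb
    rcases hb with hb | hb
    · exact ⟨n, by omega, hb⟩
    · obtain ⟨j, hj, e⟩ := ih hb
      exact ⟨j, by omega, e⟩

private theorem stb_Bm (h : ℕ → ℤ) (i : ℕ) (δ : List ℤ) :
    Bm h i δ = List.zipWith (· * ·) δ (stbMl h i δ.length) := by
  induction δ with
  | nil => rfl
  | cons d δ ih =>
    simp only [Bm, List.length_cons, stbMl, List.zipWith_cons_cons]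
    rw [ih]

theorem many_window (k : ℕ) (hk : 1 ≤ k) (h : ℕ → ℕ) (hh : ∀ i < k, ∀ j < k, h i = h j → i = j) :
    ∃ c₃ : ℝ, 0 < c₃ ∧ ∃ B : ℕ, 1 ≤ B ∧ ∀ (μ : LMn) (G : Type) [AddCommGroup G] [Fintype G], E2 G → ∀ L : ℤ → G, CA L →
      ∀ (g : G) (ε : ℝ), 0 < ε → ε ≤ μ.P (fun n => ∑ i ∈ range k, L (n + h i) = g) → ∀ M₀ : ℕ, ∃ M ≥ M₀, 1 ≤ M ∧
        c₃ * ε ^ (2 ^ k) ≤ μ.E (fun x => Ct (fun v => L (x + B * v)) M k / M ^ (k + 1)) := by
  obtain ⟨c₂, hc₂, hmc⟩ := many_cubes k hk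
  obtain ⟨r, rfl⟩ : ∃ r, k = r + 1 := ⟨k - 1, by omega⟩
  obtain ⟨hz, hhz⟩ : ∃ hz : ℕ → ℤ, hz = fun i => (h i : ℤ) := ⟨_, rfl⟩
  obtain ⟨B, hBdef⟩ : ∃ B : ℕ, B = ∏ j ∈ range r, (hz r - hz j).natAbs := ⟨_, rfl⟩
  have hne : ∀ j < r, hz r - hz j ≠ 0 := by
    intro j hj h0
    rw [hhz] at h0
    have h1 : h r = h j := by
      have : (h r : ℤ) = h j := by linarith
      exact_mod_cast this
    have := hh r (by omega) j (by omega) h1
    omega
  have hB1 : 0 < B := by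
    rw [hBdef]
    refine Finset.prod_pos fun j hj => ?_
    exact Int.natAbs_pos.2 (hne j (Finset.mem_range.1 hj))
  have hBr : (0 : ℝ) < B := by exact_mod_cast hB1
  obtain ⟨bs, hbs⟩ : ∃ bs : List ℤ, bs = 1 :: stbMl hz r r := ⟨_, rfl⟩
  have hlen : bs.length = r + 1 := by rw [hbs, List.length_cons, stb_length]
  have hb : ∀ b ∈ bs, b ≠ 0 ∧ b ∣ (B : ℤ) := by
    intro b hb
    rw [hbs, List.mem_cons] at hb
    rcases hb with rfl | hb
    · exact ⟨one_ne_zero, one_dvd _⟩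
    · obtain ⟨j, hj, rfl⟩ := stb_mem hz r r hb
      refine ⟨hne j hj, ?_⟩
      rw [← Int.natAbs_dvd, Int.natCast_dvd_natCast, hBdef]
      exact Finset.dvd_prod_of_mem _ (Finset.mem_range.2 hj)
  refine ⟨4 * ((r + 1 : ℕ) : ℝ) * c₂ / ((2 * (B : ℝ)) ^ (r + 1) * (8 * ((r + 1 : ℕ) : ℝ)) ^ (r + 1 + 1)),
    by positivity, B, hB1, ?_⟩
  intro μ G _ _ hG L hL g ε hε hP M₀
  obtain ⟨N, hN, hcub⟩ := hmc μ G hG L hL h g ε hε hP (max M₀ 1)
  have hN1 : 1 ≤ N := le_trans (le_max_right _ _) hN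
  have hNM : M₀ ≤ N := le_trans (le_max_left _ _) hN
  have hNr : (0 : ℝ) < N := by exact_mod_cast hN1
  refine ⟨8 * (r + 1) * N, ?_, ?_, ?_⟩
  · have : N ≤ 8 * (r + 1) * N := Nat.le_mul_of_pos_left N (by positivity)
    exact hNM.trans this
  · have : N ≤ 8 * (r + 1) * N := Nat.le_mul_of_pos_left N (by positivity)
    exact hN1.trans this
  have h1 : SL N (r + 1 - 1) (fun δ =>
      ∑ d ∈ Ioo (-(N : ℤ)) N, μ.P (fun x => Dd L (d :: Bm (fun i => (h i : ℤ)) (r + 1 - 1) δ) x = 0)) =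
      SL N bs.length (fun δ => μ.P (fun x => Dd L (List.zipWith (· * ·) δ bs ++ []) x = 0)) := by
    rw [hlen, Nat.add_sub_cancel, SL_sum]
    simp only [SL]
    refine Finset.sum_congr rfl fun d _ => ?_
    refine SL_congr fun δ hδ _ => ?_
    rw [← hhz, stb_Bm, hδ, hbs, List.zipWith_cons_cons, List.append_nil, mul_one]
  have h2 := sub_aux μ.toMn hG L hB1 hN1 bs hb []
  rw [h1] at hcub
  have h3 := hcub.trans h2
  simp only [List.append_nil, hlen] at h3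
  have h4 := win μ.toMn L (B : ℤ) hN1 (by omega : 1 ≤ r + 1)
  obtain ⟨S, hS⟩ : ∃ S : ℝ, S = SL (2 * N) (r + 1)
    (fun δ => μ.P (fun x => Dd L (δ.map ((B : ℤ) * ·)) x = 0)) := ⟨_, rfl⟩
  rw [← hS] at h3 h4
  have h5 : μ.E (fun x => Ct (fun v => L (x + (B : ℤ) * v)) (8 * (r + 1) * N) (r + 1) /
      ((8 * (r + 1) * N : ℕ) : ℝ) ^ (r + 1 + 1)) =
      1 / ((8 * (r + 1) * N : ℕ) : ℝ) ^ (r + 1 + 1) *
        μ.E (fun x => Ct (fun v => L (x + (B : ℤ) * v)) (8 * (r + 1) * N) (r + 1)) := by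
    rw [← μ.smul _ _ (Bd_Ct L (B : ℤ) _ _)]
    congr 1
    funext x
    ring
  rw [h5]
  have hM : ((8 * (r + 1) * N : ℕ) : ℝ) = 8 * ((r + 1 : ℕ) : ℝ) * N := by push_cast; ring
  rw [hM]
  have hr0 : (0 : ℝ) < ((r + 1 : ℕ) : ℝ) := by positivity
  obtain ⟨R, hR⟩ : ∃ R : ℝ, R = ((r + 1 : ℕ) : ℝ) := ⟨_, rfl⟩
  rw [← hR] at hr0 h4 ⊢
  obtain ⟨X, hX⟩ : ∃ X : ℝ, X = ε ^ (2 ^ (r + 1)) := ⟨_, rfl⟩
  rw [← hX] at h3 ⊢
  refine le_trans ?_ (mul_le_mul_of_nonneg_left h4 (by positivity))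
  have h6 : c₂ * X * (N : ℝ) ^ (r + 1) / (2 * (B : ℝ)) ^ (r + 1) ≤ S := by
    rw [div_le_iff₀ (by positivity)]
    linarith
  calc 4 * R * c₂ / ((2 * (B : ℝ)) ^ (r + 1) * (8 * R) ^ (r + 1 + 1)) * X
      = 1 / (8 * R * N) ^ (r + 1 + 1) *
        (4 * R * N * (c₂ * X * (N : ℝ) ^ (r + 1) / (2 * (B : ℝ)) ^ (r + 1))) := by
        rw [mul_pow (8 * R) (N : ℝ), pow_succ (N : ℝ) (r + 1)]
        field_simp
    _ ≤ _ := by
        refine mul_le_mul_of_nonneg_left ?_ (by positivity)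
        exact mul_le_mul_of_nonneg_left h6 (by positivity)

end ELG
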