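import Pool.Agent.ELG.Lst

/-!
# ELG-SubR: collisions along multiples

PLAN.  `S(N) = ∑_{|d| < N} P (φ x = φ (x + d b))`.  (i) `N S(N) ≤ E ∑_{j, j' < 2N} 1_{φ (x + j b) = φ (x + j' b)}` (`∑_{j,j' < 2N} = ∑_{|d| < 2N} (2N - |d|) P(..)`, shift invariance; terms with `|d| < N` have coefficient `> N`).
(ii) for every `x`: `∑_{j,j'} 1_{φ_j = φ_j'} ≤ q ∑_{j ≡ j' mod q} 1_{φ_j = φ_j'}`: for every value `v` with `n_(r,v)` indices in the class `r`: `(∑_r n_(r,v))² ≤ q ∑_r n_(r,v)²`.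
(iii) `E ∑_{j ≡ j'} ≤ 2N ∑_{|d| < 2N, q ∣ d} P (φ x = φ (x + d b)) ≤ 2N ∑_{|d'| < 2N} P (φ x = φ (x + d' q b))`.
-/

set_option autoImplicit false

namespace ELG

open Finset

private theorem sr_gram {β : Type} [Fintype β] [DecidableEq β] (g : ℕ → β) (J : Finset ℕ) :
    ∑ j ∈ J, ∑ j' ∈ J, (if g j = g j' then (1 : ℝ) else 0) =
      ∑ v, (∑ j ∈ J, if g j = v then (1 : ℝ) else 0) ^ 2 := by
  have h2 : ∀ j j' : ℕ, (if g j = g j' then (1 : ℝ) else 0) =
      ∑ v, (if g j = v then (1 : ℝ) else 0) * (if g j' = v then (1 : ℝ) else 0) := by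
    intro j j'
    have h3 : ∀ v : β, (if g j = v then (1 : ℝ) else 0) * (if g j' = v then (1 : ℝ) else 0) =
        if g j = v then (if g j' = v then (1 : ℝ) else 0) else 0 := by
      intro v
      split_ifs <;> simp
    rw [sum_congr rfl fun v _ => h3 v, sum_ite_eq, if_pos (mem_univ _)]
    by_cases h : g j = g j'
    · rw [if_pos h, if_pos h.symm]
    · rw [if_neg h, if_neg (fun h' => h h'.symm)]
  calc ∑ j ∈ J, ∑ j' ∈ J, (if g j = g j' then (1 : ℝ) else 0)
      = ∑ j ∈ J, ∑ j' ∈ J, ∑ v, (if g j = v then (1 : ℝ) else 0) *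
          (if g j' = v then (1 : ℝ) else 0) :=
        sum_congr rfl fun j _ => sum_congr rfl fun j' _ => h2 j j'
    _ = ∑ j ∈ J, ∑ v, ∑ j' ∈ J, (if g j = v then (1 : ℝ) else 0) *
          (if g j' = v then (1 : ℝ) else 0) := sum_congr rfl fun j _ => sum_comm
    _ = ∑ v, ∑ j ∈ J, ∑ j' ∈ J, (if g j = v then (1 : ℝ) else 0) *
          (if g j' = v then (1 : ℝ) else 0) := sum_comm
    _ = _ := sum_congr rfl fun v _ => by rw [sq, sum_mul_sum]

private theorem sr_point {G : Type} [Finite G] [DecidableEq G] (f : ℕ → G) {q : ℕ} (hq : 1 ≤ q) (J : Finset ℕ) :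
    ∑ j ∈ J, ∑ j' ∈ J, (if f j = f j' then (1 : ℝ) else 0) ≤
      q * ∑ j ∈ J, ∑ j' ∈ J, (if j % q = j' % q then (if f j = f j' then (1 : ℝ) else 0) else 0) := by
  have : Fintype G := Fintype.ofFinite G
  set g : ℕ → Fin q × G := fun j => (⟨j % q, Nat.mod_lt _ hq⟩, f j) with hg
  have h1 : ∑ j ∈ J, ∑ j' ∈ J,
      (if j % q = j' % q then (if f j = f j' then (1 : ℝ) else 0) else 0) =
      ∑ j ∈ J, ∑ j' ∈ J, (if g j = g j' then (1 : ℝ) else 0) := by
    refine sum_congr rfl fun j _ => sum_congr rfl fun j' _ => ?_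
    have h2 : g j = g j' ↔ (j % q = j' % q ∧ f j = f j') := by
      simp only [hg, Prod.mk.injEq, Fin.mk.injEq]
    by_cases h3 : j % q = j' % q
    · by_cases h4 : f j = f j'
      · rw [if_pos h3, if_pos h4, if_pos (h2.2 ⟨h3, h4⟩)]
      · rw [if_pos h3, if_neg h4, if_neg (fun h => h4 (h2.1 h).2)]
    · rw [if_neg h3, if_neg (fun h => h3 (h2.1 h).1)]
  rw [h1, sr_gram f J, sr_gram g J, Fintype.sum_prod_type, sum_comm, mul_sum]
  refine sum_le_sum fun v _ => ?_
  have h2 : (∑ j ∈ J, if f j = v then (1 : ℝ) else 0) =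
      ∑ r : Fin q, ∑ j ∈ J, if g j = (r, v) then (1 : ℝ) else 0 := by
    rw [sum_comm]
    refine sum_congr rfl fun j _ => ?_
    have h3 : ∀ r : Fin q, (if g j = (r, v) then (1 : ℝ) else 0) =
        if (⟨j % q, Nat.mod_lt _ hq⟩ : Fin q) = r then (if f j = v then (1 : ℝ) else 0) else 0 := by
      intro r
      have h4 : g j = (r, v) ↔ ((⟨j % q, Nat.mod_lt _ hq⟩ : Fin q) = r ∧ f j = v) := by
        simp only [hg, Prod.mk.injEq]
      by_cases h5 : (⟨j % q, Nat.mod_lt _ hq⟩ : Fin q) = r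
      · by_cases h6 : f j = v
        · rw [if_pos (h4.2 ⟨h5, h6⟩), if_pos h5, if_pos h6]
        · rw [if_neg (fun h => h6 (h4.1 h).2), if_pos h5, if_neg h6]
      · rw [if_neg (fun h => h5 (h4.1 h).1), if_neg h5]
    rw [sum_congr rfl fun r _ => h3 r, sum_ite_eq, if_pos (mem_univ _)]
  rw [h2]
  have h3 := sq_sum_le_card_mul_sum_sq (s := (univ : Finset (Fin q)))
    (f := fun r => ∑ j ∈ J, if g j = (r, v) then (1 : ℝ) else 0)
  rw [card_univ, Fintype.card_fin] at h3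
  exact h3

private theorem sr_shift (μ : Mn) {G : Type} (φ : ℤ → G) (b j j' : ℤ) :
    μ.P (fun x => φ (x + j * b) = φ (x + j' * b)) = μ.P (fun x => φ x = φ (x + (j' - j) * b)) := by
  rw [← μ.P_shift (fun x => φ x = φ (x + (j' - j) * b)) (j * b)]
  have : (fun x => φ (x + j * b) = φ (x + j' * b)) =
      fun n => φ (n + j * b) = φ (n + j * b + (j' - j) * b) := by
    funext x
    rw [show x + j * b + (j' - j) * b = x + j' * b by ring]
  rw [this]

private theorem sr_low {N : ℕ} (p : ℤ → ℝ) (hp : ∀ d, 0 ≤ p d) :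
    N * ∑ d ∈ Ioo (-(N : ℤ)) N, p d ≤
      ∑ j ∈ range (2 * N), ∑ j' ∈ range (2 * N), p ((j' : ℤ) - j) := by
  rw [← sum_product' (range (2 * N)) (range (2 * N)) (fun j j' => p ((j' : ℤ) - j))]
  set e : ℕ × ℤ → ℕ × ℕ := fun x => if 0 ≤ x.2 then (x.1, ((x.1 : ℤ) + x.2).toNat)
    else (x.1 + N, ((x.1 : ℤ) + N + x.2).toNat) with he
  have h1 : (N : ℝ) * ∑ d ∈ Ioo (-(N : ℤ)) N, p d =
      ∑ x ∈ range N ×ˢ Ioo (-(N : ℤ)) N, p (((e x).2 : ℤ) - (e x).1) := by
    have h2 : ∀ x ∈ range N ×ˢ Ioo (-(N : ℤ)) N, p (((e x).2 : ℤ) - (e x).1) = p x.2 := by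
      rintro ⟨j, d⟩ hx
      rw [mem_product, mem_range, mem_Ioo] at hx
      simp only at hx
      simp only [he]
      by_cases hd : 0 ≤ d
      · rw [if_pos hd]
        congr 1
        simp only
        omega
      · rw [if_neg hd]
        congr 1
        simp only
        omega
    rw [sum_congr rfl h2, sum_product]
    simp only [sum_const, card_range, nsmul_eq_mul]
  have hinj : Set.InjOn e (range N ×ˢ Ioo (-(N : ℤ)) N : Finset (ℕ × ℤ)) := by
    rintro ⟨j, d⟩ hx ⟨j', d'⟩ hx' h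
    rw [mem_coe, mem_product, mem_range, mem_Ioo] at hx hx'
    simp only at hx hx'
    simp only [he] at h
    rw [Prod.mk.injEq]
    by_cases hd : 0 ≤ d
    · by_cases hd' : 0 ≤ d'
      · rw [if_pos hd, if_pos hd', Prod.mk.injEq] at h
        omega
      · rw [if_pos hd, if_neg hd', Prod.mk.injEq] at h
        omega
    · by_cases hd' : 0 ≤ d'
      · rw [if_neg hd, if_pos hd', Prod.mk.injEq] at h
        omega
      · rw [if_neg hd, if_neg hd', Prod.mk.injEq] at h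
        omega
  rw [h1, ← sum_image (s := range N ×ˢ Ioo (-(N : ℤ)) N) (g := e)
    (f := fun y : ℕ × ℕ => p ((y.2 : ℤ) - y.1)) hinj]
  refine sum_le_sum_of_subset_of_nonneg ?_ fun _ _ _ => hp _
  intro y hy
  rw [mem_image] at hy
  obtain ⟨⟨j, d⟩, hx, rfl⟩ := hy
  rw [mem_product, mem_range, mem_Ioo] at hx
  simp only at hx
  rw [mem_product, mem_range, mem_range]
  simp only [he]
  by_cases hd : 0 ≤ d
  · rw [if_pos hd]
    simp only
    omega
  · rw [if_neg hd]
    simp only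
    omega

private theorem sr_up {M q : ℕ} (hq : 1 ≤ q) (p : ℤ → ℝ) (hp : ∀ d, 0 ≤ p d) :
    ∑ j ∈ range M, ∑ j' ∈ range M, (if j % q = j' % q then p ((j' : ℤ) - j) else 0) ≤
      M * ∑ d ∈ Ioo (-(M : ℤ)) M, p (q * d) := by
  have h1 : ∀ j ∈ range M, ∑ j' ∈ range M, (if j % q = j' % q then p ((j' : ℤ) - j) else 0) ≤
      ∑ d ∈ Ioo (-(M : ℤ)) M, p (q * d) := by
    intro j hj
    rw [mem_range] at hj
    rw [← sum_filter]
    set e : ℕ → ℤ := fun j' => ((j' : ℤ) - j) / q with he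
    have hqz : (0 : ℤ) < q := by exact_mod_cast hq
    have hdiv : ∀ j' : ℕ, j % q = j' % q → (q : ℤ) * (((j' : ℤ) - j) / q) = (j' : ℤ) - j := by
      intro j' h
      refine Int.mul_ediv_cancel' ?_
      have h2 : (q : ℤ) ∣ (j' : ℤ) - j := by
        have h3 : (j : ℤ) ≡ (j' : ℤ) [ZMOD (q : ℤ)] := by
          have : j ≡ j' [MOD q] := h
          exact (Int.natCast_modEq_iff).2 this
        exact h3.dvd
      exact h2
    have h2 : ∑ j' ∈ range M with j % q = j' % q, p ((j' : ℤ) - j) =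
        ∑ j' ∈ range M with j % q = j' % q, p (q * e j') := by
      refine sum_congr rfl fun j' hj' => ?_
      rw [mem_filter] at hj'
      simp only [he]
      rw [hdiv j' hj'.2]
    have hinj : Set.InjOn e ((range M).filter fun j' => j % q = j' % q) := by
      intro x hx y hy h
      rw [mem_coe, mem_filter] at hx hy
      simp only [he] at h
      have h3 := hdiv x hx.2
      have h4 := hdiv y hy.2
      rw [h, h4] at h3
      omega
    rw [h2, ← sum_image (g := e) (f := fun d : ℤ => p (q * d)) hinj]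
    refine sum_le_sum_of_subset_of_nonneg ?_ fun _ _ _ => hp _
    intro d hd
    rw [mem_image] at hd
    obtain ⟨j', hj', rfl⟩ := hd
    rw [mem_filter, mem_range] at hj'
    rw [mem_Ioo]
    have h3 := hdiv j' hj'.2
    simp only [he]
    set t := ((j' : ℤ) - j) / q
    constructor
    · by_contra hc
      have h4 : t ≤ -(M : ℤ) := by omega
      have h5 : (q : ℤ) * t ≤ 1 * t := by
        have : (1 : ℤ) ≤ q := by exact_mod_cast hq
        nlinarith
      omega
    · by_contra hc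
      have h4 : (M : ℤ) ≤ t := by omega
      have h5 : 1 * t ≤ (q : ℤ) * t := by
        have : (1 : ℤ) ≤ q := by exact_mod_cast hq
        nlinarith
      omega
  calc _ ≤ ∑ j ∈ range M, ∑ d ∈ Ioo (-(M : ℤ)) M, p (q * d) := sum_le_sum h1
    _ = _ := by rw [sum_const, card_range, nsmul_eq_mul]

theorem sub_res (μ : Mn) {G : Type} [Finite G] (φ : ℤ → G) (b : ℤ) {N q : ℕ} (hN : 1 ≤ N) (hq : 1 ≤ q) :
    ∑ d ∈ Ioo (-(N : ℤ)) N, μ.P (fun x => φ x = φ (x + d * b)) ≤
      2 * q * ∑ d ∈ Ioo (-(2 * N : ℤ)) (2 * N), μ.P (fun x => φ x = φ (x + d * (q * b))) := by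
  classical
  set p : ℤ → ℝ := fun d => μ.P (fun x => φ x = φ (x + d * b)) with hp
  have hp0 : ∀ d, 0 ≤ p d := fun d => μ.P_nonneg _
  have hN' : (0 : ℝ) < N := by exact_mod_cast hN
  have h1 := sr_low (N := N) p hp0
  have hP : ∀ j j' : ℕ, p ((j' : ℤ) - j) =
      μ.E (fun x => if φ (x + (j : ℤ) * b) = φ (x + (j' : ℤ) * b) then 1 else 0) := by
    intro j j'
    simp only [hp]
    rw [← sr_shift μ φ b j j']
    unfold Mn.P
    congr 1
  have hBd : ∀ j j' : ℕ, Bd (fun x => if φ (x + (j : ℤ) * b) = φ (x + (j' : ℤ) * b)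
      then (1 : ℝ) else 0) := fun j j' => Bd.ite _
  have hBd' : ∀ j j' : ℕ, Bd (fun x => if j % q = j' % q then
      (if φ (x + (j : ℤ) * b) = φ (x + (j' : ℤ) * b) then (1 : ℝ) else 0) else 0) := by
    intro j j'
    by_cases h : j % q = j' % q
    · simp only [if_pos h]
      exact hBd j j'
    · simp only [if_neg h]
      exact Bd.const 0
  have h2 : ∑ j ∈ range (2 * N), ∑ j' ∈ range (2 * N), p ((j' : ℤ) - j) =
      μ.E (fun x => ∑ j ∈ range (2 * N), ∑ j' ∈ range (2 * N),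
        if φ (x + (j : ℤ) * b) = φ (x + (j' : ℤ) * b) then (1 : ℝ) else 0) := by
    rw [μ.E_sum _ _ fun j _ => Bd.sum fun j' _ => hBd j j']
    refine sum_congr rfl fun j _ => ?_
    rw [μ.E_sum _ _ fun j' _ => hBd j j']
    exact sum_congr rfl fun j' _ => hP j j'
  have h3 : ∑ j ∈ range (2 * N), ∑ j' ∈ range (2 * N),
      (if j % q = j' % q then p ((j' : ℤ) - j) else 0) =
      μ.E (fun x => ∑ j ∈ range (2 * N), ∑ j' ∈ range (2 * N), if j % q = j' % q then
        (if φ (x + (j : ℤ) * b) = φ (x + (j' : ℤ) * b) then (1 : ℝ) else 0) else 0) := by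
    rw [μ.E_sum _ _ fun j _ => Bd.sum fun j' _ => hBd' j j']
    refine sum_congr rfl fun j _ => ?_
    rw [μ.E_sum _ _ fun j' _ => hBd' j j']
    refine sum_congr rfl fun j' _ => ?_
    by_cases h : j % q = j' % q
    · simp only [if_pos h]
      exact hP j j'
    · simp only [if_neg h]
      rw [μ.E_const]
  have h4 : μ.E (fun x => ∑ j ∈ range (2 * N), ∑ j' ∈ range (2 * N),
        if φ (x + (j : ℤ) * b) = φ (x + (j' : ℤ) * b) then (1 : ℝ) else 0) ≤
      q * μ.E (fun x => ∑ j ∈ range (2 * N), ∑ j' ∈ range (2 * N), if j % q = j' % q then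
        (if φ (x + (j : ℤ) * b) = φ (x + (j' : ℤ) * b) then (1 : ℝ) else 0) else 0) := by
    have hb1 : Bd (fun x => ∑ j ∈ range (2 * N), ∑ j' ∈ range (2 * N),
        if φ (x + (j : ℤ) * b) = φ (x + (j' : ℤ) * b) then (1 : ℝ) else 0) :=
      Bd.sum fun j _ => Bd.sum fun j' _ => hBd j j'
    have hb2 : Bd (fun x => ∑ j ∈ range (2 * N), ∑ j' ∈ range (2 * N), if j % q = j' % q then
        (if φ (x + (j : ℤ) * b) = φ (x + (j' : ℤ) * b) then (1 : ℝ) else 0) else 0) :=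
      Bd.sum fun j _ => Bd.sum fun j' _ => hBd' j j'
    rw [← μ.smul q _ hb2]
    refine μ.E_mono hb1 (hb2.smul _) fun x => ?_
    have h5 := sr_point (fun j : ℕ => φ (x + (j : ℤ) * b)) hq (range (2 * N))
    refine le_trans (le_of_eq ?_) (h5.trans (le_of_eq ?_))
    · exact sum_congr rfl fun j _ => sum_congr rfl fun j' _ => by split_ifs <;> rfl
    · congr 1
  have h5 := sr_up (M := 2 * N) hq p hp0
  have h6 : ∑ d ∈ Ioo (-((2 * N : ℕ) : ℤ)) ((2 * N : ℕ) : ℤ), p (q * d) =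
      ∑ d ∈ Ioo (-(2 * N : ℤ)) (2 * N), μ.P (fun x => φ x = φ (x + d * (q * b))) := by
    push_cast
    refine sum_congr rfl fun d _ => ?_
    simp only [hp]
    have : (fun x => φ x = φ (x + ↑q * d * b)) = fun x => φ x = φ (x + d * (↑q * b)) := by
      funext x
      rw [show x + ↑q * d * b = x + d * (↑q * b) by ring]
    rw [this]
  rw [h6] at h5
  rw [← h3, ← h2] at h4
  push_cast at h5
  have hq' : (0 : ℝ) ≤ q := Nat.cast_nonneg q
  have h7 := mul_le_mul_of_nonneg_left h5 hq'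
  have h8 : (N : ℝ) * ∑ d ∈ Ioo (-(N : ℤ)) N, p d ≤ N * (2 * q *
      ∑ d ∈ Ioo (-(2 * N : ℤ)) (2 * N), μ.P (fun x => φ x = φ (x + d * (q * b)))) := by
    calc _ ≤ _ := h1
      _ ≤ _ := h4
      _ ≤ _ := h7
      _ = _ := by ring
  exact le_of_mul_le_mul_left h8 hN'

end ELG
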