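import Pool.Agent.ELG.Xw

/-!
# ELG-SumI: the informations of the primes of a block add up

Induction on a subset of the block: the information of one more prime `p` given `n mod Q` is at most the one given `n mod Q'` for `Q ∣ Q'`
(residues are uniform and independent, so this is `Hc_mono` for `n mod p`), and `n mod Q' p` is the pair of `n mod p` and `n mod Q'`.
-/

set_option autoImplicit false

namespace ELG

open Finset

private theorem si_H (μ : Mn) (q : ℕ) [NeZero q] : μ.H (Yr q) = Real.log q := by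
  have hq : (q : ℝ) ≠ 0 := Nat.cast_ne_zero.2 (NeZero.ne q)
  have h1 : ∀ a : ZMod q, μ.P (fun n => Yr q n = a) = 1 / q := fun a => μ.P_res q a
  unfold Mn.H
  simp only [h1]
  rw [Finset.sum_const, Finset.card_univ, ZMod.card, nsmul_eq_mul, Real.negMulLog, one_div,
    Real.log_inv]
  field_simp

private theorem si_pair (μ : Mn) {a b : ℕ} [NeZero a] [NeZero b] (h : Nat.Coprime a b) :
    μ.H (fun n => (Yr a n, Yr b n)) = Real.log a + Real.log b := by
  haveI : NeZero (a * b) := ⟨Nat.mul_ne_zero (NeZero.ne a) (NeZero.ne b)⟩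
  have e1 : (fun n => (Yr a n, Yr b n)) = fun n => ZMod.chineseRemainder h (Yr (a * b) n) := by
    funext n
    unfold Yr
    rw [map_intCast]
    rfl
  rw [e1, μ.H_inj (Yr (a * b)) (ZMod.chineseRemainder h).injective, si_H, Nat.cast_mul,
    Real.log_mul (Nat.cast_ne_zero.2 (NeZero.ne a)) (Nat.cast_ne_zero.2 (NeZero.ne b))]

private theorem si_crt (μ : Mn) {α : Type} [Fintype α] (X : ℤ → α) {a b : ℕ} [NeZero a] [NeZero b]
    [NeZero (a * b)] (h : Nat.Coprime a b) :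
    μ.Hc X (Yr (a * b)) = μ.Hc X (fun n => (Yr a n, Yr b n)) := by
  have e1 : (fun n => (Yr a n, Yr b n)) = fun n => ZMod.chineseRemainder h (Yr (a * b) n) := by
    funext n
    unfold Yr
    rw [map_intCast]
    rfl
  rw [e1]
  exact (μ.Hc_inj X (Yr (a * b)) (f := fun x => x) (fun _ _ h => h)
    (ZMod.chineseRemainder h).injective).symm

/-- `I (X; n mod p | n mod Q) ≤ I (X; n mod p | n mod Q')` for `Q ∣ Q'`, `p` coprime to `Q'`. -/
private theorem si_step (μ : Mn) {α : Type} [Fintype α] (X : ℤ → α) {p Q Q' : ℕ} [NeZero p] [NeZero Q]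
    [NeZero Q'] (hd : Q ∣ Q') (hc : Nat.Coprime p Q') :
    μ.I X (Yr p) (Yr Q) ≤ μ.I X (Yr p) (Yr Q') := by
  have hcQ : Nat.Coprime p Q := Nat.Coprime.coprime_dvd_right hd hc
  have k1 := si_pair μ hcQ
  have k2 := si_pair μ hc
  have k3 := si_H μ Q
  have k4 := si_H μ Q'
  -- permutations
  have p1 : μ.H (fun n => (X n, (Yr p n, Yr Q n))) = μ.H (fun n => (Yr p n, (X n, Yr Q n))) :=
    μ.H_inj (fun n => (Yr p n, (X n, Yr Q n))) (f := fun t => (t.2.1, (t.1, t.2.2)))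
      (by rintro ⟨a, b, c⟩ ⟨a', b', c'⟩ h; simp only [Prod.mk.injEq] at h ⊢; tauto)
  have p2 : μ.H (fun n => (X n, (Yr p n, Yr Q' n))) = μ.H (fun n => (Yr p n, (X n, Yr Q' n))) :=
    μ.H_inj (fun n => (Yr p n, (X n, Yr Q' n))) (f := fun t => (t.2.1, (t.1, t.2.2)))
      (by rintro ⟨a, b, c⟩ ⟨a', b', c'⟩ h; simp only [Prod.mk.injEq] at h ⊢; tauto)
  -- conditioning
  have m1 := μ.Hc_mono (Yr p) (Yr Q') (fun n => (X n, Yr Q n))
  have m2 : μ.Hc (Yr p) (fun n => (Yr Q' n, (X n, Yr Q n))) = μ.Hc (Yr p) (fun n => (X n, Yr Q' n)) := by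
    have e1 : (fun n => (Yr Q' n, (X n, Yr Q n))) =
        fun n => (fun t : α × ZMod Q' => (t.2, (t.1, ZMod.castHom hd (ZMod Q) t.2))) (X n, Yr Q' n) := by
      funext n
      unfold Yr
      simp only [map_intCast]
    rw [e1]
    exact μ.Hc_inj (Yr p) (fun n => (X n, Yr Q' n)) (f := fun x => x) (fun _ _ h => h)
      (g := fun t : α × ZMod Q' => (t.2, (t.1, ZMod.castHom hd (ZMod Q) t.2)))
      (by rintro ⟨a, b⟩ ⟨a', b'⟩ h; simp only [Prod.mk.injEq] at h ⊢; tauto)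
  rw [m2] at m1
  unfold Mn.I
  unfold Mn.Hc at m1 ⊢
  linarith

/-- `Hc X (n mod q)` as a function of `q`. -/
private noncomputable def siF (μ : Mn) {α : Type} [Fintype α] (X : ℤ → α) (q : ℕ) : ℝ :=
  if h : q = 0 then 0 else haveI : NeZero q := ⟨h⟩; μ.Hc X (Yr q)

private theorem siF_eq (μ : Mn) {α : Type} [Fintype α] (X : ℤ → α) (q : ℕ) [hq : NeZero q] :
    siF μ X q = μ.Hc X (Yr q) := by
  unfold siF
  rw [dif_neg hq.out]

theorem sum_I_le (μ : Mn) {α : Type} [Fintype α] (X : ℤ → α) (l : ℕ)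
    (J : ℕ → ℝ) (hJ : ∀ p ∈ Pb l, ∀ _ : NeZero p, J p = μ.I X (Yr p) (Yr (Qp l))) :
    ∑ p ∈ Pb l, J p ≤ μ.Hc X (Yr (Qp l)) - μ.Hc X (Yr (Qp (l + 1))) := by
  classical
  have hpr : ∀ p ∈ Pb l, Nat.Prime p := fun p hp => (Finset.mem_filter.1 hp).2
  have key : ∀ S : Finset ℕ, S ⊆ Pb l →
      ∑ p ∈ S, J p ≤ siF μ X (Qp l) - siF μ X (Qp l * ∏ p ∈ S, p) := by
    intro S
    induction S using Finset.induction_on with
    | empty => intro _; simp
    | insert p S hpS ih =>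
      intro hS
      have hpP : p ∈ Pb l := hS (Finset.mem_insert_self _ _)
      have hS' : S ⊆ Pb l := fun x hx => hS (Finset.mem_insert_of_mem hx)
      have ih' := ih hS'
      haveI np : NeZero p := ⟨(hpr p hpP).ne_zero⟩
      haveI nS : NeZero (∏ q ∈ S, q) := ⟨Finset.prod_ne_zero_iff.2 fun q hq => (hpr q (hS' hq)).ne_zero⟩
      haveI nQ : NeZero (Qp l * ∏ q ∈ S, q) := ⟨Nat.mul_ne_zero (NeZero.ne _) (NeZero.ne _)⟩
      haveI nQp : NeZero (p * (Qp l * ∏ q ∈ S, q)) := ⟨Nat.mul_ne_zero (NeZero.ne _) (NeZero.ne _)⟩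
      have hcop : Nat.Coprime p (Qp l * ∏ q ∈ S, q) := by
        refine Nat.Coprime.mul_right (coprime_Qp hpP) ?_
        refine Nat.Coprime.prod_right fun q hq => ?_
        refine (Nat.coprime_primes (hpr p hpP) (hpr q (hS' hq))).2 ?_
        rintro rfl
        exact hpS hq
      rw [Finset.sum_insert hpS, Finset.prod_insert hpS]
      have e1 : Qp l * (p * ∏ q ∈ S, q) = p * (Qp l * ∏ q ∈ S, q) := by ring
      rw [e1, siF_eq μ X (p * (Qp l * ∏ q ∈ S, q)), si_crt μ X hcop, hJ p hpP np]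
      rw [siF_eq μ X (Qp l * ∏ q ∈ S, q)] at ih'
      have st := si_step μ X (Dvd.intro (∏ q ∈ S, q) rfl : Qp l ∣ Qp l * ∏ q ∈ S, q) hcop
      unfold Mn.I at st
      unfold Mn.I
      linarith
  have h := key (Pb l) (Finset.Subset.refl _)
  rw [← Qp_succ, siF_eq, siF_eq] at h
  exact h

end ELG
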